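import Pool.Agent.T6.H52.LS.Defs1

/-!
Project LS, module ADJ: adjacent triadic intervals of the same level (helper32).
-/

set_option autoImplicit false
open MeasureTheory Filter Topology Metric Set
open scoped ENNReal NNReal

namespace Pool.Agent.T6.H52.LS
namespace ModADJ

noncomputable section

def lam (n : ℕ) (m : ℤ) : ℝ := ∫ x in ((m : ℝ) / 3 ^ n)..(((m : ℝ) + 1) / 3 ^ n), f0 x

def h (u : ℝ) : ℝ := (u * (1 - u)) ^ 4

lemma h_cont : Continuous h := by unfold h; fun_prop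

lemma h_nonneg (u : ℝ) : 0 ≤ h u := by unfold h; positivity

lemma Mc_ge (j : ℤ) : 4 ≤ Mc j := by
  unfold Mc
  have : (0:ℝ) ≤ |(j : ℝ)| := abs_nonneg _
  nlinarith

lemma wj_pos (j : ℤ) : 0 < wj j := by
  unfold wj
  positivity

lemma div_succ (m : ℤ) (n : ℕ) : m / 3 ^ (n + 1) = (m / 3) / 3 ^ n := by
  rw [pow_succ, mul_comm, Int.mul_comm]
  rw [mul_comm, Int.ediv_ediv_of_nonneg (by norm_num)]

lemma not_St_zero (m : ℤ) : ¬ St 0 m := by
  unfold St
  have := Mc_ge (m / 3 ^ 0)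
  simp only [Xv]
  linarith

lemma Xv_succ {n : ℕ} {m : ℤ} (h : ¬ St n (m / 3)) :
    Xv (n + 1) m = Xv n (m / 3) * (if m % 3 = 1 then 241 / 81 else 1 / 81) := by
  unfold St at h
  rw [Xv, div_succ, if_neg h]

lemma anc (n : ℕ) : ∀ m : ℤ, St n m → ∃ n' k : ℕ, n = n' + k ∧ Fs n' (m / 3 ^ k) := by
  induction n with
  | zero => intro m hm; exact absurd hm (not_St_zero m)
  | succ n ih =>
    intro m hm
    by_cases hp : St n (m / 3)
    · obtain ⟨n', k, hn, hF⟩ := ih _ hp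
      refine ⟨n', k + 1, by omega, ?_⟩
      rw [div_succ]
      exact hF
    · exact ⟨n + 1, 0, rfl, by simpa using ⟨hm, hp⟩⟩

/-- the integral over a part of a first stopped interval -/
lemma intF (hPRO : StmPRO) {n : ℕ} {p : ℤ} (hF : Fs n p) {a b : ℝ} (ha : 0 ≤ a) (hab : a ≤ b)
    (hb : b ≤ 1) : ∫ x in (((p : ℝ) + a) / 3 ^ n)..(((p : ℝ) + b) / 3 ^ n), f0 x =
      wj (p / 3 ^ n) * Xv n p / 3 ^ n * (630 * ∫ u in a..b, h u) := by
  have h3 : (3 : ℝ) ^ n ≠ 0 := by positivity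
  have e1 : ∫ u in a..b, f0 ((p : ℝ) / 3 ^ n + u / 3 ^ n) = (3 : ℝ) ^ n •
      ∫ x in ((p : ℝ) / 3 ^ n + a / 3 ^ n)..((p : ℝ) / 3 ^ n + b / 3 ^ n), f0 x :=
    intervalIntegral.integral_comp_add_div (f := f0) h3 _
  have e2 : ∫ u in a..b, f0 ((p : ℝ) / 3 ^ n + u / 3 ^ n) =
      ∫ u in a..b, (wj (p / 3 ^ n) * Xv n p * 630) * h u := by
    rw [intervalIntegral.integral_of_le hab, intervalIntegral.integral_of_le hab,
      integral_Ioc_eq_integral_Ioo, integral_Ioc_eq_integral_Ioo]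
    refine setIntegral_congr_fun measurableSet_Ioo ?_
    intro u hu
    have := (hPRO.1 n p u hF (ha.trans hu.1.le) (hu.2.trans_le hb)).1
    simp only
    rw [← add_div, this]
    unfold h
    ring
  rw [e2, intervalIntegral.integral_const_mul, smul_eq_mul, ← add_div, ← add_div] at e1
  field_simp
  rw [e1, mul_comm]

lemma h_pos_int {a b : ℝ} (ha : 0 ≤ a) (hab : a < b) (hb : b ≤ 1) : 0 < ∫ u in a..b, h u := by
  refine intervalIntegral.intervalIntegral_pos_of_pos_on (h_cont.intervalIntegrable _ _) ?_ hab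
  intro u hu
  unfold h
  have h1 : 0 < u := lt_of_le_of_lt ha hu.1
  have h2 : 0 < 1 - u := by linarith [hu.2]
  positivity

lemma h_refl (a b : ℝ) : ∫ u in a..b, h u = ∫ u in (1 - b)..(1 - a), h u := by
  have := intervalIntegral.integral_comp_sub_left (a := a) (b := b) h 1
  rw [← this]
  congr 1
  ext u
  unfold h
  ring

/-- adjacent intervals in the same stopped interval -/
lemma h_adj {a s : ℝ} (ha : 0 ≤ a) (hs : 0 < s) (hb : a + 2 * s ≤ 1) :
    ∫ u in (a + s)..(a + 2 * s), h u ≤ 512 * ∫ u in a..(a + s), h u := by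
  set B : ℝ := ((a + 2 * s) * (1 - a - s)) ^ 4 with hB
  have hB0 : 0 ≤ B := by positivity
  have h1 : ∫ u in (a + s)..(a + 2 * s), h u ≤ s * B := by
    have : ∫ u in (a + s)..(a + 2 * s), h u ≤ ∫ u in (a + s)..(a + 2 * s), B := by
      refine intervalIntegral.integral_mono_on (by linarith) (h_cont.intervalIntegrable _ _)
        (by simp) ?_
      intro u hu
      unfold h
      rw [hB]
      refine pow_le_pow_left₀ (mul_nonneg (by linarith [hu.1]) (by linarith [hu.2])) ?_ 4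
      exact mul_le_mul hu.2 (by linarith [hu.1]) (by linarith [hu.2]) (by linarith)
    rw [intervalIntegral.integral_const, smul_eq_mul] at this
    refine this.trans_eq ?_
    ring
  have h2 : s / 2 * (B / 256) ≤ ∫ u in (a + s / 2)..(a + s), h u := by
    have : ∫ u in (a + s / 2)..(a + s), B / 256 ≤ ∫ u in (a + s / 2)..(a + s), h u := by
      refine intervalIntegral.integral_mono_on (by linarith) (by simp)
        (h_cont.intervalIntegrable _ _) ?_
      intro u hu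
      unfold h
      have e : B / 256 = ((a + 2 * s) / 4 * (1 - a - s)) ^ 4 := by rw [hB]; ring
      rw [e]
      refine pow_le_pow_left₀ (mul_nonneg (by linarith) (by linarith)) ?_ 4
      exact mul_le_mul (by linarith [hu.1]) (by linarith [hu.2]) (by linarith) (by linarith [hu.1])
    rw [intervalIntegral.integral_const, smul_eq_mul] at this
    refine le_trans (le_of_eq ?_) this
    ring
  have h3 : ∫ u in (a + s / 2)..(a + s), h u ≤ ∫ u in a..(a + s), h u := by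
    have e := intervalIntegral.integral_add_adjacent_intervals
      (h_cont.intervalIntegrable (μ := volume) a (a + s / 2))
      (h_cont.intervalIntegrable (μ := volume) (a + s / 2) (a + s))
    have : 0 ≤ ∫ u in a..(a + s / 2), h u :=
      intervalIntegral.integral_nonneg (by linarith) (fun u _ => h_nonneg u)
    linarith
  nlinarith

lemma h_adj' {a s : ℝ} (ha : 0 ≤ a) (hs : 0 < s) (hb : a + 2 * s ≤ 1) :
    ∫ u in a..(a + s), h u ≤ 512 * ∫ u in (a + s)..(a + 2 * s), h u := by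
  have := h_adj (a := 1 - a - 2 * s) (s := s) (by linarith) hs (by linarith)
  have e1 : 1 - a - 2 * s + 2 * s = 1 - a := by ring
  have e2 : 1 - a - 2 * s + s = 1 - (a + s) := by ring
  have e3 : 1 - (a + 2 * s) = 1 - a - 2 * s := by ring
  rw [e1, e2, ← e3] at this
  rw [h_refl a, h_refl (a + s)]
  exact this

/-- the integral of `630 h` over `[0, s]` -/
lemma h_edge {s : ℝ} (hs : 0 ≤ s) (hs1 : s ≤ 1) : s ^ 5 ≤ 630 * ∫ u in (0:ℝ)..s, h u ∧
    630 * ∫ u in (0:ℝ)..s, h u ≤ 126 * s ^ 5 := by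
  have e : ∫ u in (0:ℝ)..s, h u =
      s ^ 5 / 5 - 4 * s ^ 6 / 6 + 6 * s ^ 7 / 7 - 4 * s ^ 8 / 8 + s ^ 9 / 9 := by
    have hd : ∀ u ∈ uIcc (0:ℝ) s, HasDerivAt (fun u : ℝ =>
        u ^ 5 / 5 - 4 * u ^ 6 / 6 + 6 * u ^ 7 / 7 - 4 * u ^ 8 / 8 + u ^ 9 / 9) (h u) u := by
      intro u _
      have h5 := (hasDerivAt_pow 5 u).div_const 5
      have h6 := ((hasDerivAt_pow 6 u).const_mul 4).div_const 6
      have h7 := ((hasDerivAt_pow 7 u).const_mul 6).div_const 7
      have h8 := ((hasDerivAt_pow 8 u).const_mul 4).div_const 8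
      have h9 := (hasDerivAt_pow 9 u).div_const 9
      refine (((((h5.sub h6).add h7).sub h8).add h9)).congr_deriv ?_
      unfold h
      norm_num
      ring
    rw [intervalIntegral.integral_eq_sub_of_hasDerivAt hd (h_cont.intervalIntegrable _ _)]
    simp
  rw [e]
  have hs5 : 0 ≤ s ^ 5 := by positivity
  have q1 : (0:ℝ) ≤ 120 - 175 * s + 70 * s ^ 2 := by nlinarith [sq_nonneg (s - 5 / 4)]
  constructor
  · have : 0 ≤ s ^ 5 * ((1 - s) * ((1 - s) * (120 - 175 * s + 70 * s ^ 2) + 5)) := by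
      have : 0 ≤ 1 - s := by linarith
      positivity
    nlinarith
  · have : 0 ≤ s ^ 5 * (s * (420 - 540 * s + 315 * s ^ 2 - 70 * s ^ 3)) := by
      have h1 : 0 ≤ 420 - 540 * s + 315 * s ^ 2 - 70 * s ^ 3 := by
        nlinarith [mul_nonneg hs (sub_nonneg.2 hs1), mul_nonneg (mul_nonneg hs hs) (sub_nonneg.2 hs1)]
      positivity
    nlinarith

lemma h_edge' {s : ℝ} (hs : 0 ≤ s) (hs1 : s ≤ 1) : s ^ 5 ≤ 630 * ∫ u in (1 - s)..1, h u ∧
    630 * ∫ u in (1 - s)..1, h u ≤ 126 * s ^ 5 := by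
  have := h_edge hs hs1
  have e := h_refl 0 s
  rw [sub_zero] at e
  rwa [e] at this

/-- formula for an interval inside a first stopped interval -/
lemma lam_in (hPRO : StmPRO) {n k : ℕ} {p : ℤ} (hF : Fs n p) {r : ℤ} (hr : 0 ≤ r)
    (hr1 : r + 1 ≤ 3 ^ k) : lam (n + k) (p * 3 ^ k + r) =
      wj (p / 3 ^ n) * Xv n p / 3 ^ n *
        (630 * ∫ u in ((r : ℝ) / 3 ^ k)..((r : ℝ) / 3 ^ k + 1 / 3 ^ k), h u) := by
  have h3 : (0 : ℝ) < 3 ^ k := by positivity
  have hr1' : (r : ℝ) + 1 ≤ 3 ^ k := by exact_mod_cast hr1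
  have hr' : (0 : ℝ) ≤ r := by exact_mod_cast hr
  have := intF hPRO hF (a := (r : ℝ) / 3 ^ k) (b := (r : ℝ) / 3 ^ k + 1 / 3 ^ k) (by positivity)
    (by have : (0:ℝ) < 1 / 3 ^ k := by positivity
        linarith)
    (by rw [← add_div, div_le_one h3]; exact hr1')
  rw [← this]
  unfold lam
  congr 1
  · push_cast
    field_simp
    ring
  · push_cast
    field_simp
    ring

lemma const_pos (hPRO : StmPRO) {n : ℕ} {p : ℤ} (hF : Fs n p) :
    0 < wj (p / 3 ^ n) * Xv n p / 3 ^ n := by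
  have h1 := (hPRO.2.2.2.2.1 n p hF).1
  have h2 := Mc_ge (p / 3 ^ n)
  have h3 := wj_pos (p / 3 ^ n)
  have : 0 < Xv n p := by linarith
  positivity

lemma lam_pos (hPRO : StmPRO) (hINT : StmINT) (n : ℕ) (m : ℤ) : 0 < lam n m := by
  by_cases hS : St n m
  · obtain ⟨n', k, rfl, hF⟩ := anc n m hS
    have h3 : (0 : ℤ) < 3 ^ k := by positivity
    have e : m = m / 3 ^ k * 3 ^ k + m % 3 ^ k := (Int.ediv_mul_add_emod m (3 ^ k)).symm
    have hr0 := Int.emod_nonneg m h3.ne'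
    have hr1 := Int.emod_lt_of_pos m h3
    rw [e, lam_in hPRO hF hr0 (by omega)]
    have h3' : (0 : ℝ) < 3 ^ k := by positivity
    have hr1' : ((m % 3 ^ k : ℤ) : ℝ) + 1 ≤ 3 ^ k := by exact_mod_cast (by omega : m % 3 ^ k + 1 ≤ 3 ^ k)
    have hr' : (0 : ℝ) ≤ ((m % 3 ^ k : ℤ) : ℝ) := by exact_mod_cast hr0
    refine mul_pos (const_pos hPRO hF) (mul_pos (by norm_num) (h_pos_int (by positivity) ?_ ?_))
    · have : (0:ℝ) < 1 / 3 ^ k := by positivity
      linarith
    · rw [← add_div, div_le_one h3']; exact hr1'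
  · have := hINT n m (Or.inl hS)
    unfold lam
    rw [this]
    have h1 := (hPRO.2.2.2.1 n m hS).1
    have h3 := wj_pos (m / 3 ^ n)
    positivity

/-- the outer descendants of an interval which is not stopped -/
lemma chainR (n : ℕ) (p : ℤ) (hp : ¬ St n p) (hX : 0 < Xv n p) : ∀ k : ℕ,
    ¬ St (n + k) ((p + 1) * 3 ^ k - 1) ∧ Xv (n + k) ((p + 1) * 3 ^ k - 1) = Xv n p / 81 ^ k ∧
      ((p + 1) * 3 ^ k - 1) / 3 ^ (n + k) = p / 3 ^ n := by
  intro k
  induction k with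
  | zero => simpa using hp
  | succ k ih =>
    obtain ⟨h1, h2, h3⟩ := ih
    set a : ℤ := (p + 1) * 3 ^ k with ha
    have ea : (p + 1) * 3 ^ (k + 1) = a * 3 := by rw [ha]; ring
    rw [ea]
    have e1 : (a * 3 - 1) / 3 = a - 1 := by omega
    have e2 : ¬ (a * 3 - 1) % 3 = 1 := by omega
    have e3 : (a * 3 - 1) / 3 ^ (n + (k + 1)) = p / 3 ^ n := by
      rw [← add_assoc, div_succ, e1, h3]
    have e4 : Xv (n + (k + 1)) (a * 3 - 1) = Xv n p / 81 ^ (k + 1) := by
      rw [← add_assoc, Xv_succ (by rw [e1]; exact h1), e1, h2, if_neg e2]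
      rw [pow_succ]
      field_simp
    refine ⟨?_, e4, e3⟩
    unfold St
    rw [e4, e3]
    unfold St at hp
    have : Xv n p / 81 ^ (k + 1) ≤ Xv n p := by
      apply div_le_self hX.le
      exact one_le_pow₀ (by norm_num)
    linarith

lemma chainL (n : ℕ) (p : ℤ) (hp : ¬ St n p) (hX : 0 < Xv n p) : ∀ k : ℕ,
    ¬ St (n + k) (p * 3 ^ k) ∧ Xv (n + k) (p * 3 ^ k) = Xv n p / 81 ^ k ∧
      (p * 3 ^ k) / 3 ^ (n + k) = p / 3 ^ n := by
  intro k
  induction k with
  | zero => simpa using hp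
  | succ k ih =>
    obtain ⟨h1, h2, h3⟩ := ih
    set a : ℤ := p * 3 ^ k with ha
    have ea : p * 3 ^ (k + 1) = a * 3 := by rw [ha]; ring
    rw [ea]
    have e1 : (a * 3) / 3 = a := by omega
    have e2 : ¬ (a * 3) % 3 = 1 := by omega
    have e3 : (a * 3) / 3 ^ (n + (k + 1)) = p / 3 ^ n := by
      rw [← add_assoc, div_succ, e1, h3]
    have e4 : Xv (n + (k + 1)) (a * 3) = Xv n p / 81 ^ (k + 1) := by
      rw [← add_assoc, Xv_succ (by rw [e1]; exact h1), e1, h2, if_neg e2]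
      rw [pow_succ]
      field_simp
    refine ⟨?_, e4, e3⟩
    unfold St
    rw [e4, e3]
    unfold St at hp
    have : Xv n p / 81 ^ (k + 1) ≤ Xv n p := by
      apply div_le_self hX.le
      exact one_le_pow₀ (by norm_num)
    linarith

lemma Xpos (hPRO : StmPRO) {n : ℕ} {p : ℤ} (hp : ¬ St n p ∨ Fs n p) : 0 < Xv n p := by
  rcases hp with hp | hp
  · exact (hPRO.2.2.2.1 n p hp).1
  · have h1 := (hPRO.2.2.2.2.1 n p hp).1
    have h2 := Mc_ge (p / 3 ^ n)
    linarith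

lemma edgeR (hPRO : StmPRO) (hINT : StmINT) (n k : ℕ) (p : ℤ) (hp : ¬ St n p ∨ Fs n p) :
    wj (p / 3 ^ n) * Xv n p / 3 ^ n / 243 ^ k ≤ lam (n + k) ((p + 1) * 3 ^ k - 1) ∧
    lam (n + k) ((p + 1) * 3 ^ k - 1) ≤ 126 * (wj (p / 3 ^ n) * Xv n p / 3 ^ n / 243 ^ k) := by
  have hX := Xpos hPRO hp
  have hw := wj_pos (p / 3 ^ n)
  rcases hp with hp | hp
  · obtain ⟨h1, h2, h3⟩ := chainR n p hp hX k
    have := hINT (n + k) ((p + 1) * 3 ^ k - 1) (Or.inl h1)
    have e : lam (n + k) ((p + 1) * 3 ^ k - 1) = wj (p / 3 ^ n) * Xv n p / 3 ^ n / 243 ^ k := by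
      unfold lam
      rw [this, h2, h3]
      have e243 : (243 : ℝ) ^ k = 81 ^ k * 3 ^ k := by rw [← mul_pow]; norm_num
      rw [pow_add, e243]
      field_simp
    rw [e]
    have : 0 < wj (p / 3 ^ n) * Xv n p / 3 ^ n / 243 ^ k := by positivity
    constructor <;> linarith
  · have hr : (p + 1) * 3 ^ k - 1 = p * 3 ^ k + (3 ^ k - 1) := by ring
    have h3 : (1 : ℤ) ≤ 3 ^ k := one_le_pow₀ (by norm_num)
    rw [hr, lam_in hPRO hp (by omega) (by omega)]
    have h3' : (0 : ℝ) < 3 ^ k := by positivity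
    have e1 : (((3 ^ k - 1 : ℤ) : ℝ) / 3 ^ k) = 1 - 1 / 3 ^ k := by
      push_cast
      field_simp
    have e2 : (((3 ^ k - 1 : ℤ) : ℝ) / 3 ^ k) + 1 / 3 ^ k = 1 := by rw [e1]; ring
    rw [e2, e1]
    have hs1 : (1 : ℝ) / 3 ^ k ≤ 1 := by
      rw [div_le_one h3']; exact one_le_pow₀ (by norm_num)
    obtain ⟨b1, b2⟩ := h_edge' (s := 1 / 3 ^ k) (by positivity) hs1
    have e5 : ((1 : ℝ) / 3 ^ k) ^ 5 = 1 / 243 ^ k := by
      rw [div_pow, one_pow, ← pow_mul, mul_comm, pow_mul]; norm_num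
    rw [e5] at b1 b2
    have hc : 0 < wj (p / 3 ^ n) * Xv n p / 3 ^ n := by positivity
    constructor
    · calc wj (p / 3 ^ n) * Xv n p / 3 ^ n / 243 ^ k =
          wj (p / 3 ^ n) * Xv n p / 3 ^ n * (1 / 243 ^ k) := by ring
        _ ≤ _ := mul_le_mul_of_nonneg_left b1 hc.le
    · calc _ ≤ wj (p / 3 ^ n) * Xv n p / 3 ^ n * (126 * (1 / 243 ^ k)) :=
            mul_le_mul_of_nonneg_left b2 hc.le
        _ = _ := by ring

lemma edgeL (hPRO : StmPRO) (hINT : StmINT) (n k : ℕ) (p : ℤ) (hp : ¬ St n p ∨ Fs n p) :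
    wj (p / 3 ^ n) * Xv n p / 3 ^ n / 243 ^ k ≤ lam (n + k) (p * 3 ^ k) ∧
    lam (n + k) (p * 3 ^ k) ≤ 126 * (wj (p / 3 ^ n) * Xv n p / 3 ^ n / 243 ^ k) := by
  have hX := Xpos hPRO hp
  have hw := wj_pos (p / 3 ^ n)
  rcases hp with hp | hp
  · obtain ⟨h1, h2, h3⟩ := chainL n p hp hX k
    have := hINT (n + k) (p * 3 ^ k) (Or.inl h1)
    have e : lam (n + k) (p * 3 ^ k) = wj (p / 3 ^ n) * Xv n p / 3 ^ n / 243 ^ k := by
      unfold lam
      rw [this, h2, h3]
      have e243 : (243 : ℝ) ^ k = 81 ^ k * 3 ^ k := by rw [← mul_pow]; norm_num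
      rw [pow_add, e243]
      field_simp
    rw [e]
    have : 0 < wj (p / 3 ^ n) * Xv n p / 3 ^ n / 243 ^ k := by positivity
    constructor <;> linarith
  · have hr : p * 3 ^ k = p * 3 ^ k + 0 := by ring
    have h3 : (1 : ℤ) ≤ 3 ^ k := one_le_pow₀ (by norm_num)
    rw [hr, lam_in hPRO hp le_rfl (by omega)]
    have h3' : (0 : ℝ) < 3 ^ k := by positivity
    have e1 : (((0 : ℤ) : ℝ) / 3 ^ k) = 0 := by simp
    rw [e1, zero_add]
    have hs1 : (1 : ℝ) / 3 ^ k ≤ 1 := by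
      rw [div_le_one h3']; exact one_le_pow₀ (by norm_num)
    obtain ⟨b1, b2⟩ := h_edge (s := 1 / 3 ^ k) (by positivity) hs1
    have e5 : ((1 : ℝ) / 3 ^ k) ^ 5 = 1 / 243 ^ k := by
      rw [div_pow, one_pow, ← pow_mul, mul_comm, pow_mul]; norm_num
    rw [e5] at b1 b2
    have hc : 0 < wj (p / 3 ^ n) * Xv n p / 3 ^ n := by positivity
    constructor
    · calc wj (p / 3 ^ n) * Xv n p / 3 ^ n / 243 ^ k =
          wj (p / 3 ^ n) * Xv n p / 3 ^ n * (1 / 243 ^ k) := by ring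
        _ ≤ _ := mul_le_mul_of_nonneg_left b1 hc.le
    · calc _ ≤ wj (p / 3 ^ n) * Xv n p / 3 ^ n * (126 * (1 / 243 ^ k)) :=
            mul_le_mul_of_nonneg_left b2 hc.le
        _ = _ := by ring

lemma three_split (n : ℕ) : ∀ z : ℤ, ∃ (n0 k : ℕ) (q : ℤ), n = n0 + k ∧ z = q * 3 ^ k ∧
    (n0 = 0 ∨ ¬ (3 : ℤ) ∣ q) := by
  induction n with
  | zero => intro z; exact ⟨0, 0, z, rfl, by simp, Or.inl rfl⟩
  | succ n ih =>
    intro z
    by_cases hz : (3 : ℤ) ∣ z
    · obtain ⟨w, rfl⟩ := hz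
      obtain ⟨n0, k, q, h1, h2, h3⟩ := ih w
      exact ⟨n0, k + 1, q, by omega, by rw [h2]; ring, h3⟩
    · exact ⟨n + 1, 0, z, rfl, by simp, Or.inr hz⟩

/-- comparison from the two edge estimates -/
lemma comp_edge {A B a b t : ℝ} (_hA : 0 < A) (hB : 0 < B) (ht : 0 < t) (hAB : A ≤ 241 * B)
    (_h1 : A / t ≤ a) (h2 : a ≤ 126 * (A / t)) (h3 : B / t ≤ b) (_h4 : b ≤ 126 * (B / t)) :
    a ≤ 40000 * b := by
  have h5 : A / t ≤ 241 * (B / t) := by
    rw [← mul_div_assoc]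
    exact div_le_div_of_nonneg_right hAB ht.le
  have h6 : 0 < B / t := by positivity
  linarith

lemma wj_le (q : ℤ) : wj (q - 1) ≤ 16 * wj q ∧ wj q ≤ 16 * wj (q - 1) := by
  unfold wj
  push_cast
  set x : ℝ := (q : ℝ) with hx
  have h1 : 1 + |x| ≤ 2 * (1 + |x - 1|) := by
    have := abs_nonneg (x - 1)
    have : |x| ≤ |x - 1| + 1 := by
      have := abs_add_le (x - 1) 1
      simpa using this
    linarith
  have h2 : 1 + |x - 1| ≤ 2 * (1 + |x|) := by
    have := abs_nonneg x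
    have : |x - 1| ≤ |x| + 1 := by
      have := abs_sub x 1
      simpa using this
    linarith
  have p1 : 0 < 1 + |x| := by positivity
  have p2 : 0 < 1 + |x - 1| := by positivity
  constructor
  · rw [mul_one_div, div_le_div_iff₀ (by positivity) (by positivity)]
    calc 1 * (1 + |x|) ^ 4 ≤ 1 * (2 * (1 + |x - 1|)) ^ 4 := by gcongr
      _ = _ := by ring
  · rw [mul_one_div, div_le_div_iff₀ (by positivity) (by positivity)]
    calc 1 * (1 + |x - 1|) ^ 4 ≤ 1 * (2 * (1 + |x|)) ^ 4 := by gcongr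
      _ = _ := by ring

lemma adj (hPRO : StmPRO) (hINT : StmINT) (n : ℕ) (m : ℤ) :
    lam n m ≤ 40000 * lam n (m + 1) ∧ lam n (m + 1) ≤ 40000 * lam n m := by
  obtain ⟨n0, k, q, rfl, hq, hn0⟩ := three_split n (m + 1)
  have hm : m = (q - 1 + 1) * 3 ^ k - 1 := by
    have : (q - 1 + 1) * 3 ^ k = q * 3 ^ k := by ring
    omega
  -- the case of two good intervals
  have key : ∀ (hP : ¬ St n0 (q - 1) ∨ Fs n0 (q - 1)) (hP' : ¬ St n0 q ∨ Fs n0 q),
      wj ((q - 1) / 3 ^ n0) * Xv n0 (q - 1) ≤ 241 * (wj (q / 3 ^ n0) * Xv n0 q) →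
      wj (q / 3 ^ n0) * Xv n0 q ≤ 241 * (wj ((q - 1) / 3 ^ n0) * Xv n0 (q - 1)) →
      lam (n0 + k) m ≤ 40000 * lam (n0 + k) (m + 1) ∧
        lam (n0 + k) (m + 1) ≤ 40000 * lam (n0 + k) m := by
    intro hP hP' h1 h2
    have hR := edgeR hPRO hINT n0 k (q - 1) hP
    have hL := edgeL hPRO hINT n0 k q hP'
    rw [← hm] at hR
    rw [← hq] at hL
    have x1 := Xpos hPRO hP
    have x2 := Xpos hPRO hP'
    have w1 := wj_pos ((q - 1) / 3 ^ n0)
    have w2 := wj_pos (q / 3 ^ n0)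
    have t3 : (0 : ℝ) < 3 ^ n0 := by positivity
    have t4 : (0 : ℝ) < 243 ^ k := by positivity
    constructor
    · refine comp_edge (A := wj ((q - 1) / 3 ^ n0) * Xv n0 (q - 1) / 3 ^ n0)
        (B := wj (q / 3 ^ n0) * Xv n0 q / 3 ^ n0) (t := 243 ^ k) (by positivity) (by positivity)
        t4 ?_ hR.1 hR.2 hL.1 hL.2
      rw [← mul_div_assoc]
      exact div_le_div_of_nonneg_right h1 t3.le
    · refine comp_edge (A := wj (q / 3 ^ n0) * Xv n0 q / 3 ^ n0)
        (B := wj ((q - 1) / 3 ^ n0) * Xv n0 (q - 1) / 3 ^ n0) (t := 243 ^ k) (by positivity)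
        (by positivity) t4 ?_ hL.1 hL.2 hR.1 hR.2
      rw [← mul_div_assoc]
      exact div_le_div_of_nonneg_right h2 t3.le
  rcases Nat.eq_zero_or_pos n0 with h0 | h0
  · subst h0
    refine key (Or.inl (not_St_zero _)) (Or.inl (not_St_zero _)) ?_ ?_
    · simp only [pow_zero, Int.ediv_one, Xv, mul_one]
      have := wj_le q
      have := wj_pos q
      linarith
    · simp only [pow_zero, Int.ediv_one, Xv, mul_one]
      have := wj_le q
      have := wj_pos (q - 1)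
      linarith
  · obtain ⟨n1, rfl⟩ : ∃ n1, n0 = n1 + 1 := ⟨n0 - 1, by omega⟩
    have hq3 : ¬ (3 : ℤ) ∣ q := hn0.resolve_left (by omega)
    have eQ : (q - 1) / 3 = q / 3 := by omega
    by_cases hS : St n1 (q / 3)
    · -- both intervals are in the same first stopped interval
      obtain ⟨n', l, rfl, hF⟩ := anc n1 _ hS
      set J : ℤ := q / 3 / 3 ^ l with hJ
      -- position of `m`
      have em : m / 3 ^ k = q - 1 := by
        rw [hm]
        have h3 : (0 : ℤ) < 3 ^ k := by positivity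
        rw [show (q - 1 + 1) * 3 ^ k - 1 = (3 ^ k - 1) + (q - 1) * 3 ^ k by ring,
          Int.add_mul_ediv_right _ _ h3.ne', Int.ediv_eq_zero_of_lt (by omega) (by omega), zero_add]
      have em1 : (m + 1) / 3 ^ k = q := by
        rw [hq]
        exact Int.mul_ediv_cancel _ (by positivity)
      have split : ∀ x : ℤ, x / 3 ^ (l + 1 + k) = x / 3 ^ k / 3 / 3 ^ l := by
        intro x
        rw [show (3 : ℤ) ^ (l + 1 + k) = 3 ^ k * 3 ^ (l + 1) by ring,
          ← Int.ediv_ediv_of_nonneg (by positivity), div_succ]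
      have eJ : m / 3 ^ (l + 1 + k) = J := by rw [split, em, eQ]
      have eJ1 : (m + 1) / 3 ^ (l + 1 + k) = J := by rw [split, em1]
      set K : ℕ := l + 1 + k with hK
      have h3 : (0 : ℤ) < 3 ^ K := by positivity
      set r : ℤ := m % 3 ^ K with hr
      have e : m = J * 3 ^ K + r := by rw [← eJ]; exact (Int.ediv_mul_add_emod m (3 ^ K)).symm
      have hr0 : 0 ≤ r := Int.emod_nonneg m h3.ne'
      have hr2 : r + 2 ≤ 3 ^ K := by
        have e' : m + 1 = J * 3 ^ K + (m + 1) % 3 ^ K := by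
          rw [← eJ1]; exact (Int.ediv_mul_add_emod (m + 1) (3 ^ K)).symm
        have := Int.emod_lt_of_pos (m + 1) h3
        omega
      have en : n' + l + 1 + k = n' + K := by omega
      rw [en, show m + 1 = J * 3 ^ K + (r + 1) by omega]
      conv_lhs => rw [e]
      conv_rhs => rw [e]
      rw [lam_in hPRO hF hr0 (by omega), lam_in hPRO hF (by omega) (by omega)]
      have h3' : (0 : ℝ) < 3 ^ K := by positivity
      have hr2' : (r : ℝ) + 2 ≤ 3 ^ K := by exact_mod_cast hr2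
      have hr' : (0 : ℝ) ≤ (r : ℝ) := by exact_mod_cast hr0
      have c0 := const_pos hPRO hF
      set c : ℝ := wj (J / 3 ^ n') * Xv n' J / 3 ^ n' with hc
      have ea : (((r + 1 : ℤ) : ℝ) / 3 ^ K) = (r : ℝ) / 3 ^ K + 1 / 3 ^ K := by
        push_cast; ring
      rw [ea]
      have eb : (r : ℝ) / 3 ^ K + 1 / 3 ^ K + 1 / 3 ^ K = (r : ℝ) / 3 ^ K + 2 * (1 / 3 ^ K) := by ring
      rw [eb]
      have hle : (r : ℝ) / 3 ^ K + 2 * (1 / 3 ^ K) ≤ 1 := by
        have : (r : ℝ) / 3 ^ K + 2 * (1 / 3 ^ K) = (r + 2) / 3 ^ K := by ring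
        rw [this, div_le_one h3']
        exact hr2'
      have i1 := h_adj (a := (r : ℝ) / 3 ^ K) (s := 1 / 3 ^ K) (by positivity) (by positivity) hle
      have i2 := h_adj' (a := (r : ℝ) / 3 ^ K) (s := 1 / 3 ^ K) (by positivity) (by positivity) hle
      have p1 := h_pos_int (a := (r : ℝ) / 3 ^ K) (b := (r : ℝ) / 3 ^ K + 1 / 3 ^ K) (by positivity)
        (by have : (0:ℝ) < 1 / 3 ^ K := by positivity
            linarith)
        (by have : (0:ℝ) < 1 / 3 ^ K := by positivity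
            linarith)
      have p2 := h_pos_int (a := (r : ℝ) / 3 ^ K + 1 / 3 ^ K) (b := (r : ℝ) / 3 ^ K + 2 * (1 / 3 ^ K))
        (by positivity)
        (by have : (0:ℝ) < 1 / 3 ^ K := by positivity
            linarith) hle
      set I1 := ∫ u in ((r : ℝ) / 3 ^ K)..((r : ℝ) / 3 ^ K + 1 / 3 ^ K), h u
      set I2 := ∫ u in ((r : ℝ) / 3 ^ K + 1 / 3 ^ K)..((r : ℝ) / 3 ^ K + 2 * (1 / 3 ^ K)), h u
      constructor
      · calc c * (630 * I1) ≤ c * (630 * (40000 * I2)) := by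
              apply mul_le_mul_of_nonneg_left _ c0.le
              linarith
          _ = _ := by ring
      · calc c * (630 * I2) ≤ c * (630 * (40000 * I1)) := by
              apply mul_le_mul_of_nonneg_left _ c0.le
              linarith
          _ = _ := by ring
    · have hP : ¬ St (n1 + 1) (q - 1) ∨ Fs (n1 + 1) (q - 1) := by
        by_cases h : St (n1 + 1) (q - 1)
        · exact Or.inr ⟨h, by rw [eQ]; exact hS⟩
        · exact Or.inl h
      have hP' : ¬ St (n1 + 1) q ∨ Fs (n1 + 1) q := by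
        by_cases h : St (n1 + 1) q
        · exact Or.inr ⟨h, hS⟩
        · exact Or.inl h
      have hX := (hPRO.2.2.2.1 n1 (q / 3) hS).1
      have ew : (q - 1) / 3 ^ (n1 + 1) = q / 3 ^ (n1 + 1) := by
        rw [div_succ, div_succ, eQ]
      have eX1 := Xv_succ (n := n1) (m := q - 1) (by rw [eQ]; exact hS)
      have eX2 := Xv_succ (n := n1) (m := q) hS
      rw [eQ] at eX1
      have w := wj_pos (q / 3 ^ (n1 + 1))
      have b1 : Xv n1 (q / 3) / 81 ≤ Xv (n1 + 1) (q - 1) ∧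
          Xv (n1 + 1) (q - 1) ≤ Xv n1 (q / 3) * (241 / 81) := by
        rw [eX1]
        split_ifs <;> constructor <;> linarith
      have b2 : Xv n1 (q / 3) / 81 ≤ Xv (n1 + 1) q ∧
          Xv (n1 + 1) q ≤ Xv n1 (q / 3) * (241 / 81) := by
        rw [eX2]
        split_ifs <;> constructor <;> linarith
      refine key hP hP' ?_ ?_
      · rw [ew]
        calc wj (q / 3 ^ (n1 + 1)) * Xv (n1 + 1) (q - 1) ≤
            wj (q / 3 ^ (n1 + 1)) * (241 * Xv (n1 + 1) q) := by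
              apply mul_le_mul_of_nonneg_left _ w.le
              linarith
          _ = _ := by ring
      · rw [ew]
        calc wj (q / 3 ^ (n1 + 1)) * Xv (n1 + 1) q ≤
            wj (q / 3 ^ (n1 + 1)) * (241 * Xv (n1 + 1) (q - 1)) := by
              apply mul_le_mul_of_nonneg_left _ w.le
              linarith
          _ = _ := by ring

end

end ModADJ

open ModADJ in
theorem mADJ (hPRO : StmPRO) (hINT : StmINT) : StmADJ := by
  refine ⟨40000, by norm_num, fun n m => ?_⟩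
  have h1 := lam_pos hPRO hINT n m
  have h2 := adj hPRO hINT n m
  have e : lam n (m + 1) = ∫ x in (((m : ℝ) + 1) / 3 ^ n)..(((m : ℝ) + 2) / 3 ^ n), f0 x := by
    unfold lam
    push_cast
    congr 1
    ring
  rw [e] at h2
  exact ⟨h1, h2⟩

end Pool.Agent.T6.H52.LS
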