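import Pool.Agent.T6.H52.LS.Defs1

/-!
Project LS (helper52), MP_0f1fb3_an, module CAN: the Cantor set (helper73).
-/

set_option autoImplicit false
open MeasureTheory Filter Topology Metric Set
open scoped ENNReal NNReal

namespace Pool.Agent.T6.H52.LS

namespace ModCAN

open scoped Pointwise

lemma vol_third (s : Set ℝ) : volume ((fun x : ℝ => x / 3) '' s) = ENNReal.ofReal (1 / 3) * volume s := by
  have h : (fun x : ℝ => x / 3) '' s = (1 / 3 : ℝ) • s := by
    ext y
    constructor
    · rintro ⟨x, hx, rfl⟩
      exact ⟨x, hx, by simp; ring⟩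
    · rintro ⟨x, hx, rfl⟩
      exact ⟨x, hx, by simp; ring⟩
  rw [h, Measure.addHaar_smul]
  simp

lemma vol_third' (s : Set ℝ) :
    volume ((fun x : ℝ => (2 + x) / 3) '' s) = ENNReal.ofReal (1 / 3) * volume s := by
  have h : (fun x : ℝ => (2 + x) / 3) '' s = (fun x : ℝ => 2 / 3 + x) '' ((fun x : ℝ => x / 3) '' s) := by
    rw [image_image]
    congr 1
    funext x
    ring
  rw [h, image_add_left, measure_preimage_add, vol_third]

lemma vol_pre (n : ℕ) : volume (preCantorSet n) ≤ ENNReal.ofReal ((2 / 3) ^ n) := by
  induction n with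
  | zero => simp
  | succ n ih =>
    rw [preCantorSet_succ]
    refine (measure_union_le _ _).trans ?_
    rw [vol_third, vol_third', ← two_mul]
    calc 2 * (ENNReal.ofReal (1 / 3) * volume (preCantorSet n))
        ≤ 2 * (ENNReal.ofReal (1 / 3) * ENNReal.ofReal ((2 / 3) ^ n)) := by gcongr
      _ = ENNReal.ofReal ((2 / 3) ^ (n + 1)) := by
        rw [← ENNReal.ofReal_mul (by norm_num), show (2 : ℝ≥0∞) = ENNReal.ofReal 2 by simp,
          ← ENNReal.ofReal_mul (by norm_num)]
        congr 1
        ring

lemma vol_cantor : volume cantorSet = 0 := by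
  have h1 : ∀ n, volume cantorSet ≤ ENNReal.ofReal ((2 / 3) ^ n) := fun n =>
    (measure_mono (iInter_subset _ n)).trans (vol_pre n)
  have h2 : Tendsto (fun n : ℕ => ENNReal.ofReal ((2 / 3 : ℝ) ^ n)) atTop (𝓝 0) := by
    have h3 := ENNReal.tendsto_ofReal
      (tendsto_pow_atTop_nhds_zero_of_lt_one (r := (2 / 3 : ℝ)) (by norm_num) (by norm_num))
    simpa using h3
  exact le_antisymm (ge_of_tendsto' h2 h1) zero_le

lemma one_mem : (1 : ℝ) ∈ cantorSet := by
  have h : ∀ n, (1 : ℝ) ∈ preCantorSet n := by
    intro n
    induction n with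
    | zero => simp
    | succ n ih =>
      rw [preCantorSet_succ]
      exact Or.inr ⟨1, ih, by norm_num⟩
  simp only [cantorSet, mem_iInter]
  exact h

/-- porosity in the unit interval -/
lemma por01 (k : ℕ) : ∀ y : ℝ, 0 ≤ y → y ≤ 1 → ∃ z : ℝ, 0 ≤ z ∧ z ≤ 1 ∧ |z - y| ≤ (1 / 3) ^ k ∧
    ∀ c ∈ cantorSet, (1 / 3) ^ k / 6 ≤ |z - c| := by
  induction k with
  | zero =>
    intro y h0 h1
    refine ⟨1 / 2, by norm_num, by norm_num, ?_, ?_⟩
    · rw [abs_le]
      constructor <;> norm_num <;> linarith
    · intro c hc
      rw [cantorSet_eq_union_halves] at hc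
      rcases hc with ⟨c', hc', rfl⟩ | ⟨c', hc', rfl⟩
      · have := cantorSet_subset_unitInterval hc'
        rw [le_abs]
        left
        norm_num
        linarith [this.2]
      · have := cantorSet_subset_unitInterval hc'
        rw [le_abs]
        right
        norm_num
        linarith [this.1]
  | succ k ih =>
    intro y h0 h1
    have hp : (0 : ℝ) < (1 / 3) ^ k := by positivity
    have hp1 : ((1 : ℝ) / 3) ^ k ≤ 1 := pow_le_one₀ (by norm_num) (by norm_num)
    set e : ℝ := (1 / 3) ^ k with he
    have hs : ((1 : ℝ) / 3) ^ (k + 1) = e / 3 := by rw [pow_succ, ← he]; ring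
    rw [hs]
    rcases le_or_gt y (1 / 3) with h | h
    · obtain ⟨z, hz0, hz1, hz2, hz3⟩ := ih (3 * y) (by linarith) (by linarith)
      rw [abs_le] at hz2
      refine ⟨z / 3, by linarith, by linarith, ?_, ?_⟩
      · rw [abs_le]
        constructor <;> linarith [hz2.1, hz2.2]
      · intro c hc
        rw [cantorSet_eq_union_halves] at hc
        rcases hc with ⟨c', hc', rfl⟩ | ⟨c', hc', rfl⟩
        · have h3 := hz3 c' hc'
          have : |z / 3 - c' / 3| = |z - c'| / 3 := by
            rw [← sub_div, abs_div]
            norm_num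
          simp only
          rw [this]
          linarith
        · have := cantorSet_subset_unitInterval hc'
          simp only
          rw [le_abs]
          right
          linarith [this.1]
    · rcases le_or_gt (2 / 3) y with h' | h'
      · obtain ⟨z, hz0, hz1, hz2, hz3⟩ := ih (3 * y - 2) (by linarith) (by linarith)
        rw [abs_le] at hz2
        refine ⟨(2 + z) / 3, by linarith, by linarith, ?_, ?_⟩
        · rw [abs_le]
          constructor <;> linarith [hz2.1, hz2.2]
        · intro c hc
          rw [cantorSet_eq_union_halves] at hc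
          rcases hc with ⟨c', hc', rfl⟩ | ⟨c', hc', rfl⟩
          · have := cantorSet_subset_unitInterval hc'
            simp only
            rw [le_abs]
            left
            linarith [this.2]
          · have h3 := hz3 c' hc'
            have : |(2 + z) / 3 - (2 + c') / 3| = |z - c'| / 3 := by
              rw [← sub_div, abs_div, show (2 + z - (2 + c')) = z - c' by ring]
              norm_num
            simp only
            rw [this]
            linarith
      · -- the middle third
        obtain ⟨z, hz1, hz2, hz3, hz4⟩ : ∃ z : ℝ, 1 / 3 + e / 18 ≤ z ∧ z ≤ 2 / 3 - e / 18 ∧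
            z - y ≤ e / 18 ∧ y - z ≤ e / 18 := by
          refine ⟨max (1 / 3 + e / 18) (min y (2 / 3 - e / 18)), le_max_left _ _, ?_, ?_, ?_⟩
          · exact max_le (by linarith) (min_le_right _ _)
          · rw [sub_le_iff_le_add]
            exact max_le (by linarith) ((min_le_left _ _).trans (by linarith))
          · have : y - e / 18 ≤ max (1 / 3 + e / 18) (min y (2 / 3 - e / 18)) := by
              refine le_trans ?_ (le_max_right _ _)
              exact le_min (by linarith) (by linarith)
            linarith
        refine ⟨z, by linarith, by linarith, ?_, ?_⟩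
        · rw [abs_le]
          constructor <;> linarith
        · intro c hc
          rw [cantorSet_eq_union_halves] at hc
          rcases hc with ⟨c', hc', rfl⟩ | ⟨c', hc', rfl⟩
          · have := cantorSet_subset_unitInterval hc'
            simp only
            rw [le_abs]
            left
            linarith [this.2]
          · have := cantorSet_subset_unitInterval hc'
            simp only
            rw [le_abs]
            right
            linarith [this.1]

lemma zero_C0 : (0 : ℝ) ∈ C0 := by
  show Int.fract (0 : ℝ) ∈ cantorSet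
  rw [Int.fract_zero]
  exact zero_mem_cantorSet

end ModCAN

open ModCAN in
theorem mCAN : StmCAN := by
  refine ⟨?_, ⟨0, zero_C0⟩, ?_, ?_, ?_⟩
  · rw [← isOpen_compl_iff, isOpen_iff_mem_nhds]
    intro y hy
    have hy' : Int.fract y ∈ cantorSetᶜ := hy
    have h1 : y ≠ ⌊y⌋ := by
      intro h
      apply hy
      show Int.fract y ∈ cantorSet
      rw [h, Int.fract_intCast]
      exact zero_mem_cantorSet
    exact (continuousAt_fract h1).preimage_mem_nhds
      (isClosed_cantorSet.isOpen_compl.mem_nhds hy')
  · intro y
    show Int.fract (y + 1) ∈ cantorSet ↔ Int.fract y ∈ cantorSet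
    rw [Int.fract_add_one]
  · have hsub : C0 ⊆ ⋃ k : ℤ, (fun y : ℝ => y + k) ⁻¹' cantorSet := by
      intro y hy
      rw [mem_iUnion]
      refine ⟨-⌊y⌋, ?_⟩
      show y + ((-⌊y⌋ : ℤ) : ℝ) ∈ cantorSet
      rw [Int.cast_neg, ← sub_eq_add_neg]
      exact hy
    refine measure_mono_null hsub ?_
    rw [measure_iUnion_null_iff]
    intro k
    rw [measure_preimage_add_right]
    exact vol_cantor
  · intro y r hr hr1
    obtain ⟨n, hn1, hn2⟩ := exists_nat_pow_near_of_lt_one hr hr1 (y := (1 / 3 : ℝ)) (by norm_num)
      (by norm_num)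
    obtain ⟨z0, hz0, hz1, hz2, hz3⟩ := por01 (n + 1) (Int.fract y) (Int.fract_nonneg y)
      (Int.fract_lt_one y).le
    set e : ℝ := (1 / 3) ^ (n + 1) with he
    have hen : ((1 : ℝ) / 3) ^ n = 3 * e := by rw [he, pow_succ]; ring
    refine ⟨⌊y⌋ + z0, ?_, ?_⟩
    · have h1 : (⌊y⌋ : ℝ) + z0 - y = z0 - Int.fract y := by
        rw [← Int.self_sub_floor]
        ring
      rw [h1]
      linarith
    · have h2 : e / 6 ≤ infDist ((⌊y⌋ : ℝ) + z0) C0 := by
        rw [le_infDist ⟨0, zero_C0⟩]
        intro c hc
        have hc' : Int.fract c ∈ cantorSet := hc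
        rw [Real.dist_eq]
        have hcf := Int.floor_add_fract c
        have hc0 := Int.fract_nonneg c
        have hc1 := Int.fract_lt_one c
        rcases lt_trichotomy ⌊c⌋ ⌊y⌋ with h | h | h
        · have h4 : ((⌊c⌋ : ℤ) : ℝ) + 1 ≤ ⌊y⌋ := by exact_mod_cast h
          have h5 := hz3 0 zero_mem_cantorSet
          rw [sub_zero, abs_of_nonneg hz0] at h5
          rw [le_abs]
          left
          linarith
        · have h4 := hz3 _ hc'
          have h6 : (⌊y⌋ : ℝ) + z0 - c = z0 - Int.fract c := by
            rw [← h, ← Int.self_sub_floor]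
            ring
          rw [h6]
          exact h4
        · have h4 : ((⌊y⌋ : ℤ) : ℝ) + 1 ≤ ⌊c⌋ := by exact_mod_cast h
          have h5 := hz3 1 one_mem
          rw [abs_sub_comm, abs_of_nonneg (by linarith)] at h5
          rw [le_abs]
          right
          linarith
      have he0 : 0 < e := by positivity
      linarith

end Pool.Agent.T6.H52.LS
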