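import Pool.Agent.T6.H52.LS.Defs

/-!
# Project LS (MP_0f1fb3_an), module CASEA
-/

set_option autoImplicit false
open MeasureTheory Filter Topology Metric Set
open scoped ENNReal NNReal

namespace Pool.Agent.T6.H52.LS

namespace ModCASEA

theorem lk_mono {X : Type} [MetricSpace X] {ρ : X → ℝ≥0∞} {p q : X} {δ ε : ℝ≥0∞}
    (h : Lk ρ p q δ) (hle : δ ≤ ε) : Lk ρ p q ε := by
  obtain ⟨L, γ, h0, h1, h2, h3, h4⟩ := h
  exact ⟨L, γ, h0, h1, h2, h3, h4.trans hle⟩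

theorem lk_le {X : Type} [MetricSpace X] {ρ : X → ℝ≥0∞} {p q : X} {a b : ℝ}
    (h : Lk ρ p q (ENNReal.ofReal a)) (hle : a ≤ b) : Lk ρ p q (ENNReal.ofReal b) :=
  lk_mono h (ENNReal.ofReal_le_ofReal hle)

theorem lk_tr (hLKT : StmLKT) {X : Type} [MetricSpace X] {ρ : X → ℝ≥0∞} {p q s : X} {a b : ℝ}
    (ha : 0 ≤ a) (hb : 0 ≤ b) (h1 : Lk ρ p q (ENNReal.ofReal a))
    (h2 : Lk ρ q s (ENNReal.ofReal b)) : Lk ρ p s (ENNReal.ofReal (a + b)) := by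
  rw [ENNReal.ofReal_add ha hb]
  exact (hLKT X ρ).1 _ _ _ _ _ h1 h2

theorem lk_symm (hLKT : StmLKT) {X : Type} [MetricSpace X] {ρ : X → ℝ≥0∞} {p q : X}
    {δ : ℝ≥0∞} (h : Lk ρ p q δ) : Lk ρ q p δ := (hLKT X ρ).2.1 _ _ _ h

/-- good vertical lines -/
def GV {X : Type} [MetricSpace X] (P : ℝ × ℝ → X) (ρ : X → ℝ≥0∞) (A K' : ℝ) : Prop :=
  ∀ x₀ δ y₁ y₂ : ℝ, 0 < δ → y₁ < y₂ → y₂ ≤ y₁ + 1 → ∃ x ∈ Ioo x₀ (x₀ + δ),
    ∀ s ∈ Icc y₁ y₂, ∀ t ∈ Icc y₁ y₂,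
    Lk ρ (P (x, s)) (P (x, t)) (ENNReal.ofReal (K' * √((y₂ - y₁) / δ * A)))

/-- good horizontal lines -/
def GH {X : Type} [MetricSpace X] (P : ℝ × ℝ → X) (ρ : X → ℝ≥0∞) (A K' : ℝ) : Prop :=
  ∀ y₀ δ x₁ x₂ : ℝ, 0 < δ → δ ≤ 1 → x₁ < x₂ → ∃ y ∈ Ioo y₀ (y₀ + δ),
    ∀ s ∈ Icc x₁ x₂, ∀ t ∈ Icc x₁ x₂,
    Lk ρ (P (s, y)) (P (t, y)) (ENNReal.ofReal (K' * √((x₂ - x₁) / δ * A)))

theorem gv_mono {X : Type} [MetricSpace X] {P : ℝ × ℝ → X} {ρ : X → ℝ≥0∞} {A K₁ K₂ : ℝ}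
    (h : K₁ ≤ K₂) (hG : GV P ρ A K₁) : GV P ρ A K₂ := by
  intro x₀ δ y₁ y₂ h1 h2 h3
  obtain ⟨x, hx, hl⟩ := hG x₀ δ y₁ y₂ h1 h2 h3
  exact ⟨x, hx, fun s hs t ht => lk_le (hl s hs t ht)
    (mul_le_mul_of_nonneg_right h (Real.sqrt_nonneg _))⟩

theorem gh_mono {X : Type} [MetricSpace X] {P : ℝ × ℝ → X} {ρ : X → ℝ≥0∞} {A K₁ K₂ : ℝ}
    (h : K₁ ≤ K₂) (hG : GH P ρ A K₁) : GH P ρ A K₂ := by
  intro x₀ δ y₁ y₂ h1 h2 h3
  obtain ⟨x, hx, hl⟩ := hG x₀ δ y₁ y₂ h1 h2 h3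
  exact ⟨x, hx, fun s hs t ht => lk_le (hl s hs t ht)
    (mul_le_mul_of_nonneg_right h (Real.sqrt_nonneg _))⟩

/-- the frame about `u` -/
theorem frame (hLKT : StmLKT) (hEXIT : StmEXIT) {f : ℝ → ℝ} {C : Set ℝ} {X : Type}
    [MetricSpace X] {P : ℝ × ℝ → X} {N S : X} {c : ℝ} (hM : Mdl f C P N S c) {ρ : X → ℝ≥0∞}
    {A K' : ℝ} (hK : 0 < K') (hA : 0 < A) (hV : GV P ρ A K') (hH : GH P ρ A K') {E : Set X}
    {u : ℝ × ℝ} {r : ℝ} (hE : IsPreconnected E) (hu : P u ∈ E) (hr : 0 < r) (hr' : r ≤ 1 / 16)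
    (hnE : ¬ E ⊆ P '' Sq u (2 * r)) :
    ∃ xm xp ym yp : ℝ, (u.1 - 2 * r < xm ∧ xm < u.1 - r) ∧ (u.1 + r < xp ∧ xp < u.1 + 2 * r) ∧
      (u.2 - 2 * r < ym ∧ ym < u.2 - r) ∧ (u.2 + r < yp ∧ yp < u.2 + 2 * r) ∧
      ∃ p ∈ E, ∀ w : ℝ × ℝ, w.1 ∈ Icc xm xp → w.2 ∈ Icc ym yp →
        (w.1 = xm ∨ w.1 = xp ∨ w.2 = ym ∨ w.2 = yp) →
        Lk ρ p (P w) (ENNReal.ofReal (8 * K' * √A)) := by
  have hsq : ∀ z : ℝ, K' * √((z + 2 * r - (z - 2 * r)) / r * A) = 2 * K' * √A := by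
    intro z
    have e1 : (z + 2 * r - (z - 2 * r)) / r * A = 2 ^ 2 * A := by
      field_simp
      ring
    rw [e1, Real.sqrt_mul (by norm_num), Real.sqrt_sq (by norm_num)]
    ring
  obtain ⟨xm, hxm, lxm⟩ := hV (u.1 - 2 * r) r (u.2 - 2 * r) (u.2 + 2 * r) hr (by linarith)
    (by linarith)
  obtain ⟨xp, hxp, lxp⟩ := hV (u.1 + r) r (u.2 - 2 * r) (u.2 + 2 * r) hr (by linarith)
    (by linarith)
  obtain ⟨ym, hym, lym⟩ := hH (u.2 - 2 * r) r (u.1 - 2 * r) (u.1 + 2 * r) hr (by linarith)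
    (by linarith)
  obtain ⟨yp, hyp, lyp⟩ := hH (u.2 + r) r (u.1 - 2 * r) (u.1 + 2 * r) hr (by linarith)
    (by linarith)
  rw [hsq] at lxm lxp lym lyp
  obtain ⟨hxm1, hxm2⟩ := hxm
  obtain ⟨hxp1, hxp2⟩ := hxp
  obtain ⟨hym1, hym2⟩ := hym
  obtain ⟨hyp1, hyp2⟩ := hyp
  have hA0 : 0 ≤ √A := Real.sqrt_nonneg _
  have hKA : 0 ≤ 2 * K' * √A := by positivity
  have e2 : 2 * K' * √A + 2 * K' * √A = 4 * K' * √A := by ring
  have h12 : 2 * K' * √A ≤ 4 * K' * √A := by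
    have : 0 ≤ K' * √A := by positivity
    nlinarith
  -- every point of the boundary is joined to the corner
  have key : ∀ w : ℝ × ℝ, w.1 ∈ Icc xm xp → w.2 ∈ Icc ym yp →
        (w.1 = xm ∨ w.1 = xp ∨ w.2 = ym ∨ w.2 = yp) →
        Lk ρ (P w) (P (xm, ym)) (ENNReal.ofReal (4 * K' * √A)) := by
    rintro ⟨w1, w2⟩ ⟨h1, h1'⟩ ⟨h2, h2'⟩ h
    dsimp only at h1 h1' h2 h2' h
    have m1 : w1 ∈ Icc (u.1 - 2 * r) (u.1 + 2 * r) := ⟨by linarith, by linarith⟩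
    have m2 : w2 ∈ Icc (u.2 - 2 * r) (u.2 + 2 * r) := ⟨by linarith, by linarith⟩
    have m3 : xm ∈ Icc (u.1 - 2 * r) (u.1 + 2 * r) := ⟨by linarith, by linarith⟩
    have m4 : xp ∈ Icc (u.1 - 2 * r) (u.1 + 2 * r) := ⟨by linarith, by linarith⟩
    have m5 : ym ∈ Icc (u.2 - 2 * r) (u.2 + 2 * r) := ⟨by linarith, by linarith⟩
    have m6 : yp ∈ Icc (u.2 - 2 * r) (u.2 + 2 * r) := ⟨by linarith, by linarith⟩
    rcases h with rfl | rfl | rfl | rfl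
    · exact lk_le (lxm w2 m2 ym m5) h12
    · have a1 := lxp w2 m2 ym m5
      have a2 := lym w1 m4 xm m3
      have := lk_tr hLKT hKA hKA a1 a2
      rwa [e2] at this
    · exact lk_le (lym w1 m1 xm m3) h12
    · have a1 := lyp w1 m1 xm m3
      have a2 := lxm w2 m6 ym m5
      have := lk_tr hLKT hKA hKA a1 a2
      rwa [e2] at this
  have hnE' : ¬ E ⊆ P '' Rec xm xp ym yp := by
    intro h
    apply hnE
    refine h.trans (image_mono ?_)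
    rintro ⟨w1, w2⟩ ⟨⟨h1, h1'⟩, ⟨h2, h2'⟩⟩
    dsimp only at h1 h1' h2 h2'
    exact ⟨⟨by linarith, by linarith⟩, ⟨by linarith, by linarith⟩⟩
  obtain ⟨v, hv, hv1, hv2, hv3⟩ := hEXIT f C X P N S c hM E u xm xp ym yp hE hu
    ⟨⟨by linarith, by linarith⟩, ⟨by linarith, by linarith⟩⟩ (by linarith) hnE'
  refine ⟨xm, xp, ym, yp, ⟨hxm1, by linarith⟩, ⟨hxp1, by linarith⟩, ⟨hym1, by linarith⟩,
    ⟨hyp1, by linarith⟩, P v, hv, ?_⟩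
  intro w h1 h2 h3
  have b1 := key v hv1 hv2 hv3
  have b2 := lk_symm hLKT (key w h1 h2 h3)
  have h4 : 0 ≤ 4 * K' * √A := by positivity
  have := lk_tr hLKT h4 h4 b1 b2
  have e3 : 4 * K' * √A + 4 * K' * √A = 8 * K' * √A := by ring
  rwa [e3] at this

end ModCASEA

open ModCASEA in
theorem mCASEA (hLKT : StmLKT) (hLV : StmLV) (hLH : StmLH) (hEXIT : StmEXIT) : StmCASEA := by
  intro f C Y K hD X _ _ _ P N S c hM A₀ hA₀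
  obtain ⟨K₁, hK₁, hV₀⟩ := hLV f C Y K hD X P N S c hM
  obtain ⟨K₂, hK₂, hH₀⟩ := hLH f C Y K hD X P N S c hM
  set K' := K₁ + K₂ with hK'
  have hK : 0 < K' := by positivity
  refine ⟨K' * (16 + 2 * √(A₀ + 4)), by positivity, ?_⟩
  intro ρ A hρ hA hint E F u v r hE hF hu hv hr hr' hnE hnF hd1 hd2 hd3
  have hV : GV P ρ A K' := gv_mono (by linarith) (hV₀ ρ A hρ hA hint)
  have hH : GH P ρ A K' := gh_mono (by linarith) (hH₀ ρ A hρ hA hint)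
  obtain ⟨xm, xp, ym, yp, hxm, hxp, hym, hyp, p, hp, hpl⟩ :=
    frame hLKT hEXIT hM hK hA hV hH hE hu hr hr' hnE
  obtain ⟨xm', xp', ym', yp', hxm', hxp', hym', hyp', q, hq, hql⟩ :=
    frame hLKT hEXIT hM hK hA hV hH hF hv hr hr' hnF
  refine ⟨p, hp, q, hq, ?_⟩
  have hbd : ∀ d : ℝ, d ≤ (A₀ + 4) * r → K' * √(d / (2 * r) * A) ≤ K' * √(A₀ + 4) * √A := by
    intro d hd
    rw [mul_assoc, ← Real.sqrt_mul (by linarith)]
    refine mul_le_mul_of_nonneg_left (Real.sqrt_le_sqrt ?_) hK.le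
    refine mul_le_mul_of_nonneg_right ?_ hA.le
    rw [div_le_iff₀ (by linarith)]
    nlinarith
  have hmx : max u.1 v.1 - min u.1 v.1 = |u.1 - v.1| := max_sub_min_eq_abs' _ _
  have hmy : max u.2 v.2 - min u.2 v.2 = |u.2 - v.2| := max_sub_min_eq_abs' _ _
  have x1 := min_le_left u.1 v.1
  have x2 := min_le_right u.1 v.1
  have x3 := le_max_left u.1 v.1
  have x4 := le_max_right u.1 v.1
  have y1 := min_le_left u.2 v.2
  have y2 := min_le_right u.2 v.2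
  have y3 := le_max_left u.2 v.2
  have y4 := le_max_right u.2 v.2
  obtain ⟨y, ⟨hy1, hy2⟩, ly⟩ := hH (u.2 - r) (2 * r) (min u.1 v.1 - 2 * r) (max u.1 v.1 + 2 * r)
    (by linarith) (by linarith) (by linarith)
  obtain ⟨x, ⟨hx1, hx2⟩, lx⟩ := hV (v.1 - r) (2 * r) (min u.2 v.2 - 2 * r) (max u.2 v.2 + 2 * r)
    (by linarith) (by linarith) (by linarith)
  have s1 := hpl (xp, y) ⟨by dsimp only; linarith, le_refl _⟩
    ⟨by dsimp only; linarith, by dsimp only; linarith⟩ (Or.inr (Or.inl rfl))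
  have s2 := lk_le (ly xp ⟨by linarith, by linarith⟩ x ⟨by linarith, by linarith⟩)
    (hbd _ (by linarith))
  have s3 := lk_le (lx y ⟨by linarith, by linarith⟩ yp' ⟨by linarith, by linarith⟩)
    (hbd _ (by linarith))
  have s4 := lk_symm hLKT (hql (x, yp') ⟨by dsimp only; linarith, by dsimp only; linarith⟩
    ⟨by dsimp only; linarith, le_refl _⟩ (Or.inr (Or.inr (Or.inr rfl))))
  have p1 : 0 ≤ 8 * K' * √A := by positivity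
  have p2 : 0 ≤ K' * √(A₀ + 4) * √A := by positivity
  have t1 := lk_tr hLKT p1 p2 s1 s2
  have t2 := lk_tr hLKT (by positivity) p2 t1 s3
  have t3 := lk_tr hLKT (by positivity) p1 t2 s4
  refine lk_le t3 (le_of_eq ?_)
  ring

end Pool.Agent.T6.H52.LS
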