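import Pool.Agent.T6.H52.LS.Defs
import Pool.Agent.T6.H52.LS.CASEA

/-!
# Project LS (MP_0f1fb3_an), module CASEB
-/

set_option autoImplicit false
open MeasureTheory Filter Topology Metric Set
open scoped ENNReal NNReal

namespace Pool.Agent.T6.H52.LS

namespace ModCASEB

open ModCASEA

theorem cont_inv : Continuous fun x : ℝ => 1 / (1 + |x|) := by
  refine Continuous.div continuous_const (by fun_prop) fun x => ?_
  have := abs_nonneg x
  linarith

theorem int_le (a b : ℝ) : |∫ x in a..b, 1 / (1 + |x|)| ≤ |a - b| := by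
  have h := intervalIntegral.norm_integral_le_of_norm_le_const (a := a) (b := b) (C := 1)
    (f := fun x : ℝ => 1 / (1 + |x|)) (fun x _ => by
      have := abs_nonneg x
      rw [Real.norm_eq_abs, abs_of_nonneg (by positivity), div_le_one (by linarith)]
      linarith)
  rw [Real.norm_eq_abs, one_mul] at h
  rwa [abs_sub_comm] at h

theorem int_near {u v a b A₀ r : ℝ} (h : |∫ x in u..v, 1 / (1 + |x|)| ≤ A₀) (ha : |a - u| ≤ r)
    (hb : |b - v| ≤ r) : |∫ x in a..b, 1 / (1 + |x|)| ≤ A₀ + 2 * r := by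
  have hi : ∀ s t : ℝ, IntervalIntegrable (fun x : ℝ => 1 / (1 + |x|)) volume s t :=
    fun s t => cont_inv.intervalIntegrable s t
  have e : ∫ x in a..b, 1 / (1 + |x|) = (∫ x in a..u, 1 / (1 + |x|)) +
      (∫ x in u..v, 1 / (1 + |x|)) + ∫ x in v..b, 1 / (1 + |x|) := by
    rw [intervalIntegral.integral_add_adjacent_intervals (hi _ _) (hi _ _),
      intervalIntegral.integral_add_adjacent_intervals (hi _ _) (hi _ _)]
  have h1 := int_le a u
  have h2 := int_le v b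
  rw [abs_sub_comm v b] at h2
  rw [e]
  have h3 := abs_add_le ((∫ x in a..u, 1 / (1 + |x|)) + ∫ x in u..v, 1 / (1 + |x|))
    (∫ x in v..b, 1 / (1 + |x|))
  have h4 := abs_add_le (∫ x in a..u, 1 / (1 + |x|)) (∫ x in u..v, 1 / (1 + |x|))
  linarith

/-- every height has an equivalent one in an interval of length one -/
theorem shift {f : ℝ → ℝ} {C : Set ℝ} {X : Type} [MetricSpace X] {P : ℝ × ℝ → X} {N S : X}
    {c : ℝ} (hM : Mdl f C P N S c) (x y z : ℝ) :
    ∃ y' ∈ Icc (z - 1 / 2) (z + 1 / 2), P (x, y') = P (x, y) := by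
  refine ⟨y - ⌊y - (z - 1 / 2)⌋, ⟨?_, ?_⟩, ?_⟩
  · have := Int.floor_le (y - (z - 1 / 2))
    linarith
  · have := Int.lt_floor_add_one (y - (z - 1 / 2))
    linarith
  · rw [hM.eq_iff]
    refine ⟨rfl, -⌊y - (z - 1 / 2)⌋, ?_⟩
    push_cast
    ring

end ModCASEB

open ModCASEA ModCASEB in
theorem mCASEB (hLKT : StmLKT) (hLV : StmLV) (hLH : StmLH) (hLF : StmLF) (hEXIT : StmEXIT) :
    StmCASEB := by
  intro f C Y K hD X _ _ _ P N S c hM A₀ r hA₀ hr hr'
  obtain ⟨K₁, hK₁, hV₀⟩ := hLV f C Y K hD X P N S c hM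
  obtain ⟨K₂, hK₂, hH₀⟩ := hLH f C Y K hD X P N S c hM
  obtain ⟨K₃, hK₃, hF₀⟩ := hLF f C Y K hD X P N S c hM
  set K' := K₁ + K₂ + K₃ with hK'
  have hK : 0 < K' := by positivity
  refine ⟨K' * (16 + 2 * √(1 / (2 * r)) + √(A₀ + 2)), by positivity, ?_⟩
  intro ρ A hρ hA hint E F u v hE hF hu hv hnE hnF hd
  have hV : GV P ρ A K' := gv_mono (by linarith) (hV₀ ρ A hρ hA hint)
  have hH : GH P ρ A K' := gh_mono (by linarith) (hH₀ ρ A hρ hA hint)
  obtain ⟨xm, xp, ym, yp, hxm, hxp, hym, hyp, p, hp, hpl⟩ :=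
    frame hLKT hEXIT hM hK hA hV hH hE hu hr hr' hnE
  obtain ⟨xm', xp', ym', yp', hxm', hxp', hym', hyp', q, hq, hql⟩ :=
    frame hLKT hEXIT hM hK hA hV hH hF hv hr hr' hnF
  refine ⟨p, hp, q, hq, ?_⟩
  have hbd : ∀ z : ℝ, K' * √((z + 1 / 2 - (z - 1 / 2)) / (2 * r) * A) =
      K' * √(1 / (2 * r)) * √A := by
    intro z
    have e1 : (z + 1 / 2 - (z - 1 / 2)) = 1 := by ring
    rw [e1, Real.sqrt_mul (by positivity)]
    ring
  obtain ⟨x, ⟨hx1, hx2⟩, lx⟩ := hV (u.1 - r) (2 * r) (u.2 - 1 / 2) (u.2 + 1 / 2)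
    (by linarith) (by linarith) (by linarith)
  obtain ⟨x', ⟨hx1', hx2'⟩, lx'⟩ := hV (v.1 - r) (2 * r) (v.2 - 1 / 2) (v.2 + 1 / 2)
    (by linarith) (by linarith) (by linarith)
  rw [hbd] at lx lx'
  -- the flow line
  have hfl : ∃ t, Lk ρ (P (x, Y t x)) (P (x', Y t x'))
      (ENNReal.ofReal (K' * √(A₀ + 2) * √A)) := by
    have hn : |∫ z in x..x', 1 / (1 + |z|)| ≤ A₀ + 1 := by
      have := int_near hd (a := x) (b := x') (r := r)
        (abs_le.2 ⟨by linarith, by linarith⟩) (abs_le.2 ⟨by linarith, by linarith⟩)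
      linarith
    have hb : ∀ I : ℝ, |I| ≤ A₀ + 1 → K₃ * √((1 + I) * A) ≤ K' * √(A₀ + 2) * √A := by
      intro I hI
      rw [mul_assoc, ← Real.sqrt_mul (by linarith)]
      refine mul_le_mul (by linarith) (Real.sqrt_le_sqrt ?_) (Real.sqrt_nonneg _) hK.le
      refine mul_le_mul_of_nonneg_right ?_ hA.le
      have := (abs_le.1 hI).2
      linarith
    rcases le_total x x' with h | h
    · obtain ⟨t, _, ht⟩ := hF₀ ρ A hρ hA hint x x' h
      exact ⟨t, lk_le ht (hb _ hn)⟩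
    · obtain ⟨t, _, ht⟩ := hF₀ ρ A hρ hA hint x' x h
      rw [intervalIntegral.integral_symm, abs_neg] at hn
      exact ⟨t, lk_symm hLKT (lk_le ht (hb _ hn))⟩
  obtain ⟨t, ht⟩ := hfl
  obtain ⟨z, hz, hPz⟩ := shift hM x (Y t x) u.2
  obtain ⟨z', hz', hPz'⟩ := shift hM x' (Y t x') v.2
  have s1 := hpl (x, yp) ⟨by dsimp only; linarith, by dsimp only; linarith⟩
    ⟨by dsimp only; linarith, le_refl _⟩ (Or.inr (Or.inr (Or.inr rfl)))
  have s2 := lx yp ⟨by linarith, by linarith⟩ z hz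
  rw [hPz] at s2
  have s4 := lx' z' hz' yp' ⟨by linarith, by linarith⟩
  rw [hPz'] at s4
  have s5 := lk_symm hLKT (hql (x', yp') ⟨by dsimp only; linarith, by dsimp only; linarith⟩
    ⟨by dsimp only; linarith, le_refl _⟩ (Or.inr (Or.inr (Or.inr rfl))))
  have p1 : 0 ≤ 8 * K' * √A := by positivity
  have p2 : 0 ≤ K' * √(1 / (2 * r)) * √A := by positivity
  have p3 : 0 ≤ K' * √(A₀ + 2) * √A := by positivity
  have t1 := lk_tr hLKT p1 p2 s1 s2
  have t2 := lk_tr hLKT (by positivity) p3 t1 ht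
  have t3 := lk_tr hLKT (by positivity) p2 t2 s4
  have t4 := lk_tr hLKT (by positivity) p1 t3 s5
  refine lk_le t4 (le_of_eq ?_)
  ring

end Pool.Agent.T6.H52.LS
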