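import Pool.Agent.T6.H52.LS.Defs1

/-! Project LS (helper52), module COM. -/

set_option autoImplicit false
open MeasureTheory Filter Topology Metric Set

namespace Pool.Agent.T6.H52.LS

namespace ModCOM

theorem wj_pos (j : ℤ) : 0 < wj j := by
  unfold wj
  have := abs_nonneg (j : ℝ)
  positivity

theorem Mc_pos (j : ℤ) : 0 < Mc j := by
  unfold Mc
  have := abs_nonneg (j : ℝ)
  positivity

end ModCOM

theorem mCOM (hPRO : StmPRO) : StmCOM := by
  refine ⟨256, by norm_num, ?_⟩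
  intro x y hx hxy
  have hex : ∃ n, Fs n (fl n x) := by
    by_contra h
    push Not at h
    have := (hPRO.2.1 x h).2
    linarith
  obtain ⟨n, hn⟩ := hex
  have h3 : (0 : ℝ) < 3 ^ n := by positivity
  set m := fl n x with hm
  obtain ⟨u, hu0, hu1, hxu⟩ : ∃ u : ℝ, 0 ≤ u ∧ u < 1 ∧ (3 : ℝ) ^ n * x = m + u :=
    ⟨Int.fract ((3 : ℝ) ^ n * x), Int.fract_nonneg _, Int.fract_lt_one _, by
      rw [hm, fl, Int.floor_add_fract]⟩
  have hxe : x = ((m : ℝ) + u) / 3 ^ n := by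
    rw [← hxu]; field_simp
  obtain ⟨fx, dx⟩ := hPRO.1 n m u hn hu0 hu1
  rw [← hxe] at fx dx
  have hmin : 0 < min u (1 - u) := by
    rw [dx] at hx
    exact (div_pos_iff_of_pos_right h3).1 hx
  have hup : 0 < u := lt_of_lt_of_le hmin (min_le_left _ _)
  have h1u : 0 < 1 - u := by linarith
  set v : ℝ := 3 ^ n * y - m with hv
  have hye : y = ((m : ℝ) + v) / 3 ^ n := by
    rw [hv]; field_simp; ring
  have huv : |v - u| ≤ min u (1 - u) / 2 := by
    have e : v - u = 3 ^ n * (y - x) := by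
      rw [hv, mul_sub, hxu]; ring
    rw [e, abs_mul, abs_of_pos h3]
    calc (3 : ℝ) ^ n * |y - x| ≤ 3 ^ n * (dl x / 2) := by gcongr
      _ = min u (1 - u) / 2 := by rw [dx]; field_simp
  have hb := abs_le.1 huv
  have hm1 := min_le_left u (1 - u)
  have hm2 := min_le_right u (1 - u)
  have v1 : u / 2 ≤ v := by linarith [hb.1]
  have v2 : v ≤ 3 / 2 * u := by linarith [hb.2]
  have v3 : (1 - u) / 2 ≤ 1 - v := by linarith [hb.2]
  have v4 : 1 - v ≤ 3 / 2 * (1 - u) := by linarith [hb.1]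
  have hv0 : 0 ≤ v := by linarith
  have hv1 : v < 1 := by linarith
  have fy := (hPRO.1 n m v hn hv0 hv1).1
  rw [← hye] at fy
  have hW := ModCOM.wj_pos (m / 3 ^ n)
  have hX : 0 < Xv n m := lt_of_lt_of_le (ModCOM.Mc_pos _) (hPRO.2.2.2.2.1 n m hn).1
  have hWX : 0 < wj (m / 3 ^ n) * Xv n m := mul_pos hW hX
  have p1 : u * (1 - u) ≤ 4 * (v * (1 - v)) := by nlinarith
  have p2 : v * (1 - v) ≤ 4 * (u * (1 - u)) := by nlinarith
  have q1 : (u * (1 - u)) ^ 4 ≤ 256 * (v * (1 - v)) ^ 4 := by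
    calc (u * (1 - u)) ^ 4 ≤ (4 * (v * (1 - v))) ^ 4 := by
          apply pow_le_pow_left₀ (by positivity) p1
      _ = 256 * (v * (1 - v)) ^ 4 := by ring
  have q2 : (v * (1 - v)) ^ 4 ≤ 256 * (u * (1 - u)) ^ 4 := by
    calc (v * (1 - v)) ^ 4 ≤ (4 * (u * (1 - u))) ^ 4 := by
          apply pow_le_pow_left₀ (mul_nonneg hv0 (by linarith)) p2
      _ = 256 * (u * (1 - u)) ^ 4 := by ring
  rw [fx, fy]
  refine ⟨?_, ?_, ?_⟩
  · calc wj (m / 3 ^ n) * Xv n m * (630 * (u * (1 - u)) ^ 4)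
        ≤ wj (m / 3 ^ n) * Xv n m * (630 * (256 * (v * (1 - v)) ^ 4)) := by gcongr
      _ = 256 * (wj (m / 3 ^ n) * Xv n m * (630 * (v * (1 - v)) ^ 4)) := by ring
  · calc wj (m / 3 ^ n) * Xv n m * (630 * (v * (1 - v)) ^ 4)
        ≤ wj (m / 3 ^ n) * Xv n m * (630 * (256 * (u * (1 - u)) ^ 4)) := by gcongr
      _ = 256 * (wj (m / 3 ^ n) * Xv n m * (630 * (u * (1 - u)) ^ 4)) := by ring
  · positivity

end Pool.Agent.T6.H52.LS
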