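import Pool.Agent.T6.H52.LS.Defs

/-!
Project LS, module CURV: a curve with a bound for the speed.
-/

set_option autoImplicit false
open MeasureTheory Filter Topology Metric Set
open scoped ENNReal NNReal

namespace Pool.Agent.T6.H52.LS

namespace ModCURV

/-- the projection to an interval -/
noncomputable def cl (a b x : ℝ) : ℝ := max a (min b x)

theorem cl_mem {a b : ℝ} (h : a ≤ b) (x : ℝ) : cl a b x ∈ Icc a b :=
  ⟨le_max_left _ _, max_le h (min_le_left _ _)⟩

theorem cl_eq {a b x : ℝ} (h : x ∈ Icc a b) : cl a b x = x := by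
  unfold cl
  rw [min_eq_right h.2, max_eq_right h.1]

theorem cl_cont (a b : ℝ) : Continuous (cl a b) := by
  unfold cl
  fun_prop

/-- pushforward of `v dt` under the primitive of `v` -/
theorem push {a b : ℝ} (hab : a ≤ b) {v : ℝ → ℝ} (hv0 : ∀ x, 0 ≤ v x)
    (hvi : IntegrableOn v (Icc a b)) :
    Continuous (fun t => ∫ x in a..cl a b t, v x) ∧
    Measure.map (fun t => ∫ x in a..cl a b t, v x)
      ((volume.withDensity fun t => ENNReal.ofReal (v t)).restrict (Icc a b)) =
      volume.restrict (Icc 0 (∫ x in a..b, v x)) := by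
  have hcon : ContinuousOn (fun t => ∫ x in a..t, v x) (Icc a b) := by
    have := intervalIntegral.continuousOn_primitive_interval (μ := volume) (f := v) (a := a) (b := b)
      (by rwa [uIcc_of_le hab])
    rwa [uIcc_of_le hab] at this
  have hΦ : Continuous (fun t => ∫ x in a..cl a b t, v x) :=
    hcon.comp_continuous (cl_cont a b) (cl_mem hab)
  refine ⟨hΦ, ?_⟩
  have hii : ∀ s ∈ Icc a b, ∀ t ∈ Icc a b, IntervalIntegrable v volume s t := by
    intro s hs t ht
    apply (hvi.mono_set _).intervalIntegrable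
    exact uIcc_subset_Icc hs ht
  have hmono : ∀ s ∈ Icc a b, ∀ t ∈ Icc a b, s ≤ t → ∫ x in a..s, v x ≤ ∫ x in a..t, v x := by
    intro s hs t ht hst
    have ha : a ∈ Icc a b := ⟨le_rfl, hab⟩
    rw [← sub_nonneg, intervalIntegral.integral_interval_sub_left (hii a ha t ht) (hii a ha s hs)]
    exact intervalIntegral.integral_nonneg hst fun x _ => hv0 x
  set T := ∫ x in a..b, v x with hT
  have hT0 : 0 ≤ T := intervalIntegral.integral_nonneg hab fun x _ => hv0 x
  symm
  apply Measure.ext_of_Iic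
  intro c
  rw [Measure.map_apply hΦ.measurable measurableSet_Iic,
    Measure.restrict_apply measurableSet_Iic,
    Measure.restrict_apply (hΦ.measurable measurableSet_Iic)]
  rcases lt_or_ge c 0 with hc | hc
  · have e1 : Iic c ∩ Icc 0 T = ∅ := by
      ext x
      simp only [mem_inter_iff, mem_Iic, mem_Icc, mem_empty_iff_false, iff_false]
      rintro ⟨h1, h2, -⟩
      linarith
    have e2 : (fun t => ∫ x in a..cl a b t, v x) ⁻¹' Iic c ∩ Icc a b = ∅ := by
      ext x
      simp only [mem_inter_iff, mem_preimage, mem_Iic, mem_Icc, mem_empty_iff_false, iff_false]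
      rintro ⟨h1, -⟩
      have : 0 ≤ ∫ x in a..cl a b x, v x :=
        intervalIntegral.integral_nonneg (cl_mem hab x).1 fun x _ => hv0 x
      linarith
    rw [e1, e2]
    simp
  · -- the greatest `t` with `Φ t ≤ c`
    have hK : IsCompact ((fun t => ∫ x in a..cl a b t, v x) ⁻¹' Iic c ∩ Icc a b) :=
      isCompact_Icc.inter_left (isClosed_Iic.preimage hΦ)
    have hne : ((fun t => ∫ x in a..cl a b t, v x) ⁻¹' Iic c ∩ Icc a b).Nonempty := by
      refine ⟨a, ?_, le_rfl, hab⟩
      simp only [mem_preimage, mem_Iic]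
      rw [cl_eq ⟨le_rfl, hab⟩, intervalIntegral.integral_same]
      exact hc
    obtain ⟨t, ⟨ht1, ht2⟩, htg⟩ := hK.exists_isGreatest hne
    simp only [mem_preimage, mem_Iic] at ht1
    rw [cl_eq ht2] at ht1
    have hset : (fun t => ∫ x in a..cl a b t, v x) ⁻¹' Iic c ∩ Icc a b = Icc a t := by
      ext x
      constructor
      · intro hx
        exact ⟨hx.2.1, htg hx⟩
      · intro hx
        have hxb : x ∈ Icc a b := ⟨hx.1, hx.2.trans ht2.2⟩
        refine ⟨?_, hxb⟩
        simp only [mem_preimage, mem_Iic]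
        rw [cl_eq hxb]
        exact (hmono x hxb t ht2 hx.2).trans ht1
    have hval : ∫ x in a..t, v x = min c T := by
      apply le_antisymm
      · exact le_min ht1 (hmono t ht2 b ⟨hab, le_rfl⟩ ht2.2)
      · have hivt := intermediate_value_Icc hab hcon
        rw [intervalIntegral.integral_same] at hivt
        obtain ⟨t', ht', ht''⟩ := hivt (show min c T ∈ Icc 0 T from ⟨le_min hc hT0, min_le_right _ _⟩)
        simp only at ht''
        have h1 : t' ≤ t := by
          apply htg
          refine ⟨?_, ht'⟩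
          simp only [mem_preimage, mem_Iic]
          rw [cl_eq ht', ht'']
          exact min_le_left _ _
        rw [← ht'']
        exact hmono t' ht' t ht2 h1
    have hset2 : Iic c ∩ Icc 0 T = Icc 0 (min c T) := by
      ext x
      simp only [mem_inter_iff, mem_Iic, mem_Icc, le_min_iff]
      tauto
    rw [hset, hset2, Real.volume_Icc, sub_zero, ← hval, withDensity_apply _ measurableSet_Icc,
      intervalIntegral.integral_of_le ht2.1, ← integral_Icc_eq_integral_Ioc]
    exact ofReal_integral_eq_lintegral_ofReal (hvi.mono_set (Icc_subset_Icc le_rfl ht2.2))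
      (Filter.Eventually.of_forall hv0)

/-- a `1`-Lipschitz surjection -/
theorem lipmu {T L : ℝ} (hT : 0 ≤ T) {S : ℝ → ℝ} (hS : LipschitzOnWith 1 S (Icc 0 T))
    (himg : Icc 0 L ⊆ S '' Icc 0 T) :
    volume.restrict (Icc 0 L) ≤
      Measure.map (fun x => S (cl 0 T x)) (volume.restrict (Icc 0 T)) := by
  have hcont : Continuous (fun x => S (cl 0 T x)) :=
    hS.continuousOn.comp_continuous (cl_cont 0 T) (cl_mem hT)
  rw [Measure.le_iff]
  intro A hA
  rw [Measure.map_apply hcont.measurable hA, Measure.restrict_apply hA,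
    Measure.restrict_apply (hcont.measurable hA)]
  have h1 : A ∩ Icc 0 L ⊆ S '' ((fun x => S (cl 0 T x)) ⁻¹' A ∩ Icc 0 T) := by
    rintro y ⟨hyA, hyL⟩
    obtain ⟨x, hx, rfl⟩ := himg hyL
    refine ⟨x, ⟨?_, hx⟩, rfl⟩
    simp only [mem_preimage]
    rwa [cl_eq hx]
  refine (measure_mono h1).trans ?_
  have h2 := (hS.mono (inter_subset_right :
    (fun x => S (cl 0 T x)) ⁻¹' A ∩ Icc 0 T ⊆ Icc 0 T)).hausdorffMeasure_image_le
    (zero_le_one : (0 : ℝ) ≤ 1)
  rw [hausdorffMeasure_real] at h2
  simpa using h2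

/-- the parametrisation by arc length of a `1`-Lipschitz curve -/
theorem unit {X : Type} [MetricSpace X] [MeasurableSpace X] [BorelSpace X] {T : ℝ} (hT : 0 ≤ T)
    {G : ℝ → X} (hG : LipschitzOnWith 1 G (Icc 0 T)) {ρ : X → ℝ≥0∞} (hρ : Measurable ρ) :
    Lk ρ (G 0) (G T) (∫⁻ w in Icc 0 T, ρ (G w)) := by
  have hbv := hG.locallyBoundedVariationOn
  have h0 : (0 : ℝ) ∈ Icc 0 T := ⟨le_rfl, hT⟩
  have hTm : T ∈ Icc 0 T := ⟨hT, le_rfl⟩
  have hun := has_unit_speed_naturalParameterization G hbv h0
  have hS0 : variationOnFromTo G (Icc 0 T) 0 0 = 0 := variationOnFromTo.self G _ 0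
  have hmono : MonotoneOn (variationOnFromTo G (Icc 0 T) 0) (Icc 0 T) :=
    variationOnFromTo.monotoneOn hbv h0
  have hγ : ∀ t ∈ Icc 0 T, naturalParameterization G (Icc 0 T) 0
      (variationOnFromTo G (Icc 0 T) 0 t) = G t := fun t ht =>
    edist_eq_zero.1 (edist_naturalParameterization_eq_zero hbv h0 ht)
  have hincr : ∀ x ∈ Icc 0 T, ∀ y ∈ Icc 0 T, x ≤ y →
      variationOnFromTo G (Icc 0 T) 0 y - variationOnFromTo G (Icc 0 T) 0 x ≤ y - x := by
    intro x hx y hy hxy
    have h1 := variationOnFromTo.add hbv h0 hx hy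
    have h2 : variationOnFromTo G (Icc 0 T) x y ≤ y - x := by
      rw [variationOnFromTo.eq_of_le _ _ hxy]
      have h3 : eVariationOn G (Icc 0 T ∩ Icc x y) ≤ ENNReal.ofReal (y - x) := by
        have h4 := hG.comp_eVariationOn_le (g := id) (s := Icc 0 T ∩ Icc x y)
          (fun z hz => hz.1)
        rw [eVariationOn_id hx hy] at h4
        simpa using h4
      calc (eVariationOn G (Icc 0 T ∩ Icc x y)).toReal ≤ (ENNReal.ofReal (y - x)).toReal :=
            ENNReal.toReal_mono ENNReal.ofReal_ne_top h3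
        _ = y - x := ENNReal.toReal_ofReal (by linarith)
    linarith
  set S := variationOnFromTo G (Icc 0 T) 0 with hSdef
  set γ := naturalParameterization G (Icc 0 T) 0 with hγdef
  have hSlip : LipschitzOnWith 1 S (Icc 0 T) := by
    apply LipschitzOnWith.of_dist_le_mul
    intro x hx y hy
    rw [NNReal.coe_one, one_mul]
    rcases le_total x y with h | h
    · rw [dist_comm, Real.dist_eq, dist_comm, Real.dist_eq, abs_of_nonneg (by linarith [hmono hx hy h]),
        abs_of_nonneg (by linarith)]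
      exact hincr x hx y hy h
    · rw [Real.dist_eq, Real.dist_eq, abs_of_nonneg (by linarith [hmono hy hx h]),
        abs_of_nonneg (by linarith)]
      exact hincr y hy x hx h
  have himg : S '' Icc 0 T = Icc 0 (S T) := by
    apply Subset.antisymm
    · rintro _ ⟨x, hx, rfl⟩
      exact ⟨hS0 ▸ hmono h0 hx hx.1, hmono hx hTm hx.2⟩
    · have := intermediate_value_Icc hT hSlip.continuousOn
      rwa [hS0] at this
  have hL : 0 ≤ S T := hS0 ▸ hmono h0 hTm hT
  rw [himg] at hun
  -- `γ` is Lipschitz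
  have hγlip : LipschitzOnWith 1 γ (Icc 0 (S T)) := by
    have key : ∀ x ∈ Icc 0 (S T), ∀ y ∈ Icc 0 (S T), x ≤ y →
        edist (γ x) (γ y) ≤ ENNReal.ofReal (y - x) := by
      intro x hx y hy hxy
      have h1 := hun hx hy
      rw [NNReal.coe_one, one_mul] at h1
      rw [← h1]
      exact eVariationOn.edist_le γ ⟨hx, le_rfl, hxy⟩ ⟨hy, hxy, le_rfl⟩
    intro x hx y hy
    rw [ENNReal.coe_one, one_mul]
    rcases le_total x y with h | h
    · rw [edist_comm x y, edist_dist y x, Real.dist_eq, abs_of_nonneg (by linarith)]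
      exact key x hx y hy h
    · rw [edist_comm, edist_dist x y, Real.dist_eq, abs_of_nonneg (by linarith)]
      exact key y hy x hx h
  have hγc : Continuous (fun σ => γ (cl 0 (S T) σ)) :=
    hγlip.continuousOn.comp_continuous (cl_cont 0 _) (cl_mem hL)
  have hSc : Continuous (fun w => S (cl 0 T w)) :=
    hSlip.continuousOn.comp_continuous (cl_cont 0 T) (cl_mem hT)
  refine ⟨S T, γ, hL, hun, ?_, ?_, ?_⟩
  · have := hγ 0 h0
    rwa [hS0] at this
  · exact hγ T hTm
  · calc ∫⁻ s in Icc 0 (S T), ρ (γ s) = ∫⁻ s in Icc 0 (S T), ρ (γ (cl 0 (S T) s)) := by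
          apply setLIntegral_congr_fun measurableSet_Icc
          intro s hs
          simp only [cl_eq hs]
      _ ≤ ∫⁻ s, ρ (γ (cl 0 (S T) s)) ∂(Measure.map (fun w => S (cl 0 T w))
            (volume.restrict (Icc 0 T))) :=
          lintegral_mono' (lipmu hT hSlip himg.ge) le_rfl
      _ = ∫⁻ w in Icc 0 T, ρ (γ (cl 0 (S T) (S (cl 0 T w)))) :=
          lintegral_map (hρ.comp hγc.measurable) hSc.measurable
      _ = ∫⁻ w in Icc 0 T, ρ (G w) := by
          apply setLIntegral_congr_fun measurableSet_Icc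
          intro w hw
          have h1 : S w ∈ Icc 0 (S T) := by rw [← himg]; exact ⟨w, hw, rfl⟩
          simp only [cl_eq hw, cl_eq h1, hγ w hw]
      _ ≤ _ := le_rfl

end ModCURV

open ModCURV in
theorem mCURV : StmCURV := by
  intro X _ _ _ ρ g a b v hρ hab hv hv0 hvi hg
  obtain ⟨hΦc, hpush⟩ := push hab hv0 hvi
  have ha : a ∈ Icc a b := ⟨le_rfl, hab⟩
  have hb : b ∈ Icc a b := ⟨hab, le_rfl⟩
  have hii : ∀ s ∈ Icc a b, ∀ t ∈ Icc a b, IntervalIntegrable v volume s t := by
    intro s hs t ht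
    apply (hvi.mono_set _).intervalIntegrable
    exact uIcc_subset_Icc hs ht
  have hcon : ContinuousOn (fun t => ∫ x in a..t, v x) (Icc a b) := by
    have := intervalIntegral.continuousOn_primitive_interval (μ := volume) (f := v) (a := a) (b := b)
      (by rwa [uIcc_of_le hab])
    rwa [uIcc_of_le hab] at this
  set T := ∫ x in a..b, v x with hT
  have hT0 : 0 ≤ T := intervalIntegral.integral_nonneg hab fun x _ => hv0 x
  -- distances
  have hdist : ∀ s ∈ Icc a b, ∀ t ∈ Icc a b,
      dist (g s) (g t) ≤ |(∫ x in a..t, v x) - ∫ x in a..s, v x| := by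
    intro s hs t ht
    rw [intervalIntegral.integral_interval_sub_left (hii a ha t ht) (hii a ha s hs)]
    rcases le_total s t with h | h
    · exact (hg s t hs.1 h ht.2).trans (le_abs_self _)
    · rw [dist_comm, intervalIntegral.integral_symm, abs_neg]
      exact (hg t s ht.1 h hs.2).trans (le_abs_self _)
  have hex : ∀ w ∈ Icc 0 T, ∃ t ∈ Icc a b, ∫ x in a..t, v x = w := by
    intro w hw
    have hivt := intermediate_value_Icc hab hcon
    rw [intervalIntegral.integral_same] at hivt
    obtain ⟨t, ht, ht'⟩ := hivt hw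
    exact ⟨t, ht, ht'⟩
  choose! τ hτ1 hτ2 using hex
  have hG : ∀ t ∈ Icc a b, (∫ x in a..t, v x) ∈ Icc 0 T → g (τ (∫ x in a..t, v x)) = g t := by
    intro t ht htT
    apply dist_le_zero.1
    refine (hdist _ (hτ1 _ htT) t ht).trans ?_
    rw [hτ2 _ htT, sub_self, abs_zero]
  have hΦmem : ∀ t ∈ Icc a b, (∫ x in a..t, v x) ∈ Icc 0 T := by
    intro t ht
    refine ⟨intervalIntegral.integral_nonneg ht.1 fun x _ => hv0 x, ?_⟩
    rw [hT, ← sub_nonneg, intervalIntegral.integral_interval_sub_left (hii a ha b hb) (hii a ha t ht)]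
    exact intervalIntegral.integral_nonneg ht.2 fun x _ => hv0 x
  have hlip : LipschitzOnWith 1 (fun w => g (τ w)) (Icc 0 T) := by
    apply LipschitzOnWith.of_dist_le_mul
    intro x hx y hy
    rw [NNReal.coe_one, one_mul]
    refine (hdist _ (hτ1 x hx) _ (hτ1 y hy)).trans ?_
    rw [hτ2 x hx, hτ2 y hy, Real.dist_eq, abs_sub_comm]
  have hGc : Continuous (fun w => g (τ (cl 0 T w))) :=
    hlip.continuousOn.comp_continuous (cl_cont 0 T) (cl_mem hT0)
  obtain ⟨L, γ, h1, h2, h3, h4, h5⟩ := unit hT0 hlip hρ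
  refine ⟨L, γ, h1, h2, ?_, ?_, ?_⟩
  · rw [h3]
    have := hG a ha (hΦmem a ha)
    rwa [intervalIntegral.integral_same] at this
  · rw [h4]
    exact hG b hb (hΦmem b hb)
  · refine h5.trans (le_of_eq ?_)
    calc ∫⁻ w in Icc 0 T, ρ (g (τ w)) = ∫⁻ w in Icc 0 T, ρ (g (τ (cl 0 T w))) := by
          apply setLIntegral_congr_fun measurableSet_Icc
          intro w hw
          simp only [cl_eq hw]
      _ = ∫⁻ t in Icc a b, ρ (g (τ (cl 0 T (∫ x in a..cl a b t, v x))))
            ∂(volume.withDensity fun t => ENNReal.ofReal (v t)) := by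
          rw [← hpush]
          exact lintegral_map (hρ.comp hGc.measurable) hΦc.measurable
      _ = ∫⁻ t in Icc a b, ENNReal.ofReal (v t) *
            ρ (g (τ (cl 0 T (∫ x in a..cl a b t, v x)))) := by
          exact setLIntegral_withDensity_eq_setLIntegral_mul _ hv.ennreal_ofReal
            (hρ.comp (hGc.measurable.comp hΦc.measurable)) measurableSet_Icc
      _ = ∫⁻ t in Icc a b, ρ (g t) * ENNReal.ofReal (v t) := by
          apply setLIntegral_congr_fun measurableSet_Icc
          intro t ht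
          simp only [cl_eq ht, cl_eq (hΦmem t ht), hG t ht (hΦmem t ht)]
          rw [mul_comm]

end Pool.Agent.T6.H52.LS
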