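import Pool.Agent.T6.H52.LS.Defs

/-!
Module DB: consequences of the doubling property.
-/

set_option autoImplicit false
open MeasureTheory Filter Topology Metric Set
open scoped ENNReal NNReal

namespace Pool.Agent.T6.H52.LS

namespace ModDB

variable {f : ℝ → ℝ} {C : Set ℝ} {Y : ℝ → ℝ → ℝ} {K : ℝ}

lemma f_le (h : Dat f C Y K) (x : ℝ) : f x ≤ K := by
  have h1 := h.le x
  have h2 := h.nonneg x
  have h3 : (1 : ℝ) ≤ (1 + |x|) ^ 2 := by nlinarith [abs_nonneg x]
  nlinarith

lemma ii (h : Dat f C Y K) (a b : ℝ) : IntervalIntegrable f volume a b := by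
  rw [intervalIntegrable_iff]
  apply Measure.integrableOn_of_bounded (M := K)
  · rw [uIoc]
    exact measure_Ioc_lt_top.ne
  · exact h.meas.aestronglyMeasurable
  · refine Eventually.of_forall fun x => ?_
    rw [Real.norm_eq_abs, abs_of_nonneg (h.nonneg x)]
    exact f_le h x

lemma int_mono (h : Dat f C Y K) {a b c d : ℝ} (hca : c ≤ a) (hab : a ≤ b) (hbd : b ≤ d) :
    ∫ x in a..b, f x ≤ ∫ x in c..d, f x :=
  intervalIntegral.integral_mono_interval hca hab hbd
    (Eventually.of_forall fun x => h.nonneg x) (ii h c d)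

lemma V_mono (h : Dat f C Y K) {x x' r r' : ℝ} (hr : 0 ≤ r') (hx : |x - x'| + r' ≤ r) :
    V f x' r' ≤ V f x r := by
  have h1 := abs_le.1 (le_refl |x - x'|)
  unfold V
  apply int_mono h <;> linarith [h1.1, h1.2]

lemma V_mono' (h : Dat f C Y K) {x r r' : ℝ} (hr : 0 ≤ r') (hx : r' ≤ r) :
    V f x r' ≤ V f x r := by
  apply V_mono h hr
  simpa using hx

lemma V_nonneg (h : Dat f C Y K) {x r : ℝ} (hr : 0 ≤ r) : 0 ≤ V f x r := by
  unfold V
  exact intervalIntegral.integral_nonneg (by linarith) (fun u _ => h.nonneg u)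

lemma iter (h : Dat f C Y K) (x : ℝ) (k : ℕ) : ∀ r R : ℝ, 0 < r → r ≤ 8 → 0 ≤ R →
    R ≤ 2 ^ k * r → R ≤ 16 → V f x R ≤ K ^ (k + 2) * V f x r := by
  have hK := h.one_le
  induction k with
  | zero =>
    intro r R hr hr8 hR hRr hR16
    have h1 : V f x R ≤ V f x r := V_mono' h hR (by simpa using hRr)
    have h2 : 1 ≤ K ^ (0 + 2) := one_le_pow₀ hK
    have h3 := V_nonneg h (x := x) hr.le
    nlinarith
  | succ k ih =>
    intro r R hr hr8 hR hRr hR16
    have hVr := V_nonneg h (x := x) hr.le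
    by_cases h4 : r ≤ 4
    · have h1 := ih (2 * r) R (by linarith) (by linarith) hR
        (by rw [pow_succ] at hRr; linarith) hR16
      have h2 := h.dbl x r hr hr8
      calc V f x R ≤ K ^ (k + 2) * V f x (2 * r) := h1
        _ ≤ K ^ (k + 2) * (K * V f x r) := by
            apply mul_le_mul_of_nonneg_left h2 (by positivity)
        _ = K ^ (k + 1 + 2) * V f x r := by ring
    · push Not at h4
      have h1 : V f x R ≤ V f x (2 * 8) := V_mono' h hR (by linarith)
      have h2 := h.dbl x 8 (by norm_num) (by norm_num)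
      have h3 : V f x 8 ≤ V f x (2 * r) := V_mono' h (by norm_num) (by linarith)
      have h5 := h.dbl x r hr hr8
      have h6 : K ^ 2 ≤ K ^ (k + 1 + 2) := pow_le_pow_right₀ hK (by omega)
      calc V f x R ≤ V f x (2 * 8) := h1
        _ ≤ K * V f x 8 := h2
        _ ≤ K * (K * V f x r) := by
            apply mul_le_mul_of_nonneg_left _ (by linarith)
            linarith
        _ = K ^ 2 * V f x r := by ring
        _ ≤ K ^ (k + 1 + 2) * V f x r := mul_le_mul_of_nonneg_right h6 hVr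

lemma pos (h : Dat f C Y K) (x r : ℝ) (hr : 0 < r) : 0 < V f x r := by
  have hK := h.one_le
  have h1 : 0 < V f x 1 := by
    have h2 := h.low x
    by_contra hcon
    push Not at hcon
    have h3 : (1 + |x|) ^ 4 * V f x 1 ≤ 0 :=
      mul_nonpos_of_nonneg_of_nonpos (by positivity) hcon
    nlinarith
  by_cases hr1 : r ≤ 1
  · obtain ⟨k, hk⟩ := pow_unbounded_of_one_lt (1 / r) (show (1 : ℝ) < 2 by norm_num)
    have h2 : 1 ≤ 2 ^ k * r := by
      rw [div_lt_iff₀ hr] at hk
      exact hk.le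
    have h3 := iter h x k r 1 hr (by linarith) (by norm_num) h2 (by norm_num)
    have h4 : 0 < K ^ (k + 2) * V f x r := lt_of_lt_of_le h1 h3
    exact pos_of_mul_pos_right h4 (by positivity)
  · push Not at hr1
    exact lt_of_lt_of_le h1 (V_mono' h (by norm_num) hr1.le)

lemma two (h : Dat f C Y K) (A : ℝ) (hA : 1 ≤ A) : ∃ K' : ℝ, 1 ≤ K' ∧ ∀ x x' r r' : ℝ, 0 < r →
    r ≤ 4 → 0 ≤ r' → r' ≤ A * r → r' ≤ 8 → |x - x'| ≤ A * r → |x - x'| ≤ 8 →
    V f x' r' ≤ K' * V f x r := by
  obtain ⟨k, hk⟩ := pow_unbounded_of_one_lt (2 * A) (show (1 : ℝ) < 2 by norm_num)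
  refine ⟨K ^ (k + 2), one_le_pow₀ h.one_le, ?_⟩
  intro x x' r r' hr hr4 hr' h1 h2 h3 h4
  have h5 : V f x' r' ≤ V f x (|x - x'| + r') := V_mono h hr' (le_refl _)
  refine le_trans h5 ?_
  apply iter h x k r _ hr (by linarith) (by positivity)
  · have : 2 * A * r ≤ 2 ^ k * r := mul_le_mul_of_nonneg_right hk.le hr.le
    linarith
  · linarith

lemma three (h : Dat f C Y K) : ∃ (α K' : ℝ), 0 < α ∧ α ≤ 1 ∧ 1 ≤ K' ∧ ∀ x r ε : ℝ, 0 < r →
    r ≤ 4 → 0 < ε → ε ≤ 1 → V f x (ε * r) ≤ K' * ε ^ α * V f x r := by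
  obtain ⟨K₂, hK₂, h2⟩ := two h 3 (by norm_num)
  obtain ⟨q, hq⟩ : ∃ q : ℝ, q = max (K₂ / (K₂ + 1)) (1 / 4) := ⟨_, rfl⟩
  have hq4 : 1 / 4 ≤ q := by rw [hq]; exact le_max_right _ _
  have hqK : K₂ / (K₂ + 1) ≤ q := by rw [hq]; exact le_max_left _ _
  have hq1 : q < 1 := by
    rw [hq]
    apply max_lt _ (by norm_num)
    rw [div_lt_one (by linarith)]
    linarith
  have hq0 : 0 < q := by linarith
  have hstep : ∀ x r : ℝ, 0 < r → r ≤ 4 → V f x (r / 4) ≤ q * V f x r := by
    intro x r hr hr4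
    have hV := V_nonneg h (x := x) hr.le
    have h3 := h2 (x + 3 * (r / 4)) x (r / 4) (r / 4) (by linarith) (by linarith) (by linarith)
      (by linarith) (by linarith)
      (by rw [add_sub_cancel_left, abs_of_pos (by linarith)])
      (by rw [add_sub_cancel_left, abs_of_pos (by linarith)]; linarith)
    have h4 : V f x (r / 4) + V f (x + 3 * (r / 4)) (r / 4) ≤ V f x r := by
      unfold V
      have e1 : x + 3 * (r / 4) - r / 4 = x + r / 2 := by ring
      have e2 : x + 3 * (r / 4) + r / 4 = x + r := by ring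
      rw [e1, e2]
      have h5 : ∫ s in (x - r / 4)..(x + r / 4), f s ≤ ∫ s in (x - r)..(x + r / 2), f s := by
        apply int_mono h <;> linarith
      have h6 := intervalIntegral.integral_add_adjacent_intervals (ii h (x - r) (x + r / 2))
        (ii h (x + r / 2) (x + r))
      linarith
    have h5 : V f x (r / 4) * (K₂ + 1) ≤ K₂ * V f x r := by
      have h6 : K₂ * (V f x (r / 4) + V f (x + 3 * (r / 4)) (r / 4)) ≤ K₂ * V f x r :=
        mul_le_mul_of_nonneg_left h4 (by linarith)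
      nlinarith
    have h6 : V f x (r / 4) ≤ K₂ / (K₂ + 1) * V f x r := by
      rw [div_mul_eq_mul_div, le_div_iff₀ (by linarith)]
      exact h5
    exact le_trans h6 (mul_le_mul_of_nonneg_right hqK hV)
  have hiter : ∀ n : ℕ, ∀ x r : ℝ, 0 < r → r ≤ 4 → V f x ((1 / 4) ^ n * r) ≤ q ^ n * V f x r := by
    intro n
    induction n with
    | zero => intro x r _ _; simp
    | succ n ih =>
      intro x r hr hr4
      have h3 := ih x (r / 4) (by linarith) (by linarith)
      have h4 := hstep x r hr hr4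
      calc V f x ((1 / 4) ^ (n + 1) * r) = V f x ((1 / 4) ^ n * (r / 4)) := by
            congr 1; ring
        _ ≤ q ^ n * V f x (r / 4) := h3
        _ ≤ q ^ n * (q * V f x r) := mul_le_mul_of_nonneg_left h4 (by positivity)
        _ = q ^ (n + 1) * V f x r := by ring
  have hlog4 : 0 < Real.log 4 := Real.log_pos (by norm_num)
  obtain ⟨α, hα⟩ : ∃ α : ℝ, α = -Real.log q / Real.log 4 := ⟨_, rfl⟩
  have hα0 : 0 < α := by
    rw [hα]
    apply div_pos _ hlog4
    have := Real.log_neg hq0 hq1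
    linarith
  have hα1 : α ≤ 1 := by
    rw [hα, div_le_one hlog4]
    have h3 : Real.log (1 / 4) ≤ Real.log q := Real.log_le_log (by norm_num) hq4
    rw [one_div, Real.log_inv] at h3
    linarith
  have hqα : q = (1 / 4 : ℝ) ^ α := by
    rw [Real.rpow_def_of_pos (by norm_num), one_div, Real.log_inv, hα]
    rw [show -Real.log 4 * (-Real.log q / Real.log 4) = Real.log q by field_simp]
    rw [Real.exp_log hq0]
  refine ⟨α, 4, hα0, hα1, by norm_num, ?_⟩
  intro x r ε hr hr4 hε hε1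
  obtain ⟨n, hn1, hn2⟩ := exists_nat_pow_near_of_lt_one hε hε1 (show (0 : ℝ) < 1 / 4 by norm_num)
    (show (1 / 4 : ℝ) < 1 by norm_num)
  have hV := V_nonneg h (x := x) hr.le
  calc V f x (ε * r) ≤ V f x ((1 / 4) ^ n * r) := by
        apply V_mono' h (by positivity)
        exact mul_le_mul_of_nonneg_right hn2 hr.le
    _ ≤ q ^ n * V f x r := hiter n x r hr hr4
    _ ≤ 4 * ε ^ α * V f x r := by
        apply mul_le_mul_of_nonneg_right _ hV
        have h3 : ((1 / 4 : ℝ) ^ (n + 1)) ^ α ≤ ε ^ α :=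
          Real.rpow_le_rpow (by positivity) hn1.le hα0.le
        have h4 : ((1 / 4 : ℝ) ^ (n + 1)) ^ α = q ^ n * q := by
          rw [← Real.rpow_natCast, ← Real.rpow_mul (by norm_num), mul_comm, Real.rpow_mul
            (by norm_num), ← hqα, Real.rpow_natCast, pow_succ]
        rw [h4] at h3
        have h5 : 0 < q ^ n := by positivity
        nlinarith

end ModDB

open ModDB in
theorem mDB : StmDB := by
  intro f C Y K h
  exact ⟨pos h, two h, three h⟩

end Pool.Agent.T6.H52.LS
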