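import Pool.Agent.T6.H52.LS.Defs

set_option autoImplicit false
open MeasureTheory Filter Topology Metric Set
open scoped ENNReal NNReal

namespace Pool.Agent.T6.H52.LS

namespace ModDBX

noncomputable section

/-! ### Covers from labels -/

theorem cov {X ι : Type} [MetricSpace X] [DecidableEq ι] (T : Finset ι) (κ : X → ι) (p : X)
    (R R' : ℝ) (h1 : ∀ q ∈ ball p R, κ q ∈ T)
    (h2 : ∀ q ∈ ball p R, ∀ q' ∈ ball p R, κ q = κ q' → dist q q' < R') :
    ∃ s : Finset X, s.card ≤ T.card ∧ ball p R ⊆ ⋃ y ∈ s, ball y R' := by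
  classical
  refine ⟨T.image (fun t => if h : ∃ q ∈ ball p R, κ q = t then h.choose else p),
    Finset.card_image_le, ?_⟩
  intro q hq
  have h : ∃ q' ∈ ball p R, κ q' = κ q := ⟨q, hq, rfl⟩
  simp only [mem_iUnion]
  refine ⟨h.choose, ?_, ?_⟩
  · rw [Finset.mem_image]
    exact ⟨κ q, h1 q hq, by rw [dif_pos h]⟩
  · exact h2 q hq _ h.choose_spec.1 h.choose_spec.2.symm

theorem fl_mem {z : ℝ} {L : ℤ} (h : |z| ≤ (L : ℝ)) : ⌊z⌋ ∈ Finset.Icc (-(L + 1)) (L + 1) := by
  have h1 := abs_le.mp h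
  rw [Finset.mem_Icc]
  constructor
  · rw [Int.le_floor]; push_cast; linarith [h1.1]
  · have : ⌊z⌋ ≤ L := by
      have h2 : (⌊z⌋ : ℝ) ≤ L := (Int.floor_le z).trans h1.2
      exact_mod_cast h2
    omega

theorem fl_eq {a b s : ℝ} (hs : 0 < s) (h : ⌊a / s⌋ = ⌊b / s⌋) : |a - b| < s := by
  have h1 := Int.abs_sub_lt_one_of_floor_eq_floor h
  rw [← sub_div, abs_div, abs_of_pos hs, div_lt_one hs] at h1
  exact h1

/-! ### The function `f` -/

variable {f : ℝ → ℝ} {C : Set ℝ} {Y : ℝ → ℝ → ℝ} {K : ℝ}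

theorem f_le (D : Dat f C Y K) (x : ℝ) : f x ≤ K := by
  have h1 := D.le x
  have h2 := D.nonneg x
  have h3 : (1 : ℝ) ≤ (1 + |x|) ^ 2 := by
    have := abs_nonneg x
    nlinarith
  nlinarith

theorem ii (D : Dat f C Y K) (a b : ℝ) : IntervalIntegrable f volume a b := by
  refine (intervalIntegrable_const (c := K)).mono_fun D.meas.aestronglyMeasurable
    (Eventually.of_forall fun x => ?_)
  show ‖f x‖ ≤ ‖K‖
  rw [Real.norm_of_nonneg (D.nonneg x)]
  exact (f_le D x).trans (le_abs_self K)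

theorem i0 (D : Dat f C Y K) {a b : ℝ} (h : a ≤ b) : 0 ≤ ∫ x in a..b, f x :=
  intervalIntegral.integral_nonneg h fun x _ => D.nonneg x

theorem imono (D : Dat f C Y K) {a b a' b' : ℝ} (h1 : a' ≤ a) (h2 : a ≤ b) (h3 : b ≤ b') :
    ∫ x in a..b, f x ≤ ∫ x in a'..b', f x :=
  intervalIntegral.integral_mono_interval h1 h2 h3
    (Eventually.of_forall fun x => D.nonneg x) (ii D _ _)

theorem iadd (D : Dat f C Y K) (a b d : ℝ) :
    (∫ x in a..b, f x) + ∫ x in b..d, f x = ∫ x in a..d, f x :=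
  intervalIntegral.integral_add_adjacent_intervals (ii D _ _) (ii D _ _)

theorem V0 (D : Dat f C Y K) (x : ℝ) {r : ℝ} (h : 0 ≤ r) : 0 ≤ V f x r := i0 D (by linarith)

theorem Vmono (D : Dat f C Y K) (x : ℝ) {r r' : ℝ} (h : 0 ≤ r) (h' : r ≤ r') :
    V f x r ≤ V f x r' := imono D (by linarith) (by linarith) (by linarith)

/-! ### The function `rr` -/

theorem rr0 (y : ℝ) : 0 ≤ rr C y := infDist_nonneg

theorem rr_lip (y y' : ℝ) : rr C y ≤ rr C y' + |y - y'| := by
  have := infDist_le_infDist_add_dist (s := C) (x := y) (y := y')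
  rwa [Real.dist_eq] at this

theorem per_nat (D : Dat f C Y K) {y : ℝ} (h : y ∈ C) (n : ℕ) : y + n ∈ C := by
  induction n with
  | zero => simpa using h
  | succ n ih => have := (D.per (y + n)).mpr ih; push_cast; rwa [← add_assoc]

theorem per_nat' (D : Dat f C Y K) {y : ℝ} (h : y ∈ C) (n : ℕ) : y - n ∈ C := by
  induction n with
  | zero => simpa using h
  | succ n ih =>
    apply (D.per _).mp
    push_cast
    have : y - ((n : ℝ) + 1) + 1 = y - n := by ring
    rwa [this]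

theorem rr_le (D : Dat f C Y K) (y : ℝ) : rr C y ≤ 1 := by
  obtain ⟨z, hz⟩ := D.ne
  have key : ∃ w ∈ C, |y - w| ≤ 1 := by
    obtain ⟨n, hn⟩ := Int.eq_nat_or_neg ⌊y - z⌋
    have h1 := Int.floor_le (y - z)
    have h2 := Int.lt_floor_add_one (y - z)
    rcases hn with hn | hn
    · refine ⟨z + n, per_nat D hz n, ?_⟩
      rw [hn] at h1 h2
      push_cast at h1 h2
      rw [abs_le]; constructor <;> linarith
    · refine ⟨z - n, per_nat' D hz n, ?_⟩
      rw [hn] at h1 h2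
      push_cast at h1 h2
      rw [abs_le]; constructor <;> linarith
  obtain ⟨w, hw, h⟩ := key
  have := infDist_le_dist_of_mem (x := y) hw
  rw [Real.dist_eq] at this
  exact this.trans h

/-! ### The gauge -/

theorem Gh0 (D : Dat f C Y K) (u : ℝ × ℝ) {ρ : ℝ} (h : 0 ≤ ρ) : 0 ≤ Gh f C u ρ := by
  have := rr0 (C := C) u.2
  exact mul_nonneg (V0 D _ (by linarith)) (div_nonneg h (by linarith))

theorem Ghmono (D : Dat f C Y K) (u : ℝ × ℝ) {ρ ρ' : ℝ} (h : 0 ≤ ρ) (h' : ρ ≤ ρ') :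
    Gh f C u ρ ≤ Gh f C u ρ' := by
  have hr := rr0 (C := C) u.2
  rcases h.eq_or_lt with h0 | h0
  · subst h0
    have : Gh f C u 0 = 0 := by simp [Gh]
    rw [this]; exact Gh0 D u h'
  · unfold Gh
    apply mul_le_mul (Vmono D _ (by linarith) (by linarith)) _ (div_nonneg h (by linarith))
      (V0 D _ (by linarith))
    rw [div_le_div_iff₀ (by linarith) (by linarith)]
    nlinarith

theorem Gtriv (D : Dat f C Y K) (u : ℝ × ℝ) {ρ : ℝ} (h : 0 ≤ ρ) (h' : ρ ≤ 1) :
    Gh f C u ρ ≤ K * V f u.1 1 := by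
  have hr := rr0 (C := C) u.2
  have hr1 := rr_le D u.2
  have h1 : V f u.1 (ρ + rr C u.2) ≤ K * V f u.1 1 := by
    refine (Vmono D _ (by linarith) (by linarith : ρ + rr C u.2 ≤ 2 * 1)).trans ?_
    exact D.dbl _ _ one_pos (by norm_num)
  have h2 : ρ / (ρ + rr C u.2) ≤ 1 := div_le_one_of_le₀ (by linarith) (by linarith)
  have h3 : 0 ≤ ρ / (ρ + rr C u.2) := div_nonneg h (by linarith)
  have h4 := V0 D u.1 (r := ρ + rr C u.2) (by linarith)
  unfold Gh
  calc _ ≤ V f u.1 (ρ + rr C u.2) * 1 := mul_le_mul_of_nonneg_left h2 h4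
    _ ≤ _ := by rw [mul_one]; exact h1

/-- comparison of the gauge at different points and scales -/
theorem Gcomp (D : Dat f C Y K) {K1 K3 α : ℝ} (hK1 : 1 ≤ K1) (hK3 : 1 ≤ K3) (hα : 0 < α)
    (hα1 : α ≤ 1)
    (h2 : ∀ x x' r r' : ℝ, 0 < r → r ≤ 4 → 0 ≤ r' → r' ≤ 8 * r →
      r' ≤ 8 → |x - x'| ≤ 8 * r → |x - x'| ≤ 8 → V f x' r' ≤ K1 * V f x r)
    (h3 : ∀ x r ε : ℝ, 0 < r → r ≤ 4 → 0 < ε → ε ≤ 1 → V f x (ε * r) ≤ K3 * ε ^ α * V f x r)
    (u v : ℝ × ℝ) {ρ δ ε : ℝ} (hρ : 0 < ρ) (hρ1 : ρ ≤ 1) (huv : ‖u - v‖ ≤ ρ) (hδ : 0 < δ)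
    (hδε : δ ≤ ε * ρ) (hε : 0 < ε) (hε1 : ε ≤ 1) :
    Gh f C v δ ≤ 5 * K1 * K3 * ε ^ α * Gh f C u (ρ / 2) := by
  have hru := rr0 (C := C) u.2
  have hrv := rr0 (C := C) v.2
  have hru1 := rr_le D u.2
  have hrv1 := rr_le D v.2
  have hx : |u.1 - v.1| ≤ ρ := (norm_fst_le (u - v)).trans huv
  have hy : |u.2 - v.2| ≤ ρ := (norm_snd_le (u - v)).trans huv
  have hl1 := rr_lip (C := C) u.2 v.2
  have hl2 := rr_lip (C := C) v.2 u.2
  rw [abs_sub_comm] at hl2
  have hδρ : δ ≤ ρ := hδε.trans (by nlinarith)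
  set t := δ + rr C v.2 with ht
  set T := ρ / 2 + rr C u.2 with hT
  have ht0 : 0 < t := by linarith
  have hT0 : 0 < T := by linarith
  have hεα : ε ≤ ε ^ α := by
    have := Real.rpow_le_rpow_of_exponent_ge hε hε1 hα1
    simpa using this
  have hεα0 : 0 < ε ^ α := Real.rpow_pos_of_pos hε _
  have hVT : 0 ≤ V f u.1 T := V0 D _ hT0.le
  have hg : 0 ≤ ρ / 2 / T := by positivity
  show V f v.1 t * (δ / t) ≤ 5 * K1 * K3 * ε ^ α * (V f u.1 T * (ρ / 2 / T))
  rcases le_or_gt ρ t with hc | hc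
  · have e1 : V f v.1 t ≤ K1 * V f u.1 T := by
      apply h2 u.1 v.1 T t hT0 (by linarith) ht0.le (by linarith) (by linarith) (by linarith)
        (by linarith)
    have e2 : δ / t ≤ 5 * ε * (ρ / 2 / T) := by
      have e3 : T ≤ 5 / 2 * t := by linarith
      rw [div_div, ← mul_div_assoc, div_le_div_iff₀ ht0 (by positivity)]
      have : δ * (2 * T) ≤ ε * ρ * (5 * t) := by
        apply mul_le_mul hδε (by linarith) (by linarith) (by positivity)
      nlinarith
    calc V f v.1 t * (δ / t) ≤ (K1 * V f u.1 T) * (5 * ε * (ρ / 2 / T)) := by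
          apply mul_le_mul e1 e2 (by positivity) (by positivity)
      _ = (5 * K1 * (V f u.1 T * (ρ / 2 / T))) * ε := by ring
      _ ≤ (5 * K1 * (V f u.1 T * (ρ / 2 / T))) * (K3 * ε ^ α) := by
          apply mul_le_mul_of_nonneg_left _ (by positivity)
          nlinarith
      _ = _ := by ring
  · have e0 : V f v.1 t ≤ K3 * (t / ρ) ^ α * V f v.1 ρ := by
      have := h3 v.1 ρ (t / ρ) hρ (by linarith) (by positivity) (by rw [div_le_one hρ]; exact hc.le)
      rwa [div_mul_cancel₀ _ hρ.ne'] at this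
    have e1 : V f v.1 ρ ≤ K1 * V f u.1 T := by
      apply h2 u.1 v.1 T ρ hT0 (by linarith) hρ.le (by linarith) (by linarith) (by linarith)
        (by linarith)
    have e2 : (t / ρ) ^ α * (δ / t) ≤ ε ^ α := by
      have hb1 : δ / t ≤ 1 := by rw [div_le_one ht0]; linarith
      have hb0 : 0 < δ / t := by positivity
      have e3 : δ / t ≤ (δ / t) ^ α := by
        have := Real.rpow_le_rpow_of_exponent_ge hb0 hb1 hα1
        simpa using this
      calc (t / ρ) ^ α * (δ / t) ≤ (t / ρ) ^ α * (δ / t) ^ α :=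
            mul_le_mul_of_nonneg_left e3 (by positivity)
        _ = (t / ρ * (δ / t)) ^ α := (Real.mul_rpow (by positivity) hb0.le).symm
        _ ≤ ε ^ α := by
            apply Real.rpow_le_rpow (by positivity) _ hα.le
            have : t / ρ * (δ / t) = δ / ρ := by field_simp
            rw [this, div_le_iff₀ hρ]; exact hδε
    have e4 : 1 ≤ 5 * (ρ / 2 / T) := by
      have : T ≤ 5 / 2 * ρ := by linarith
      rw [div_div, ← mul_div_assoc, le_div_iff₀ (by positivity)]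
      linarith
    have hVρ : 0 ≤ V f v.1 ρ := V0 D _ hρ.le
    calc V f v.1 t * (δ / t) ≤ (K3 * (t / ρ) ^ α * V f v.1 ρ) * (δ / t) :=
          mul_le_mul_of_nonneg_right e0 (by positivity)
      _ = K3 * V f v.1 ρ * ((t / ρ) ^ α * (δ / t)) := by ring
      _ ≤ K3 * V f v.1 ρ * ε ^ α := mul_le_mul_of_nonneg_left e2 (by positivity)
      _ ≤ K3 * (K1 * V f u.1 T) * ε ^ α := by gcongr
      _ = K3 * (K1 * V f u.1 T) * ε ^ α * 1 := by ring
      _ ≤ K3 * (K1 * V f u.1 T) * ε ^ α * (5 * (ρ / 2 / T)) :=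
          mul_le_mul_of_nonneg_left e4 (by positivity)
      _ = _ := by ring

/-- unit intervals -/
theorem unit {K1 : ℝ}
    (h2 : ∀ x x' r r' : ℝ, 0 < r → r ≤ 4 → 0 ≤ r' → r' ≤ 8 * r →
      r' ≤ 8 → |x - x'| ≤ 8 * r → |x - x'| ≤ 8 → V f x' r' ≤ K1 * V f x r)
    {x z : ℝ} (h : |x - (z + 1 / 2)| ≤ 4) : V f x 1 ≤ K1 * ∫ s in z..(z + 1), f s := by
  have h3 := h2 (z + 1 / 2) x (1 / 2) 1 (by norm_num) (by norm_num) (by norm_num) (by norm_num)
    (by norm_num) (by rw [abs_sub_comm]; linarith) (by rw [abs_sub_comm]; linarith)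
  have h4 : V f (z + 1 / 2) (1 / 2) = ∫ s in z..(z + 1), f s := by
    unfold V
    congr 1 <;> ring
  rwa [h4] at h3

/-! ### The model -/

variable {X : Type} [MetricSpace X] {P : ℝ × ℝ → X} {N S : X} {c : ℝ}

theorem rep (M : Mdl f C P N S c) (q : X) (hN : q ≠ N) (hS : q ≠ S) (y0 : ℝ) :
    ∃ v : ℝ × ℝ, P v = q ∧ y0 ≤ v.2 ∧ v.2 < y0 + 1 := by
  rcases M.surj q with h | h | ⟨u, hu⟩
  · exact absurd h hN
  · exact absurd h hS
  · refine ⟨(u.1, u.2 - ⌊u.2 - y0⌋), ?_, ?_, ?_⟩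
    · rw [← hu, M.eq_iff]
      exact ⟨rfl, -⌊u.2 - y0⌋, by push_cast; ring⟩
    · have := Int.floor_le (u.2 - y0); simp only; linarith
    · have := Int.lt_floor_add_one (u.2 - y0); simp only; linarith

theorem dG (D : Dat f C Y K) (M : Mdl f C P N S c) (u v : ℝ × ℝ) (h : ‖u - v‖ ≤ 1) :
    dist (P u) (P v) ≤ K * V f u.1 1 + K * V f v.1 1 := by
  have h1 := M.up u v h
  have h2 := Gtriv D u (norm_nonneg (u - v)) h
  have h3 := Gtriv D v (norm_nonneg (u - v)) h
  unfold G at h1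
  linarith

theorem chain (D : Dat f C Y K) (M : Mdl f C P N S c) {K1 : ℝ}
    (h2 : ∀ x x' r r' : ℝ, 0 < r → r ≤ 4 → 0 ≤ r' → r' ≤ 8 * r →
      r' ≤ 8 → |x - x'| ≤ 8 * r → |x - x'| ≤ 8 → V f x' r' ≤ K1 * V f x r)
    (x y : ℝ) (n : ℕ) :
    dist (P (x, y)) (P (x + n, y)) ≤ 2 * K * K1 * ∫ s in x..(x + n), f s := by
  induction n with
  | zero => simp
  | succ n ih =>
    have hK := D.one_le
    have e1 : dist (P (x + n, y)) (P (x + (n + 1 : ℕ), y)) ≤
        2 * K * K1 * ∫ s in (x + n)..(x + n + 1), f s := by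
      have h1 := dG D M (x + n, y) (x + (n + 1 : ℕ), y) (by
        have : ((x + n, y) - (x + (n + 1 : ℕ), y) : ℝ × ℝ) = (-1, 0) := by
          ext <;> simp
        rw [this, Prod.norm_def]; simp)
      have h3 := unit (f := f) h2 (x := x + n) (z := x + n) (by
        rw [abs_le]; constructor <;> linarith)
      have h4 := unit (f := f) h2 (x := x + (n + 1 : ℕ)) (z := x + n) (by
        push_cast; rw [abs_le]; constructor <;> linarith)
      simp only at h1
      nlinarith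
    have e2 := iadd D x (x + n) (x + n + 1)
    have e3 : x + ((n + 1 : ℕ) : ℝ) = x + n + 1 := by push_cast; ring
    calc dist (P (x, y)) (P (x + (n + 1 : ℕ), y))
        ≤ dist (P (x, y)) (P (x + n, y)) + dist (P (x + n, y)) (P (x + (n + 1 : ℕ), y)) :=
          dist_triangle _ _ _
      _ ≤ _ := by
          rw [e3] at e1 ⊢
          rw [← e2, mul_add]
          exact add_le_add ih e1

theorem far' (D : Dat f C Y K) (M : Mdl f C P N S c) {K1 : ℝ} (hK1 : 1 ≤ K1)
    (h2 : ∀ x x' r r' : ℝ, 0 < r → r ≤ 4 → 0 ≤ r' → r' ≤ 8 * r →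
      r' ≤ 8 → |x - x'| ≤ 8 * r → |x - x'| ≤ 8 → V f x' r' ≤ K1 * V f x r)
    (v w : ℝ × ℝ) (h : |v.2 - w.2| ≤ 1) (hle : v.1 ≤ w.1) :
    dist (P v) (P w) ≤ 4 * K * K1 * ((∫ s in v.1..w.1, f s) + V f v.1 1 + V f w.1 1) := by
  have hK := D.one_le
  obtain ⟨n, hn1, hn2⟩ : ∃ n : ℕ, (n : ℝ) ≤ w.1 - v.1 ∧ w.1 - v.1 < n + 1 :=
    ⟨⌊w.1 - v.1⌋₊, Nat.floor_le (by linarith), Nat.lt_floor_add_one _⟩
  have e1 : dist (P v) (P (v.1, w.2)) ≤ K * V f v.1 1 + K * V f v.1 1 := by
    have := dG D M v (v.1, w.2) (by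
      rw [Prod.norm_def]; simp only [Prod.fst_sub, Prod.snd_sub, sub_self, norm_zero]
      rw [max_le_iff]; exact ⟨zero_le_one, h⟩)
    simpa using this
  have e2 := chain D M h2 v.1 w.2 n
  have e3 : dist (P (v.1 + n, w.2)) (P w) ≤ K * V f (v.1 + n) 1 + K * V f w.1 1 := by
    have := dG D M (v.1 + n, w.2) w (by
      rw [Prod.norm_def]; simp only [Prod.fst_sub, Prod.snd_sub, sub_self, norm_zero]
      rw [max_le_iff]; refine ⟨?_, zero_le_one⟩
      rw [Real.norm_eq_abs, abs_le]; constructor <;> linarith)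
    simpa using this
  have e4 : V f (v.1 + n) 1 ≤ K1 * V f w.1 1 :=
    h2 w.1 (v.1 + n) 1 1 one_pos (by norm_num) zero_le_one (by norm_num) (by norm_num)
      (by rw [abs_le]; constructor <;> linarith) (by rw [abs_le]; constructor <;> linarith)
  have e5 : ∫ s in v.1..(v.1 + n), f s ≤ ∫ s in v.1..w.1, f s :=
    imono D le_rfl (by simp) (by linarith)
  have a1 := i0 D hle
  have a2 := V0 D v.1 (r := 1) zero_le_one
  have a3 := V0 D w.1 (r := 1) zero_le_one
  have t1 := dist_triangle (P v) (P (v.1, w.2)) (P w)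
  have t2 := dist_triangle (P (v.1, w.2)) (P (v.1 + n, w.2)) (P w)
  have b1 : 2 * K * K1 * (∫ s in v.1..(v.1 + n), f s) ≤ 2 * K * K1 * ∫ s in v.1..w.1, f s :=
    mul_le_mul_of_nonneg_left e5 (by positivity)
  have b2 : K * V f (v.1 + n) 1 ≤ K * (K1 * V f w.1 1) := mul_le_mul_of_nonneg_left e4 (by linarith)
  have b3 : K * V f v.1 1 ≤ K * K1 * V f v.1 1 := by nlinarith [mul_nonneg (by linarith : 0 ≤ K) a2]
  have b4 : K * V f w.1 1 ≤ K * K1 * V f w.1 1 := by nlinarith [mul_nonneg (by linarith : 0 ≤ K) a3]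
  have c1 : 0 ≤ K * K1 * ∫ s in v.1..w.1, f s := mul_nonneg (by positivity) a1
  have c2 : 0 ≤ K * K1 * V f v.1 1 := mul_nonneg (by positivity) a2
  have c3 : 0 ≤ K * K1 * V f w.1 1 := mul_nonneg (by positivity) a3
  nlinarith

theorem far (D : Dat f C Y K) (M : Mdl f C P N S c) {K1 : ℝ} (hK1 : 1 ≤ K1)
    (h2 : ∀ x x' r r' : ℝ, 0 < r → r ≤ 4 → 0 ≤ r' → r' ≤ 8 * r →
      r' ≤ 8 → |x - x'| ≤ 8 * r → |x - x'| ≤ 8 → V f x' r' ≤ K1 * V f x r)
    (v w : ℝ × ℝ) (h : |v.2 - w.2| ≤ 1) :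
    dist (P v) (P w) ≤ 4 * K * K1 * (|∫ s in v.1..w.1, f s| + V f v.1 1 + V f w.1 1) := by
  rcases le_total v.1 w.1 with hle | hle
  · rw [abs_of_nonneg (i0 D hle)]
    exact far' D M hK1 h2 v w h hle
  · have := far' D M hK1 h2 w v (by rwa [abs_sub_comm]) hle
    rw [dist_comm, intervalIntegral.integral_symm, abs_neg, abs_of_nonneg (i0 D hle)]
    linarith

/-- labels -/
abbrev Lab : Type := Fin 4 × ℤ × ℤ × ℤ × ℤ

def TT (L : ℤ) : Finset Lab :=
  Finset.univ ×ˢ Finset.Icc (-(L + 1)) (L + 1) ×ˢ Finset.Icc (-(L + 1)) (L + 1) ×ˢ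
    Finset.Icc (-(L + 1)) (L + 1) ×ˢ Finset.Icc (-(L + 1)) (L + 1)

theorem TT_mono {L L' : ℤ} (h : L ≤ L') : TT L ⊆ TT L' := by
  have h1 : Finset.Icc (-(L + 1)) (L + 1) ⊆ Finset.Icc (-(L' + 1)) (L' + 1) :=
    Finset.Icc_subset_Icc (by omega) (by omega)
  unfold TT
  exact Finset.product_subset_product_right (Finset.product_subset_product h1
    (Finset.product_subset_product h1 (Finset.product_subset_product h1 h1)))

theorem TT_mem {L : ℤ} {i : Fin 4} {a b d e : ℝ} (ha : |a| ≤ (L : ℝ)) (hb : |b| ≤ (L : ℝ))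
    (hd : |d| ≤ (L : ℝ)) (he : |e| ≤ (L : ℝ)) : (i, ⌊a⌋, ⌊b⌋, ⌊d⌋, ⌊e⌋) ∈ TT L := by
  simp only [TT, Finset.mem_product, Finset.mem_univ, true_and]
  exact ⟨fl_mem ha, fl_mem hb, fl_mem hd, fl_mem he⟩

theorem small_norm {v w : ℝ × ℝ} {s : ℝ} (h1 : |v.1 - w.1| < s) (h2 : |v.2 - w.2| < s) :
    ‖v - w‖ < s := by
  rw [Prod.norm_def, max_lt_iff]
  exact ⟨h1, h2⟩

/-- small balls -/
theorem case1 (D : Dat f C Y K) (M : Mdl f C P N S c) {K1 K3 α : ℝ} (hK1 : 1 ≤ K1)
    (hK3 : 1 ≤ K3) (hα : 0 < α) (hα1 : α ≤ 1)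
    (h2 : ∀ x x' r r' : ℝ, 0 < r → r ≤ 4 → 0 ≤ r' → r' ≤ 8 * r →
      r' ≤ 8 → |x - x'| ≤ 8 * r → |x - x'| ≤ 8 → V f x' r' ≤ K1 * V f x r)
    (h3 : ∀ x r ε : ℝ, 0 < r → r ≤ 4 → 0 < ε → ε ≤ 1 → V f x (ε * r) ≤ K3 * ε ^ α * V f x r) :
    ∃ L : ℤ, ∀ (u : ℝ × ℝ) (R : ℝ), 0 < R → R ≤ c / K1 * V f u.1 1 → ∃ κ : X → Lab,
      (∀ q ∈ ball (P u) R, κ q ∈ TT L) ∧
      ∀ q ∈ ball (P u) R, ∀ q' ∈ ball (P u) R, κ q = κ q' → dist q q' < R / 4 := by
  classical
  have hc := M.pos
  have hc1 := M.le_one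
  have hK1' : 0 < K1 := by linarith
  have hK3' : 0 < K3 := by linarith
  obtain ⟨ε, hε, hε1, hεα⟩ : ∃ ε : ℝ, 0 < ε ∧ ε ≤ 1 ∧ 5 * K1 * K3 * ε ^ α ≤ c / 16 := by
    have hb : 0 < c / (80 * K1 * K3) := by positivity
    have hb1 : c / (80 * K1 * K3) ≤ 1 := by
      rw [div_le_one (by positivity)]
      nlinarith [mul_le_mul hK1 hK3 zero_le_one (by linarith)]
    refine ⟨(c / (80 * K1 * K3)) ^ (1 / α), Real.rpow_pos_of_pos hb _,
      Real.rpow_le_one hb.le hb1 (by positivity), ?_⟩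
    rw [← Real.rpow_mul hb.le, one_div_mul_cancel hα.ne', Real.rpow_one]
    apply le_of_eq
    field_simp
    norm_num
  obtain ⟨L, hL⟩ := exists_nat_ge (1 / ε)
  have hL0 : (0 : ℝ) ≤ (L : ℤ) := by positivity
  refine ⟨L, fun u R hR hRV => ?_⟩
  choose! w hw using fun q (hN : q ≠ N) (hS : q ≠ S) => rep M q hN hS (u.2 - 1 / 2)
  -- points of the ball
  have hball : ∀ q ∈ ball (P u) R, q ≠ N → q ≠ S → ‖u - w q‖ ≤ 1 ∧ Gh f C u ‖u - w q‖ ≤ R / c := by
    intro q hq hN hS
    obtain ⟨h4, h5, h6⟩ := hw q hN hS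
    have hd : dist (P u) (P (w q)) < R := by rw [h4, dist_comm]; exact hq
    have hy : |u.2 - (w q).2| ≤ 1 / 2 := by rw [abs_le]; constructor <;> linarith
    have hx : |u.1 - (w q).1| < 1 := by
      by_contra hcon
      push Not at hcon
      have h7 := M.lowh u (w q) hcon
      have h8 : V f u.1 1 ≤ K1 * |∫ x in u.1..(w q).1, f x| := by
        rcases le_total u.1 (w q).1 with hle | hle
        · rw [abs_sub_comm, abs_of_nonneg (by linarith)] at hcon
          rw [abs_of_nonneg (i0 D hle)]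
          refine (unit h2 (z := u.1) (by rw [abs_le]; constructor <;> linarith)).trans ?_
          exact mul_le_mul_of_nonneg_left (imono D le_rfl (by linarith) (by linarith)) hK1'.le
        · rw [abs_of_nonneg (by linarith)] at hcon
          rw [intervalIntegral.integral_symm, abs_neg, abs_of_nonneg (i0 D hle)]
          refine (unit h2 (z := u.1 - 1) (by rw [abs_le]; constructor <;> linarith)).trans ?_
          exact mul_le_mul_of_nonneg_left (imono D (by linarith) (by linarith) (by linarith))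
            hK1'.le
      have h9 : c / K1 * V f u.1 1 ≤ c * |∫ x in u.1..(w q).1, f x| := by
        calc c / K1 * V f u.1 1 ≤ c / K1 * (K1 * |∫ x in u.1..(w q).1, f x|) :=
              mul_le_mul_of_nonneg_left h8 (by positivity)
          _ = _ := by field_simp
      linarith
    have hn : ‖u - w q‖ ≤ 1 := by
      rw [Prod.norm_def, max_le_iff]; exact ⟨hx.le, hy.trans (by norm_num)⟩
    refine ⟨hn, ?_⟩
    have h10 := M.low u (w q) hx.le hy
    have h11 : Gh f C u ‖u - w q‖ ≤ G f C u (w q) := by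
      unfold G
      linarith [Gh0 D (w q) (norm_nonneg (u - w q))]
    rw [le_div_iff₀ hc]
    nlinarith
  -- the scale
  set Sst : Set ℝ := {ρ | 0 ≤ ρ ∧ ρ ≤ 1 ∧ Gh f C u ρ ≤ R / c} with hSst
  have hS0 : (0 : ℝ) ∈ Sst := ⟨le_rfl, zero_le_one, by
    have : Gh f C u 0 = 0 := by simp [Gh]
    rw [this]; positivity⟩
  have hSb : BddAbove Sst := ⟨1, fun ρ h => h.2.1⟩
  set ρ := sSup Sst with hρ
  have hρ0 : 0 ≤ ρ := le_csSup hSb hS0
  have hρ1 : ρ ≤ 1 := csSup_le ⟨0, hS0⟩ fun r h => h.2.1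
  have hwρ : ∀ q ∈ ball (P u) R, q ≠ N → q ≠ S → ‖u - w q‖ ≤ ρ := fun q hq hN hS =>
    le_csSup hSb ⟨norm_nonneg _, (hball q hq hN hS).1, (hball q hq hN hS).2⟩
  refine ⟨fun q => if q = N then (1, 0, 0, 0, 0) else if q = S then (2, 0, 0, 0, 0) else
    (0, ⌊((w q).1 - u.1) / (ε * ρ)⌋, ⌊((w q).2 - u.2) / (ε * ρ)⌋, 0, 0), ?_, ?_⟩
  · intro q hq
    have hz : |(0 : ℝ)| ≤ ((L : ℤ) : ℝ) := by simpa using hL0
    by_cases hN : q = N
    · simp only [if_pos hN]
      have := TT_mem (i := 1) hz hz hz hz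
      simpa using this
    by_cases hS : q = S
    · simp only [if_neg hN, if_pos hS]
      have := TT_mem (i := 2) hz hz hz hz
      simpa using this
    simp only [if_neg hN, if_neg hS]
    have h4 := hwρ q hq hN hS
    have hb : ∀ a : ℝ, |a| ≤ ρ → |a / (ε * ρ)| ≤ ((L : ℤ) : ℝ) := by
      intro a ha
      rcases hρ0.eq_or_lt with h0 | h0
      · rw [← h0]; simpa using hL0
      · rw [abs_div, abs_of_pos (by positivity : 0 < ε * ρ)]
        have hL' : 1 / ε ≤ ((L : ℤ) : ℝ) := by push_cast; exact hL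
        refine le_trans ?_ hL'
        rw [div_le_div_iff₀ (by positivity) hε]
        nlinarith
    have h5 : |(w q).1 - u.1| ≤ ρ := by
      rw [abs_sub_comm]; exact (norm_fst_le (u - w q)).trans h4
    have h6 : |(w q).2 - u.2| ≤ ρ := by
      rw [abs_sub_comm]; exact (norm_snd_le (u - w q)).trans h4
    have := TT_mem (i := 0) (hb _ h5) (hb _ h6) hz hz
    simpa using this
  · intro q hq q' hq' he
    by_cases hN : q = N
    · by_cases hN' : q' = N
      · rw [hN, hN', dist_self]; positivity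
      · exfalso
        by_cases hS' : q' = S
        · simp [hN, hN', hS', M.N_ne_S.symm] at he
        · simp [hN, hN', hS'] at he
    by_cases hN' : q' = N
    · exfalso
      by_cases hS : q = S
      · simp [hN', hS, M.N_ne_S.symm] at he
      · simp [hN, hN', hS] at he
    by_cases hS : q = S
    · by_cases hS' : q' = S
      · rw [hS, hS', dist_self]; positivity
      · exfalso; simp [hN', hS, hS', M.N_ne_S.symm] at he
    by_cases hS' : q' = S
    · exfalso; simp [hN, hS, hS', M.N_ne_S.symm] at he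
    simp only [if_neg hN, if_neg hS, if_neg hN', if_neg hS', Prod.mk.injEq] at he
    obtain ⟨-, he1, he2, -⟩ := he
    have k1 := (hw q hN hS).1
    have k2 := (hw q' hN' hS').1
    rcases hρ0.eq_or_lt with h0 | h0
    · have e1 := hwρ q hq hN hS
      have e2 := hwρ q' hq' hN' hS'
      rw [← h0] at e1 e2
      have e3 : u = w q := by
        have := norm_le_zero_iff.mp e1; exact sub_eq_zero.mp this
      have e4 : u = w q' := by
        have := norm_le_zero_iff.mp e2; exact sub_eq_zero.mp this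
      rw [← k1, ← k2, ← e3, ← e4, dist_self]; positivity
    · have hs : 0 < ε * ρ := by positivity
      have g1 := fl_eq hs he1
      have g2 := fl_eq hs he2
      have g3 : ‖w q - w q'‖ < ε * ρ := by
        apply small_norm
        · simpa using g1
        · simpa using g2
      have hcmp : Gh f C u (ρ / 2) ≤ R / c := by
        obtain ⟨r, hr, hr2⟩ := exists_lt_of_lt_csSup ⟨0, hS0⟩ (half_lt_self h0)
        exact (Ghmono D u (by positivity) hr2.le).trans hr.2.2
      rw [← k1, ← k2]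
      rcases (norm_nonneg (w q - w q')).eq_or_lt with h7 | h7
      · have : w q = w q' := sub_eq_zero.mp (norm_eq_zero.mp h7.symm)
        rw [this, dist_self]; positivity
      · have i1 := M.up (w q) (w q') (g3.le.trans (by nlinarith))
        have i2 := Gcomp D hK1 hK3 hα hα1 h2 h3 u (w q) h0 hρ1 (hwρ q hq hN hS) h7 g3.le hε hε1
        have i3 := Gcomp D hK1 hK3 hα hα1 h2 h3 u (w q') h0 hρ1 (hwρ q' hq' hN' hS') h7 g3.le
          hε hε1
        have i4 : 5 * K1 * K3 * ε ^ α * Gh f C u (ρ / 2) ≤ c / 16 * (R / c) :=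
          mul_le_mul hεα hcmp (Gh0 D u (by positivity)) (by positivity)
        have i5 : c / 16 * (R / c) = R / 16 := by field_simp
        unfold G at i1
        linarith

/-- large balls -/
theorem case2 (D : Dat f C Y K) (M : Mdl f C P N S c) {K1 K3 α : ℝ} (hK1 : 1 ≤ K1)
    (hK3 : 1 ≤ K3) (hα : 0 < α) (hα1 : α ≤ 1)
    (h2 : ∀ x x' r r' : ℝ, 0 < r → r ≤ 4 → 0 ≤ r' → r' ≤ 8 * r →
      r' ≤ 8 → |x - x'| ≤ 8 * r → |x - x'| ≤ 8 → V f x' r' ≤ K1 * V f x r)
    (h3 : ∀ x r ε : ℝ, 0 < r → r ≤ 4 → 0 < ε → ε ≤ 1 → V f x (ε * r) ≤ K3 * ε ^ α * V f x r) :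
    ∃ L : ℤ, ∀ (u : ℝ × ℝ) (R : ℝ), 0 < R → c / K1 * V f u.1 1 ≤ R → ∃ κ : X → Lab,
      (∀ q ∈ ball (P u) R, κ q ∈ TT L) ∧
      ∀ q ∈ ball (P u) R, ∀ q' ∈ ball (P u) R, κ q = κ q' → dist q q' < R / 4 := by
  classical
  have hc := M.pos
  have hc1 := M.le_one
  have hK := D.one_le
  have hK0 : 0 < K := by linarith
  have hK1' : 0 < K1 := by linarith
  have hK3' : 0 < K3 := by linarith
  -- constants
  obtain ⟨c1, hc1d⟩ : ∃ c1, c1 = c / K1 := ⟨_, rfl⟩
  have hc10 : 0 < c1 := by rw [hc1d]; positivity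
  have hc11 : c1 ≤ 1 := by rw [hc1d, div_le_one hK1']; linarith
  obtain ⟨Λ, hΛ⟩ : ∃ Λ, Λ = 1 / c + 1 / c1 := ⟨_, rfl⟩
  have hΛ0 : 0 < Λ := by rw [hΛ]; positivity
  obtain ⟨C2, hC2⟩ : ∃ C2, C2 = K1 * (1 / c1 + Λ) := ⟨_, rfl⟩
  have hC21 : 1 ≤ C2 := by
    have : 1 ≤ 1 / c1 := by rw [le_div_iff₀ hc10]; linarith
    rw [hC2]; nlinarith
  have hC20 : 0 < C2 := by linarith
  obtain ⟨η, hη⟩ : ∃ η, η = 1 / (64 * K * K1) := ⟨_, rfl⟩
  have hη0 : 0 < η := by rw [hη]; positivity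
  obtain ⟨η', hη'⟩ : ∃ η', η' = η / K1 := ⟨_, rfl⟩
  have hη'0 : 0 < η' := by rw [hη']; positivity
  obtain ⟨ε, hε, hε1, hεα⟩ : ∃ ε : ℝ, 0 < ε ∧ ε ≤ 1 ∧ 5 * K1 * K3 * ε ^ α * (K * C2) ≤ 1 / 16 := by
    have hb : 0 < 1 / (80 * K1 * K3 * (K * C2)) := by positivity
    have hb1 : 1 / (80 * K1 * K3 * (K * C2)) ≤ 1 := by
      rw [div_le_one (by positivity)]
      have := mul_le_mul hK1 hK3 zero_le_one (by linarith)
      have h' := mul_le_mul hK hC21 zero_le_one (by linarith)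
      have h'' := mul_le_mul this h' (by norm_num) (by positivity)
      nlinarith
    refine ⟨(1 / (80 * K1 * K3 * (K * C2))) ^ (1 / α), Real.rpow_pos_of_pos hb _,
      Real.rpow_le_one hb.le hb1 (by positivity), ?_⟩
    rw [← Real.rpow_mul hb.le, one_div_mul_cancel hα.ne', Real.rpow_one]
    apply le_of_eq
    field_simp
    norm_num
  obtain ⟨L, hL⟩ := exists_nat_ge (Λ / η + (Λ + C2) / η' + 1 / ε)
  have q1 : 0 < Λ / η := by positivity
  have q2 : 0 < (Λ + C2) / η' := by positivity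
  have q3 : 0 < 1 / ε := by positivity
  have hLa : Λ / η ≤ ((L : ℤ) : ℝ) := by push_cast; linarith
  have hLb : (Λ + C2) / η' ≤ ((L : ℤ) : ℝ) := by push_cast; linarith
  have hLc : 1 / ε ≤ ((L : ℤ) : ℝ) := by push_cast; linarith
  have hz : |(0 : ℝ)| ≤ ((L : ℤ) : ℝ) := by rw [abs_zero]; linarith
  refine ⟨L, fun u R hR hRV => ?_⟩
  rw [← hc1d] at hRV
  have hVu : V f u.1 1 ≤ R / c1 := by rw [le_div_iff₀ hc10]; linarith
  choose! w hw using fun q (hN : q ≠ N) (hS : q ≠ S) => rep M q hN hS 0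
  set I : ℝ → ℝ := fun x => ∫ s in u.1..x, f s with hI
  have hIsub : ∀ a b, I b - I a = ∫ s in a..b, f s := by
    intro a b
    have := iadd D u.1 a b
    simp only [hI]; linarith
  -- points of the ball
  have hb1 : ∀ q ∈ ball (P u) R, q ≠ N → q ≠ S → |I (w q).1| ≤ Λ * R := by
    intro q hq hN hS
    obtain ⟨h4, h5, h6⟩ := hw q hN hS
    have hd : dist (P u) (P (w q)) < R := by rw [h4, dist_comm]; exact hq
    rcases le_or_gt 1 |u.1 - (w q).1| with hx | hx
    · have h7 := M.lowh u (w q) hx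
      have h8 : |I (w q).1| ≤ R / c := by
        rw [le_div_iff₀ hc]; simp only [hI]; linarith
      rw [hΛ, add_mul, one_div_mul_eq_div, one_div_mul_eq_div]
      have : 0 < R / c1 := by positivity
      linarith
    · have hx' := abs_lt.mp hx
      have h8 : |I (w q).1| ≤ V f u.1 1 := by
        simp only [hI]
        rcases le_total u.1 (w q).1 with hle | hle
        · rw [abs_of_nonneg (i0 D hle)]
          exact imono D (by linarith) hle (by linarith)
        · rw [intervalIntegral.integral_symm, abs_neg, abs_of_nonneg (i0 D hle)]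
          exact imono D (by linarith) hle (by linarith)
      rw [hΛ, add_mul, one_div_mul_eq_div, one_div_mul_eq_div]
      have : 0 < R / c := by positivity
      linarith
  have hb2 : ∀ q ∈ ball (P u) R, q ≠ N → q ≠ S → V f (w q).1 1 ≤ C2 * R := by
    intro q hq hN hS
    have h4 := hb1 q hq hN hS
    have e0 : K1 * (Λ * R) ≤ C2 * R := by
      rw [hC2]
      have : 0 ≤ K1 * (1 / c1) * R := by positivity
      nlinarith
    rcases le_or_gt |u.1 - (w q).1| 8 with hx | hx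
    · have h5 := h2 u.1 (w q).1 1 1 one_pos (by norm_num) zero_le_one (by norm_num) (by norm_num)
        (by linarith) hx
      have e1 : K1 * V f u.1 1 ≤ K1 * (R / c1) := mul_le_mul_of_nonneg_left hVu hK1'.le
      have e2 : K1 * (R / c1) ≤ C2 * R := by
        rw [hC2]
        have : 0 ≤ K1 * Λ * R := by positivity
        have e3 : K1 * (1 / c1 + Λ) * R = K1 * (R / c1) + K1 * Λ * R := by ring
        linarith
      linarith
    · simp only [hI] at h4
      rcases le_total u.1 (w q).1 with hle | hle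
      · rw [abs_sub_comm, abs_of_nonneg (by linarith)] at hx
        rw [abs_of_nonneg (i0 D hle)] at h4
        have h5 := unit (f := f) h2 (x := (w q).1) (z := (w q).1 - 1) (by
          rw [abs_le]; constructor <;> linarith)
        have h6 : ∫ s in ((w q).1 - 1)..((w q).1 - 1 + 1), f s ≤ ∫ s in u.1..(w q).1, f s :=
          imono D (by linarith) (by linarith) (by linarith)
        have h7 := mul_le_mul_of_nonneg_left (h6.trans h4) hK1'.le
        linarith
      · rw [abs_of_nonneg (by linarith)] at hx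
        rw [intervalIntegral.integral_symm, abs_neg, abs_of_nonneg (i0 D hle)] at h4
        have h5 := unit (f := f) h2 (x := (w q).1) (z := (w q).1) (by
          rw [abs_le]; constructor <;> linarith)
        have h6 : ∫ s in (w q).1..((w q).1 + 1), f s ≤ ∫ s in (w q).1..u.1, f s :=
          imono D (by linarith) (by linarith) (by linarith)
        have h7 := mul_le_mul_of_nonneg_left (h6.trans h4) hK1'.le
        linarith
  set j : X → ℝ := fun q => (⌊(w q).1⌋ : ℝ) with hj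
  have hj1 : ∀ q, j q ≤ (w q).1 := fun q => Int.floor_le _
  have hj2 : ∀ q, (w q).1 < j q + 1 := fun q => Int.lt_floor_add_one _
  have hunit : ∀ q, V f (w q).1 1 ≤ K1 * ∫ s in (j q)..(j q + 1), f s := fun q =>
    unit h2 (by have := hj1 q; have := hj2 q; rw [abs_le]; constructor <;> linarith)
  refine ⟨fun q => if q = N then (1, 0, 0, 0, 0) else if q = S then (2, 0, 0, 0, 0) else
    if V f (w q).1 1 ≤ η * R then (0, ⌊I (w q).1 / (η * R)⌋, 0, 0, 0) else
    (3, 0, ⌊I (j q) / (η' * R)⌋, ⌊((w q).1 - j q) / ε⌋, ⌊(w q).2 / ε⌋), ?_, ?_⟩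
  · intro q hq
    by_cases hN : q = N
    · simp only [if_pos hN]
      simpa using TT_mem (i := 1) hz hz hz hz
    by_cases hS : q = S
    · simp only [if_neg hN, if_pos hS]
      simpa using TT_mem (i := 2) hz hz hz hz
    simp only [if_neg hN, if_neg hS]
    have e1 := hb1 q hq hN hS
    have e2 := hb2 q hq hN hS
    obtain ⟨-, y1, y2⟩ := hw q hN hS
    split_ifs with hV
    · have a1 : |I (w q).1 / (η * R)| ≤ ((L : ℤ) : ℝ) := by
        rw [abs_div, abs_of_pos (by positivity : 0 < η * R)]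
        refine le_trans ?_ hLa
        rw [div_le_div_iff₀ (by positivity) hη0]
        nlinarith [mul_le_mul_of_nonneg_right e1 hη0.le]
      simpa using TT_mem (i := 0) a1 hz hz hz
    · have a2 : |I (j q)| ≤ (Λ + C2) * R := by
        have b1 := hIsub (j q) (w q).1
        have b2 : 0 ≤ ∫ s in (j q)..(w q).1, f s := i0 D (hj1 q)
        have b3 : ∫ s in (j q)..(w q).1, f s ≤ V f (w q).1 1 :=
          imono D (by linarith [hj2 q]) (hj1 q) (by linarith)
        rw [abs_le] at e1 ⊢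
        constructor <;> nlinarith
      have a1 : |I (j q) / (η' * R)| ≤ ((L : ℤ) : ℝ) := by
        rw [abs_div, abs_of_pos (by positivity : 0 < η' * R)]
        refine le_trans ?_ hLb
        rw [div_le_div_iff₀ (by positivity) hη'0]
        nlinarith [mul_le_mul_of_nonneg_right a2 hη'0.le]
      have a3 : |((w q).1 - j q) / ε| ≤ ((L : ℤ) : ℝ) := by
        rw [abs_div, abs_of_pos hε, abs_of_nonneg (by linarith [hj1 q])]
        refine le_trans ?_ hLc
        rw [div_le_div_iff_of_pos_right hε]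
        linarith [hj2 q]
      have a4 : |(w q).2 / ε| ≤ ((L : ℤ) : ℝ) := by
        rw [abs_div, abs_of_pos hε, abs_of_nonneg y1]
        refine le_trans ?_ hLc
        rw [div_le_div_iff_of_pos_right hε]
        linarith
      simpa using TT_mem (i := 3) hz a1 a3 a4
  · intro q hq q' hq' he
    by_cases hN : q = N
    · by_cases hN' : q' = N
      · rw [hN, hN', dist_self]; positivity
      · exfalso
        by_cases hS' : q' = S
        · simp [hN, hS', M.N_ne_S.symm] at he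
        · by_cases hV' : V f (w q').1 1 ≤ η * R
          · simp [hN, hN', hS', hV'] at he
          · simp [hN, hN', hS', hV'] at he
    by_cases hN' : q' = N
    · exfalso
      by_cases hS : q = S
      · simp [hN', hS, M.N_ne_S.symm] at he
      · by_cases hV : V f (w q).1 1 ≤ η * R
        · simp [hN, hN', hS, hV] at he
        · simp [hN, hN', hS, hV] at he
    by_cases hS : q = S
    · by_cases hS' : q' = S
      · rw [hS, hS', dist_self]; positivity
      · exfalso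
        by_cases hV' : V f (w q').1 1 ≤ η * R
        · simp [hN', hS, hS', M.N_ne_S.symm, hV'] at he
        · simp [hN', hS, hS', M.N_ne_S.symm, hV'] at he
    by_cases hS' : q' = S
    · exfalso
      by_cases hV : V f (w q).1 1 ≤ η * R
      · simp [hN, hS, hS', M.N_ne_S.symm, hV] at he
      · simp [hN, hS, hS', M.N_ne_S.symm, hV] at he
    obtain ⟨k1, y1, y2⟩ := hw q hN hS
    obtain ⟨k2, y3, y4⟩ := hw q' hN' hS'
    rw [← k1, ← k2]
    by_cases hV : V f (w q).1 1 ≤ η * R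
    · by_cases hV' : V f (w q').1 1 ≤ η * R
      · simp only [if_neg hN, if_neg hS, if_neg hN', if_neg hS', if_pos hV, if_pos hV',
          Prod.mk.injEq] at he
        have g1 := fl_eq (by positivity : 0 < η * R) he.2.1
        rw [abs_sub_comm, hIsub] at g1
        have g2 := far D M hK1 h2 (w q) (w q') (by rw [abs_le]; constructor <;> linarith)
        have g3 : 4 * K * K1 * (|∫ s in (w q).1..(w q').1, f s| + V f (w q).1 1 +
            V f (w q').1 1) ≤ 4 * K * K1 * (3 * (η * R)) :=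
          mul_le_mul_of_nonneg_left (by linarith) (by positivity)
        have g4 : 4 * K * K1 * (3 * (η * R)) = 3 / 16 * R := by
          rw [hη]; field_simp; norm_num
        linarith
      · exfalso
        simp [if_neg hN, if_neg hS, if_neg hN', if_neg hS', if_pos hV, if_neg hV'] at he
    by_cases hV' : V f (w q').1 1 ≤ η * R
    · exfalso
      simp [if_neg hN, if_neg hS, if_neg hN', if_neg hS', if_neg hV, if_pos hV'] at he
    simp only [if_neg hN, if_neg hS, if_neg hN', if_neg hS', if_neg hV, if_neg hV',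
      Prod.mk.injEq] at he
    obtain ⟨-, -, he1, he2, he3⟩ := he
    -- equal unit cells
    have hstep : ∀ a b : X, η * R < V f (w a).1 1 → j a < j b → η' * R ≤ I (j b) - I (j a) := by
      intro a b ha hab
      have hab' : j a + 1 ≤ j b := by
        simp only [hj] at hab ⊢
        exact_mod_cast Int.add_one_le_iff.mpr (by exact_mod_cast hab)
      rw [hIsub]
      have m1 : ∫ s in (j a)..(j a + 1), f s ≤ ∫ s in (j a)..(j b), f s :=
        imono D le_rfl (by linarith) hab'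
      have m2 := hunit a
      have m3 : η' * R = η * R / K1 := by rw [hη']; ring
      rw [m3, div_le_iff₀ hK1']
      nlinarith
    have g1 := fl_eq (by positivity : 0 < η' * R) he1
    have hjj : j q = j q' := by
      push Not at hV hV'
      rcases lt_trichotomy (j q) (j q') with h | h | h
      · have := hstep q q' hV h
        rw [abs_sub_comm] at g1
        have := (abs_lt.mp g1).2
        linarith
      · exact h
      · have := hstep q' q hV' h
        have := (abs_lt.mp g1).2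
        linarith
    have g2 := fl_eq hε he2
    rw [hjj] at g2
    have g3 := fl_eq hε he3
    have g4 : ‖w q - w q'‖ < ε := by
      apply small_norm
      · have : (w q).1 - j q' - ((w q').1 - j q') = (w q).1 - (w q').1 := by ring
        rwa [this] at g2
      · exact g3
    rcases (norm_nonneg (w q - w q')).eq_or_lt with h7 | h7
    · have : w q = w q' := sub_eq_zero.mp (norm_eq_zero.mp h7.symm)
      rw [this, dist_self]; positivity
    · have i1 := M.up (w q) (w q') (g4.le.trans hε1)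
      have hG : ∀ a : X, a ∈ ball (P u) R → a ≠ N → a ≠ S →
          Gh f C (w a) ‖w q - w q'‖ ≤ 1 / 16 * R := by
        intro a ha haN haS
        have j1 := Gcomp D hK1 hK3 hα hα1 h2 h3 (w a) (w a) one_pos le_rfl (by simp) h7
          (by rw [mul_one]; exact g4.le) hε hε1
        have j2 := Gtriv D (w a) (ρ := 1 / 2) (by norm_num) (by norm_num)
        have j3 := hb2 a ha haN haS
        have j4 : 0 ≤ 5 * K1 * K3 * ε ^ α := by positivity
        calc Gh f C (w a) ‖w q - w q'‖ ≤ 5 * K1 * K3 * ε ^ α * Gh f C (w a) (1 / 2) := j1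
          _ ≤ 5 * K1 * K3 * ε ^ α * (K * (C2 * R)) :=
            mul_le_mul_of_nonneg_left (j2.trans (mul_le_mul_of_nonneg_left j3 hK0.le)) j4
          _ = 5 * K1 * K3 * ε ^ α * (K * C2) * R := by ring
          _ ≤ 1 / 16 * R := mul_le_mul_of_nonneg_right hεα hR.le
      have i2 := hG q hq hN hS
      have i3 := hG q' hq' hN' hS'
      unfold G at i1
      linarith

end

end ModDBX

open ModDBX in
theorem mDBX (hDB : StmDB) : StmDBX := by
  intro f C Y K D X _ P N S c M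
  obtain ⟨-, hB, α, K3, hα, hα1, hK3, h3⟩ := hDB f C Y K D
  obtain ⟨K1, hK1, h2'⟩ := hB 8 (by norm_num)
  have h2 : ∀ x x' r r' : ℝ, 0 < r → r ≤ 4 → 0 ≤ r' → r' ≤ 8 * r →
      r' ≤ 8 → |x - x'| ≤ 8 * r → |x - x'| ≤ 8 → V f x' r' ≤ K1 * V f x r := h2'
  obtain ⟨L1, hL1⟩ := case1 D M hK1 hK3 hα hα1 h2 h3
  obtain ⟨L2, hL2⟩ := case2 D M hK1 hK3 hα hα1 h2 h3
  have hlab : ∀ (u : ℝ × ℝ) (R : ℝ), 0 < R → ∃ κ : X → Lab,
      (∀ q ∈ ball (P u) R, κ q ∈ TT (max L1 L2)) ∧
      ∀ q ∈ ball (P u) R, ∀ q' ∈ ball (P u) R, κ q = κ q' → dist q q' < R / 4 := by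
    intro u R hR
    rcases le_total R (c / K1 * V f u.1 1) with h | h
    · obtain ⟨κ, a, b⟩ := hL1 u R hR h
      exact ⟨κ, fun q hq => TT_mono (le_max_left _ _) (a q hq), b⟩
    · obtain ⟨κ, a, b⟩ := hL2 u R hR h
      exact ⟨κ, fun q hq => TT_mono (le_max_right _ _) (a q hq), b⟩
  refine ⟨(TT (max L1 L2)).card, fun x r hr => ?_⟩
  -- a point `P u` close to `x`
  obtain ⟨u, hu⟩ : ∃ u, dist x (P u) < r := by
    have hc := M.pos
    obtain ⟨n, hn⟩ := exists_nat_gt (c⁻¹ / r)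
    have hn0 : (0 : ℝ) ≤ n := Nat.cast_nonneg n
    have hb : c⁻¹ / (1 + (n : ℝ)) ^ 3 < r := by
      rw [div_lt_iff₀ (by positivity)]
      rw [div_lt_iff₀ hr] at hn
      have : (n : ℝ) ≤ (1 + (n : ℝ)) ^ 3 := by nlinarith [mul_nonneg hn0 hn0]
      nlinarith
    rcases M.surj x with h | h | ⟨u, hu⟩
    · refine ⟨(n, 0), ?_⟩
      rw [h]; exact (M.N_up (n, 0) hn0).trans_lt hb
    · refine ⟨(-n, 0), ?_⟩
      rw [h]
      refine (M.S_up (-n, 0) (by simp)).trans_lt ?_
      simpa using hb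
    · exact ⟨u, by rw [hu, dist_self]; exact hr⟩
  have hsub : ball x r ⊆ ball (P u) (2 * r) := ball_subset_ball' (by linarith)
  obtain ⟨κ, a, b⟩ := hlab u (2 * r) (by linarith)
  have b' : ∀ q ∈ ball x r, ∀ q' ∈ ball x r, κ q = κ q' → dist q q' < r / 2 := by
    intro q hq q' hq' he
    have := b q (hsub hq) q' (hsub hq') he
    linarith
  obtain ⟨s, hs, hs2⟩ := cov (TT (max L1 L2)) κ x r (r / 2) (fun q hq => a q (hsub hq)) b'
  exact ⟨s, hs, hs2⟩

end Pool.Agent.T6.H52.LS
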