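import Pool.Agent.T6.H52.LS.Defs1

/-! Project LS (helper52), modules DLL and the shared decomposition lemma. -/

set_option autoImplicit false
open MeasureTheory Filter Topology Metric Set

namespace Pool.Agent.T6.H52.LS

namespace ModDLL

/-- position of `x` in its triadic interval of level `n` -/
theorem fl_dec (n : ℕ) (x : ℝ) : ∃ u : ℝ, 0 ≤ u ∧ u < 1 ∧ x = ((fl n x : ℝ) + u) / 3 ^ n ∧
    (3 : ℝ) ^ n * x = fl n x + u := by
  have h3 : (0 : ℝ) < 3 ^ n := by positivity
  refine ⟨Int.fract ((3 : ℝ) ^ n * x), Int.fract_nonneg _, Int.fract_lt_one _, ?_, ?_⟩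
  · rw [fl, Int.floor_add_fract]
    field_simp
  · rw [fl, Int.floor_add_fract]

theorem dl_pos (hPRO : StmPRO) (x : ℝ) (hx : 0 < dl x) : ∃ n, Fs n (fl n x) := by
  by_contra h
  push Not at h
  have := (hPRO.2.1 x h).2
  linarith

theorem half (hPRO : StmPRO) (x y : ℝ) : dl x ≤ dl y + |x - y| := by
  have hnn := hPRO.2.2.2.2.2.2.2.2.2.1
  rcases (hnn x).eq_or_lt with h0 | hpos
  · have := hnn y
    have := abs_nonneg (x - y)
    linarith
  obtain ⟨n, hn⟩ := dl_pos hPRO x hpos
  have h3 : (0 : ℝ) < 3 ^ n := by positivity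
  obtain ⟨u, hu0, hu1, hx, hx'⟩ := fl_dec n x
  obtain ⟨v, hv0, hv1, hy, hy'⟩ := fl_dec n y
  have ex : dl x = min u (1 - u) / 3 ^ n := by
    have := (hPRO.1 n (fl n x) u hn hu0 hu1).2
    rw [← hx] at this
    exact this
  have key : (3 : ℝ) ^ n * |x - y| = |((fl n x : ℝ) + u) - ((fl n y : ℝ) + v)| := by
    rw [← hx', ← hy', ← mul_sub, abs_mul, abs_of_pos h3]
  by_cases hxy : fl n x = fl n y
  · have ey : dl y = min v (1 - v) / 3 ^ n := by
      have := (hPRO.1 n (fl n y) v (hxy ▸ hn) hv0 hv1).2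
      rw [← hy] at this
      exact this
    rw [ex, ey, div_le_iff₀ h3, add_mul, div_mul_cancel₀ _ h3.ne', mul_comm |x - y|, key, hxy]
    have e : ((fl n y : ℝ) + u) - ((fl n y : ℝ) + v) = u - v := by ring
    rw [e]
    have h1 := le_abs_self (u - v)
    have h2 := neg_abs_le (u - v)
    rcases min_cases u (1 - u) with ⟨e1, _⟩ | ⟨e1, _⟩ <;>
      rcases min_cases v (1 - v) with ⟨e2, _⟩ | ⟨e2, _⟩ <;> rw [e1, e2] <;> linarith
  · have h : min u (1 - u) ≤ |((fl n x : ℝ) + u) - ((fl n y : ℝ) + v)| := by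
      rcases lt_or_gt_of_ne hxy with h | h
      · have h' : (fl n x : ℝ) + 1 ≤ fl n y := by exact_mod_cast h
        refine (min_le_right _ _).trans ?_
        rw [abs_sub_comm]
        refine le_trans ?_ (le_abs_self _)
        linarith
      · have h' : (fl n y : ℝ) + 1 ≤ fl n x := by exact_mod_cast h
        refine (min_le_left _ _).trans ?_
        refine le_trans ?_ (le_abs_self _)
        linarith
    have : dl x ≤ |x - y| := by
      rw [ex, div_le_iff₀ h3, mul_comm |x - y|, key]
      exact h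
    have := hnn y
    linarith

end ModDLL

theorem mDLL (hPRO : StmPRO) : StmDLL := by
  intro x y
  rw [abs_le]
  constructor
  · have := ModDLL.half hPRO y x
    rw [abs_sub_comm] at this
    linarith
  · have := ModDLL.half hPRO x y
    linarith

end Pool.Agent.T6.H52.LS
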