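import Pool.Agent.T6.H52.LS.Defs

set_option autoImplicit false
open MeasureTheory Filter Topology Metric Set
open scoped ENNReal NNReal

namespace Pool.Agent.T6.H52.LS

namespace ModEXIT

/-- the parametrisation is an open map -/
theorem open_map {f : ℝ → ℝ} {C : Set ℝ} {X : Type} [MetricSpace X] {P : ℝ × ℝ → X} {N S : X}
    {c : ℝ} (h : Mdl f C P N S c) : IsOpenMap P := by
  have hcpt := h.cpt
  have hc := h.pos
  rw [isOpenMap_iff_nhds_le]
  intro v s hs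
  rw [Filter.mem_map] at hs
  obtain ⟨U, hUs, hUo, hvU⟩ := _root_.mem_nhds_iff.1 hs
  have hN : 0 < dist N (P v) := dist_pos.2 (h.ne_N v).symm
  have hS : 0 < dist S (P v) := dist_pos.2 (h.ne_S v).symm
  obtain ⟨m, hm0, hmN, hmS⟩ : ∃ m, 0 < m ∧ m ≤ dist N (P v) ∧ m ≤ dist S (P v) :=
    ⟨min (dist N (P v)) (dist S (P v)), lt_min hN hS, min_le_left _ _, min_le_right _ _⟩
  have hci : 0 < c⁻¹ := inv_pos.2 hc
  obtain ⟨R, hR0, hR⟩ : ∃ R : ℝ, 0 ≤ R ∧ ∀ x, R ≤ x → c⁻¹ / (1 + x) ^ 3 < m / 2 := by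
    refine ⟨2 * c⁻¹ / m, by positivity, fun x hx => ?_⟩
    have hx0 : 0 < x := lt_of_lt_of_le (by positivity) hx
    calc c⁻¹ / (1 + x) ^ 3 < c⁻¹ / x := by
          apply div_lt_div_of_pos_left hci hx0
          nlinarith [pow_pos hx0 2, pow_pos hx0 3]
      _ ≤ c⁻¹ / (2 * c⁻¹ / m) := div_le_div_of_nonneg_left hci.le (by positivity) hx
      _ = m / 2 := by field_simp
  have hKc : IsCompact (P '' ((Icc (-R) R ×ˢ Icc (v.2 - 1 / 2) (v.2 + 1 / 2)) \ U)) :=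
    ((isCompact_Icc.prod isCompact_Icc).diff hUo).image h.cont
  have hvK : P v ∉ P '' ((Icc (-R) R ×ˢ Icc (v.2 - 1 / 2) (v.2 + 1 / 2)) \ U) := by
    rintro ⟨w, ⟨⟨_, hw2⟩, hwU⟩, hw⟩
    obtain ⟨h1, k, hk⟩ := (h.eq_iff w v).1 hw
    have hk0 : k = 0 := by
      have h3 : |(k : ℝ)| < 1 := by
        rw [← hk, abs_lt]
        constructor <;> linarith [hw2.1, hw2.2]
      have : |k| < 1 := by exact_mod_cast h3
      exact Int.abs_lt_one_iff.1 this
    apply hwU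
    have : w = v := by
      refine Prod.ext h1 ?_
      rw [hk0] at hk
      push_cast at hk
      linarith
    rw [this]; exact hvU
  have hW : (P '' ((Icc (-R) R ×ˢ Icc (v.2 - 1 / 2) (v.2 + 1 / 2)) \ U))ᶜ ∩
      ball (P v) (m / 2) ∈ 𝓝 (P v) :=
    inter_mem (hKc.isClosed.isOpen_compl.mem_nhds hvK) (ball_mem_nhds _ (by positivity))
  refine mem_of_superset hW ?_
  rintro q ⟨hq1, hq2⟩
  rw [mem_ball] at hq2
  rcases h.surj q with hq | hq | ⟨w, hw⟩
  · rw [hq] at hq2; linarith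
  · rw [hq] at hq2; linarith
  · obtain ⟨w', hw', h1, h2⟩ : ∃ w' : ℝ × ℝ, P w' = q ∧ w'.1 = w.1 ∧
        w'.2 ∈ Icc (v.2 - 1 / 2) (v.2 + 1 / 2) := by
      refine ⟨(w.1, w.2 - round (w.2 - v.2)), ?_, rfl, ?_⟩
      · rw [← hw, h.eq_iff]
        refine ⟨rfl, -round (w.2 - v.2), ?_⟩
        push_cast; ring
      · have := abs_sub_round (w.2 - v.2)
        rw [abs_le] at this
        constructor <;> simp only <;> linarith [this.1, this.2]
    have hwR : w'.1 ∈ Icc (-R) R := by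
      constructor
      · by_contra hcon
        push Not at hcon
        have h3 := h.S_up w' (by linarith)
        have h4 := hR (-w'.1) (by linarith)
        have h5 := dist_triangle S (P w') (P v)
        rw [hw'] at h3 h5
        rw [sub_eq_add_neg] at h3
        linarith
      · by_contra hcon
        push Not at hcon
        have h3 := h.N_up w' (by linarith)
        have h4 := hR w'.1 hcon.le
        have h5 := dist_triangle N (P w') (P v)
        rw [hw'] at h3 h5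
        linarith
    have hwU : w' ∈ U := by
      by_contra hcon
      exact hq1 ⟨w', ⟨⟨hwR, h2⟩, hcon⟩, hw'⟩
    rw [← hw']
    exact hUs hwU

end ModEXIT

theorem mEXIT : StmEXIT := by
  intro f C X _ P N S c h E u x₁ x₂ y₁ y₂ hE huE hu hy hnot
  by_contra hcon
  push Not at hcon
  apply hnot
  have hO1 : IsOpen (P '' Rec x₁ x₂ y₁ y₂) :=
    ModEXIT.open_map h _ (isOpen_Ioo.prod isOpen_Ioo)
  have hQ : IsCompact (P '' (Icc x₁ x₂ ×ˢ Icc y₁ y₂)) :=
    (isCompact_Icc.prod isCompact_Icc).image h.cont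
  have hsub : P '' Rec x₁ x₂ y₁ y₂ ⊆ P '' (Icc x₁ x₂ ×ˢ Icc y₁ y₂) :=
    image_mono (prod_mono Ioo_subset_Icc_self Ioo_subset_Icc_self)
  refine IsPreconnected.subset_left_of_subset_union hO1 hQ.isClosed.isOpen_compl
    (disjoint_compl_right.mono_left hsub) ?_ ⟨P u, huE, mem_image_of_mem P hu⟩ hE
  intro p hp
  by_cases hpQ : p ∈ P '' (Icc x₁ x₂ ×ˢ Icc y₁ y₂)
  · left
    obtain ⟨v, ⟨hv1, hv2⟩, rfl⟩ := hpQ
    obtain ⟨h1, h2, h3, h4⟩ := hcon v hp hv1 hv2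
    exact ⟨v, ⟨⟨lt_of_le_of_ne hv1.1 (Ne.symm h1), lt_of_le_of_ne hv1.2 h2⟩,
      ⟨lt_of_le_of_ne hv2.1 (Ne.symm h3), lt_of_le_of_ne hv2.2 h4⟩⟩, rfl⟩
  · right; exact hpQ

end Pool.Agent.T6.H52.LS
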