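import Pool.Agent.T6.H52.LS.Defs1

/-!
Project LS, module FFA: elementary properties of the interpolation (helper43).
-/

set_option autoImplicit false
open MeasureTheory Filter Topology Metric Set
open scoped ENNReal NNReal

namespace Pool.Agent.T6.H52.LS

noncomputable section

namespace ModFFA

lemma th_mem (k : ℕ) (δ : ℝ) : 0 ≤ th k δ ∧ th k δ ≤ 1 := by
  unfold th
  exact ⟨le_max_left _ _, max_le zero_le_one (min_le_left _ _)⟩

lemma th_eq (k : ℕ) (δ : ℝ) : th k δ = max 0 (min 1 (3 / 2 * (1 - 3 ^ k * δ))) := by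
  unfold th
  have h : (0 : ℝ) < 3 ^ k := by positivity
  have e : (((3 : ℝ) ^ k)⁻¹ - δ) / (((3 : ℝ) ^ k)⁻¹ * (2 / 3)) = 3 / 2 * (1 - 3 ^ k * δ) := by
    field_simp
  rw [e]

lemma th_zero (k : ℕ) : th k 0 = 1 := by
  rw [th_eq]; norm_num

lemma th_succ_le (k : ℕ) {δ : ℝ} (hδ : 0 ≤ δ) : th (k + 1) δ ≤ th k δ := by
  rw [th_eq, th_eq]
  refine max_le_max le_rfl (min_le_min le_rfl ?_)
  have h : (0 : ℝ) < 3 ^ k := by positivity
  have h2 : (3 : ℝ) ^ k * δ ≤ 3 ^ (k + 1) * δ := by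
    apply mul_le_mul_of_nonneg_right _ hδ
    rw [pow_succ]; nlinarith
  linarith

lemma th_anti (k : ℕ) {δ δ' : ℝ} (h : δ ≤ δ') : th k δ' ≤ th k δ := by
  rw [th_eq, th_eq]
  refine max_le_max le_rfl (min_le_min le_rfl ?_)
  have h3 : (0 : ℝ) < 3 ^ k := by positivity
  have h2 : (3 : ℝ) ^ k * δ ≤ 3 ^ k * δ' := mul_le_mul_of_nonneg_left h h3.le
  linarith

/-- truncation of `δ` to `[3^(-n), 1]` -/
def CC (n : ℕ) (δ : ℝ) : ℝ := max ((3 : ℝ) ^ n)⁻¹ (min δ 1)

lemma th_CC (k : ℕ) (δ : ℝ) :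
    ((3 : ℝ) ^ k)⁻¹ * th k δ = 3 / 2 * (((3 : ℝ) ^ k)⁻¹ - max ((3 : ℝ) ^ (k + 1))⁻¹ (min δ ((3 : ℝ) ^ k)⁻¹)) := by
  rw [th_eq]
  have h3 : (0 : ℝ) < 3 ^ k := by positivity
  have e1 : ((3 : ℝ) ^ (k + 1))⁻¹ = ((3 : ℝ) ^ k)⁻¹ / 3 := by rw [pow_succ]; field_simp
  rw [e1]
  set b := ((3 : ℝ) ^ k)⁻¹ with hb
  have hb0 : 0 < b := by positivity
  have e2 : (3 : ℝ) ^ k * δ = δ / b := by rw [hb]; field_simp
  rw [e2]
  have hδ : δ = b * (δ / b) := by field_simp
  rcases le_total δ (b / 3) with h | h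
  · have h1 : δ / b ≤ 1 / 3 := by rw [div_le_iff₀ hb0]; linarith
    rw [min_eq_left (by linarith : δ ≤ b), max_eq_left h, min_eq_left (by linarith),
      max_eq_right (by norm_num)]
    ring
  · rcases le_total δ b with h' | h'
    · have h1 : 1 / 3 ≤ δ / b := by rw [le_div_iff₀ hb0]; linarith
      have h2 : δ / b ≤ 1 := by rw [div_le_iff₀ hb0]; linarith
      rw [min_eq_left h', max_eq_right h, min_eq_right (by linarith), max_eq_right (by linarith)]
      field_simp
    · have h1 : 1 ≤ δ / b := by rw [le_div_iff₀ hb0]; linarith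
      rw [min_eq_right h', max_eq_right (by linarith : b / 3 ≤ b), min_eq_right (by linarith),
        max_eq_left (by linarith)]
      ring

lemma CC_succ (n : ℕ) (δ : ℝ) :
    CC (n + 1) δ + ((3 : ℝ) ^ n)⁻¹ = CC n δ + max ((3 : ℝ) ^ (n + 1))⁻¹ (min δ ((3 : ℝ) ^ n)⁻¹) := by
  unfold CC
  have e1 : ((3 : ℝ) ^ (n + 1))⁻¹ = ((3 : ℝ) ^ n)⁻¹ / 3 := by rw [pow_succ]; field_simp
  rw [e1]
  have hb1 : ((3 : ℝ) ^ n)⁻¹ ≤ 1 := inv_le_one_of_one_le₀ (one_le_pow₀ (by norm_num))
  set b := ((3 : ℝ) ^ n)⁻¹ with hb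
  have hb0 : 0 < b := by positivity
  rcases le_total δ (b / 3) with h | h
  · rw [min_eq_left (by linarith : δ ≤ 1), min_eq_left (by linarith : δ ≤ b), max_eq_left h,
      max_eq_left (by linarith : δ ≤ b)]
    ring
  · rcases le_total δ b with h' | h'
    · rw [min_eq_left (by linarith : δ ≤ 1), min_eq_left h', max_eq_right h, max_eq_left h']
      ring
    · rw [min_eq_right h', max_eq_right (by linarith : b / 3 ≤ b)]
      rcases le_total δ 1 with h1 | h1
      · rw [min_eq_left h1, max_eq_right (by linarith : b / 3 ≤ δ), max_eq_right h']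
      · rw [min_eq_right h1, max_eq_right (by linarith : b / 3 ≤ 1), max_eq_right hb1]

lemma CC_sum (n : ℕ) (δ δ' : ℝ) :
    ∑ k ∈ Finset.range n, ((3 : ℝ) ^ k)⁻¹ * (th k δ - th k δ') = 3 / 2 * (CC n δ' - CC n δ) := by
  induction n with
  | zero =>
    unfold CC
    simp
  | succ n ih =>
    rw [Finset.sum_range_succ, ih, mul_sub ((3 : ℝ) ^ n)⁻¹, th_CC, th_CC]
    have h1 := CC_succ n δ
    have h2 := CC_succ n δ'
    linarith

lemma CC_lip (n : ℕ) {δ δ' : ℝ} (h : δ ≤ δ') : CC n δ' - CC n δ ≤ δ' - δ := by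
  unfold CC
  rcases le_total δ' 1 with h1 | h1
  · rw [min_eq_left h1, min_eq_left (h.trans h1)]
    rcases le_total δ' ((3 : ℝ) ^ n)⁻¹ with h2 | h2
    · rw [max_eq_left h2, max_eq_left (h.trans h2)]; linarith
    · rw [max_eq_right h2]
      have := le_max_right ((3 : ℝ) ^ n)⁻¹ δ
      linarith
  · rw [min_eq_right h1]
    have hb1 : ((3 : ℝ) ^ n)⁻¹ ≤ 1 := inv_le_one_of_one_le₀ (one_le_pow₀ (by norm_num))
    rw [max_eq_right hb1]
    have h3 : min δ 1 ≤ max ((3 : ℝ) ^ n)⁻¹ (min δ 1) := le_max_right _ _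
    rcases le_total δ 1 with h4 | h4
    · rw [min_eq_left h4] at h3 ⊢; linarith
    · rw [min_eq_right h4] at h3 ⊢; linarith

lemma ck_mem (k : ℕ) : ∀ t ∈ Icc (0 : ℝ) 1, ck k t ∈ preCantorSet k := by
  induction k with
  | zero => intro t ht; simpa [ck] using ht
  | succ k ih =>
    intro t ht
    rw [preCantorSet_succ]
    unfold ck
    split_ifs with h
    · left
      exact ⟨ck k (2 * t), ih _ ⟨by linarith [ht.1], by linarith⟩, rfl⟩
    · right
      exact ⟨ck k (2 * t - 1), ih _ ⟨by linarith, by linarith [ht.2]⟩, rfl⟩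

lemma ck_Icc (k : ℕ) {t : ℝ} (ht : t ∈ Icc (0 : ℝ) 1) : ck k t ∈ Icc (0 : ℝ) 1 :=
  preCantorSet_subset_unitInterval (ck_mem k t ht)

lemma ck_diff (k : ℕ) : ∀ t ∈ Icc (0 : ℝ) 1, |ck (k + 1) t - ck k t| ≤ ((3 : ℝ) ^ k)⁻¹ := by
  induction k with
  | zero =>
    intro t ht
    simp only [ck, pow_zero, inv_one, abs_le]
    split_ifs with h
    · constructor <;> linarith [ht.1, ht.2]
    · constructor <;> linarith [ht.1, ht.2]
  | succ k ih =>
    intro t ht
    have e1 : ((3 : ℝ) ^ (k + 1))⁻¹ = ((3 : ℝ) ^ k)⁻¹ / 3 := by rw [pow_succ]; field_simp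
    rw [e1]
    have u1 : ck (k + 1 + 1) t = if t < 1 / 2 then ck (k + 1) (2 * t) / 3 else
      (2 + ck (k + 1) (2 * t - 1)) / 3 := rfl
    have u2 : ck (k + 1) t = if t < 1 / 2 then ck k (2 * t) / 3 else
      (2 + ck k (2 * t - 1)) / 3 := rfl
    rw [u1, u2]
    split_ifs with h
    · have h2 := ih (2 * t) ⟨by linarith [ht.1], by linarith⟩
      rw [abs_le] at h2 ⊢
      constructor <;> linarith [h2.1, h2.2]
    · have h2 := ih (2 * t - 1) ⟨by linarith, by linarith [ht.2]⟩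
      rw [abs_le] at h2 ⊢
      constructor <;> linarith [h2.1, h2.2]

lemma ck_diff' (k : ℕ) : ∀ t : ℝ, |ck (k + 1) t - ck k t| ≤ (2 / 3) ^ k * (1 + |t|) := by
  induction k with
  | zero =>
    intro t
    have h1 := le_abs_self t
    have h2 := neg_abs_le t
    simp only [ck, pow_zero, one_mul, abs_le]
    split_ifs with h
    · constructor <;> linarith
    · constructor <;> linarith
  | succ k ih =>
    intro t
    have u1 : ck (k + 1 + 1) t = if t < 1 / 2 then ck (k + 1) (2 * t) / 3 else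
      (2 + ck (k + 1) (2 * t - 1)) / 3 := rfl
    have u2 : ck (k + 1) t = if t < 1 / 2 then ck k (2 * t) / 3 else
      (2 + ck k (2 * t - 1)) / 3 := rfl
    rw [u1, u2]
    have hp : (0 : ℝ) < (2 / 3) ^ k := by positivity
    split_ifs with h
    · have h2 := ih (2 * t)
      have h3 : |ck (k + 1) (2 * t) / 3 - ck k (2 * t) / 3| =
          |ck (k + 1) (2 * t) - ck k (2 * t)| / 3 := by
        rw [← sub_div, abs_div]; norm_num
      rw [h3]
      have h4 : |2 * t| = 2 * |t| := by rw [abs_mul]; norm_num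
      rw [h4] at h2
      calc |ck (k + 1) (2 * t) - ck k (2 * t)| / 3 ≤ (2 / 3) ^ k * (1 + 2 * |t|) / 3 := by
            linarith
        _ ≤ (2 / 3) ^ (k + 1) * (1 + |t|) := by rw [pow_succ]; nlinarith [abs_nonneg t]
    · have h2 := ih (2 * t - 1)
      have h3 : |(2 + ck (k + 1) (2 * t - 1)) / 3 - (2 + ck k (2 * t - 1)) / 3| =
          |ck (k + 1) (2 * t - 1) - ck k (2 * t - 1)| / 3 := by
        rw [← sub_div, abs_div]; norm_num
      rw [h3]
      have h4 : |2 * t - 1| ≤ 2 * |t| + 1 := by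
        rw [abs_le]; constructor <;> linarith [le_abs_self t, neg_abs_le t]
      calc |ck (k + 1) (2 * t - 1) - ck k (2 * t - 1)| / 3
          ≤ (2 / 3) ^ k * (1 + |2 * t - 1|) / 3 := by linarith
        _ ≤ (2 / 3) ^ k * (1 + (2 * |t| + 1)) / 3 := by
            have := mul_le_mul_of_nonneg_left (by linarith : 1 + |2 * t - 1| ≤ 1 + (2 * |t| + 1))
              hp.le
            linarith
        _ = (2 / 3) ^ (k + 1) * (1 + |t|) := by rw [pow_succ]; ring

lemma summ (t δ : ℝ) : Summable fun k : ℕ => (ck (k + 1) t - ck k t) * th k δ := by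
  apply Summable.of_norm_bounded (g := fun k => (2 / 3 : ℝ) ^ k * (1 + |t|))
  · exact (summable_geometric_of_lt_one (by norm_num) (by norm_num)).mul_right _
  · intro k
    rw [Real.norm_eq_abs, abs_mul, abs_of_nonneg (th_mem k δ).1]
    calc |ck (k + 1) t - ck k t| * th k δ ≤ |ck (k + 1) t - ck k t| * 1 :=
          mul_le_mul_of_nonneg_left (th_mem k δ).2 (abs_nonneg _)
      _ ≤ _ := by rw [mul_one]; exact ck_diff' k t

/-- the partial sums -/
def SS' (t δ : ℝ) (n : ℕ) : ℝ := t + ∑ k ∈ Finset.range n, (ck (k + 1) t - ck k t) * th k δ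

lemma SS_tendsto (t δ : ℝ) : Tendsto (SS' t δ) atTop (𝓝 (FF t δ)) := by
  unfold FF SS'
  exact ((summ t δ).hasSum.tendsto_sum_nat).const_add t

lemma SS_zero (t : ℝ) (n : ℕ) : SS' t 0 n = ck n t := by
  unfold SS'
  have e : ∀ k, (ck (k + 1) t - ck k t) * th k 0 = ck (k + 1) t - ck k t := by
    intro k; rw [th_zero, mul_one]
  rw [Finset.sum_congr rfl fun k _ => e k, Finset.sum_range_sub (fun k => ck k t)]
  have e0 : ck 0 t = t := rfl
  rw [e0]
  ring

lemma SS_mem {t δ : ℝ} (ht : t ∈ Icc (0 : ℝ) 1) (hδ : 0 ≤ δ) (n : ℕ) :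
    ∃ u, 0 ≤ u ∧ u ≤ 1 - th n δ ∧ SS' t δ (n + 1) = u + th n δ * ck (n + 1) t := by
  induction n with
  | zero =>
    refine ⟨(1 - th 0 δ) * t, mul_nonneg (by linarith [(th_mem 0 δ).2]) ht.1, ?_, ?_⟩
    · have := mul_le_mul_of_nonneg_left ht.2 (by linarith [(th_mem 0 δ).2] : 0 ≤ 1 - th 0 δ)
      linarith
    · unfold SS'
      have e : ck 0 t = t := rfl
      simp only [Finset.sum_range_one, zero_add, e]
      ring
  | succ n ih =>
    obtain ⟨u, h1, h2, h3⟩ := ih
    have hc := ck_Icc (n + 1) ht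
    have ha := th_succ_le n hδ
    refine ⟨u + (th n δ - th (n + 1) δ) * ck (n + 1) t, ?_, ?_, ?_⟩
    · have := mul_nonneg (by linarith : 0 ≤ th n δ - th (n + 1) δ) hc.1
      linarith
    · have := mul_le_mul_of_nonneg_left hc.2 (by linarith : 0 ≤ th n δ - th (n + 1) δ)
      linarith
    · have e : SS' t δ (n + 1 + 1) = SS' t δ (n + 1) +
          (ck (n + 1 + 1) t - ck (n + 1) t) * th (n + 1) δ := by
        unfold SS'
        rw [Finset.sum_range_succ _ (n + 1)]
        ring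
      rw [e, h3]
      ring

lemma SS_Icc {t δ : ℝ} (ht : t ∈ Icc (0 : ℝ) 1) (hδ : 0 ≤ δ) (n : ℕ) :
    SS' t δ (n + 1) ∈ Icc (0 : ℝ) 1 := by
  obtain ⟨u, h1, h2, h3⟩ := SS_mem ht hδ n
  have hc := ck_Icc (n + 1) ht
  have ha := th_mem n δ
  rw [h3]
  constructor
  · have := mul_nonneg ha.1 hc.1
    linarith
  · have := mul_le_mul_of_nonneg_left hc.2 ha.1
    linarith

lemma lip_le {t : ℝ} (ht : t ∈ Icc (0 : ℝ) 1) {δ δ' : ℝ} (h : δ ≤ δ') :
    |FF t δ - FF t δ'| ≤ 3 / 2 * (δ' - δ) := by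
  have h1 : Tendsto (fun n => |SS' t δ n - SS' t δ' n|) atTop (𝓝 |FF t δ - FF t δ'|) :=
    ((SS_tendsto t δ).sub (SS_tendsto t δ')).abs
  refine le_of_tendsto' h1 fun n => ?_
  have e : SS' t δ n - SS' t δ' n =
      ∑ k ∈ Finset.range n, (ck (k + 1) t - ck k t) * (th k δ - th k δ') := by
    unfold SS'
    rw [add_sub_add_left_eq_sub, ← Finset.sum_sub_distrib]
    exact Finset.sum_congr rfl fun k _ => by ring
  rw [e]
  calc |∑ k ∈ Finset.range n, (ck (k + 1) t - ck k t) * (th k δ - th k δ')|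
      ≤ ∑ k ∈ Finset.range n, |(ck (k + 1) t - ck k t) * (th k δ - th k δ')| :=
        Finset.abs_sum_le_sum_abs _ _
    _ ≤ ∑ k ∈ Finset.range n, ((3 : ℝ) ^ k)⁻¹ * (th k δ - th k δ') := by
        refine Finset.sum_le_sum fun k _ => ?_
        have h2 : 0 ≤ th k δ - th k δ' := by linarith [th_anti k h]
        rw [abs_mul, abs_of_nonneg h2]
        exact mul_le_mul_of_nonneg_right (ck_diff k t ht) h2
    _ = 3 / 2 * (CC n δ' - CC n δ) := CC_sum n δ δ'
    _ ≤ 3 / 2 * (δ' - δ) := by linarith [CC_lip n h]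

lemma ck_meas (k : ℕ) : Measurable (ck k) := by
  induction k with
  | zero => exact measurable_id
  | succ k ih =>
    have e : ck (k + 1) = fun t => if t < 1 / 2 then ck k (2 * t) / 3 else
      (2 + ck k (2 * t - 1)) / 3 := rfl
    rw [e]
    refine Measurable.ite measurableSet_Iio ?_ ?_
    · exact (ih.comp (measurable_const.mul measurable_id)).div_const 3
    · exact (measurable_const.add
        (ih.comp ((measurable_const.mul measurable_id).sub measurable_const))).div_const 3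

lemma th_meas (k : ℕ) : Measurable (th k) := by
  unfold th
  exact measurable_const.max (measurable_const.min
    ((measurable_const.sub measurable_id).div_const _))

lemma FF_meas : Measurable (Function.uncurry FF) := by
  have h1 : ∀ n : ℕ, Measurable fun p : ℝ × ℝ => SS' p.1 p.2 n := by
    intro n
    unfold SS'
    refine measurable_fst.add (Finset.measurable_sum _ fun k _ => ?_)
    exact (((ck_meas (k + 1)).comp measurable_fst).sub ((ck_meas k).comp measurable_fst)).mul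
      ((th_meas k).comp measurable_snd)
  refine measurable_of_tendsto_metrizable h1 ?_
  rw [tendsto_pi_nhds]
  intro p
  exact SS_tendsto p.1 p.2

end ModFFA

open ModFFA

theorem mFFA : StmFFA := by
  refine ⟨?_, ?_, ?_, FF_meas⟩
  · intro t ht
    rw [cantorSet, mem_iInter]
    intro n
    refine (isClosed_preCantorSet n).mem_of_tendsto (SS_tendsto t 0) ?_
    filter_upwards [eventually_ge_atTop n] with m hm
    rw [SS_zero]
    exact preCantorSet_antitone hm (ck_mem m t ht)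
  · intro t ht δ δ' _ _
    rcases le_total δ δ' with h | h
    · rw [abs_sub_comm δ δ', abs_of_nonneg (by linarith : 0 ≤ δ' - δ)]
      exact lip_le ht h
    · rw [abs_sub_comm (FF t δ), abs_of_nonneg (by linarith : 0 ≤ δ - δ')]
      exact lip_le ht h
  · intro t ht δ hδ
    refine isClosed_Icc.mem_of_tendsto ((tendsto_add_atTop_iff_nat 1).2 (SS_tendsto t δ)) ?_
    exact Eventually.of_forall fun n => SS_Icc ht hδ n

end

end Pool.Agent.T6.H52.LS
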