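import Pool.Agent.T6.H52.LS.Defs1

/-!
Project LS (helper52), MP_0f1fb3_an, module FFB (helper82): density of the distribution of the
interpolation.
-/

set_option autoImplicit false
open MeasureTheory Filter Topology Metric Set
open scoped ENNReal NNReal

namespace Pool.Agent.T6.H52.LS

namespace ModFFB

theorem aff (g : ℝ → ℝ≥0∞) (hg : Measurable g) (a b p q : ℝ) (ha : 0 < a) :
    ∫⁻ t in Ico p q, g (a * t + b) =
      ENNReal.ofReal a⁻¹ * ∫⁻ s in Ico (a * p + b) (a * q + b), g s := by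
  have h1 : ∫⁻ t in Ico p q, g (a * t + b) =
      ∫⁻ t, (Ico (a * p + b) (a * q + b)).indicator g (a * t + b) := by
    rw [← lintegral_indicator measurableSet_Ico]
    apply lintegral_congr
    intro t
    by_cases ht : t ∈ Ico p q
    · have h2 : a * t + b ∈ Ico (a * p + b) (a * q + b) := by
        constructor
        · nlinarith [ht.1]
        · nlinarith [ht.2]
      rw [indicator_of_mem ht, indicator_of_mem h2]
    · have h2 : a * t + b ∉ Ico (a * p + b) (a * q + b) := by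
        intro h3
        apply ht
        constructor
        · have := h3.1
          have h4 : a * p ≤ a * t := by linarith
          exact le_of_mul_le_mul_left h4 ha
        · have := h3.2
          have h4 : a * t < a * q := by linarith
          exact lt_of_mul_lt_mul_left h4 ha.le
      rw [indicator_of_notMem ht, indicator_of_notMem h2]
  rw [h1]
  set h : ℝ → ℝ≥0∞ := (Ico (a * p + b) (a * q + b)).indicator g with hh
  have hm : Measurable h := hg.indicator measurableSet_Ico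
  have h3 : ∫⁻ t, h (a * t + b) = ENNReal.ofReal a⁻¹ * ∫⁻ t, h (t + b) := by
    have h4 := Real.map_volume_mul_left ha.ne'
    have h5 : ∫⁻ t, h (t + b) ∂(Measure.map (a * ·) volume) = ∫⁻ t, h (a * t + b) := by
      rw [lintegral_map (by fun_prop) (by fun_prop)]
    rw [← h5, h4, lintegral_smul_measure, abs_of_pos (inv_pos.2 ha), smul_eq_mul]
  rw [h3, lintegral_add_right_eq_self h b, hh, lintegral_indicator measurableSet_Ico]

theorem ck_meas (k : ℕ) : Measurable (ck k) := by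
  induction k with
  | zero => exact measurable_id
  | succ k ih =>
    have : ck (k + 1) = fun t => if t < 1 / 2 then ck k (2 * t) / 3 else (2 + ck k (2 * t - 1)) / 3 := by
      funext t
      rfl
    rw [this]
    apply Measurable.ite (measurableSet_lt measurable_id measurable_const)
    · exact (ih.comp (by fun_prop)).div_const 3
    · exact ((ih.comp (by fun_prop)).const_add 2).div_const 3

/-- the interpolation between two levels -/
noncomputable def F (k : ℕ) (θ t : ℝ) : ℝ := (1 - θ) * ck k t + θ * ck (k + 1) t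

theorem F_meas (k : ℕ) (θ : ℝ) : Measurable (F k θ) := by
  unfold F
  exact ((ck_meas k).const_mul _).add ((ck_meas (k + 1)).const_mul _)

theorem F_zero_lt (θ t : ℝ) (ht : t < 1 / 2) : F 0 θ t = (1 - θ / 3) * t + 0 := by
  unfold F
  simp only [ck, if_pos ht]
  ring

theorem F_zero_ge (θ t : ℝ) (ht : ¬ t < 1 / 2) : F 0 θ t = (1 - θ / 3) * t + θ / 3 := by
  unfold F
  simp only [ck, if_neg ht]
  ring

theorem F_succ_lt (k : ℕ) (θ t : ℝ) (ht : t < 1 / 2) : F (k + 1) θ t = F k θ (2 * t + 0) / 3 := by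
  unfold F
  have h1 : ck (k + 1) t = ck k (2 * t) / 3 := by
    rw [ck, if_pos ht]
  have h2 : ck (k + 1 + 1) t = ck (k + 1) (2 * t) / 3 := by
    rw [ck, if_pos ht]
  rw [h1, h2, add_zero]
  ring

theorem F_succ_ge (k : ℕ) (θ t : ℝ) (ht : ¬ t < 1 / 2) :
    F (k + 1) θ t = (2 + F k θ (2 * t + (-1))) / 3 := by
  unfold F
  have h1 : ck (k + 1) t = (2 + ck k (2 * t - 1)) / 3 := by
    rw [ck, if_neg ht]
  have h2 : ck (k + 1 + 1) t = (2 + ck (k + 1) (2 * t - 1)) / 3 := by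
    rw [ck, if_neg ht]
  rw [h1, h2, ← sub_eq_add_neg]
  ring

theorem split (g : ℝ → ℝ≥0∞) : ∫⁻ t in Ico (0 : ℝ) 1, g t =
    (∫⁻ t in Ico (0 : ℝ) (1 / 2), g t) + ∫⁻ t in Ico (1 / 2 : ℝ) 1, g t := by
  rw [← lintegral_union measurableSet_Ico]
  · rw [Ico_union_Ico_eq_Ico (by norm_num) (by norm_num)]
  · rw [Set.disjoint_left]
    intro t h1 h2
    exact absurd h1.2 (not_lt.2 h2.1)

theorem two_le (g : ℝ → ℝ≥0∞) (p q : ℝ) (hp : p ≤ 1) (hpq : p ≤ q) (hq : 0 ≤ q) :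
    (∫⁻ t in Ico (0 : ℝ) p, g t) + ∫⁻ t in Ico q 1, g t ≤ ∫⁻ t in Ico (0 : ℝ) 1, g t := by
  rw [← lintegral_union measurableSet_Ico]
  · apply lintegral_mono_set
    apply union_subset
    · exact Ico_subset_Ico le_rfl hp
    · exact Ico_subset_Ico hq le_rfl
  · rw [Set.disjoint_left]
    intro t h1 h2
    have := h1.2
    have := h2.1
    linarith

theorem main (k : ℕ) : ∀ (θ : ℝ), 0 ≤ θ → θ ≤ 1 → ∀ φ : ℝ → ℝ≥0∞, Measurable φ →
    ∫⁻ t in Ico (0 : ℝ) 1, φ (F k θ t) ≤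
      ENNReal.ofReal ((3 / 2) ^ (k + 1)) * ∫⁻ y in Ico (0 : ℝ) 1, φ y := by
  induction k with
  | zero =>
    intro θ h0 h1 φ hφ
    rw [split]
    have ha : 0 < 1 - θ / 3 := by linarith
    have e1 : ∫⁻ t in Ico (0 : ℝ) (1 / 2), φ (F 0 θ t) =
        ENNReal.ofReal (1 - θ / 3)⁻¹ * ∫⁻ s in Ico (0 : ℝ) (1 / 2 - θ / 6), φ s := by
      rw [setLIntegral_congr_fun (g := fun t => φ ((1 - θ / 3) * t + 0)) measurableSet_Ico
        (fun t ht => by simp only [F_zero_lt θ t ht.2])]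
      rw [aff φ hφ _ _ _ _ ha]
      congr 3
      · congr 1
        · ring
        · ring
    have e2 : ∫⁻ t in Ico (1 / 2 : ℝ) 1, φ (F 0 θ t) =
        ENNReal.ofReal (1 - θ / 3)⁻¹ * ∫⁻ s in Ico (1 / 2 + θ / 6 : ℝ) 1, φ s := by
      rw [setLIntegral_congr_fun (g := fun t => φ ((1 - θ / 3) * t + θ / 3)) measurableSet_Ico
        (fun t ht => by simp only [F_zero_ge θ t (not_lt.2 ht.1)])]
      rw [aff φ hφ _ _ _ _ ha]
      congr 3
      · congr 1
        · ring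
        · ring
    rw [e1, e2, ← mul_add]
    apply mul_le_mul'
    · apply ENNReal.ofReal_le_ofReal
      rw [zero_add, pow_one, inv_le_comm₀ ha (by norm_num)]
      linarith
    · exact two_le φ _ _ (by linarith) (by linarith) (by linarith)
  | succ k ih =>
    intro θ h0 h1 φ hφ
    rw [split]
    have m1 : Measurable (fun y : ℝ => φ (y / 3)) := by fun_prop
    have m2 : Measurable (fun y : ℝ => φ ((2 + y) / 3)) := by fun_prop
    have mF := F_meas k θ
    have e1 : ∫⁻ t in Ico (0 : ℝ) (1 / 2), φ (F (k + 1) θ t) =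
        ENNReal.ofReal (2 : ℝ)⁻¹ * ∫⁻ s in Ico (0 : ℝ) 1, φ (F k θ s / 3) := by
      rw [setLIntegral_congr_fun (g := fun t => (fun s => φ (F k θ s / 3)) (2 * t + 0))
        measurableSet_Ico (fun t ht => by simp only [F_succ_lt k θ t ht.2])]
      rw [aff (fun s => φ (F k θ s / 3)) (m1.comp mF) _ _ _ _ (by norm_num)]
      congr 3
      · congr 1
        · ring
        · ring
    have e2 : ∫⁻ t in Ico (1 / 2 : ℝ) 1, φ (F (k + 1) θ t) =
        ENNReal.ofReal (2 : ℝ)⁻¹ * ∫⁻ s in Ico (0 : ℝ) 1, φ ((2 + F k θ s) / 3) := by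
      rw [setLIntegral_congr_fun (g := fun t => (fun s => φ ((2 + F k θ s) / 3)) (2 * t + (-1)))
        measurableSet_Ico (fun t ht => by simp only [F_succ_ge k θ t (not_lt.2 ht.1)])]
      rw [aff (fun s => φ ((2 + F k θ s) / 3)) (m2.comp mF) _ _ _ _ (by norm_num)]
      congr 3
      · congr 1
        · ring
        · ring
    have i1 := ih θ h0 h1 (fun y => φ (y / 3)) m1
    have i2 := ih θ h0 h1 (fun y => φ ((2 + y) / 3)) m2
    have a1 : ∫⁻ y in Ico (0 : ℝ) 1, φ (y / 3) = ENNReal.ofReal 3 * ∫⁻ s in Ico (0 : ℝ) (1 / 3), φ s := by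
      have := aff φ hφ (1 / 3) 0 0 1 (by norm_num)
      rw [show ((1 : ℝ) / 3)⁻¹ = 3 by norm_num, show (1 / 3 * 0 + 0 : ℝ) = 0 by norm_num,
        show (1 / 3 * 1 + 0 : ℝ) = 1 / 3 by norm_num] at this
      rw [← this]
      apply lintegral_congr
      intro y
      congr 1
      ring
    have a2 : ∫⁻ y in Ico (0 : ℝ) 1, φ ((2 + y) / 3) =
        ENNReal.ofReal 3 * ∫⁻ s in Ico (2 / 3 : ℝ) 1, φ s := by
      have := aff φ hφ (1 / 3) (2 / 3) 0 1 (by norm_num)
      rw [show ((1 : ℝ) / 3)⁻¹ = 3 by norm_num, show (1 / 3 * 0 + 2 / 3 : ℝ) = 2 / 3 by norm_num,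
        show (1 / 3 * 1 + 2 / 3 : ℝ) = 1 by norm_num] at this
      rw [← this]
      apply lintegral_congr
      intro y
      congr 1
      ring
    rw [e1, e2, ← mul_add]
    calc ENNReal.ofReal (2 : ℝ)⁻¹ * ((∫⁻ s in Ico (0 : ℝ) 1, φ (F k θ s / 3)) +
          ∫⁻ s in Ico (0 : ℝ) 1, φ ((2 + F k θ s) / 3))
        ≤ ENNReal.ofReal (2 : ℝ)⁻¹ * (ENNReal.ofReal ((3 / 2) ^ (k + 1)) *
            (ENNReal.ofReal 3 * ∫⁻ s in Ico (0 : ℝ) (1 / 3), φ s) +
            ENNReal.ofReal ((3 / 2) ^ (k + 1)) *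
            (ENNReal.ofReal 3 * ∫⁻ s in Ico (2 / 3 : ℝ) 1, φ s)) := by
          apply mul_le_mul' le_rfl
          rw [← a1, ← a2]
          exact add_le_add i1 i2
      _ = ENNReal.ofReal ((3 / 2) ^ (k + 1 + 1)) * ((∫⁻ s in Ico (0 : ℝ) (1 / 3), φ s) +
            ∫⁻ s in Ico (2 / 3 : ℝ) 1, φ s) := by
          have h5 : ENNReal.ofReal ((3 / 2) ^ (k + 1 + 1)) =
              ENNReal.ofReal (2 : ℝ)⁻¹ * (ENNReal.ofReal ((3 / 2) ^ (k + 1)) * ENNReal.ofReal 3) := by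
            rw [← ENNReal.ofReal_mul (by positivity), ← ENNReal.ofReal_mul (by norm_num)]
            congr 1
            ring
          rw [h5]
          ring
      _ ≤ ENNReal.ofReal ((3 / 2) ^ (k + 1 + 1)) * ∫⁻ y in Ico (0 : ℝ) 1, φ y := by
          apply mul_le_mul' le_rfl
          exact two_le φ _ _ (by norm_num) (by norm_num) (by norm_num)

theorem th_lt (j k : ℕ) (δ : ℝ) (hjk : j < k) (h2 : δ ≤ ((3 : ℝ) ^ k)⁻¹) : th j δ = 1 := by
  unfold th
  have h3 : (0 : ℝ) < ((3 : ℝ) ^ j)⁻¹ := by positivity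
  have h4 : ((3 : ℝ) ^ k)⁻¹ ≤ ((3 : ℝ) ^ j)⁻¹ * (1 / 3) := by
    have h5 : ((3 : ℝ) ^ j)⁻¹ * (1 / 3) = ((3 : ℝ) ^ (j + 1))⁻¹ := by
      rw [pow_succ, mul_inv]
      norm_num
    rw [h5]
    apply inv_anti₀ (by positivity)
    exact pow_le_pow_right₀ (by norm_num) hjk
  have h6 : 1 ≤ (((3 : ℝ) ^ j)⁻¹ - δ) / (((3 : ℝ) ^ j)⁻¹ * (2 / 3)) := by
    rw [le_div_iff₀ (by positivity)]
    linarith
  rw [min_eq_left h6]
  norm_num

theorem th_gt (j k : ℕ) (δ : ℝ) (hjk : k < j) (h1 : ((3 : ℝ) ^ (k + 1))⁻¹ < δ) : th j δ = 0 := by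
  unfold th
  have h4 : ((3 : ℝ) ^ j)⁻¹ ≤ ((3 : ℝ) ^ (k + 1))⁻¹ := by
    apply inv_anti₀ (by positivity)
    exact pow_le_pow_right₀ (by norm_num) hjk
  have h6 : (((3 : ℝ) ^ j)⁻¹ - δ) / (((3 : ℝ) ^ j)⁻¹ * (2 / 3)) ≤ 0 := by
    apply div_nonpos_of_nonpos_of_nonneg
    · linarith
    · positivity
  rw [max_eq_left]
  exact (min_le_right _ _).trans h6

theorem FF_eq (t : ℝ) (k : ℕ) (δ : ℝ) (h1 : ((3 : ℝ) ^ (k + 1))⁻¹ < δ) (h2 : δ ≤ ((3 : ℝ) ^ k)⁻¹) :
    FF t δ = F k (th k δ) t := by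
  unfold FF F
  have h3 : ∑' j : ℕ, (ck (j + 1) t - ck j t) * th j δ =
      ∑ j ∈ Finset.range (k + 1), (ck (j + 1) t - ck j t) * th j δ := by
    apply tsum_eq_sum
    intro j hj
    rw [th_gt j k δ (by
      rw [Finset.mem_range] at hj
      omega) h1, mul_zero]
  rw [h3, Finset.sum_range_succ]
  have h4 : ∑ j ∈ Finset.range k, (ck (j + 1) t - ck j t) * th j δ =
      ∑ j ∈ Finset.range k, (ck (j + 1) t - ck j t) := by
    apply Finset.sum_congr rfl
    intro j hj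
    rw [th_lt j k δ (Finset.mem_range.1 hj) h2, mul_one]
  rw [h4, Finset.sum_range_sub (fun j => ck j t)]
  simp only [ck]
  ring

end ModFFB

open ModFFB in
/-- FFB: density of the distribution of the interpolation -/
theorem mFFB : StmFFB := by
  intro k δ h1 h2 φ hφ
  have h3 : ∫⁻ t in Icc (0 : ℝ) 1, φ (FF t δ) = ∫⁻ t in Ico (0 : ℝ) 1, φ (F k (th k δ) t) := by
    rw [setLIntegral_congr (Ico_ae_eq_Icc (μ := volume) (a := (0 : ℝ)) (b := 1)).symm]
    apply lintegral_congr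
    intro t
    rw [FF_eq t k δ h1 h2]
  have h4 : ∫⁻ y in Icc (0 : ℝ) 1, φ y = ∫⁻ y in Ico (0 : ℝ) 1, φ y :=
    setLIntegral_congr (Ico_ae_eq_Icc (μ := volume) (a := (0 : ℝ)) (b := 1)).symm
  rw [h3, h4]
  apply main k (th k δ) _ _ φ hφ
  · unfold th
    exact le_max_left _ _
  · unfold th
    exact max_le (by norm_num) (min_le_left _ _)

end Pool.Agent.T6.H52.LS
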