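import Pool.Agent.T6.H52.LS.Defs

/-!
Project LS (helper52), MP_0f1fb3_an, module FINA (helper12): the model has finite area.
-/

set_option autoImplicit false
open MeasureTheory Filter Topology Metric Set
open scoped ENNReal NNReal

namespace Pool.Agent.T6.H52.LS

noncomputable section

namespace ModFINA

variable {f : ℝ → ℝ} {C : Set ℝ} {Y : ℝ → ℝ → ℝ} {K : ℝ}

theorem per_int (h : Dat f C Y K) (z : ℝ) (hz : z ∈ C) (k : ℤ) : z + k ∈ C := by
  induction k using Int.induction_on with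
  | zero => simpa using hz
  | succ n ih =>
    have := (h.per (z + (n : ℤ))).2 ih
    push_cast at this ⊢
    rw [← add_assoc]
    exact this
  | pred n ih =>
    have h1 := (h.per (z + ((-(n : ℤ) - 1 : ℤ) : ℝ))).1
    apply h1
    push_cast at ih ⊢
    have : z + (-(n : ℝ) - 1) + 1 = z + -(n : ℝ) := by ring
    rw [this]
    exact ih

theorem rr_le (h : Dat f C Y K) (y : ℝ) : rr C y ≤ 1 / 2 := by
  obtain ⟨z, hz⟩ := h.ne
  have h1 := per_int h z hz (round (y - z))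
  have h2 : infDist y C ≤ dist y (z + (round (y - z) : ℤ)) := infDist_le_dist_of_mem h1
  have h3 := abs_sub_round (y - z)
  rw [Real.dist_eq] at h2
  have h4 : y - (z + (round (y - z) : ℤ)) = y - z - (round (y - z) : ℤ) := by ring
  rw [h4] at h2
  exact h2.trans h3

theorem rr_nonneg (y : ℝ) : 0 ≤ rr C y := infDist_nonneg

theorem f_le (h : Dat f C Y K) (x z : ℝ) (hz : |z - x| ≤ 3 / 2) :
    f z ≤ 16 * K / (1 + |x|) ^ 2 := by
  have hx : 0 ≤ |x| := abs_nonneg x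
  have hz0 : 0 ≤ |z| := abs_nonneg z
  have h1 : |x| - |z| ≤ |z - x| := by
    rw [abs_sub_comm]; exact abs_sub_abs_le_abs_sub x z
  have h2 : 1 + |x| ≤ 4 * (1 + |z|) := by linarith
  have h3 := h.le z
  have h4 := h.nonneg z
  rw [le_div_iff₀ (by positivity)]
  have h5 : (1 + |x|) ^ 2 ≤ (4 * (1 + |z|)) ^ 2 := by
    apply pow_le_pow_left₀ (by positivity) h2
  calc f z * (1 + |x|) ^ 2 ≤ f z * (4 * (1 + |z|)) ^ 2 := by gcongr
    _ = 16 * (f z * (1 + |z|) ^ 2) := by ring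
    _ ≤ 16 * K := by linarith

theorem V_le (h : Dat f C Y K) (x s : ℝ) (hs : 0 ≤ s) (hs2 : s ≤ 3 / 2) :
    V f x s ≤ 2 * s * (16 * K / (1 + |x|) ^ 2) := by
  unfold V
  have h1 : ‖∫ t in (x - s)..(x + s), f t‖ ≤ (16 * K / (1 + |x|) ^ 2) * |(x + s) - (x - s)| := by
    apply intervalIntegral.norm_integral_le_of_norm_le_const
    intro t ht
    rw [uIoc_of_le (by linarith)] at ht
    rw [Real.norm_of_nonneg (h.nonneg t)]
    apply f_le h
    rw [abs_le]
    constructor <;> linarith [ht.1, ht.2]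
  have h2 : |(x + s) - (x - s)| = 2 * s := by
    rw [abs_of_nonneg] <;> linarith
  rw [h2] at h1
  calc _ ≤ ‖∫ t in (x - s)..(x + s), f t‖ := Real.le_norm_self _
    _ ≤ _ := h1
    _ = _ := by ring

theorem Gh_le (h : Dat f C Y K) (u : ℝ × ℝ) (ρ : ℝ) (h0 : 0 ≤ ρ) (h1 : ρ ≤ 1) :
    Gh f C u ρ ≤ 32 * K * ρ / (1 + |u.1|) ^ 2 := by
  unfold Gh
  have hr := rr_le h u.2
  have hr0 : 0 ≤ rr C u.2 := rr_nonneg u.2
  have hK : 0 < K := lt_of_lt_of_le one_pos h.one_le
  rcases eq_or_lt_of_le (add_nonneg h0 hr0) with hs | hs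
  · rw [← hs]
    simp
    positivity
  · have hV := V_le h u.1 (ρ + rr C u.2) hs.le (by linarith)
    have hq : 0 ≤ ρ / (ρ + rr C u.2) := by positivity
    calc V f u.1 (ρ + rr C u.2) * (ρ / (ρ + rr C u.2))
        ≤ 2 * (ρ + rr C u.2) * (16 * K / (1 + |u.1|) ^ 2) * (ρ / (ρ + rr C u.2)) := by gcongr
      _ = 32 * K * ρ / (1 + |u.1|) ^ 2 := by
        field_simp
        ring

theorem lip (h : Dat f C Y K) {X : Type} [MetricSpace X] {P : ℝ × ℝ → X} {N S : X} {c : ℝ}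
    (hM : Mdl f C P N S c) (j : ℤ) :
    ∀ u ∈ Icc (j : ℝ) (j + 1) ×ˢ Icc (0 : ℝ) 1, ∀ v ∈ Icc (j : ℝ) (j + 1) ×ˢ Icc (0 : ℝ) 1,
      dist (P u) (P v) ≤ (256 * K / (1 + |(j : ℝ)|) ^ 2) * dist u v := by
  intro u hu v hv
  have hK : 0 < K := lt_of_lt_of_le one_pos h.one_le
  have hj : 0 ≤ |(j : ℝ)| := abs_nonneg _
  have hd : dist u v ≤ 1 := by
    rw [Prod.dist_eq, max_le_iff, Real.dist_eq, Real.dist_eq, abs_le, abs_le]
    obtain ⟨⟨a1, a2⟩, a3, a4⟩ := hu
    obtain ⟨⟨b1, b2⟩, b3, b4⟩ := hv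
    refine ⟨⟨?_, ?_⟩, ?_, ?_⟩ <;> linarith
  have hn : ‖u - v‖ = dist u v := (dist_eq_norm u v).symm
  have h1 := hM.up u v (by rw [hn]; exact hd)
  have key : ∀ w ∈ Icc (j : ℝ) (j + 1) ×ˢ Icc (0 : ℝ) 1,
      Gh f C w (dist u v) ≤ 128 * K / (1 + |(j : ℝ)|) ^ 2 * dist u v := by
    intro w hw
    have h2 := Gh_le h w (dist u v) dist_nonneg hd
    have h3 : 1 + |(j : ℝ)| ≤ 2 * (1 + |w.1|) := by
      have h4 : |(j : ℝ)| - |w.1| ≤ |(j : ℝ) - w.1| := abs_sub_abs_le_abs_sub _ _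
      have h5 : |(j : ℝ) - w.1| ≤ 1 := by
        rw [abs_le]; obtain ⟨⟨a1, a2⟩, _⟩ := hw
        constructor <;> linarith
      have := abs_nonneg w.1
      linarith
    have h6 : (1 + |(j : ℝ)|) ^ 2 ≤ (2 * (1 + |w.1|)) ^ 2 :=
      pow_le_pow_left₀ (by positivity) h3 2
    have hdn : 0 ≤ dist u v := dist_nonneg
    have hw0 : 0 ≤ |w.1| := abs_nonneg _
    refine h2.trans ?_
    rw [div_mul_eq_mul_div, div_le_div_iff₀ (by positivity) (by positivity)]
    have : 32 * K * dist u v * (1 + |(j : ℝ)|) ^ 2 ≤ 32 * K * dist u v * (2 * (1 + |w.1|)) ^ 2 := by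
      gcongr
    calc _ ≤ _ := this
      _ = _ := by ring
  unfold G at h1
  rw [hn] at h1
  have hu' := key u hu
  have hv' := key v hv
  calc dist (P u) (P v) ≤ _ := h1
    _ ≤ 128 * K / (1 + |(j : ℝ)|) ^ 2 * dist u v + 128 * K / (1 + |(j : ℝ)|) ^ 2 * dist u v :=
      add_le_add hu' hv'
    _ = _ := by ring

theorem summ : Summable (fun j : ℤ => 1 / (1 + |(j : ℝ)|) ^ 4) := by
  rw [summable_int_iff_summable_nat_and_neg]
  have h1 : Summable (fun n : ℕ => 1 / (1 + (n : ℝ)) ^ 4) := by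
    have := (summable_nat_add_iff 1).2 (Real.summable_one_div_nat_pow.2 (by norm_num : 1 < 4))
    refine this.congr (fun n => ?_)
    push_cast
    rw [add_comm]
  constructor
  · refine h1.congr (fun n => ?_)
    simp
  · refine h1.congr (fun n => ?_)
    simp

end ModFINA

open ModFINA in
theorem mFINA : StmFINA := by
  intro f C Y K h X _ _ _ P N S c hM
  have hK : 0 < K := lt_of_lt_of_le one_pos h.one_le
  set T : ℤ → Set (ℝ × ℝ) := fun j => Icc (j : ℝ) (j + 1) ×ˢ Icc (0 : ℝ) 1 with hT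
  have hvol : ∀ j, (μH[2] : Measure (ℝ × ℝ)) (T j) = 1 := by
    intro j
    rw [hausdorffMeasure_prod_real, Measure.volume_eq_prod, hT]
    simp only
    rw [Measure.prod_prod, Real.volume_Icc, Real.volume_Icc]
    simp
  have hle : ∀ j, (μH[2] : Measure X) (P '' T j) ≤
      ENNReal.ofReal ((256 * K) ^ 2 * (1 / (1 + |(j : ℝ)|) ^ 4)) := by
    intro j
    have hL : LipschitzOnWith (Real.toNNReal (256 * K / (1 + |(j : ℝ)|) ^ 2)) P (T j) := by
      apply LipschitzOnWith.of_dist_le_mul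
      intro u hu v hv
      rw [Real.coe_toNNReal _ (by positivity)]
      exact lip h hM j u hu v hv
    have h1 := hL.hausdorffMeasure_image_le (d := 2) (by norm_num)
    rw [hvol, mul_one] at h1
    refine h1.trans (le_of_eq ?_)
    rw [ENNReal.rpow_two]
    rw [show ((Real.toNNReal (256 * K / (1 + |(j : ℝ)|) ^ 2) : ℝ≥0) : ℝ≥0∞) =
      ENNReal.ofReal (256 * K / (1 + |(j : ℝ)|) ^ 2) from rfl]
    rw [← ENNReal.ofReal_pow (by positivity)]
    congr 1
    field_simp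
  have hcov : (univ : Set X) ⊆ {N} ∪ ({S} ∪ ⋃ j : ℤ, P '' T j) := by
    intro p _
    rcases hM.surj p with rfl | rfl | ⟨u, rfl⟩
    · left; rfl
    · right; left; rfl
    · right; right
      rw [mem_iUnion]
      refine ⟨⌊u.1⌋, (u.1, Int.fract u.2), ⟨⟨Int.floor_le _, (Int.lt_floor_add_one _).le⟩,
        Int.fract_nonneg _, (Int.fract_lt_one _).le⟩, ?_⟩
      rw [hM.eq_iff]
      refine ⟨rfl, -⌊u.2⌋, ?_⟩
      have := Int.floor_add_fract u.2
      push_cast
      linarith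
  have hN : NullSingletonClass (μH[2] : Measure X) :=
    Measure.nullSingletonClass_hausdorff X (by norm_num)
  refine lt_of_le_of_lt (measure_mono hcov) ?_
  refine lt_of_le_of_lt (measure_union_le _ _) ?_
  rw [measure_singleton, zero_add]
  refine lt_of_le_of_lt (measure_union_le _ _) ?_
  rw [measure_singleton, zero_add]
  refine lt_of_le_of_lt (measure_iUnion_le _) ?_
  refine lt_of_le_of_lt (ENNReal.tsum_le_tsum hle) ?_
  have hs : Summable (fun j : ℤ => (256 * K) ^ 2 * (1 / (1 + |(j : ℝ)|) ^ 4)) :=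
    summ.mul_left _
  rw [← ENNReal.ofReal_tsum_of_nonneg (fun j => by positivity) hs]
  exact ENNReal.ofReal_lt_top

end

end Pool.Agent.T6.H52.LS
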