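import Pool.Agent.T6.H52.LS.DBX

set_option autoImplicit false
open MeasureTheory Filter Topology Metric Set
open scoped ENNReal NNReal

namespace Pool.Agent.T6.H52.LS

namespace ModHAUL

noncomputable section

open ModDBX

variable {f : ℝ → ℝ} {C : Set ℝ} {Y : ℝ → ℝ → ℝ} {K : ℝ}
variable {X : Type} [MetricSpace X] {P : ℝ × ℝ → X} {N S : X} {c : ℝ}

/-- the weight near a point -/
theorem ombd (D : Dat f C Y K) {K1 : ℝ} (hK1 : 1 ≤ K1)
    (h2 : ∀ x x' r r' : ℝ, 0 < r → r ≤ 4 → 0 ≤ r' → r' ≤ 8 * r →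
      r' ≤ 8 → |x - x'| ≤ 8 * r → |x - x'| ≤ 8 → V f x' r' ≤ K1 * V f x r)
    (u₀ u : ℝ × ℝ) (h0 : 0 < rr C u₀.2) (hu : ‖u - u₀‖ ≤ rr C u₀.2 / 16) :
    rr C u₀.2 / 2 ≤ rr C u.2 ∧ rr C u.2 ≤ 2 * rr C u₀.2 ∧ om f C u ≤ 2 * K1 * om f C u₀ ∧
      om f C u₀ ≤ 2 * K1 * om f C u := by
  have hx : |u.1 - u₀.1| ≤ rr C u₀.2 / 16 := (norm_fst_le (u - u₀)).trans hu
  have hy : |u.2 - u₀.2| ≤ rr C u₀.2 / 16 := (norm_snd_le (u - u₀)).trans hu
  have hl1 := rr_lip (C := C) u.2 u₀.2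
  have hl2 := rr_lip (C := C) u₀.2 u.2
  rw [abs_sub_comm] at hl2
  have r0 := rr_le D u₀.2
  have r1 := rr_le D u.2
  set r := rr C u₀.2 with hr
  set s := rr C u.2 with hs
  have hs0 : 0 < s := by linarith
  have hK1' : 0 < K1 := by linarith
  have a1 := h2 u₀.1 u.1 r s h0 (by linarith) hs0.le (by linarith) (by linarith)
    (by rw [abs_sub_comm]; linarith) (by rw [abs_sub_comm]; linarith)
  have a2 := h2 u.1 u₀.1 s r hs0 (by linarith) h0.le (by linarith) (by linarith)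
    (by linarith) (by linarith)
  have v1 := V0 D u.1 hs0.le
  have v2 := V0 D u₀.1 h0.le
  refine ⟨by linarith, by linarith, ?_, ?_⟩
  · show V f u.1 s / s ≤ 2 * K1 * (V f u₀.1 r / r)
    rw [← mul_div_assoc, div_le_div_iff₀ hs0 h0]
    have : V f u.1 s * r ≤ K1 * V f u₀.1 r * r := mul_le_mul_of_nonneg_right a1 h0.le
    have h5 : K1 * V f u₀.1 r * r ≤ K1 * V f u₀.1 r * (2 * s) :=
      mul_le_mul_of_nonneg_left (by linarith) (by positivity)
    linarith
  · show V f u₀.1 r / r ≤ 2 * K1 * (V f u.1 s / s)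
    rw [← mul_div_assoc, div_le_div_iff₀ h0 hs0]
    have : V f u₀.1 r * s ≤ K1 * V f u.1 s * s := mul_le_mul_of_nonneg_right a2 hs0.le
    have h5 : K1 * V f u.1 s * s ≤ K1 * V f u.1 s * (2 * r) :=
      mul_le_mul_of_nonneg_left (by linarith) (by positivity)
    linarith

/-- the lower bound for the distance near a point -/
theorem anti (D : Dat f C Y K) (M : Mdl f C P N S c) {K1 : ℝ} (hK1 : 1 ≤ K1)
    (h2 : ∀ x x' r r' : ℝ, 0 < r → r ≤ 4 → 0 ≤ r' → r' ≤ 8 * r →
      r' ≤ 8 → |x - x'| ≤ 8 * r → |x - x'| ≤ 8 → V f x' r' ≤ K1 * V f x r)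
    (u₀ u v : ℝ × ℝ) (h0 : 0 < rr C u₀.2) (hu : ‖u - u₀‖ ≤ rr C u₀.2 / 16)
    (hv : ‖v - u₀‖ ≤ rr C u₀.2 / 16) :
    c / (4 * K1) * om f C u₀ * ‖u - v‖ ≤ dist (P u) (P v) := by
  have hc := M.pos
  have hK1' : 0 < K1 := by linarith
  have r0 := rr_le D u₀.2
  obtain ⟨b1, b2, b3, b4⟩ := ombd D hK1 h2 u₀ u h0 hu
  have hn : ‖u - v‖ ≤ rr C u₀.2 / 8 := by
    have : u - v = (u - u₀) - (v - u₀) := by abel
    rw [this]
    exact (norm_sub_le _ _).trans (by linarith)
  have hx : |u.1 - v.1| ≤ rr C u₀.2 / 8 := (norm_fst_le (u - v)).trans hn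
  have hy : |u.2 - v.2| ≤ rr C u₀.2 / 8 := (norm_snd_le (u - v)).trans hn
  have e1 := M.low u v (by linarith) (by linarith)
  have hδ := norm_nonneg (u - v)
  set δ := ‖u - v‖ with hδd
  have e2 : Gh f C u δ ≤ G f C u v := by
    unfold G
    linarith [Gh0 D v hδ]
  have hs0 : 0 < rr C u.2 := by linarith
  have e3 : om f C u * δ / 2 ≤ Gh f C u δ := by
    unfold Gh om
    have f1 : V f u.1 (rr C u.2) ≤ V f u.1 (δ + rr C u.2) := Vmono D _ hs0.le (by linarith)
    have f2 : δ / (2 * rr C u.2) ≤ δ / (δ + rr C u.2) :=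
      div_le_div_of_nonneg_left hδ (by linarith) (by linarith)
    have f3 := V0 D u.1 hs0.le
    calc V f u.1 (rr C u.2) / rr C u.2 * δ / 2 = V f u.1 (rr C u.2) * (δ / (2 * rr C u.2)) := by
          field_simp
      _ ≤ V f u.1 (δ + rr C u.2) * (δ / (δ + rr C u.2)) :=
          mul_le_mul f1 f2 (by positivity) (f3.trans f1)
  have e4 : om f C u₀ * δ ≤ 2 * K1 * om f C u * δ := mul_le_mul_of_nonneg_right b4 hδ
  calc c / (4 * K1) * om f C u₀ * δ = c / (4 * K1) * (om f C u₀ * δ) := by ring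
    _ ≤ c / (4 * K1) * (2 * K1 * om f C u * δ) := mul_le_mul_of_nonneg_left e4 (by positivity)
    _ = c * (om f C u * δ / 2) := by field_simp; norm_num
    _ ≤ c * G f C u v := mul_le_mul_of_nonneg_left (e3.trans e2) hc.le
    _ ≤ _ := e1

/-- the measure of a set on which `P` is bounded from below -/
theorem hmeas [MeasurableSpace X] [BorelSpace X] (B : Set (ℝ × ℝ)) {k : ℝ} (hk : 0 < k)
    (h : ∀ u ∈ B, ∀ v ∈ B, k * ‖u - v‖ ≤ dist (P u) (P v)) :
    volume B ≤ ENNReal.ofReal (1 / k) ^ 2 * (μH[2] : Measure X) (P '' B) := by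
  have hA : AntilipschitzWith (Real.toNNReal (1 / k)) (fun u : B => P u) := by
    apply AntilipschitzWith.of_le_mul_dist
    intro u v
    rw [Real.coe_toNNReal _ (by positivity), Subtype.dist_eq, dist_eq_norm]
    have := h u.1 u.2 v.1 v.2
    rw [one_div, ← div_eq_inv_mul, le_div_iff₀ hk]
    linarith
  have h1 := hA.le_hausdorffMeasure_image (d := 2) (by norm_num) univ
  have h2 : (μH[2] : Measure (ℝ × ℝ)) B = (μH[2] : Measure B) univ := by
    have := (isometry_subtype_coe (s := B)).hausdorffMeasure_image (d := 2) (Or.inl (by norm_num))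
      univ
    rw [image_univ, Subtype.range_coe] at this
    exact this
  have h3 : (fun u : B => P u) '' univ = P '' B := by
    ext p
    constructor
    · rintro ⟨u, -, rfl⟩; exact ⟨u, u.2, rfl⟩
    · rintro ⟨u, hu, rfl⟩; exact ⟨⟨u, hu⟩, mem_univ _, rfl⟩
  rw [h3, ← h2, hausdorffMeasure_prod_real] at h1
  refine h1.trans (le_of_eq ?_)
  rw [ENNReal.rpow_two]
  rfl

theorem V_cont (D : Dat f C Y K) : Continuous fun p : ℝ × ℝ => V f p.1 p.2 := by
  have h1 : Continuous fun x => ∫ s in (0 : ℝ)..x, f s :=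
    intervalIntegral.continuous_primitive (fun a b => ii D a b) 0
  have h2 : (fun p : ℝ × ℝ => V f p.1 p.2) =
      fun p => (∫ s in (0 : ℝ)..(p.1 + p.2), f s) - ∫ s in (0 : ℝ)..(p.1 - p.2), f s := by
    funext p
    have := iadd D 0 (p.1 - p.2) (p.1 + p.2)
    unfold V
    linarith
  rw [h2]
  exact (h1.comp (continuous_fst.add continuous_snd)).sub
    (h1.comp (continuous_fst.sub continuous_snd))

theorem om_meas (D : Dat f C Y K) : Measurable (om f C) := by
  have h1 : Continuous fun u : ℝ × ℝ => rr C u.2 :=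
    (continuous_infDist_pt C).comp continuous_snd
  have h2 : Continuous fun u : ℝ × ℝ => V f u.1 (rr C u.2) :=
    (V_cont D).comp (continuous_fst.prodMk h1)
  exact h2.measurable.div h1.measurable

theorem om0 (D : Dat f C Y K) (u : ℝ × ℝ) : 0 ≤ om f C u :=
  div_nonneg (V0 D _ (rr0 _)) (rr0 _)

/-- comparison of measures from a cover by open sets -/
theorem le_of_cover (m n : Measure (ℝ × ℝ)) (A : ℕ → Set (ℝ × ℝ)) (hA : ∀ i, MeasurableSet (A i))
    (h0 : m (⋃ i, A i)ᶜ = 0)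
    (h : ∀ i, ∀ B, MeasurableSet B → B ⊆ A i → m B ≤ n B) : m ≤ n := by
  rw [Measure.le_iff]
  intro B hB
  have hD : ∀ i, MeasurableSet (disjointed A i) := fun i => MeasurableSet.disjointed hA i
  have h1 : B ⊆ (⋃ i, A i)ᶜ ∪ ⋃ i, B ∩ disjointed A i := by
    intro u hu
    by_cases hu' : u ∈ ⋃ i, A i
    · right
      rw [← iUnion_disjointed] at hu'
      obtain ⟨i, hi⟩ := mem_iUnion.mp hu'
      exact mem_iUnion.mpr ⟨i, hu, hi⟩
    · left; exact hu'
  calc m B ≤ m ((⋃ i, A i)ᶜ) + m (⋃ i, B ∩ disjointed A i) :=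
        (measure_mono h1).trans (measure_union_le _ _)
    _ = m (⋃ i, B ∩ disjointed A i) := by rw [h0, zero_add]
    _ ≤ ∑' i, m (B ∩ disjointed A i) := measure_iUnion_le _
    _ ≤ ∑' i, n (B ∩ disjointed A i) := ENNReal.tsum_le_tsum fun i =>
        h i _ (hB.inter (hD i)) (inter_subset_right.trans (disjointed_subset A i))
    _ = n (⋃ i, B ∩ disjointed A i) := by
        rw [measure_iUnion _ fun i => hB.inter (hD i)]
        intro i j hij
        exact (disjoint_disjointed A hij).mono inter_subset_right inter_subset_right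
    _ ≤ n B := measure_mono (iUnion_subset fun i => inter_subset_left)

theorem main (D : Dat f C Y K) [MeasurableSpace X] [BorelSpace X] (M : Mdl f C P N S c) {K1 : ℝ}
    (hK1 : 1 ≤ K1) (hV : ∀ x r, 0 < r → 0 < V f x r)
    (h2 : ∀ x x' r r' : ℝ, 0 < r → r ≤ 4 → 0 ≤ r' → r' ≤ 8 * r →
      r' ≤ 8 → |x - x'| ≤ 8 * r → |x - x'| ≤ 8 → V f x' r' ≤ K1 * V f x r)
    (ρ : X → ℝ≥0∞) (hρ : Measurable ρ) (y : ℝ) :
    ∫⁻ u in (univ : Set ℝ) ×ˢ Ico y (y + 1), (ρ (P u) * ENNReal.ofReal (om f C u)) ^ 2 ≤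
      ENNReal.ofReal ((8 * K1 ^ 2 / c) ^ 2) * ∫⁻ p, ρ p ^ 2 ∂(μH[2] : Measure X) := by
  haveI := M.cpt
  have hc := M.pos
  have hK1' : 0 < K1 := by linarith
  set Sy : Set (ℝ × ℝ) := univ ×ˢ Ico y (y + 1) with hSy
  have hSym : MeasurableSet Sy := MeasurableSet.univ.prod measurableSet_Ico
  haveI : StandardBorelSpace Sy := hSym.standardBorel
  set g : Sy → X := fun u => P u with hg
  have hgm : Measurable g := (M.cont.comp continuous_subtype_val).measurable
  have hgi : Function.Injective g := by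
    intro u v huv
    obtain ⟨h4, k, hk⟩ := (M.eq_iff u v).mp huv
    have hu := u.2.2
    have hv := v.2.2
    have h5 : (k : ℝ) < 1 := by rw [← hk]; linarith [hu.2, hv.1]
    have h6 : (-1 : ℝ) < k := by rw [← hk]; linarith [hu.1, hv.2]
    have h7 : k < 1 := by exact_mod_cast h5
    have h8 : -1 < k := by exact_mod_cast h6
    have h9 : k = 0 := by omega
    rw [h9] at hk
    apply Subtype.ext
    apply Prod.ext h4
    push_cast at hk
    linarith
  have hge : MeasurableEmbedding g := hgm.measurableEmbedding hgi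
  set μ : Measure X := μH[2] with hμ
  set ν : Measure (ℝ × ℝ) := (Measure.comap g μ).map Subtype.val with hν
  have hνa : ∀ B, MeasurableSet B → ν B = μ (P '' (B ∩ Sy)) := by
    intro B hB
    rw [hν, Measure.map_apply measurable_subtype_coe hB, hge.comap_apply]
    congr 1
    ext p
    constructor
    · rintro ⟨u, hu, rfl⟩; exact ⟨u, ⟨hu, u.2⟩, rfl⟩
    · rintro ⟨u, ⟨hu, hu'⟩, rfl⟩; exact ⟨⟨u, hu'⟩, hu, rfl⟩
  set w2 : ℝ × ℝ → ℝ≥0∞ := fun u => ENNReal.ofReal (om f C u) ^ 2 with hw2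
  have hw2m : Measurable w2 := (om_meas D).ennreal_ofReal.pow_const 2
  set m1 : Measure (ℝ × ℝ) := (volume.restrict Sy).withDensity w2 with hm1
  -- the local inequality
  have hloc : ∀ u₀ : ℝ × ℝ, u₀.2 ∉ C → ∀ B, MeasurableSet B →
      B ⊆ ball u₀ (rr C u₀.2 / 16) →
      m1 B ≤ (ENNReal.ofReal ((8 * K1 ^ 2 / c) ^ 2) • ν) B := by
    intro u₀ hu₀ B hB hBb
    have h0 : 0 < rr C u₀.2 := (D.closed.notMem_iff_infDist_pos D.ne).mp hu₀
    have hw : 0 < om f C u₀ := div_pos (hV _ _ h0) h0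
    have hBn : ∀ u ∈ B, ‖u - u₀‖ ≤ rr C u₀.2 / 16 := fun u hu => by
      have := hBb hu
      rw [mem_ball, dist_eq_norm] at this
      exact this.le
    have e1 : m1 B ≤ ENNReal.ofReal (2 * K1 * om f C u₀) ^ 2 * volume (B ∩ Sy) := by
      rw [hm1, withDensity_apply _ hB]
      calc ∫⁻ u in B, w2 u ∂(volume.restrict Sy)
          ≤ ∫⁻ u in B, ENNReal.ofReal (2 * K1 * om f C u₀) ^ 2 ∂(volume.restrict Sy) := by
            apply setLIntegral_mono measurable_const
            intro u hu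
            have := (ombd D hK1 h2 u₀ u h0 (hBn u hu)).2.2.1
            exact pow_le_pow_left' (ENNReal.ofReal_le_ofReal this) 2
        _ = _ := by
            rw [setLIntegral_const, Measure.restrict_apply hB]
    have hk : 0 < c / (4 * K1) * om f C u₀ := by positivity
    have e2 := hmeas (P := P) (B ∩ Sy) hk fun u hu v hv =>
      anti D M hK1 h2 u₀ u v h0 (hBn u hu.1) (hBn v hv.1)
    rw [Measure.smul_apply, smul_eq_mul, hνa B hB]
    refine e1.trans ((mul_le_mul_right e2 _).trans ?_)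
    rw [← mul_assoc]
    apply mul_le_mul_left
    rw [← mul_pow, ← ENNReal.ofReal_mul (by positivity), ← ENNReal.ofReal_pow (by positivity)]
    apply ENNReal.ofReal_le_ofReal
    apply le_of_eq
    field_simp
    norm_num
  -- the cover
  have hle : m1 ≤ ENNReal.ofReal ((8 * K1 ^ 2 / c) ^ 2) • ν := by
    obtain ⟨t, ht, htc, hcov⟩ := TopologicalSpace.countable_cover_nhdsWithin
      (s := {u : ℝ × ℝ | u.2 ∉ C}) (f := fun u₀ => ball u₀ (rr C u₀.2 / 16)) (by
        intro u₀ hu₀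
        apply mem_nhdsWithin_of_mem_nhds
        apply ball_mem_nhds
        have h0 : 0 < rr C u₀.2 := (D.closed.notMem_iff_infDist_pos D.ne).mp hu₀
        positivity)
    have hnull : (volume : Measure (ℝ × ℝ)) {u : ℝ × ℝ | u.2 ∈ C} = 0 := by
      have : {u : ℝ × ℝ | u.2 ∈ C} = univ ×ˢ C := by ext u; simp
      rw [this, Measure.volume_eq_prod, Measure.prod_prod, D.null, mul_zero]
    have hm0 : m1 {u : ℝ × ℝ | u.2 ∈ C} = 0 := by
      apply withDensity_absolutelyContinuous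
      exact le_antisymm ((Measure.restrict_apply_le _ _).trans hnull.le) zero_le
    rcases t.eq_empty_or_nonempty with h | h
    · have hz : m1 = 0 := by
        rw [← Measure.measure_univ_eq_zero]
        refine le_antisymm (le_trans (measure_mono ?_) hm0.le) zero_le
        intro u _
        by_contra hu
        have := hcov (show u ∈ {u : ℝ × ℝ | u.2 ∉ C} from hu)
        simp [h] at this
      rw [hz]; exact Measure.zero_le _
    · obtain ⟨a, ha⟩ := htc.exists_eq_range h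
      apply le_of_cover m1 _ (fun i => ball (a i) (rr C (a i).2 / 16))
        (fun i => measurableSet_ball)
      · refine le_antisymm (le_trans (measure_mono ?_) hm0.le) zero_le
        intro u hu
        by_contra hu'
        apply hu
        have h5 := hcov (show u ∈ {u : ℝ × ℝ | u.2 ∉ C} from hu')
        simp only [mem_iUnion] at h5 ⊢
        obtain ⟨x, hx, hx2⟩ := h5
        rw [ha] at hx
        obtain ⟨i, rfl⟩ := hx
        exact ⟨i, hx2⟩
      · intro i B hB hBi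
        exact hloc (a i) (ht (by rw [ha]; exact mem_range_self i)) B hB hBi
  -- the integrals
  have hρP : Measurable fun u => ρ (P u) ^ 2 := (hρ.comp M.cont.measurable).pow_const 2
  calc ∫⁻ u in Sy, (ρ (P u) * ENNReal.ofReal (om f C u)) ^ 2
      = ∫⁻ u, ρ (P u) ^ 2 ∂m1 := by
        rw [hm1, lintegral_withDensity_eq_lintegral_mul _ hw2m hρP]
        apply lintegral_congr
        intro u
        simp only [Pi.mul_apply, hw2]
        rw [mul_pow, mul_comm]
    _ ≤ ∫⁻ u, ρ (P u) ^ 2 ∂(ENNReal.ofReal ((8 * K1 ^ 2 / c) ^ 2) • ν) := lintegral_mono' hle le_rfl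
    _ = ENNReal.ofReal ((8 * K1 ^ 2 / c) ^ 2) * ∫⁻ u, ρ (P u) ^ 2 ∂ν := by
        rw [lintegral_smul_measure, smul_eq_mul]
    _ ≤ ENNReal.ofReal ((8 * K1 ^ 2 / c) ^ 2) * ∫⁻ p, ρ p ^ 2 ∂μ := by
        apply mul_le_mul_right
        rw [hν, lintegral_map hρP measurable_subtype_coe]
        calc ∫⁻ u : Sy, ρ (P u) ^ 2 ∂(Measure.comap g μ)
            = ∫⁻ p, ρ p ^ 2 ∂((Measure.comap g μ).map g) :=
              (lintegral_map (hρ.pow_const 2) hgm).symm
          _ = ∫⁻ p, ρ p ^ 2 ∂(μ.restrict (range g)) := by rw [hge.map_comap]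
          _ ≤ ∫⁻ p, ρ p ^ 2 ∂μ := lintegral_mono' Measure.restrict_le_self le_rfl

end

end ModHAUL

open ModHAUL in
theorem mHAUL (hDB : StmDB) : StmHAUL := by
  intro f C Y K D X _ _ _ P N S c M
  obtain ⟨hV, hB, -⟩ := hDB f C Y K D
  obtain ⟨K1, hK1, h2⟩ := hB 8 (by norm_num)
  have hc := M.pos
  refine ⟨(8 * K1 ^ 2 / c) ^ 2, by positivity, fun ρ hρ y => ?_⟩
  exact main D M hK1 hV h2 ρ hρ y

end Pool.Agent.T6.H52.LS
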