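import Pool.Agent.T6.H52.LS.Defs2

/-! Project LS, module HHL. -/

set_option autoImplicit false
open MeasureTheory Filter Topology Metric Set
open scoped ENNReal NNReal

namespace Pool.Agent.T6.H52.LS.ModHHL

variable {f : ℝ → ℝ} {C : Set ℝ} {Y : ℝ → ℝ → ℝ} {K : ℝ}

theorem integ (D : Dat f C Y K) : Integrable f := by
  have h1 : Integrable (fun x : ℝ => K * (1 + ‖x‖) ^ (-2 : ℝ)) :=
    (integrable_one_add_norm (by simp)).const_mul K
  refine h1.mono' D.meas.aestronglyMeasurable (ae_of_all _ fun x => ?_)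
  have h3 : 0 < 1 + |x| := by positivity
  have h4 : (1 + ‖x‖) ^ (-2 : ℝ) = ((1 + |x|) ^ 2)⁻¹ := by
    rw [Real.norm_eq_abs, Real.rpow_neg h3.le, ← Real.rpow_natCast]
    norm_num
  rw [Real.norm_of_nonneg (D.nonneg x), h4, ← div_eq_mul_inv, le_div_iff₀ (by positivity)]
  exact D.le x

theorem ii (D : Dat f C Y K) (a b : ℝ) : IntervalIntegrable f volume a b :=
  (integ D).intervalIntegrable

theorem hh_sub (D : Dat f C Y K) (x y : ℝ) : hh f y - hh f x = ∫ s in x..y, f s :=
  intervalIntegral.integral_interval_sub_left (ii D _ _) (ii D _ _)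

theorem V_eq (D : Dat f C Y K) (x r : ℝ) : V f x r = hh f (x + r) - hh f (x - r) := by
  rw [hh_sub D]; rfl

theorem hh_mono (D : Dat f C Y K) : Monotone (hh f) := by
  intro x y hxy
  have h := hh_sub D x y
  have h2 : 0 ≤ ∫ s in x..y, f s := intervalIntegral.integral_nonneg hxy fun s _ => D.nonneg s
  linarith

theorem hh_cont (D : Dat f C Y K) : Continuous (hh f) :=
  intervalIntegral.continuous_primitive (ii D) 0

theorem rr_nonneg (y : ℝ) : 0 ≤ rr C y := infDist_nonneg

theorem rr_lip (y y' : ℝ) : |rr C y - rr C y'| ≤ |y - y'| := by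
  rw [abs_le]
  have h1 := infDist_le_infDist_add_dist (s := C) (x := y) (y := y')
  have h2 := infDist_le_infDist_add_dist (s := C) (x := y') (y := y)
  rw [Real.dist_eq] at h1 h2
  rw [abs_sub_comm y' y] at h2
  unfold rr
  constructor <;> linarith

theorem rr_per (D : Dat f C Y K) (y : ℝ) : rr C (y + 1) = rr C y := by
  have hC : (fun z : ℝ => z + 1) '' C = C := by
    ext z
    constructor
    · rintro ⟨w, hw, rfl⟩
      exact (D.per w).2 hw
    · intro hz
      refine ⟨z - 1, ?_, by simp⟩
      have := D.per (z - 1)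
      rw [sub_add_cancel] at this
      exact this.1 hz
  have hi : Isometry (fun z : ℝ => z + 1) := isometry_add_right 1
  have h := infDist_image (x := y) (t := C) hi
  rw [hC] at h
  exact h

theorem per_int (D : Dat f C Y K) (n : ℤ) : ∀ y : ℝ, y + (n : ℝ) ∈ C ↔ y ∈ C := by
  induction n using Int.induction_on with
  | zero => intro y; simp
  | succ i ih =>
    intro y
    push_cast at ih ⊢
    rw [← add_assoc, D.per, ih]
  | pred i ih =>
    intro y
    push_cast at ih ⊢
    rw [← D.per, show y + (-(i : ℝ) - 1) + 1 = y + -(i : ℝ) by ring]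
    exact ih y

theorem rr_le (D : Dat f C Y K) (y : ℝ) : rr C y ≤ 1 / 2 := by
  obtain ⟨c, hc⟩ := D.ne
  have h1 : c + (round (y - c) : ℤ) ∈ C := (per_int D _ c).2 hc
  refine (infDist_le_dist_of_mem h1).trans ?_
  rw [Real.dist_eq]
  have := abs_sub_round (y - c)
  rw [show y - (c + (round (y - c) : ℤ)) = y - c - (round (y - c) : ℤ) by ring]
  exact this

/-! averages of monotone functions -/

theorem avg_eq {h : ℝ → ℝ} {r : ℝ} (hr : 0 < r) (y : ℝ) :
    ∫ θ in (0 : ℝ)..1, h (y + θ * r) = r⁻¹ * ∫ x in y..(y + r), h x := by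
  have := intervalIntegral.integral_comp_add_mul (a := 0) (b := 1) h hr.ne' y
  simp only [mul_zero, add_zero, mul_one, smul_eq_mul] at this
  rw [← this]
  congr 1
  ext θ
  rw [mul_comm]

theorem avg_sub {h : ℝ → ℝ} (hc : Continuous h) {r : ℝ} (hr : 0 < r) (y d : ℝ) :
    (∫ θ in (0 : ℝ)..1, h (y + d + θ * r)) - ∫ θ in (0 : ℝ)..1, h (y + θ * r) =
      r⁻¹ * ((∫ x in (y + r)..(y + r + d), h x) - ∫ x in y..(y + d), h x) := by
  have hI : ∀ a b, IntervalIntegrable h volume a b := fun a b => hc.intervalIntegrable a b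
  rw [avg_eq hr, avg_eq hr, ← mul_sub]
  congr 1
  have e : ∀ a b, ∫ x in a..b, h x = (∫ x in (0 : ℝ)..b, h x) - ∫ x in (0 : ℝ)..a, h x :=
    fun a b => (intervalIntegral.integral_interval_sub_left (hI _ _) (hI _ _)).symm
  rw [e (y + d), e y (y + r), e (y + r), e y (y + d), show y + d + r = y + r + d by ring]
  ring

theorem int_le {h : ℝ → ℝ} (hc : Continuous h) (hm : Monotone h) (y : ℝ) {d : ℝ} (hd : 0 ≤ d) :
    d * h y ≤ ∫ x in y..(y + d), h x ∧ ∫ x in y..(y + d), h x ≤ d * h (y + d) := by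
  have hI : IntervalIntegrable h volume y (y + d) := hc.intervalIntegrable _ _
  constructor
  · have := intervalIntegral.integral_mono_on (by linarith : y ≤ y + d)
      (intervalIntegrable_const (c := h y)) hI (fun x hx => hm hx.1)
    simpa using this
  · have := intervalIntegral.integral_mono_on (by linarith : y ≤ y + d) hI
      (intervalIntegrable_const (c := h (y + d))) (fun x hx => hm hx.2)
    simpa using this

theorem avg_up {h : ℝ → ℝ} (hc : Continuous h) (hm : Monotone h) {r : ℝ} (hr : 0 < r) (y : ℝ)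
    {d : ℝ} (hd : 0 ≤ d) :
    (∫ θ in (0 : ℝ)..1, h (y + d + θ * r)) - ∫ θ in (0 : ℝ)..1, h (y + θ * r) ≤
      d / r * (h (y + r + d) - h y) := by
  rw [avg_sub hc hr]
  have h1 := (int_le hc hm (y + r) hd).2
  have h2 := (int_le hc hm y hd).1
  rw [div_eq_mul_inv, mul_comm d, mul_assoc]
  apply mul_le_mul_of_nonneg_left _ (inv_pos.2 hr).le
  linarith

theorem avg_lo {h : ℝ → ℝ} (hc : Continuous h) (hm : Monotone h) {r : ℝ} (hr : 0 < r) (y : ℝ)
    {d : ℝ} (hd : 0 ≤ d) :
    d / r * (h (y + r) - h (y + d)) ≤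
    (∫ θ in (0 : ℝ)..1, h (y + d + θ * r)) - ∫ θ in (0 : ℝ)..1, h (y + θ * r) := by
  rw [avg_sub hc hr]
  have h1 := (int_le hc hm (y + r) hd).1
  have h2 := (int_le hc hm y hd).2
  rw [div_eq_mul_inv, mul_comm d, mul_assoc]
  apply mul_le_mul_of_nonneg_left _ (inv_pos.2 hr).le
  linarith

/-! the function `HH` -/

theorem hI (D : Dat f C Y K) (x r : ℝ) :
    IntervalIntegrable (fun θ => hh f (x + θ * r)) volume 0 1 :=
  ((hh_cont D).comp (by fun_prop : Continuous fun θ : ℝ => x + θ * r)).intervalIntegrable _ _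

theorem HH_lo (D : Dat f C Y K) (u : ℝ × ℝ) : hh f u.1 ≤ HH f C u := by
  have := intervalIntegral.integral_mono_on (zero_le_one' ℝ)
    (intervalIntegrable_const (c := hh f u.1)) (hI D u.1 (rr C u.2))
    (fun θ hθ => hh_mono D (by nlinarith [rr_nonneg (C := C) u.2, hθ.1]))
  simpa [HH] using this

theorem HH_hi (D : Dat f C Y K) (u : ℝ × ℝ) : HH f C u ≤ hh f (u.1 + rr C u.2) := by
  have := intervalIntegral.integral_mono_on (zero_le_one' ℝ) (hI D u.1 (rr C u.2))
    (intervalIntegrable_const (c := hh f (u.1 + rr C u.2)))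
    (fun θ hθ => hh_mono D (by nlinarith [rr_nonneg (C := C) u.2, hθ.2]))
  simpa [HH] using this

theorem HH_half (D : Dat f C Y K) (u : ℝ × ℝ) : HH f C u ≤ hh f (u.1 + 1 / 2) :=
  (HH_hi D u).trans (hh_mono D (by linarith [rr_le D u.2]))

theorem Gh_nonneg (hV : ∀ x r, 0 < r → 0 < V f x r) (u : ℝ × ℝ) {ρ : ℝ} (hρ : 0 ≤ ρ) :
    0 ≤ Gh f C u ρ := by
  unfold Gh
  rcases hρ.eq_or_lt with h | h
  · rw [← h]; simp
  · have := rr_nonneg (C := C) u.2
    exact mul_nonneg (hV _ _ (by linarith)).le (by positivity)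

theorem rr_cont : Continuous (rr C) := continuous_infDist_pt C

theorem HH_cont (D : Dat f C Y K) : Continuous (HH f C) := by
  unfold HH
  apply intervalIntegral.continuous_parametric_intervalIntegral_of_continuous'
  simp only [Function.uncurry_def]
  apply (hh_cont D).comp
  have := rr_cont (C := C)
  fun_prop

end Pool.Agent.T6.H52.LS.ModHHL

namespace Pool.Agent.T6.H52.LS

open ModHHL

theorem mHHL (hDB : StmDB) : StmHHL := by
  intro f C Y K D
  obtain ⟨hV, hA, -⟩ := hDB f C Y K D
  have hm := hh_mono D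
  have hc := hh_cont D
  refine ⟨HH_cont D, ?_, ?_, ?_, ?_, ?_⟩
  · intro x y
    simp only [HH, rr_per D]
  · have ha : Tendsto (hh f) atTop (𝓝 (∫ x in Ioi (0 : ℝ), f x)) :=
      intervalIntegral_tendsto_integral_Ioi 0 (integ D).integrableOn tendsto_id
    have hb : Tendsto (hh f) atBot (𝓝 (-∫ x in Iic (0 : ℝ), f x)) := by
      have h1 := (intervalIntegral_tendsto_integral_Iic (0 : ℝ) (integ D).integrableOn
        (tendsto_id (x := (atBot : Filter ℝ)))).neg
      refine h1.congr fun x => ?_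
      simp only [id]
      rw [← intervalIntegral.integral_symm]; rfl
    have hla : ∀ x, hh f x ≤ ∫ x in Ioi (0 : ℝ), f x := fun x => hm.ge_of_tendsto ha x
    have hlb : ∀ x, (-∫ x in Iic (0 : ℝ), f x) ≤ hh f x := fun x => hm.le_of_tendsto hb x
    refine ⟨_, _, ?_, ?_, ha, hb, fun u => ⟨(hlb _).trans (HH_lo D u), (HH_half D u).trans (hla _)⟩⟩
    · exact tendsto_of_tendsto_of_tendsto_of_le_of_le (ha.comp tendsto_comap) tendsto_const_nhds
        (fun u => HH_lo D u) (fun u => (HH_half D u).trans (hla _))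
    · have h2 : Tendsto (fun u : ℝ × ℝ => u.1 + 1 / 2) (comap Prod.fst atBot) atBot :=
        tendsto_atBot_add_const_right _ _ tendsto_comap
      exact tendsto_of_tendsto_of_tendsto_of_le_of_le tendsto_const_nhds (hb.comp h2)
        (fun u => (hlb _).trans (HH_lo D u)) (fun u => HH_half D u)
  · obtain ⟨K', hK', H⟩ := hA 4 (by norm_num)
    refine ⟨8 * K', by linarith, fun u v huv => ?_⟩
    set ρ := ‖u - v‖ with hρ
    have hρ0 : 0 ≤ ρ := norm_nonneg _
    have hGv : 0 ≤ Gh f C v ρ := Gh_nonneg hV v hρ0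
    suffices h : |HH f C u - HH f C v| ≤ 8 * K' * Gh f C u ρ by
      refine h.trans ?_
      unfold G
      rw [← hρ]
      have : 0 ≤ 8 * K' * Gh f C v ρ := by positivity
      linarith
    rcases hρ0.eq_or_lt with h0 | h0
    · have : u = v := by
        rw [← sub_eq_zero, ← norm_eq_zero]; exact h0.symm
      rw [this, sub_self, abs_zero]
      have := Gh_nonneg (C := C) hV v hρ0
      rw [← ‹u = v›] at this
      positivity
    have h1 : |u.1 - v.1| ≤ ρ := norm_fst_le (u - v)
    have h2 : |u.2 - v.2| ≤ ρ := norm_snd_le (u - v)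
    have h3 : |rr C u.2 - rr C v.2| ≤ ρ := (rr_lip _ _).trans h2
    have hr0 := rr_nonneg (C := C) u.2
    have hr1 := rr_le D u.2
    rw [abs_le] at h1 h3
    set r := rr C u.2 with hr
    -- comparison with shifts
    have h4 : HH f C v ≤ ∫ θ in (0 : ℝ)..1, hh f (u.1 + 2 * ρ + θ * r) :=
      intervalIntegral.integral_mono_on (zero_le_one' ℝ) (hI D _ _) (hI D _ _)
        (fun θ hθ => hm (by nlinarith [hθ.1, hθ.2, h1.1, h1.2, h3.1, h3.2]))
    have h5 : ∫ θ in (0 : ℝ)..1, hh f (u.1 - 2 * ρ + θ * r) ≤ HH f C v :=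
      intervalIntegral.integral_mono_on (zero_le_one' ℝ) (hI D _ _) (hI D _ _)
        (fun θ hθ => hm (by nlinarith [hθ.1, hθ.2, h1.1, h1.2, h3.1, h3.2]))
    have h6 : HH f C u ≤ ∫ θ in (0 : ℝ)..1, hh f (u.1 + 2 * ρ + θ * r) :=
      intervalIntegral.integral_mono_on (zero_le_one' ℝ) (hI D _ _) (hI D _ _)
        (fun θ hθ => hm (by linarith))
    have h7 : ∫ θ in (0 : ℝ)..1, hh f (u.1 - 2 * ρ + θ * r) ≤ HH f C u :=
      intervalIntegral.integral_mono_on (zero_le_one' ℝ) (hI D _ _) (hI D _ _)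
        (fun θ hθ => hm (by linarith))
    have h8 : |HH f C u - HH f C v| ≤ (∫ θ in (0 : ℝ)..1, hh f (u.1 + 2 * ρ + θ * r)) -
        ∫ θ in (0 : ℝ)..1, hh f (u.1 - 2 * ρ + θ * r) := by
      rw [abs_le]; constructor <;> linarith
    refine h8.trans ?_
    rcases le_or_gt r ρ with hc1 | hc1
    · -- `r ≤ ρ`
      have e1 : ∫ θ in (0 : ℝ)..1, hh f (u.1 + 2 * ρ + θ * r) ≤ hh f (u.1 + 4 * ρ) := by
        have := intervalIntegral.integral_mono_on (zero_le_one' ℝ) (hI D (u.1 + 2 * ρ) r)
          (intervalIntegrable_const (c := hh f (u.1 + 4 * ρ)))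
          (fun θ hθ => hm (by nlinarith [hθ.1, hθ.2]))
        simpa using this
      have e2 : hh f (u.1 - 4 * ρ) ≤ ∫ θ in (0 : ℝ)..1, hh f (u.1 - 2 * ρ + θ * r) := by
        have := intervalIntegral.integral_mono_on (zero_le_one' ℝ)
          (intervalIntegrable_const (c := hh f (u.1 - 4 * ρ))) (hI D (u.1 - 2 * ρ) r)
          (fun θ hθ => hm (by nlinarith [hθ.1, hθ.2]))
        simpa using this
      have e3 := H u.1 u.1 ρ (4 * ρ) h0 (by linarith) (by linarith) le_rfl (by linarith)
        (by rw [sub_self, abs_zero]; positivity) (by rw [sub_self, abs_zero]; norm_num)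
      have e4 : V f u.1 ρ ≤ V f u.1 (ρ + r) := by
        rw [V_eq D, V_eq D]
        have := hm (by linarith : u.1 + ρ ≤ u.1 + (ρ + r))
        have := hm (by linarith : u.1 - (ρ + r) ≤ u.1 - ρ)
        linarith
      rw [V_eq D u.1 (4 * ρ)] at e3
      have e5 : 1 / 2 ≤ ρ / (ρ + r) := by
        rw [div_le_div_iff₀ (by norm_num) (by linarith)]; linarith
      have e6 : 0 < V f u.1 (ρ + r) := hV _ _ (by linarith)
      have e7 : 1 / 2 * V f u.1 (ρ + r) ≤ Gh f C u ρ := by
        unfold Gh
        rw [mul_comm (1 / 2 : ℝ)]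
        exact mul_le_mul_of_nonneg_left e5 e6.le
      have e8 : K' * V f u.1 ρ ≤ K' * V f u.1 (ρ + r) :=
        mul_le_mul_of_nonneg_left e4 (by linarith)
      have e9 : K' * (1 / 2 * V f u.1 (ρ + r)) ≤ K' * Gh f C u ρ :=
        mul_le_mul_of_nonneg_left e7 (by linarith)
      have e10 : 0 ≤ K' * Gh f C u ρ := by
        have : 0 ≤ K' * (1 / 2 * V f u.1 (ρ + r)) := by positivity
        linarith
      linarith
    · -- `ρ < r`
      have hrp : 0 < r := by linarith
      have e1 := avg_up hc hm hrp (u.1 - 2 * ρ) (d := 4 * ρ) (by linarith)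
      rw [show u.1 - 2 * ρ + 4 * ρ = u.1 + 2 * ρ by ring,
        show u.1 - 2 * ρ + r + 4 * ρ = u.1 + r + 2 * ρ by ring] at e1
      refine e1.trans ?_
      have e2 := H u.1 u.1 r (3 * r) hrp (by linarith) (by linarith) (by linarith) (by linarith)
        (by rw [sub_self, abs_zero]; positivity) (by rw [sub_self, abs_zero]; norm_num)
      have e3 : hh f (u.1 + r + 2 * ρ) - hh f (u.1 - 2 * ρ) ≤ V f u.1 (3 * r) := by
        rw [V_eq D]
        have := hm (by linarith : u.1 + r + 2 * ρ ≤ u.1 + 3 * r)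
        have := hm (by linarith : u.1 - 3 * r ≤ u.1 - 2 * ρ)
        linarith
      have e4 : V f u.1 r ≤ V f u.1 (ρ + r) := by
        rw [V_eq D, V_eq D]
        have := hm (by linarith : u.1 + r ≤ u.1 + (ρ + r))
        have := hm (by linarith : u.1 - (ρ + r) ≤ u.1 - r)
        linarith
      have e6 : 0 < V f u.1 (ρ + r) := hV _ _ (by linarith)
      have e7 : 4 * ρ / r ≤ 8 * (ρ / (ρ + r)) := by
        rw [← mul_div_assoc, div_le_div_iff₀ hrp (by linarith)]
        nlinarith
      calc 4 * ρ / r * (hh f (u.1 + r + 2 * ρ) - hh f (u.1 - 2 * ρ))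
          ≤ 4 * ρ / r * (K' * V f u.1 (ρ + r)) := by
            apply mul_le_mul_of_nonneg_left _ (by positivity)
            have := mul_le_mul_of_nonneg_left e4 (by linarith : (0 : ℝ) ≤ K')
            linarith
        _ ≤ 8 * (ρ / (ρ + r)) * (K' * V f u.1 (ρ + r)) :=
            mul_le_mul_of_nonneg_right e7 (by positivity)
        _ = 8 * K' * Gh f C u ρ := by unfold Gh; ring
  · -- far points
    obtain ⟨K', hK', H⟩ := hA 2 (by norm_num)
    have key : ∀ u v : ℝ × ℝ, u.1 + 1 ≤ v.1 →
        (K' + 1)⁻¹ * ∫ x in u.1..v.1, f x ≤ HH f C v - HH f C u := by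
      intro u v huv
      have e1 := HH_lo D v
      have e2 := HH_half D u
      have e3 := H (u.1 + 3 / 4) (u.1 + 1 / 4) (1 / 4) (1 / 4) (by norm_num) (by norm_num)
        (by norm_num) (by norm_num) (by norm_num)
        (by rw [show u.1 + 3 / 4 - (u.1 + 1 / 4) = 1 / 2 by ring, abs_of_pos (by norm_num)]; norm_num)
        (by rw [show u.1 + 3 / 4 - (u.1 + 1 / 4) = 1 / 2 by ring, abs_of_pos (by norm_num)]; norm_num)
      rw [V_eq D, V_eq D, show u.1 + 1 / 4 + 1 / 4 = u.1 + 1 / 2 by ring,
        show u.1 + 1 / 4 - 1 / 4 = u.1 by ring, show u.1 + 3 / 4 + 1 / 4 = u.1 + 1 by ring,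
        show u.1 + 3 / 4 - 1 / 4 = u.1 + 1 / 2 by ring] at e3
      have e4 := hm huv
      rw [← hh_sub D, inv_mul_le_iff₀ (by linarith)]
      have e5 : K' * (hh f (u.1 + 1) - hh f (u.1 + 1 / 2)) ≤
          K' * (hh f v.1 - hh f (u.1 + 1 / 2)) :=
        mul_le_mul_of_nonneg_left (by linarith) (by linarith)
      have e6 : (K' + 1) * (hh f v.1 - hh f (u.1 + 1 / 2)) ≤ (K' + 1) * (HH f C v - HH f C u) :=
        mul_le_mul_of_nonneg_left (by linarith) (by linarith)
      linarith
    refine ⟨(K' + 1)⁻¹, inv_pos.2 (by linarith), fun u v huv => ?_⟩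
    rcases le_abs.1 huv with h | h
    · have h1 := key v u (by linarith)
      rw [intervalIntegral.integral_symm, abs_neg,
        abs_of_nonneg (intervalIntegral.integral_nonneg (by linarith) fun s _ => D.nonneg s)]
      exact h1.trans (le_abs_self _)
    · have h1 := key u v (by linarith)
      rw [abs_of_nonneg (intervalIntegral.integral_nonneg (by linarith) fun s _ => D.nonneg s)]
      rw [abs_sub_comm]
      exact h1.trans (le_abs_self _)
  · -- almost horizontal pairs
    obtain ⟨K', hK', H⟩ := hA 8 (by norm_num)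
    refine ⟨(2 * K')⁻¹, inv_pos.2 (by linarith), fun u v hs1 huv => ?_⟩
    set s := |u.1 - v.1| with hs
    have hs0 : 0 ≤ s := abs_nonneg _
    have h3 : |rr C u.2 - rr C v.2| ≤ s / 2 := (rr_lip _ _).trans huv
    have hr0 := rr_nonneg (C := C) u.2
    have hr1 := rr_le D u.2
    rw [abs_le] at h3
    rcases hs0.eq_or_lt with h0 | h0
    · rw [← h0]
      have : Gh f C u 0 = 0 := by unfold Gh; simp
      rw [this, mul_zero]; exact abs_nonneg _
    rw [inv_mul_le_iff₀ (by linarith)]
    have hGs : Gh f C u s = V f u.1 (s + rr C u.2) * (s / (s + rr C u.2)) := rfl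
    set r := rr C u.2 with hr
    have hVp : 0 < V f u.1 (s + r) := hV _ _ (by linarith)
    -- the two cases of the position of `v`
    have main : ∀ y : ℝ, (y = u.1 ∨ y = u.1 - s / 2) →
        (∫ θ in (0 : ℝ)..1, hh f (y + s / 2 + θ * r)) - (∫ θ in (0 : ℝ)..1, hh f (y + θ * r)) ≤
          |HH f C u - HH f C v| → Gh f C u s ≤ 2 * K' * |HH f C u - HH f C v| := by
      intro y hy hle
      have hy1 : u.1 - s / 2 ≤ y := by rcases hy with h | h <;> linarith
      have hy2 : y ≤ u.1 := by rcases hy with h | h <;> linarith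
      rcases le_or_gt r s with hc1 | hc1
      · have e1 : K'⁻¹ * V f u.1 (2 * s) ≤ (∫ θ in (0 : ℝ)..1, hh f (y + s / 2 + θ * r)) -
            (∫ θ in (0 : ℝ)..1, hh f (y + θ * r)) := by
          rw [← intervalIntegral.integral_sub (hI D _ _) (hI D _ _)]
          have := intervalIntegral.integral_mono_on (zero_le_one' ℝ)
            (intervalIntegrable_const (c := K'⁻¹ * V f u.1 (2 * s)))
            ((hI D (y + s / 2) r).sub (hI D y r))
            (fun θ hθ => by
              have g1 : θ * r ≤ s := by nlinarith [hθ.1, hθ.2]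
              have g2 : 0 ≤ θ * r := mul_nonneg hθ.1 hr0
              have e3 := H (y + θ * r + s / 4) u.1 (s / 4) (2 * s) (by linarith) (by linarith)
                (by linarith) (by linarith) (by linarith)
                (by rw [abs_le]; constructor <;> linarith) (by rw [abs_le]; constructor <;> linarith)
              rw [V_eq D (y + θ * r + s / 4), show y + θ * r + s / 4 + s / 4 = y + s / 2 + θ * r by ring,
                show y + θ * r + s / 4 - s / 4 = y + θ * r by ring] at e3
              rw [inv_mul_le_iff₀ (by linarith)]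
              exact e3)
          simpa using this
        have e2 : V f u.1 (s + r) ≤ V f u.1 (2 * s) := by
          rw [V_eq D, V_eq D]
          have := hm (by linarith : u.1 + (s + r) ≤ u.1 + 2 * s)
          have := hm (by linarith : u.1 - 2 * s ≤ u.1 - (s + r))
          linarith
        have e3 : Gh f C u s ≤ V f u.1 (s + r) := by
          rw [hGs]
          have : s / (s + r) ≤ 1 := (div_le_one (by linarith)).2 (by linarith)
          calc _ ≤ V f u.1 (s + r) * 1 := mul_le_mul_of_nonneg_left this hVp.le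
            _ = _ := mul_one _
        rw [inv_mul_le_iff₀ (by linarith)] at e1
        have e4 := mul_le_mul_of_nonneg_left hle (by linarith : (0 : ℝ) ≤ K')
        have e5 : 0 ≤ K' * |HH f C u - HH f C v| := by positivity
        linarith
      · have hrp : 0 < r := by linarith
        have e1 := avg_lo hc hm hrp y (d := s / 2) (by linarith)
        have e2 := H (y + r * (3 / 4)) u.1 (r / 4) (2 * r) (by linarith) (by linarith)
          (by linarith) (by linarith) (by linarith)
          (by rw [abs_le]; constructor <;> linarith) (by rw [abs_le]; constructor <;> linarith)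
        rw [V_eq D (y + r * (3 / 4)), show y + r * (3 / 4) + r / 4 = y + r by ring,
          show y + r * (3 / 4) - r / 4 = y + r / 2 by ring] at e2
        have e3 : V f u.1 (s + r) ≤ V f u.1 (2 * r) := by
          rw [V_eq D, V_eq D]
          have := hm (by linarith : u.1 + (s + r) ≤ u.1 + 2 * r)
          have := hm (by linarith : u.1 - 2 * r ≤ u.1 - (s + r))
          linarith
        have e4 := hm (by linarith : y + s / 2 ≤ y + r / 2)
        have e5 : V f u.1 (s + r) ≤ K' * (hh f (y + r) - hh f (y + s / 2)) := by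
          have := mul_le_mul_of_nonneg_left (by linarith :
            hh f (y + r) - hh f (y + r / 2) ≤ hh f (y + r) - hh f (y + s / 2))
            (by linarith : (0 : ℝ) ≤ K')
          linarith
        have e6 : s / (s + r) ≤ 2 * (s / 2 / r) := by
          rw [show 2 * (s / 2 / r) = s / r by ring]
          exact div_le_div_of_nonneg_left hs0 hrp (by linarith)
        rw [hGs]
        calc V f u.1 (s + r) * (s / (s + r))
            ≤ V f u.1 (s + r) * (2 * (s / 2 / r)) := mul_le_mul_of_nonneg_left e6 hVp.le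
          _ ≤ K' * (hh f (y + r) - hh f (y + s / 2)) * (2 * (s / 2 / r)) :=
            mul_le_mul_of_nonneg_right e5 (by positivity)
          _ = 2 * K' * (s / 2 / r * (hh f (y + r) - hh f (y + s / 2))) := by ring
          _ ≤ _ := mul_le_mul_of_nonneg_left (e1.trans hle) (by linarith)
    rcases le_total u.1 v.1 with hcs | hcs
    · have hsv : s = v.1 - u.1 := by rw [hs, abs_sub_comm, abs_of_nonneg (by linarith)]
      apply main u.1 (Or.inl rfl)
      have e1 : ∫ θ in (0 : ℝ)..1, hh f (u.1 + s / 2 + θ * r) ≤ HH f C v :=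
        intervalIntegral.integral_mono_on (zero_le_one' ℝ) (hI D _ _) (hI D _ _)
          (fun θ hθ => hm (by nlinarith [hθ.1, hθ.2, h3.1, h3.2]))
      have e2 : (∫ θ in (0 : ℝ)..1, hh f (u.1 + θ * r)) = HH f C u := rfl
      rw [e2, abs_sub_comm]
      exact (by linarith : _ ≤ HH f C v - HH f C u).trans (le_abs_self _)
    · have hsv : s = u.1 - v.1 := by rw [hs, abs_of_nonneg (by linarith)]
      apply main (u.1 - s / 2) (Or.inr rfl)
      have e1 : HH f C v ≤ ∫ θ in (0 : ℝ)..1, hh f (u.1 - s / 2 + θ * r) :=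
        intervalIntegral.integral_mono_on (zero_le_one' ℝ) (hI D _ _) (hI D _ _)
          (fun θ hθ => hm (by nlinarith [hθ.1, hθ.2, h3.1, h3.2]))
      have e2 : (∫ θ in (0 : ℝ)..1, hh f (u.1 - s / 2 + s / 2 + θ * r)) = HH f C u := by
        rw [show u.1 - s / 2 + s / 2 = u.1 by ring]; rfl
      rw [e2]
      exact (by linarith : _ ≤ HH f C u - HH f C v).trans (le_abs_self _)

end Pool.Agent.T6.H52.LS
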