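import Pool.Agent.T6.H52.LS.Defs1

set_option autoImplicit false
open MeasureTheory Filter Topology Metric Set
open scoped ENNReal NNReal

namespace Pool.Agent.T6.H52.LS

namespace ModSUM

theorem div_pow_succ (n : ℕ) (m : ℤ) : m / 3 ^ (n + 1) = (m / 3) / 3 ^ n := by
  rw [pow_succ', Int.ediv_ediv_of_nonneg (by norm_num)]

theorem Xv_pos (n : ℕ) (m : ℤ) : 0 < Xv n m := by
  induction n generalizing m with
  | zero => simp [Xv]
  | succ n ih =>
    rw [Xv]
    have := ih (m/3)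
    split_ifs <;> positivity

theorem St_of_parent {n : ℕ} {m : ℤ} (h : St n (m/3)) : St (n+1) m := by
  unfold St at *
  rw [Xv, if_pos (by rw [div_pow_succ]; exact h), div_pow_succ]
  exact h

theorem Xv_child {n : ℕ} {m : ℤ} (h : ¬ St n (m/3)) :
    Xv (n+1) m = Xv n (m/3) * (if m % 3 = 1 then 241/81 else 1/81) := by
  unfold St at h
  rw [Xv, if_neg (by rw [div_pow_succ]; exact h)]

theorem sum3 (F : ℤ → ℝ) (a : ℤ) (k : ℕ) : ∑ m ∈ Finset.Ico (3 * a) (3 * (a + k)), F m =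
    ∑ m ∈ Finset.Ico a (a + k), (F (3 * m) + F (3 * m + 1) + F (3 * m + 2)) := by
  induction k with
  | zero => simp
  | succ k ih =>
    have e1 : Finset.Ico a (a + ((k + 1 : ℕ) : ℤ)) = insert (a + k) (Finset.Ico a (a + k)) := by
      ext x
      simp only [Finset.mem_Ico, Finset.mem_insert]
      push_cast
      omega
    have e2 : Finset.Ico (3 * a) (3 * (a + ((k + 1 : ℕ) : ℤ))) =
        insert (3 * (a + k)) (insert (3 * (a + k) + 1) (insert (3 * (a + k) + 2)
          (Finset.Ico (3 * a) (3 * (a + k))))) := by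
      ext x
      simp only [Finset.mem_Ico, Finset.mem_insert]
      push_cast
      omega
    rw [e1, e2, Finset.sum_insert, Finset.sum_insert, Finset.sum_insert, Finset.sum_insert, ih]
    · ring
    · simp
    · simp
    · simp only [Finset.mem_Ico, Finset.mem_insert]
      omega
    · simp only [Finset.mem_Ico, Finset.mem_insert]
      omega

/-- the triadic intervals of level `n` in the cell `j` -/
noncomputable def I (j : ℤ) (n : ℕ) : Finset ℤ := Finset.Ico (j * 3 ^ n) ((j + 1) * 3 ^ n)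

theorem sumI (F : ℤ → ℝ) (j : ℤ) (n : ℕ) : ∑ m ∈ I j (n + 1), F m =
    ∑ m ∈ I j n, (F (3 * m) + F (3 * m + 1) + F (3 * m + 2)) := by
  have h := sum3 F (j * 3 ^ n) (3 ^ n)
  have e1 : (3 : ℤ) * (j * 3 ^ n) = j * 3 ^ (n + 1) := by ring
  have e2 : (3 : ℤ) * (j * 3 ^ n + ((3 ^ n : ℕ) : ℤ)) = (j + 1) * 3 ^ (n + 1) := by
    push_cast; ring
  have e3 : j * 3 ^ n + ((3 ^ n : ℕ) : ℤ) = (j + 1) * 3 ^ n := by push_cast; ring
  rw [e1, e2, e3] at h
  exact h

theorem div_of_mem {j : ℤ} {n : ℕ} {m : ℤ} (h : m ∈ I j n) : m / 3 ^ n = j := by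
  unfold I at h
  rw [Finset.mem_Ico] at h
  have h3 : (0:ℤ) < 3 ^ n := by positivity
  apply le_antisymm
  · exact Int.lt_add_one_iff.1 ((Int.ediv_lt_iff_lt_mul h3).2 h.2)
  · exact (Int.le_ediv_iff_mul_le h3).2 h.1

theorem Mc_pos (j : ℤ) : 4 ≤ Mc j := by
  unfold Mc
  have : 0 ≤ |(j:ℝ)| := abs_nonneg _
  nlinarith

theorem not_St_zero (m : ℤ) : ¬ St 0 m := by
  unfold St
  have := Mc_pos (m / 3 ^ 0)
  rw [Xv]
  linarith

/-- weight -/
noncomputable def W (M : ℝ) (n : ℕ) (m : ℤ) : ℝ := ((2 : ℝ) ^ n)⁻¹ * √(Xv n m / M)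

open Classical in
theorem stepI (j : ℤ) (N : ℕ) :
    (∑ m ∈ I j (N + 1), (if Fs (N + 1) m then ((2 : ℝ) ^ (N + 1))⁻¹ else 0)) +
      ∑ m ∈ I j (N + 1), (if St (N + 1) m then 0 else W (Mc j) (N + 1) m) ≤
      ∑ m ∈ I j N, (if St N m then 0 else W (Mc j) N m) := by
  have hM : 0 < Mc j := by linarith [Mc_pos j]
  have h1 : (∑ m ∈ I j (N + 1), (if Fs (N + 1) m then ((2 : ℝ) ^ (N + 1))⁻¹ else 0)) +
      ∑ m ∈ I j (N + 1), (if St (N + 1) m then 0 else W (Mc j) (N + 1) m) ≤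
      ∑ m ∈ I j (N + 1), (if St N (m / 3) then 0 else W (Mc j) (N + 1) m) := by
    rw [← Finset.sum_add_distrib]
    refine Finset.sum_le_sum fun m hm => ?_
    have hW : 0 ≤ W (Mc j) (N + 1) m := by unfold W; positivity
    by_cases hp : St N (m / 3)
    · have hs := St_of_parent hp
      have hf : ¬ Fs (N + 1) m := fun h => h.2 hp
      rw [if_neg hf, if_pos hs, if_pos hp]
      simp
    · rw [if_neg hp]
      by_cases hs : St (N + 1) m
      · have hf : Fs (N + 1) m := ⟨hs, hp⟩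
        rw [if_pos hf, if_pos hs, add_zero]
        unfold W
        have hs' : Mc j ≤ Xv (N + 1) m := by
          have := hs
          unfold St at this
          rwa [div_of_mem hm] at this
        have h2 : 1 ≤ √(Xv (N + 1) m / Mc j) := by
          rw [Real.one_le_sqrt, le_div_iff₀ hM, one_mul]
          exact hs'
        have h3 : (0:ℝ) < ((2 : ℝ) ^ (N + 1))⁻¹ := by positivity
        nlinarith
      · have hf : ¬ Fs (N + 1) m := fun h => hs h.1
        rw [if_neg hf, if_neg hs, zero_add]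
  refine h1.trans ?_
  rw [sumI]
  refine Finset.sum_le_sum fun m _ => ?_
  have d0 : (3 * m) / 3 = m := by omega
  have d1 : (3 * m + 1) / 3 = m := by omega
  have d2 : (3 * m + 2) / 3 = m := by omega
  rw [d0, d1, d2]
  by_cases hs : St N m
  · simp [hs]
  · simp only [if_neg hs]
    unfold W
    have c0 : Xv (N + 1) (3 * m) = Xv N m * (1 / 81) := by
      rw [Xv_child (by rw [d0]; exact hs), d0, if_neg (by omega)]
    have c1 : Xv (N + 1) (3 * m + 1) = Xv N m * (241 / 81) := by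
      rw [Xv_child (by rw [d1]; exact hs), d1, if_pos (by omega)]
    have c2 : Xv (N + 1) (3 * m + 2) = Xv N m * (1 / 81) := by
      rw [Xv_child (by rw [d2]; exact hs), d2, if_neg (by omega)]
    rw [c0, c1, c2]
    have hX := Xv_pos N m
    have s1 : √(Xv N m * (1 / 81) / Mc j) = √(Xv N m / Mc j) * (1 / 9) := by
      rw [show Xv N m * (1 / 81) / Mc j = Xv N m / Mc j * (1 / 9) ^ 2 by ring,
        Real.sqrt_mul (by positivity), Real.sqrt_sq (by norm_num)]
    have s2 : √(Xv N m * (241 / 81) / Mc j) ≤ √(Xv N m / Mc j) * (16 / 9) := by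
      rw [show √(Xv N m / Mc j) * (16 / 9) = √(Xv N m / Mc j * (16 / 9) ^ 2) by
        rw [Real.sqrt_mul (by positivity), Real.sqrt_sq (by norm_num)]]
      apply Real.sqrt_le_sqrt
      have : 0 < Xv N m / Mc j := by positivity
      rw [show Xv N m * (241 / 81) / Mc j = Xv N m / Mc j * (241 / 81) by ring]
      nlinarith
    rw [s1, pow_succ, mul_inv]
    have h2 : (0:ℝ) < ((2:ℝ) ^ N)⁻¹ := by positivity
    have h3 : 0 ≤ √(Xv N m / Mc j) := by positivity
    calc ((2:ℝ) ^ N)⁻¹ * 2⁻¹ * (√(Xv N m / Mc j) * (1 / 9)) +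
          ((2:ℝ) ^ N)⁻¹ * 2⁻¹ * √(Xv N m * (241 / 81) / Mc j) +
          ((2:ℝ) ^ N)⁻¹ * 2⁻¹ * (√(Xv N m / Mc j) * (1 / 9))
        ≤ ((2:ℝ) ^ N)⁻¹ * 2⁻¹ * (√(Xv N m / Mc j) * (1 / 9)) +
          ((2:ℝ) ^ N)⁻¹ * 2⁻¹ * (√(Xv N m / Mc j) * (16 / 9)) +
          ((2:ℝ) ^ N)⁻¹ * 2⁻¹ * (√(Xv N m / Mc j) * (1 / 9)) := by gcongr
      _ = ((2:ℝ) ^ N)⁻¹ * √(Xv N m / Mc j) := by ring

open Classical in
theorem mainI (j : ℤ) (N : ℕ) :
    (∑ n ∈ Finset.range (N + 1), ∑ m ∈ I j n, (if Fs n m then ((2 : ℝ) ^ n)⁻¹ else 0)) +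
      ∑ m ∈ I j N, (if St N m then 0 else W (Mc j) N m) ≤ 1 / (2 * (1 + |(j : ℝ)|)) := by
  induction N with
  | zero =>
    have hI : I j 0 = {j} := by
      unfold I
      ext x
      simp only [pow_zero, mul_one, Finset.mem_Ico, Finset.mem_singleton]
      omega
    have hf : ¬ Fs 0 j := fun h => not_St_zero j h.1
    rw [zero_add, Finset.sum_range_one, hI, Finset.sum_singleton, Finset.sum_singleton, if_neg hf,
      if_neg (not_St_zero j), zero_add]
    unfold W Mc
    rw [Xv, pow_zero, inv_one, one_mul]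
    have h0 : 0 ≤ |(j:ℝ)| := abs_nonneg _
    rw [show (1:ℝ) / (4 * (1 + |(j:ℝ)|) ^ 2) = (1 / (2 * (1 + |(j : ℝ)|))) ^ 2 by
      field_simp; ring, Real.sqrt_sq (by positivity)]
  | succ N ih =>
    rw [Finset.sum_range_succ, add_assoc]
    have := stepI j N
    linarith

end ModSUM

open ModSUM in
theorem mSUM : StmSUM := by
  intro j N
  cases N with
  | zero => simp only [Finset.range_zero, Finset.sum_empty]; positivity
  | succ N =>
    classical
    have h := mainI j N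
    have h0 : 0 ≤ ∑ m ∈ I j N, (if St N m then 0 else W (Mc j) N m) := by
      apply Finset.sum_nonneg
      intro m _
      split_ifs
      · exact le_rfl
      · unfold W; positivity
    have h1 : (∑ n ∈ Finset.range (N + 1), ∑ m ∈ I j n, (if Fs n m then ((2 : ℝ) ^ n)⁻¹ else 0)) ≤
        1 / (2 * (1 + |(j : ℝ)|)) := by linarith
    convert h1 using 4
    rfl

end Pool.Agent.T6.H52.LS
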