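import Pool.Agent.T6.H52.LS.Defs1
import Pool.Agent.T6.H52.LS.SUM

set_option autoImplicit false
open MeasureTheory Filter Topology Metric Set
open scoped ENNReal NNReal

namespace Pool.Agent.T6.H52.LS

namespace ModINT

open ModSUM

theorem fl_div (n : ℕ) (x : ℝ) : fl (n+1) x / 3 = fl n x := by
  unfold fl
  symm
  rw [Int.floor_eq_iff]
  have h1 := Int.floor_le ((3:ℝ)^(n+1) * x)
  have h2 := Int.lt_floor_add_one ((3:ℝ)^(n+1) * x)
  generalize ⌊(3:ℝ)^(n+1) * x⌋ = k at h1 h2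
  have e : (3:ℝ)^(n+1) * x = 3 * (3^n * x) := by ring
  rw [e] at h1 h2
  have q1 : 3 * (k/3) ≤ k := by omega
  have q2 : k ≤ 3 * (k/3) + 2 := by omega
  have q1' : (3:ℝ) * ((k/3 : ℤ):ℝ) ≤ k := by exact_mod_cast q1
  have q2' : (k:ℝ) ≤ 3 * ((k/3 : ℤ):ℝ) + 2 := by exact_mod_cast q2
  constructor <;> linarith

theorem fl_eq {n : ℕ} {m : ℤ} {x : ℝ} (h1 : (m:ℝ) / 3 ^ n ≤ x) (h2 : x < ((m:ℝ) + 1) / 3 ^ n) :
    fl n x = m := by
  unfold fl
  rw [Int.floor_eq_iff]
  have h3 : (0:ℝ) < 3 ^ n := by positivity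
  rw [div_le_iff₀ h3] at h1
  rw [lt_div_iff₀ h3] at h2
  constructor <;> linarith

theorem St_mono {n k : ℕ} {x : ℝ} (h : St n (fl n x)) : St (n + k) (fl (n + k) x) := by
  induction k with
  | zero => exact h
  | succ k ih =>
    apply St_of_parent
    rw [← add_assoc, fl_div]
    exact ih

theorem f0_le (hPRO : StmPRO) (x : ℝ) : f0 x ≤ 1000 := by
  obtain ⟨_, _, _, _, _, _, _, _, h0, _, hb⟩ := hPRO
  have h1 := hb x
  have h2 := h0 x
  have h3 : 1 ≤ (1 + |x|) ^ 2 := by
    have := abs_nonneg x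
    nlinarith
  nlinarith

theorem ii {g : ℝ → ℝ} (hg : Measurable g) (hb : ∀ x, |g x| ≤ 1000) (a b : ℝ) :
    IntervalIntegrable g volume a b := by
  rw [intervalIntegrable_iff]
  refine Measure.integrableOn_of_bounded (M := 1000) ?_ hg.aestronglyMeasurable
    (Eventually.of_forall fun x => by rw [Real.norm_eq_abs]; exact hb x)
  rw [uIoc, Real.volume_Ioc]
  exact ENNReal.ofReal_ne_top

/-- integral over a triadic interval -/
noncomputable def J (g : ℝ → ℝ) (n : ℕ) (m : ℤ) : ℝ :=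
  ∫ x in ((m : ℝ) / 3 ^ n)..(((m : ℝ) + 1) / 3 ^ n), g x

theorem J_split {g : ℝ → ℝ} (hg : Measurable g) (hb : ∀ x, |g x| ≤ 1000) (n : ℕ) (m : ℤ) :
    J g n m = J g (n+1) (3 * m) + J g (n+1) (3 * m + 1) + J g (n+1) (3 * m + 2) := by
  unfold J
  have h3 : (3:ℝ) ^ n ≠ 0 := by positivity
  have e0 : ((3 * m : ℤ) : ℝ) / 3 ^ (n+1) = (m:ℝ) / 3 ^ n := by
    push_cast; rw [pow_succ]; field_simp
  have e1 : (((3 * m : ℤ) : ℝ) + 1) / 3 ^ (n+1) = ((3 * m + 1 : ℤ) : ℝ) / 3 ^ (n+1) := by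
    push_cast; ring
  have e2 : (((3 * m + 1 : ℤ) : ℝ) + 1) / 3 ^ (n+1) = ((3 * m + 2 : ℤ) : ℝ) / 3 ^ (n+1) := by
    push_cast; ring
  have e3 : (((3 * m + 2 : ℤ) : ℝ) + 1) / 3 ^ (n+1) = ((m : ℝ) + 1) / 3 ^ n := by
    push_cast; rw [pow_succ]; field_simp; ring
  rw [e0, e1, e2, e3, intervalIntegral.integral_add_adjacent_intervals (ii hg hb _ _) (ii hg hb _ _),
    intervalIntegral.integral_add_adjacent_intervals (ii hg hb _ _) (ii hg hb _ _)]

theorem J_congr {g g' : ℝ → ℝ} {n : ℕ} {m : ℤ} (h : ∀ x, fl n x = m → g x = g' x) :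
    J g n m = J g' n m := by
  unfold J
  have hle : (m:ℝ) / 3 ^ n ≤ ((m:ℝ) + 1) / 3 ^ n := by gcongr; linarith
  rw [intervalIntegral.integral_of_le hle, intervalIntegral.integral_of_le hle,
    integral_Ioc_eq_integral_Ioo, integral_Ioc_eq_integral_Ioo]
  exact setIntegral_congr_fun measurableSet_Ioo fun x hx => h x (fl_eq hx.1.le hx.2)

theorem bump : ∫ u in (0:ℝ)..1, 630 * (u * (1 - u)) ^ 4 = 1 := by
  have e : ∀ u : ℝ, 630 * (u * (1 - u)) ^ 4 =
      630 * u ^ 4 - 2520 * u ^ 5 + 3780 * u ^ 6 - 2520 * u ^ 7 + 630 * u ^ 8 := by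
    intro u; ring
  simp_rw [e]
  rw [intervalIntegral.integral_add, intervalIntegral.integral_sub, intervalIntegral.integral_add,
    intervalIntegral.integral_sub]
  · simp only [intervalIntegral.integral_const_mul, integral_pow]
    norm_num
  all_goals exact Continuous.intervalIntegrable (by fun_prop) _ _

/-- the expected value -/
noncomputable def av (n : ℕ) (m : ℤ) : ℝ := wj (m / 3 ^ n) * Xv n m / 3 ^ n

theorem J_Fs (hPRO : StmPRO) {n : ℕ} {m : ℤ} (h : Fs n m) : J f0 n m = av n m := by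
  obtain ⟨hp, _⟩ := hPRO
  have h3 : (0:ℝ) < 3 ^ n := by positivity
  have hc := intervalIntegral.integral_comp_mul_add (a := 0) (b := 1) f0
    (c := ((3:ℝ) ^ n)⁻¹) (by positivity) ((m:ℝ) / 3 ^ n)
  have e0 : ((3:ℝ) ^ n)⁻¹ * 0 + (m:ℝ) / 3 ^ n = (m:ℝ) / 3 ^ n := by ring
  have e1 : ((3:ℝ) ^ n)⁻¹ * 1 + (m:ℝ) / 3 ^ n = ((m:ℝ) + 1) / 3 ^ n := by
    field_simp; ring
  rw [e0, e1, inv_inv, smul_eq_mul] at hc
  have h4 : ∫ x in (0:ℝ)..1, f0 (((3:ℝ) ^ n)⁻¹ * x + (m:ℝ) / 3 ^ n) =
      ∫ x in (0:ℝ)..1, (wj (m / 3 ^ n) * Xv n m) * (630 * (x * (1 - x)) ^ 4) := by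
    rw [intervalIntegral.integral_of_le zero_le_one, intervalIntegral.integral_of_le zero_le_one,
      integral_Ioc_eq_integral_Ioo, integral_Ioc_eq_integral_Ioo]
    refine setIntegral_congr_fun measurableSet_Ioo fun x hx => ?_
    have := (hp n m x h hx.1.le hx.2).1
    have e : ((3:ℝ) ^ n)⁻¹ * x + (m:ℝ) / 3 ^ n = ((m:ℝ) + x) / 3 ^ n := by field_simp; ring
    simp only [e]
    rw [this]
  rw [h4, intervalIntegral.integral_const_mul, bump, mul_one] at hc
  unfold J av
  rw [hc]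
  field_simp

theorem av_split {n : ℕ} {m : ℤ} (h : ¬ St n m) :
    av n m = av (n+1) (3 * m) + av (n+1) (3 * m + 1) + av (n+1) (3 * m + 2) := by
  have d0 : (3 * m) / 3 = m := by omega
  have d1 : (3 * m + 1) / 3 = m := by omega
  have d2 : (3 * m + 2) / 3 = m := by omega
  have c0 : Xv (n + 1) (3 * m) = Xv n m * (1 / 81) := by
    rw [Xv_child (by rw [d0]; exact h), d0, if_neg (by omega)]
  have c1 : Xv (n + 1) (3 * m + 1) = Xv n m * (241 / 81) := by
    rw [Xv_child (by rw [d1]; exact h), d1, if_pos (by omega)]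
  have c2 : Xv (n + 1) (3 * m + 2) = Xv n m * (1 / 81) := by
    rw [Xv_child (by rw [d2]; exact h), d2, if_neg (by omega)]
  unfold av
  rw [c0, c1, c2, div_pow_succ, div_pow_succ, div_pow_succ, d0, d1, d2, pow_succ]
  field_simp
  ring

/-- the bound -/
noncomputable def bd (n : ℕ) (m : ℤ) : ℝ := wj (m / 3 ^ n) * √(Mc (m / 3 ^ n)) * √(Xv n m) / 3 ^ n

theorem wj_nonneg (j : ℤ) : 0 ≤ wj j := by unfold wj; positivity

theorem bd_nonneg (n : ℕ) (m : ℤ) : 0 ≤ bd n m := by
  have := wj_nonneg (m / 3 ^ n)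
  unfold bd; positivity

theorem bd_split {n : ℕ} {m : ℤ} (h : ¬ St n m) :
    bd (n+1) (3 * m) + bd (n+1) (3 * m + 1) + bd (n+1) (3 * m + 2) ≤ 2 / 3 * bd n m := by
  have d0 : (3 * m) / 3 = m := by omega
  have d1 : (3 * m + 1) / 3 = m := by omega
  have d2 : (3 * m + 2) / 3 = m := by omega
  have c0 : Xv (n + 1) (3 * m) = Xv n m * (1 / 81) := by
    rw [Xv_child (by rw [d0]; exact h), d0, if_neg (by omega)]
  have c1 : Xv (n + 1) (3 * m + 1) = Xv n m * (241 / 81) := by
    rw [Xv_child (by rw [d1]; exact h), d1, if_pos (by omega)]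
  have c2 : Xv (n + 1) (3 * m + 2) = Xv n m * (1 / 81) := by
    rw [Xv_child (by rw [d2]; exact h), d2, if_neg (by omega)]
  have hX := Xv_pos n m
  have s1 : √(Xv n m * (1 / 81)) = √(Xv n m) * (1 / 9) := by
    rw [show Xv n m * (1 / 81) = Xv n m * (1 / 9) ^ 2 by ring,
      Real.sqrt_mul (by positivity), Real.sqrt_sq (by norm_num)]
  have s2 : √(Xv n m * (241 / 81)) ≤ √(Xv n m) * (16 / 9) := by
    rw [show √(Xv n m) * (16 / 9) = √(Xv n m * (16 / 9) ^ 2) by
      rw [Real.sqrt_mul (by positivity), Real.sqrt_sq (by norm_num)]]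
    apply Real.sqrt_le_sqrt
    nlinarith
  unfold bd
  rw [c0, c1, c2, div_pow_succ, div_pow_succ, div_pow_succ, d0, d1, d2, s1, pow_succ]
  have hw := wj_nonneg (m / 3 ^ n)
  calc wj (m / 3 ^ n) * √(Mc (m / 3 ^ n)) * (√(Xv n m) * (1 / 9)) / (3 ^ n * 3) +
        wj (m / 3 ^ n) * √(Mc (m / 3 ^ n)) * √(Xv n m * (241 / 81)) / (3 ^ n * 3) +
        wj (m / 3 ^ n) * √(Mc (m / 3 ^ n)) * (√(Xv n m) * (1 / 9)) / (3 ^ n * 3)
      ≤ wj (m / 3 ^ n) * √(Mc (m / 3 ^ n)) * (√(Xv n m) * (1 / 9)) / (3 ^ n * 3) +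
        wj (m / 3 ^ n) * √(Mc (m / 3 ^ n)) * (√(Xv n m) * (16 / 9)) / (3 ^ n * 3) +
        wj (m / 3 ^ n) * √(Mc (m / 3 ^ n)) * (√(Xv n m) * (1 / 9)) / (3 ^ n * 3) := by gcongr
    _ = 2 / 3 * (wj (m / 3 ^ n) * √(Mc (m / 3 ^ n)) * √(Xv n m) / 3 ^ n) := by
        field_simp
        ring

theorem child_or {n : ℕ} {c : ℤ} (h : ¬ St n (c / 3)) : ¬ St (n+1) c ∨ Fs (n+1) c := by
  by_cases hs : St (n+1) c
  · exact Or.inr ⟨hs, h⟩
  · exact Or.inl hs

open Classical in
/-- truncation of `f0` -/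
noncomputable def gN (N : ℕ) (x : ℝ) : ℝ := if St N (fl N x) then f0 x else 0

theorem gN_meas (hPRO : StmPRO) (N : ℕ) : Measurable (gN N) := by
  obtain ⟨_, _, _, _, _, _, hm, _⟩ := hPRO
  have hfl : Measurable (fl N) := by
    unfold fl
    exact Int.measurable_floor.comp (measurable_const.mul measurable_id)
  have hs : MeasurableSet {x | St N (fl N x)} := hfl (MeasurableSet.of_discrete (s := {m | St N m}))
  unfold gN
  exact Measurable.ite hs hm measurable_const

theorem gN_bd (hPRO : StmPRO) (N : ℕ) (x : ℝ) : |gN N x| ≤ 1000 := by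
  have h1 := f0_le hPRO x
  obtain ⟨_, _, _, _, _, _, _, _, h0, _, _⟩ := hPRO
  unfold gN
  split_ifs
  · rw [abs_of_nonneg (h0 x)]; exact h1
  · simp

theorem main (hPRO : StmPRO) (k : ℕ) : ∀ (n : ℕ) (m : ℤ), (¬ St n m ∨ Fs n m) →
    |av n m - J (gN (n + k)) n m| ≤ bd n m * (2 / 3) ^ k := by
  have hFs : ∀ (k n : ℕ) (m : ℤ), Fs n m → |av n m - J (gN (n + k)) n m| ≤ bd n m * (2 / 3) ^ k := by
    intro k n m h
    have e : J (gN (n + k)) n m = J f0 n m := by
      apply J_congr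
      intro x hx
      unfold gN
      rw [if_pos]
      apply St_mono
      rw [hx]
      exact h.1
    rw [e, J_Fs hPRO h, sub_self, abs_zero]
    have := bd_nonneg n m
    positivity
  induction k with
  | zero =>
    intro n m h
    rcases h with h | h
    · have e : J (gN (n + 0)) n m = 0 := by
        have : J (gN (n + 0)) n m = J (fun _ => 0) n m := by
          apply J_congr
          intro x hx
          unfold gN
          rw [if_neg]
          rw [add_zero, hx]
          exact h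
        rw [this]
        unfold J
        simp
      rw [e, sub_zero, pow_zero, mul_one]
      have hX := Xv_pos n m
      have hlt : Xv n m < Mc (m / 3 ^ n) := not_le.1 h
      have hw := wj_nonneg (m / 3 ^ n)
      unfold av bd
      rw [abs_of_nonneg (by positivity)]
      have h2 : Xv n m ≤ √(Mc (m / 3 ^ n)) * √(Xv n m) := by
        nth_rewrite 1 [← Real.mul_self_sqrt hX.le]
        have := Real.sqrt_le_sqrt hlt.le
        gcongr
      calc wj (m / 3 ^ n) * Xv n m / 3 ^ n ≤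
            wj (m / 3 ^ n) * (√(Mc (m / 3 ^ n)) * √(Xv n m)) / 3 ^ n := by gcongr
        _ = _ := by ring
    · exact hFs 0 n m h
  | succ k ih =>
    intro n m h
    rcases h with h | h
    · have d0 : (3 * m) / 3 = m := by omega
      have d1 : (3 * m + 1) / 3 = m := by omega
      have d2 : (3 * m + 2) / 3 = m := by omega
      have i0 := ih (n+1) (3 * m) (child_or (by rw [d0]; exact h))
      have i1 := ih (n+1) (3 * m + 1) (child_or (by rw [d1]; exact h))
      have i2 := ih (n+1) (3 * m + 2) (child_or (by rw [d2]; exact h))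
      have en : n + 1 + k = n + (k + 1) := by omega
      rw [en] at i0 i1 i2
      rw [av_split h, J_split (gN_meas hPRO _) (gN_bd hPRO _) n m]
      have hb := bd_split h
      have hk : (0:ℝ) ≤ (2 / 3) ^ k := by positivity
      calc _ ≤ |av (n+1) (3 * m) - J (gN (n + (k+1))) (n+1) (3 * m)| +
            |av (n+1) (3 * m + 1) - J (gN (n + (k+1))) (n+1) (3 * m + 1)| +
            |av (n+1) (3 * m + 2) - J (gN (n + (k+1))) (n+1) (3 * m + 2)| := by
            refine le_trans (le_of_eq ?_) (abs_add_three _ _ _)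
            congr 1
            ring
        _ ≤ (bd (n+1) (3 * m) + bd (n+1) (3 * m + 1) + bd (n+1) (3 * m + 2)) * (2 / 3) ^ k := by
            linarith
        _ ≤ (2 / 3 * bd n m) * (2 / 3) ^ k := by gcongr
        _ = bd n m * (2 / 3) ^ (k + 1) := by rw [pow_succ]; ring
    · exact hFs (k+1) n m h

end ModINT

open ModINT ModSUM in
theorem mINT (hPRO : StmPRO) : StmINT := by
  intro n m h
  have hlim1 : Tendsto (fun k : ℕ => J (gN (n + k)) n m) atTop (𝓝 (av n m)) := by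
    have hz : Tendsto (fun k : ℕ => bd n m * (2 / 3 : ℝ) ^ k) atTop (𝓝 0) := by
      simpa using (tendsto_pow_atTop_nhds_zero_of_lt_one (by norm_num : (0:ℝ) ≤ 2/3)
        (by norm_num)).const_mul (bd n m)
    have h1 : Tendsto (fun k : ℕ => av n m - J (gN (n + k)) n m) atTop (𝓝 0) :=
      squeeze_zero_norm (fun k => by rw [Real.norm_eq_abs]; exact main hPRO k n m h) hz
    have h2 := (tendsto_const_nhds (x := av n m)).sub h1
    simpa using h2
  have hlim2 : Tendsto (fun k : ℕ => J (gN (n + k)) n m) atTop (𝓝 (J f0 n m)) := by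
    unfold J
    apply intervalIntegral.tendsto_integral_filter_of_dominated_convergence (fun _ => (1000:ℝ))
    · exact Eventually.of_forall fun k => (gN_meas hPRO _).aestronglyMeasurable
    · exact Eventually.of_forall fun k => Eventually.of_forall fun x _ => by
        rw [Real.norm_eq_abs]; exact gN_bd hPRO _ x
    · exact intervalIntegrable_const
    · refine Eventually.of_forall fun x _ => ?_
      by_cases hx : ∃ n', St n' (fl n' x)
      · obtain ⟨n', hn'⟩ := hx
        apply tendsto_const_nhds.congr'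
        filter_upwards [eventually_ge_atTop n'] with k hk
        unfold gN
        rw [if_pos]
        have e : n + k = n' + (n + k - n') := by omega
        rw [e]
        exact St_mono hn'
      · have hx' : ∀ n', ¬ St n' (fl n' x) := fun n' hn' => hx ⟨n', hn'⟩
        have hf : f0 x = 0 := (hPRO.2.1 x (fun n' hf => hx' n' hf.1)).1
        rw [hf]
        apply tendsto_const_nhds.congr'
        refine Eventually.of_forall fun k => ?_
        exact (if_neg (hx' (n + k))).symm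
  exact tendsto_nhds_unique hlim2 hlim1

end Pool.Agent.T6.H52.LS
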