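import Pool.Agent.T6.H52.LS.Defs

/-!
Project LS (helper52), MP_0f1fb3_an, module LF (helper82): good flow lines.
-/

set_option autoImplicit false
open MeasureTheory Filter Topology Metric Set
open scoped ENNReal NNReal

namespace Pool.Agent.T6.H52.LS

namespace ModLF

theorem f_le {f : ℝ → ℝ} {C : Set ℝ} {Y : ℝ → ℝ → ℝ} {K : ℝ} (h : Dat f C Y K) (x : ℝ) :
    f x ≤ K := by
  have h1 := h.le x
  have h2 : 1 ≤ (1 + |x|) ^ 2 := by
    have := abs_nonneg x
    nlinarith
  have h3 := h.nonneg x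
  nlinarith

theorem int_on {f : ℝ → ℝ} {C : Set ℝ} {Y : ℝ → ℝ → ℝ} {K : ℝ} (h : Dat f C Y K) (s : Set ℝ)
    (hs : volume s ≠ ∞) : IntegrableOn f s := by
  apply Measure.integrableOn_of_bounded (M := K) hs h.meas.aestronglyMeasurable
  apply Filter.Eventually.of_forall
  intro x
  rw [Real.norm_eq_abs, abs_of_nonneg (h.nonneg x)]
  exact f_le h x

theorem int_f {f : ℝ → ℝ} {C : Set ℝ} {Y : ℝ → ℝ → ℝ} {K : ℝ} (h : Dat f C Y K) (a b : ℝ) :
    IntervalIntegrable f volume a b := by
  rw [intervalIntegrable_iff]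
  exact int_on h _ (by simp [Set.uIoc])

theorem dist_short {f : ℝ → ℝ} {C : Set ℝ} {Y : ℝ → ℝ → ℝ} {K : ℝ} (h : Dat f C Y K)
    {X : Type} [MetricSpace X] {P : ℝ × ℝ → X} {N S : X} {c : ℝ} (hM : Mdl f C P N S c)
    {t : ℝ} (ht : t ∈ Icc (0 : ℝ) 1) (s s' : ℝ) (h1 : s ≤ s') (h2 : s' ≤ s + 1 / 2) :
    dist (P (s, Y t s)) (P (s', Y t s')) ≤ ∫ x in s..s', K * f x := by
  have h3 := hM.up (s, Y t s) (s', Y t s') (by
    rw [Prod.norm_def]
    simp only [Prod.fst_sub, Prod.snd_sub, Real.norm_eq_abs]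
    apply max_le
    · rw [abs_le]
      constructor <;> linarith
    · have h4 := h.Ylip t ht s s'
      have h5 : |s - s'| ≤ 1 / 2 := by
        rw [abs_le]
        constructor <;> linarith
      linarith)
  have h4 := h.YG t ht s s' h1 (by linarith)
  rw [intervalIntegral.integral_const_mul]
  exact h3.trans h4

theorem dist_long {f : ℝ → ℝ} {C : Set ℝ} {Y : ℝ → ℝ → ℝ} {K : ℝ} (h : Dat f C Y K)
    {X : Type} [MetricSpace X] {P : ℝ × ℝ → X} {N S : X} {c : ℝ} (hM : Mdl f C P N S c)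
    {t : ℝ} (ht : t ∈ Icc (0 : ℝ) 1) (n : ℕ) : ∀ (s s' : ℝ), s ≤ s' → s' ≤ s + (n + 1) * (1 / 2) →
    dist (P (s, Y t s)) (P (s', Y t s')) ≤ ∫ x in s..s', K * f x := by
  induction n with
  | zero =>
    intro s s' h1 h2
    apply dist_short h hM ht s s' h1
    push_cast at h2
    linarith
  | succ n ih =>
    intro s s' h1 h2
    by_cases h3 : s' ≤ s + 1 / 2
    · exact dist_short h hM ht s s' h1 h3
    · push Not at h3
      have h4 := dist_short h hM ht s (s + 1 / 2) (by linarith) le_rfl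
      have h5 := ih (s + 1 / 2) s' h3.le (by
        push_cast at h2
        linarith)
      have h6 := dist_triangle (P (s, Y t s)) (P (s + 1 / 2, Y t (s + 1 / 2))) (P (s', Y t s'))
      have h7 := intervalIntegral.integral_add_adjacent_intervals
        ((int_f h s (s + 1 / 2)).const_mul K) ((int_f h (s + 1 / 2) s').const_mul K)
      linarith

theorem V_cont {f : ℝ → ℝ} {C : Set ℝ} {Y : ℝ → ℝ → ℝ} {K : ℝ} (h : Dat f C Y K) :
    Continuous (fun u : ℝ × ℝ => V f u.1 (rr C u.2)) := by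
  have h1 : Continuous (fun x : ℝ => ∫ s in (0 : ℝ)..x, f s) :=
    intervalIntegral.continuous_primitive (fun a b => int_f h a b) 0
  have h2 : Continuous (fun u : ℝ × ℝ => rr C u.2) := by
    unfold rr
    exact (continuous_infDist_pt C).comp continuous_snd
  have h3 : (fun u : ℝ × ℝ => V f u.1 (rr C u.2)) = fun u =>
      (∫ s in (0 : ℝ)..(u.1 + rr C u.2), f s) - ∫ s in (0 : ℝ)..(u.1 - rr C u.2), f s := by
    funext u
    unfold V
    rw [intervalIntegral.integral_interval_sub_left (int_f h _ _) (int_f h _ _)]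
  rw [h3]
  exact (h1.comp (continuous_fst.add h2)).sub (h1.comp (continuous_fst.sub h2))

theorem om_meas {f : ℝ → ℝ} {C : Set ℝ} {Y : ℝ → ℝ → ℝ} {K : ℝ} (h : Dat f C Y K) :
    Measurable (om f C) := by
  unfold om
  apply (V_cont h).measurable.div
  unfold rr
  exact ((continuous_infDist_pt C).comp continuous_snd).measurable

open Classical in
/-- the weight along the flow lines -/
noncomputable def g1 (f : ℝ → ℝ) (C : Set ℝ) {X : Type} (P : ℝ × ℝ → X) (ρ : X → ℝ≥0∞)
    (u : ℝ × ℝ) : ℝ≥0∞ := if u.2 ∈ C then ∞ else ρ (P u) * ENNReal.ofReal (om f C u)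

theorem g1_meas {f : ℝ → ℝ} {C : Set ℝ} {Y : ℝ → ℝ → ℝ} {K : ℝ} (h : Dat f C Y K)
    {X : Type} [MetricSpace X] [MeasurableSpace X] [BorelSpace X] {P : ℝ × ℝ → X} {N S : X} {c : ℝ}
    (hM : Mdl f C P N S c) {ρ : X → ℝ≥0∞} (hρ : Measurable ρ) : Measurable (g1 f C P ρ) := by
  unfold g1
  apply Measurable.ite (measurable_snd h.closed.measurableSet) measurable_const
  exact (hρ.comp hM.cont.measurable).mul (om_meas h).ennreal_ofReal

theorem ae_notMem {f : ℝ → ℝ} {C : Set ℝ} {Y : ℝ → ℝ → ℝ} {K : ℝ} (h : Dat f C Y K) :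
    ∀ᵐ p : ℝ × ℝ, p.2 ∉ C := by
  rw [ae_iff]
  have h1 : {p : ℝ × ℝ | ¬ p.2 ∉ C} = (univ : Set ℝ) ×ˢ C := by
    ext p
    simp
  rw [h1, Measure.volume_eq_prod, Measure.prod_prod, h.null, mul_zero]

theorem energy {f : ℝ → ℝ} {C : Set ℝ} {Y : ℝ → ℝ → ℝ} {K : ℝ} (h : Dat f C Y K)
    {X : Type} [MetricSpace X] [MeasurableSpace X] [BorelSpace X] {P : ℝ × ℝ → X}
    {K1 : ℝ} (hK1 : ∀ ρ : X → ℝ≥0∞, Measurable ρ → ∀ y : ℝ,
      ∫⁻ u in (univ : Set ℝ) ×ˢ Ico y (y + 1), (ρ (P u) * ENNReal.ofReal (om f C u)) ^ 2 ≤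
        ENNReal.ofReal K1 * ∫⁻ p, ρ p ^ 2 ∂(μH[2] : Measure X))
    {ρ : X → ℝ≥0∞} (hρ : Measurable ρ) (a b : ℝ) :
    ∫⁻ p in Icc a b ×ˢ Icc (0 : ℝ) 1, g1 f C P ρ p ^ 2 ≤
      2 * (ENNReal.ofReal K1 * ∫⁻ p, ρ p ^ 2 ∂(μH[2] : Measure X)) := by
  have h1 : ∫⁻ p in Icc a b ×ˢ Icc (0 : ℝ) 1, g1 f C P ρ p ^ 2 =
      ∫⁻ u in Icc a b ×ˢ Icc (0 : ℝ) 1, (ρ (P u) * ENNReal.ofReal (om f C u)) ^ 2 := by
    apply lintegral_congr_ae
    apply ae_restrict_of_ae
    filter_upwards [ae_notMem h] with p hp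
    unfold g1
    rw [if_neg hp]
  rw [h1]
  have h2 : Icc a b ×ˢ Icc (0 : ℝ) 1 ⊆
      ((univ : Set ℝ) ×ˢ Ico (0 : ℝ) (0 + 1)) ∪ ((univ : Set ℝ) ×ˢ Ico (1 : ℝ) (1 + 1)) := by
    rintro ⟨x, y⟩ ⟨_, hy1, hy2⟩
    simp only [mem_union, mem_prod, mem_univ, true_and, mem_Ico]
    dsimp only at hy1 hy2
    by_cases hy : y < 1
    · left
      constructor <;> linarith
    · right
      push Not at hy
      constructor <;> linarith
  calc ∫⁻ u in Icc a b ×ˢ Icc (0 : ℝ) 1, (ρ (P u) * ENNReal.ofReal (om f C u)) ^ 2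
      ≤ ∫⁻ u in ((univ : Set ℝ) ×ˢ Ico (0 : ℝ) (0 + 1)) ∪ ((univ : Set ℝ) ×ˢ Ico (1 : ℝ) (1 + 1)),
          (ρ (P u) * ENNReal.ofReal (om f C u)) ^ 2 := lintegral_mono_set h2
    _ ≤ (∫⁻ u in (univ : Set ℝ) ×ˢ Ico (0 : ℝ) (0 + 1), (ρ (P u) * ENNReal.ofReal (om f C u)) ^ 2) +
        ∫⁻ u in (univ : Set ℝ) ×ˢ Ico (1 : ℝ) (1 + 1), (ρ (P u) * ENNReal.ofReal (om f C u)) ^ 2 :=
        lintegral_union_le _ _ _
    _ ≤ _ := by
        rw [two_mul]
        exact add_le_add (hK1 ρ hρ 0) (hK1 ρ hρ 1)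

theorem le_of_sq {x y : ℝ≥0∞} (h : x ^ 2 ≤ y ^ 2) : x ≤ y := by
  by_contra hxy
  push Not at hxy
  have h1 : y ^ 2 < x ^ 2 := by
    have : y ≠ ∞ := hxy.ne_top
    rw [pow_two, pow_two]
    exact ENNReal.mul_lt_mul hxy hxy
  exact absurd h (not_le.2 h1)

end ModLF

open ModLF in
/-- LF: good flow lines -/
theorem mLF (hCURV : StmCURV) (hHAUL : StmHAUL) : StmLF := by
  intro f C Y K h X _ _ _ P N S c hM
  obtain ⟨K1, hK1, hH⟩ := hHAUL f C Y K h X P N S c hM
  have hK := h.one_le
  set K0 : ℝ := K ^ 2 * √(2 * K * K1) with hK0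
  have hK0p : 0 < K0 := by
    rw [hK0]
    have : 0 < 2 * K * K1 := by positivity
    positivity
  refine ⟨2 * K0, by positivity, ?_⟩
  intro ρ A hρ hA hE a b hab
  set M : ℝ := 1 + ∫ x in a..b, 1 / (1 + |x|) with hMdef
  have hM1 : 1 ≤ M := by
    have : 0 ≤ ∫ x in a..b, 1 / (1 + |x|) := by
      apply intervalIntegral.integral_nonneg hab
      intro x _
      positivity
    linarith
  -- the bound
  set B : ℝ≥0∞ := ENNReal.ofReal (K0 * √(M * A)) with hB
  have hBpos : 0 < B := by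
    rw [hB, ENNReal.ofReal_pos]
    have : 0 < M * A := by positivity
    positivity
  have hBtop : B ≠ ∞ := ENNReal.ofReal_ne_top
  -- the curves
  have hcurve : ∀ t ∈ Icc (0 : ℝ) 1, Lk ρ (P (a, Y t a)) (P (b, Y t b))
      (∫⁻ x in Icc a b, ρ (P (x, Y t x)) * ENNReal.ofReal (K * f x)) := by
    intro t ht
    have := hCURV X ρ (fun x => P (x, Y t x)) a b (fun x => K * f x) hρ hab
      (h.meas.const_mul K) (fun x => mul_nonneg (by linarith) (h.nonneg x))
      ((int_on h _ (by simp)).const_mul K) (by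
        intro s s' _ hss _
        obtain ⟨n, hn⟩ := exists_nat_ge (2 * (s' - s))
        apply dist_long h hM ht n s s' hss
        linarith)
    exact this
  -- the energy
  have hJ : ∫⁻ t in Icc (0 : ℝ) 1, ∫⁻ x in Icc a b, ρ (P (x, Y t x)) * ENNReal.ofReal (K * f x) ≤
      B := by
    have hY := h.Yen (g1 f C P ρ) (g1_meas h hM hρ) a b hab
    rw [← hMdef] at hY
    set J := ∫⁻ t in Icc (0 : ℝ) 1, ∫⁻ x in Icc a b ∩ {x | f x ≠ 0}, g1 f C P ρ (x, Y t x) with hJdef
    have e1 : J ^ 2 ≤ ENNReal.ofReal (√(2 * K * K1) * √(M * A)) ^ 2 := by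
      calc J ^ 2 ≤ ENNReal.ofReal (K * M) * ∫⁻ p in Icc a b ×ˢ Icc (0 : ℝ) 1, g1 f C P ρ p ^ 2 := hY
        _ ≤ ENNReal.ofReal (K * M) * (2 * (ENNReal.ofReal K1 * ENNReal.ofReal A)) := by
            apply mul_le_mul' le_rfl
            refine (energy h hH hρ a b).trans ?_
            apply mul_le_mul' le_rfl
            exact mul_le_mul' le_rfl hE
        _ = ENNReal.ofReal (√(2 * K * K1) * √(M * A)) ^ 2 := by
            rw [← ENNReal.ofReal_pow (by positivity), mul_pow, Real.sq_sqrt (by positivity),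
              Real.sq_sqrt (by positivity)]
            rw [show (2 : ℝ≥0∞) = ENNReal.ofReal 2 by simp]
            rw [← ENNReal.ofReal_mul (by positivity), ← ENNReal.ofReal_mul (by norm_num),
              ← ENNReal.ofReal_mul (by positivity)]
            congr 1
            ring
    have e2 : J ≤ ENNReal.ofReal (√(2 * K * K1) * √(M * A)) := le_of_sq e1
    calc ∫⁻ t in Icc (0 : ℝ) 1, ∫⁻ x in Icc a b, ρ (P (x, Y t x)) * ENNReal.ofReal (K * f x)
        ≤ ∫⁻ t in Icc (0 : ℝ) 1, ∫⁻ x in Icc a b ∩ {x | f x ≠ 0},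
            ENNReal.ofReal (K ^ 2) * g1 f C P ρ (x, Y t x) := by
          apply setLIntegral_mono' measurableSet_Icc
          intro t ht
          have hms : MeasurableSet {x | f x ≠ 0} := by
            have : {x | f x ≠ 0} = (f ⁻¹' {0})ᶜ := by
              ext x
              simp
            rw [this]
            exact (h.meas (measurableSet_singleton 0)).compl
          calc ∫⁻ x in Icc a b, ρ (P (x, Y t x)) * ENNReal.ofReal (K * f x)
              = ∫⁻ x in Icc a b ∩ {x | f x ≠ 0}, ρ (P (x, Y t x)) * ENNReal.ofReal (K * f x) := by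
                rw [← lintegral_indicator measurableSet_Icc,
                  ← lintegral_indicator (measurableSet_Icc.inter hms)]
                apply lintegral_congr
                intro x
                by_cases hx : x ∈ Icc a b
                · by_cases hfx : f x ≠ 0
                  · have hxx : x ∈ Icc a b ∩ {x | f x ≠ 0} := ⟨hx, hfx⟩
                    rw [indicator_of_mem hx, indicator_of_mem hxx]
                  · rw [indicator_of_mem hx, indicator_of_notMem (fun hh => hfx hh.2)]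
                    push Not at hfx
                    simp [hfx]
                · rw [indicator_of_notMem hx, indicator_of_notMem (fun hh => hx hh.1)]
            _ ≤ ∫⁻ x in Icc a b ∩ {x | f x ≠ 0}, ENNReal.ofReal (K ^ 2) * g1 f C P ρ (x, Y t x) := by
                apply setLIntegral_mono' (measurableSet_Icc.inter hms)
                intro x hx
                unfold g1
                by_cases hc : Y t x ∈ C
                · rw [if_pos hc, ENNReal.mul_top]
                  · exact le_top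
                  · have : 0 < ENNReal.ofReal (K ^ 2) := ENNReal.ofReal_pos.2 (by positivity)
                    exact this.ne'
                · rw [if_neg hc]
                  have hr : 0 < rr C (Y t x) := by
                    unfold rr
                    rw [← h.closed.notMem_iff_infDist_pos h.ne]
                    exact hc
                  have h5 := h.Yf t ht x
                  have h6 : f x ≤ K * om f C (x, Y t x) := by
                    unfold om
                    simp only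
                    rw [mul_div_assoc', le_div_iff₀ hr]
                    exact h5
                  have h7 : K * f x ≤ K ^ 2 * om f C (x, Y t x) := by
                    nlinarith
                  calc ρ (P (x, Y t x)) * ENNReal.ofReal (K * f x)
                      ≤ ρ (P (x, Y t x)) * ENNReal.ofReal (K ^ 2 * om f C (x, Y t x)) :=
                        mul_le_mul' le_rfl (ENNReal.ofReal_le_ofReal h7)
                    _ = _ := by
                        rw [ENNReal.ofReal_mul (by positivity)]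
                        ring
      _ = ENNReal.ofReal (K ^ 2) * J := by
          rw [hJdef, ← lintegral_const_mul' _ _ ENNReal.ofReal_ne_top]
          apply lintegral_congr
          intro t
          rw [lintegral_const_mul' _ _ ENNReal.ofReal_ne_top]
      _ ≤ ENNReal.ofReal (K ^ 2) * ENNReal.ofReal (√(2 * K * K1) * √(M * A)) :=
          mul_le_mul' le_rfl e2
      _ = B := by
          rw [hB, hK0, ← ENNReal.ofReal_mul (by positivity)]
          congr 1
          ring
  -- choose the parameter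
  have hex : ∃ t ∈ Icc (0 : ℝ) 1,
      ∫⁻ x in Icc a b, ρ (P (x, Y t x)) * ENNReal.ofReal (K * f x) ≤ 2 * B := by
    by_contra hno
    push Not at hno
    have h8 : 2 * B ≤ B := by
      calc 2 * B = ∫⁻ t in Icc (0 : ℝ) 1, 2 * B := by
            rw [setLIntegral_const, Real.volume_Icc]
            simp
        _ ≤ ∫⁻ t in Icc (0 : ℝ) 1, ∫⁻ x in Icc a b, ρ (P (x, Y t x)) * ENNReal.ofReal (K * f x) :=
            setLIntegral_mono' measurableSet_Icc (fun t ht => (hno t ht).le)
        _ ≤ B := hJ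
    have h9 : B < 2 * B := by
      rw [two_mul]
      exact ENNReal.lt_add_right hBtop hBpos.ne'
    exact absurd h8 (not_le.2 h9)
  obtain ⟨t, ht, ht2⟩ := hex
  refine ⟨t, ht, ?_⟩
  obtain ⟨L, γ, g1', g2, g3, g4, g5⟩ := hcurve t ht
  refine ⟨L, γ, g1', g2, g3, g4, g5.trans (ht2.trans ?_)⟩
  rw [hB, show (2 : ℝ≥0∞) = ENNReal.ofReal 2 by simp, ← ENNReal.ofReal_mul (by norm_num)]
  apply ENNReal.ofReal_le_ofReal
  apply le_of_eq
  ring

end Pool.Agent.T6.H52.LS
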