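import Pool.Agent.T6.H52.LS.LV

set_option autoImplicit false
open MeasureTheory Filter Topology Metric Set
open scoped ENNReal NNReal

namespace Pool.Agent.T6.H52.LS

theorem mLH (hCURV : StmCURV) (hLKT : StmLKT) (hSEGH : StmSEGH) (hHAUL : StmHAUL) : StmLH := by
  intro f C Y K hD X _ _ _ P N S c hM
  obtain ⟨K₁, hK₁, hseg⟩ := hSEGH f C Y K hD X P N S c hM
  obtain ⟨K₂, hK₂, hhaul⟩ := hHAUL f C Y K hD X P N S c hM
  refine ⟨K₁ * √K₂, by positivity, ?_⟩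
  intro ρ A hρ hA hρA y₀ δ x₁ x₂ hδ hδ1 hx
  set g : ℝ → ℝ → ℝ≥0∞ := fun y x => ρ (P (x, y)) * ENNReal.ofReal (om f C (x, y)) with hg
  have hgm' : Measurable (fun u : ℝ × ℝ => ρ (P u) * ENNReal.ofReal (om f C u)) :=
    ((hρ.comp hM.cont.measurable).mul (ModLV.om_meas hD).ennreal_ofReal)
  have hgm : Measurable (Function.uncurry g) := hgm'.comp measurable_swap
  have hgm2 : Measurable (fun u : ℝ × ℝ => (ρ (P u) * ENNReal.ofReal (om f C u)) ^ 2) :=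
    hgm'.pow_const 2
  have hI : ∫⁻ y in Ioo y₀ (y₀ + δ) \ C, ∫⁻ x in Icc x₁ x₂, g y x ^ 2 ≤
      ENNReal.ofReal (K₂ * A) := by
    have h1 : ∫⁻ y in Ioo y₀ (y₀ + δ), ∫⁻ x in Icc x₁ x₂, g y x ^ 2 =
        ∫⁻ u in Icc x₁ x₂ ×ˢ Ioo y₀ (y₀ + δ), (ρ (P u) * ENNReal.ofReal (om f C u)) ^ 2 := by
      rw [Measure.volume_eq_prod, ← Measure.prod_restrict,
        lintegral_prod_symm _ hgm2.aemeasurable]
    calc ∫⁻ y in Ioo y₀ (y₀ + δ) \ C, ∫⁻ x in Icc x₁ x₂, g y x ^ 2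
        ≤ ∫⁻ y in Ioo y₀ (y₀ + δ), ∫⁻ x in Icc x₁ x₂, g y x ^ 2 :=
          lintegral_mono_set sdiff_subset
      _ = ∫⁻ u in Icc x₁ x₂ ×ˢ Ioo y₀ (y₀ + δ), (ρ (P u) * ENNReal.ofReal (om f C u)) ^ 2 := h1
      _ ≤ ∫⁻ u in (univ : Set ℝ) ×ˢ Ico y₀ (y₀ + 1), (ρ (P u) * ENNReal.ofReal (om f C u)) ^ 2 :=
          lintegral_mono_set (prod_mono (subset_univ _)
            ((Ioo_subset_Ico_self).trans (Ico_subset_Ico le_rfl (by linarith))))
      _ ≤ ENNReal.ofReal K₂ * ∫⁻ p, ρ p ^ 2 ∂(μH[2] : Measure X) := hhaul ρ hρ y₀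
      _ ≤ ENNReal.ofReal K₂ * ENNReal.ofReal A := by gcongr
      _ = _ := by rw [← ENNReal.ofReal_mul hK₂.le]
  obtain ⟨y, hy, hyle⟩ := ModLV.avg hgm hδ (T := Ioo y₀ (y₀ + δ) \ C)
    (by rw [measure_sdiff_null hD.null, Real.volume_Ioo]; congr 1; ring) hx.le (by positivity) hI
  refine ⟨y, hy.1, ?_⟩
  have key : ∀ s ∈ Icc x₁ x₂, ∀ t ∈ Icc x₁ x₂, s ≤ t →
      Lk ρ (P (s, y)) (P (t, y)) (ENNReal.ofReal (K₁ * √K₂ * √((x₂ - x₁) / δ * A))) := by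
    intro s hs t ht hst
    have h1 := hCURV X ρ (fun x => P (x, y)) s t (fun x => K₁ * om f C (x, y)) hρ hst
      (((ModLV.om_meas hD).comp measurable_prodMk_right).const_mul K₁)
      (fun x => mul_nonneg hK₁.le (ModLV.om_nonneg hD _))
      ((hseg y s t hy.2 hst).1.const_mul K₁)
      (fun s' t' h1 h2 h3 => (hseg y s' t' hy.2 h2).2)
    refine ModLV.lk_mono h1 ?_
    calc ∫⁻ x in Icc s t, ρ (P (x, y)) * ENNReal.ofReal (K₁ * om f C (x, y))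
        = ∫⁻ x in Icc s t, ENNReal.ofReal K₁ * g y x := by
          refine lintegral_congr fun x => ?_
          rw [ENNReal.ofReal_mul hK₁.le, hg]
          ring
      _ = ENNReal.ofReal K₁ * ∫⁻ x in Icc s t, g y x :=
          lintegral_const_mul _ (hgm.comp measurable_prodMk_left)
      _ ≤ ENNReal.ofReal K₁ * ∫⁻ x in Icc x₁ x₂, g y x :=
          mul_le_mul' le_rfl (lintegral_mono_set (Icc_subset_Icc hs.1 ht.2))
      _ ≤ ENNReal.ofReal K₁ * ENNReal.ofReal (√((x₂ - x₁) / δ * (K₂ * A))) := by gcongr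
      _ = _ := by
          rw [← ENNReal.ofReal_mul hK₁.le]
          congr 1
          rw [show (x₂ - x₁) / δ * (K₂ * A) = K₂ * ((x₂ - x₁) / δ * A) by ring,
            Real.sqrt_mul hK₂.le]
          ring
  intro s hs t ht
  rcases le_total s t with h | h
  · exact key s hs t ht h
  · exact (hLKT X ρ).2.1 _ _ _ (key t ht s hs h)

end Pool.Agent.T6.H52.LS
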