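import Pool.Agent.T6.H52.LS.Defs

/-!
Module LKT: concatenation and reversal of rectifiable curves.
-/

set_option autoImplicit false
open MeasureTheory Filter Topology Metric Set
open scoped ENNReal NNReal

namespace Pool.Agent.T6.H52.LS

namespace ModLKT

lemma speed_congr {X : Type} [MetricSpace X] {f g : ℝ → X} {s : Set ℝ}
    (h : EqOn f g s) (hf : HasUnitSpeedOn f s) : HasUnitSpeedOn g s := by
  intro x hx y hy
  rw [← hf hx hy]
  exact eVariationOn.eq_of_eqOn (fun z hz => (h hz.1).symm)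

lemma speed_shift {X : Type} [MetricSpace X] {f : ℝ → X} {L c : ℝ}
    (hf : HasUnitSpeedOn f (Icc 0 L)) : HasUnitSpeedOn (fun s => f (s - c)) (Icc c (c + L)) := by
  intro x hx y hy
  have hmono : MonotoneOn (fun s : ℝ => s - c) (Icc c (c + L) ∩ Icc x y) := by
    intro a _ b _ hab
    show a - c ≤ b - c
    linarith
  have himg : (fun s : ℝ => s - c) '' (Icc c (c + L) ∩ Icc x y) =
      Icc 0 L ∩ Icc (x - c) (y - c) := by
    ext z
    simp only [Set.mem_image, Set.mem_inter_iff, Set.mem_Icc]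
    constructor
    · rintro ⟨s, ⟨⟨h1, h2⟩, h3, h4⟩, rfl⟩
      refine ⟨⟨?_, ?_⟩, ?_, ?_⟩ <;> linarith
    · rintro ⟨⟨h1, h2⟩, h3, h4⟩
      refine ⟨z + c, ⟨⟨?_, ?_⟩, ?_, ?_⟩, ?_⟩ <;> linarith
  have h1 := eVariationOn.comp_eq_of_monotoneOn f (fun s : ℝ => s - c) hmono
  have h2 := hf (x := x - c) ⟨by linarith [hx.1], by linarith [hx.2]⟩ (y := y - c)
    ⟨by linarith [hy.1], by linarith [hy.2]⟩
  rw [himg, h2] at h1
  rw [show (y : ℝ) - x = y - c - (x - c) by ring]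
  exact h1

lemma speed_rev {X : Type} [MetricSpace X] {f : ℝ → X} {L : ℝ}
    (hf : HasUnitSpeedOn f (Icc 0 L)) : HasUnitSpeedOn (fun s => f (L - s)) (Icc 0 L) := by
  intro x hx y hy
  have hanti : AntitoneOn (fun s : ℝ => L - s) (Icc 0 L ∩ Icc x y) := by
    intro a _ b _ hab
    show L - b ≤ L - a
    linarith
  have himg : (fun s : ℝ => L - s) '' (Icc 0 L ∩ Icc x y) =
      Icc 0 L ∩ Icc (L - y) (L - x) := by
    ext z
    simp only [Set.mem_image, Set.mem_inter_iff, Set.mem_Icc]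
    constructor
    · rintro ⟨s, ⟨⟨h1, h2⟩, h3, h4⟩, rfl⟩
      refine ⟨⟨?_, ?_⟩, ?_, ?_⟩ <;> linarith
    · rintro ⟨⟨h1, h2⟩, h3, h4⟩
      refine ⟨L - z, ⟨⟨?_, ?_⟩, ?_, ?_⟩, ?_⟩ <;> linarith
  have h1 := eVariationOn.comp_eq_of_antitoneOn f (fun s : ℝ => L - s) hanti
  have h2 := hf (x := L - y) ⟨by linarith [hy.2], by linarith [hy.1]⟩ (y := L - x)
    ⟨by linarith [hx.2], by linarith [hx.1]⟩
  rw [himg, h2] at h1
  rw [show (y : ℝ) - x = L - x - (L - y) by ring]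
  exact h1

lemma lint_shift (f : ℝ → ℝ≥0∞) (L c : ℝ) :
    ∫⁻ s in Ioc c (c + L), f (s - c) = ∫⁻ s in Ioc 0 L, f s := by
  have h1 : MeasurePreserving (fun s : ℝ => s - c) volume volume :=
    measurePreserving_sub_right volume c
  have h2 : MeasurableEmbedding (fun s : ℝ => s - c) :=
    (MeasurableEquiv.subRight c).measurableEmbedding
  have h3 := h1.setLIntegral_comp_preimage_emb h2 f (Ioc 0 L)
  rw [← h3]
  congr 2
  ext z
  simp only [Set.mem_Ioc, Set.mem_preimage]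
  constructor
  · rintro ⟨h4, h5⟩
    constructor <;> linarith
  · rintro ⟨h4, h5⟩
    constructor <;> linarith

lemma lint_rev (f : ℝ → ℝ≥0∞) (L : ℝ) :
    ∫⁻ s in Icc 0 L, f (L - s) = ∫⁻ s in Icc 0 L, f s := by
  have h1 : MeasurePreserving (fun s : ℝ => L - s) volume volume :=
    Measure.measurePreserving_sub_left volume L
  have h2 : MeasurableEmbedding (fun s : ℝ => L - s) :=
    (MeasurableEquiv.subLeft L).measurableEmbedding
  have h3 := h1.setLIntegral_comp_preimage_emb h2 f (Icc 0 L)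
  rw [← h3]
  congr 2
  ext z
  simp only [Set.mem_Icc, Set.mem_preimage]
  constructor
  · rintro ⟨h4, h5⟩
    constructor <;> linarith
  · rintro ⟨h4, h5⟩
    constructor <;> linarith

end ModLKT

open ModLKT in
theorem mLKT : StmLKT := by
  intro X _ ρ
  refine ⟨?_, ?_, ?_⟩
  · rintro p q s δ ε ⟨L₁, γ₁, hL₁, hs₁, h0₁, h1₁, hI₁⟩ ⟨L₂, γ₂, hL₂, hs₂, h0₂, h1₂, hI₂⟩
    refine ⟨L₁ + L₂, fun t => if t ≤ L₁ then γ₁ t else γ₂ (t - L₁), by linarith, ?_, ?_, ?_, ?_⟩
    · apply HasUnitSpeedOn.Icc_Icc (y := L₁)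
      · apply speed_congr _ hs₁
        intro t ht
        show γ₁ t = if t ≤ L₁ then γ₁ t else γ₂ (t - L₁)
        rw [if_pos ht.2]
      · apply speed_congr _ (speed_shift (c := L₁) hs₂)
        intro t ht
        show γ₂ (t - L₁) = if t ≤ L₁ then γ₁ t else γ₂ (t - L₁)
        by_cases h : t ≤ L₁
        · have : t = L₁ := le_antisymm h ht.1
          rw [if_pos h, this, sub_self, h0₂, h1₁]
        · rw [if_neg h]
    · show (if (0 : ℝ) ≤ L₁ then γ₁ 0 else γ₂ (0 - L₁)) = p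
      rw [if_pos hL₁, h0₁]
    · show (if L₁ + L₂ ≤ L₁ then γ₁ (L₁ + L₂) else γ₂ (L₁ + L₂ - L₁)) = s
      by_cases h : L₁ + L₂ ≤ L₁
      · have h2 : L₂ = 0 := by linarith
        rw [if_pos h, h2, add_zero, h1₁, ← h1₂, h2, h0₂]
      · rw [if_neg h, add_sub_cancel_left, h1₂]
    · have hsub : Icc 0 (L₁ + L₂) ⊆ Icc 0 L₁ ∪ Ioc L₁ (L₁ + L₂) := by
        intro t ht
        by_cases h : t ≤ L₁
        · exact Or.inl ⟨ht.1, h⟩
        · exact Or.inr ⟨not_le.1 h, ht.2⟩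
      refine le_trans (lintegral_mono_set hsub) (le_trans (lintegral_union_le _ _ _) ?_)
      apply add_le_add
      · refine le_trans (le_of_eq ?_) hI₁
        apply setLIntegral_congr_fun measurableSet_Icc
        intro t ht
        show ρ (if t ≤ L₁ then γ₁ t else γ₂ (t - L₁)) = ρ (γ₁ t)
        rw [if_pos ht.2]
      · have h1 : ∫⁻ t in Ioc L₁ (L₁ + L₂), ρ (if t ≤ L₁ then γ₁ t else γ₂ (t - L₁)) =
            ∫⁻ t in Ioc L₁ (L₁ + L₂), ρ (γ₂ (t - L₁)) := by
          apply setLIntegral_congr_fun measurableSet_Ioc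
          intro t ht
          show ρ (if t ≤ L₁ then γ₁ t else γ₂ (t - L₁)) = ρ (γ₂ (t - L₁))
          rw [if_neg (not_le.2 ht.1)]
        rw [h1, lint_shift (fun t => ρ (γ₂ t))]
        exact le_trans (lintegral_mono_set Ioc_subset_Icc_self) hI₂
  · rintro p q δ ⟨L, γ, hL, hs, h0, h1, hI⟩
    refine ⟨L, fun t => γ (L - t), hL, speed_rev hs, ?_, ?_, ?_⟩
    · show γ (L - 0) = q
      rw [sub_zero, h1]
    · show γ (L - L) = p
      rw [sub_self, h0]
    · rw [lint_rev (fun t => ρ (γ t))]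
      exact hI
  · intro p
    refine ⟨0, fun _ => p, le_refl _, ?_, rfl, rfl, ?_⟩
    · rw [Icc_self]
      exact hasConstantSpeedOnWith_of_subsingleton _ subsingleton_singleton _
    · rw [Icc_self, Measure.restrict_singleton]
      simp

end Pool.Agent.T6.H52.LS
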