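import Pool.Agent.T6.H52.LS.Defs

set_option autoImplicit false
open MeasureTheory Filter Topology Metric Set
open scoped ENNReal NNReal

namespace Pool.Agent.T6.H52.LS

namespace ModLV

/-- Cauchy-Schwarz -/
theorem cs {α : Type*} [MeasurableSpace α] (μ : Measure α) {f : α → ℝ≥0∞}
    (hf : AEMeasurable f μ) : (∫⁻ x, f x ∂μ) ^ 2 ≤ μ univ * ∫⁻ x, f x ^ 2 ∂μ := by
  have h := ENNReal.lintegral_mul_le_Lp_mul_Lq μ (p := 2) (q := 2)
    (by constructor <;> norm_num) hf (aemeasurable_const (b := (1 : ℝ≥0∞)))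
  simp only [Pi.mul_apply, mul_one, ENNReal.one_rpow, lintegral_const, one_mul] at h
  have h2 : (∫⁻ x, f x ∂μ) ^ 2 ≤
      ((∫⁻ x, f x ^ (2 : ℝ) ∂μ) ^ (1 / (2 : ℝ)) * (μ univ) ^ (1 / (2 : ℝ))) ^ 2 :=
    pow_le_pow_left₀ (by positivity) h 2
  refine h2.trans (le_of_eq ?_)
  rw [mul_pow, ← ENNReal.rpow_natCast, ← ENNReal.rpow_natCast, ← ENNReal.rpow_mul,
    ← ENNReal.rpow_mul]
  norm_num
  rw [mul_comm]

/-- a good point of `T` -/
theorem avg {g : ℝ → ℝ → ℝ≥0∞} (hg : Measurable (Function.uncurry g)) {T : Set ℝ} {δ a b M : ℝ}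
    (hδ : 0 < δ) (hT : volume T = ENNReal.ofReal δ) (hab : a ≤ b) (hM : 0 ≤ M)
    (h : ∫⁻ t in T, ∫⁻ x in Icc a b, g t x ^ 2 ≤ ENNReal.ofReal M) :
    ∃ t ∈ T, ∫⁻ x in Icc a b, g t x ≤ ENNReal.ofReal (√((b - a) / δ * M)) := by
  have hgt : ∀ t, Measurable (g t) := fun t => hg.comp measurable_prodMk_left
  have hmeas : Measurable (fun t => ∫⁻ x in Icc a b, g t x) :=
    hg.lintegral_prod_right'
  have hmeas2 : Measurable (fun t => ∫⁻ x in Icc a b, g t x ^ 2) :=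
    (hg.pow_const 2).lintegral_prod_right'
  have h1 : ∫⁻ t in T, (∫⁻ x in Icc a b, g t x) ^ 2 ≤ ENNReal.ofReal ((b - a) * M) := by
    calc ∫⁻ t in T, (∫⁻ x in Icc a b, g t x) ^ 2
        ≤ ∫⁻ t in T, ENNReal.ofReal (b - a) * ∫⁻ x in Icc a b, g t x ^ 2 := by
          refine lintegral_mono fun t => ?_
          have := cs (volume.restrict (Icc a b)) (hgt t).aemeasurable
          rwa [Measure.restrict_apply_univ, Real.volume_Icc] at this
      _ = ENNReal.ofReal (b - a) * ∫⁻ t in T, ∫⁻ x in Icc a b, g t x ^ 2 := by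
          rw [lintegral_const_mul _ hmeas2]
      _ ≤ ENNReal.ofReal (b - a) * ENNReal.ofReal M := by gcongr
      _ = _ := by rw [← ENNReal.ofReal_mul (by linarith)]
  obtain ⟨t, ht, hle⟩ := exists_le_setLAverage (μ := volume) (s := T)
    (f := fun t => (∫⁻ x in Icc a b, g t x) ^ 2) (by rw [hT]; simpa using hδ)
    (by rw [hT]; exact ENNReal.ofReal_ne_top) (hmeas.pow_const 2).aemeasurable
  refine ⟨t, ht, ?_⟩
  rw [setLAverage_eq, hT] at hle
  have h2 : (∫⁻ x in Icc a b, g t x) ^ 2 ≤ ENNReal.ofReal (√((b - a) / δ * M)) ^ 2 := by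
    rw [← ENNReal.ofReal_pow (Real.sqrt_nonneg _), Real.sq_sqrt
      (mul_nonneg (div_nonneg (by linarith) hδ.le) hM)]
    refine (hle.trans (ENNReal.div_le_div_right h1 _)).trans (le_of_eq ?_)
    rw [← ENNReal.ofReal_div_of_pos hδ]
    congr 1
    ring
  exact (ENNReal.pow_le_pow_left_iff (by norm_num)).1 h2

theorem lk_mono {X : Type} [MetricSpace X] {ρ : X → ℝ≥0∞} {p q : X} {δ ε : ℝ≥0∞}
    (h : Lk ρ p q δ) (hle : δ ≤ ε) : Lk ρ p q ε := by
  obtain ⟨L, γ, h1, h2, h3, h4, h5⟩ := h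
  exact ⟨L, γ, h1, h2, h3, h4, h5.trans hle⟩

section
variable {f : ℝ → ℝ} {C : Set ℝ} {Y : ℝ → ℝ → ℝ} {K : ℝ}

theorem f_le (h : Dat f C Y K) (x : ℝ) : f x ≤ K := by
  have h1 := h.le x
  have h2 := h.nonneg x
  have h3 : (1 : ℝ) ≤ (1 + |x|) ^ 2 := by
    have := abs_nonneg x
    nlinarith
  nlinarith

theorem f_int (h : Dat f C Y K) (a b : ℝ) : IntervalIntegrable f volume a b := by
  rw [intervalIntegrable_iff]
  refine Measure.integrableOn_of_bounded (M := K) (by simp) h.meas.aestronglyMeasurable ?_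
  refine Eventually.of_forall fun x => ?_
  rw [Real.norm_eq_abs, abs_of_nonneg (h.nonneg x)]
  exact f_le h x

theorem V_cont (h : Dat f C Y K) : Continuous (fun p : ℝ × ℝ => V f p.1 p.2) := by
  have h1 : Continuous (fun b => ∫ x in (0 : ℝ)..b, f x) :=
    intervalIntegral.continuous_primitive (fun a b => f_int h a b) 0
  have h2 : (fun p : ℝ × ℝ => V f p.1 p.2) =
      fun p : ℝ × ℝ => (∫ x in (0 : ℝ)..(p.1 + p.2), f x) - ∫ x in (0 : ℝ)..(p.1 - p.2), f x := by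
    funext p
    unfold V
    rw [intervalIntegral.integral_interval_sub_left (f_int h _ _) (f_int h _ _)]
  rw [h2]
  exact (h1.comp (continuous_fst.add continuous_snd)).sub
    (h1.comp (continuous_fst.sub continuous_snd))

theorem om_meas (h : Dat f C Y K) : Measurable (om f C) := by
  unfold om rr
  have h1 : Continuous (fun u : ℝ × ℝ => infDist u.2 C) := (continuous_infDist_pt C).comp continuous_snd
  have h2 : Continuous (fun u : ℝ × ℝ => V f u.1 (infDist u.2 C)) :=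
    (V_cont h).comp (continuous_fst.prodMk h1)
  exact h2.measurable.div h1.measurable

theorem om_nonneg (h : Dat f C Y K) (u : ℝ × ℝ) : 0 ≤ om f C u := by
  unfold om V rr
  refine div_nonneg (intervalIntegral.integral_nonneg ?_ fun x _ => h.nonneg x) infDist_nonneg
  have := infDist_nonneg (x := u.2) (s := C)
  linarith

end

end ModLV

theorem mLV (hCURV : StmCURV) (hLKT : StmLKT) (hSEGV : StmSEGV) (hHAUL : StmHAUL) : StmLV := by
  intro f C Y K hD X _ _ _ P N S c hM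
  obtain ⟨K₁, hK₁, hseg⟩ := hSEGV f C Y K hD X P N S c hM
  obtain ⟨K₂, hK₂, hhaul⟩ := hHAUL f C Y K hD X P N S c hM
  refine ⟨K₁ * √K₂, by positivity, ?_⟩
  intro ρ A hρ hA hρA x₀ δ y₁ y₂ hδ hy hy2
  set g : ℝ → ℝ → ℝ≥0∞ := fun x y => ρ (P (x, y)) * ENNReal.ofReal (om f C (x, y)) with hg
  have hgm : Measurable (Function.uncurry g) :=
    ((hρ.comp hM.cont.measurable).mul (ModLV.om_meas hD).ennreal_ofReal)
  have hgm2 : Measurable (fun u : ℝ × ℝ => (ρ (P u) * ENNReal.ofReal (om f C u)) ^ 2) :=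
    hgm.pow_const 2
  have hI : ∫⁻ x in Ioo x₀ (x₀ + δ), ∫⁻ y in Icc y₁ y₂, g x y ^ 2 ≤ ENNReal.ofReal (K₂ * A) := by
    have h1 : ∫⁻ x in Ioo x₀ (x₀ + δ), ∫⁻ y in Icc y₁ y₂, g x y ^ 2 =
        ∫⁻ u in Ioo x₀ (x₀ + δ) ×ˢ Ico y₁ y₂, (ρ (P u) * ENNReal.ofReal (om f C u)) ^ 2 := by
      rw [Measure.volume_eq_prod, ← Measure.prod_restrict,
        lintegral_prod _ hgm2.aemeasurable]
      refine lintegral_congr fun x => ?_
      exact setLIntegral_congr Ico_ae_eq_Icc.symm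
    rw [h1]
    calc ∫⁻ u in Ioo x₀ (x₀ + δ) ×ˢ Ico y₁ y₂, (ρ (P u) * ENNReal.ofReal (om f C u)) ^ 2
        ≤ ∫⁻ u in (univ : Set ℝ) ×ˢ Ico y₁ (y₁ + 1), (ρ (P u) * ENNReal.ofReal (om f C u)) ^ 2 :=
          lintegral_mono_set (prod_mono (subset_univ _) (Ico_subset_Ico le_rfl hy2))
      _ ≤ ENNReal.ofReal K₂ * ∫⁻ p, ρ p ^ 2 ∂(μH[2] : Measure X) := hhaul ρ hρ y₁
      _ ≤ ENNReal.ofReal K₂ * ENNReal.ofReal A := by gcongr
      _ = _ := by rw [← ENNReal.ofReal_mul hK₂.le]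
  obtain ⟨x, hx, hxle⟩ := ModLV.avg hgm hδ (T := Ioo x₀ (x₀ + δ))
    (by rw [Real.volume_Ioo]; congr 1; ring) hy.le (by positivity) hI
  refine ⟨x, hx, ?_⟩
  have key : ∀ s ∈ Icc y₁ y₂, ∀ t ∈ Icc y₁ y₂, s ≤ t →
      Lk ρ (P (x, s)) (P (x, t)) (ENNReal.ofReal (K₁ * √K₂ * √((y₂ - y₁) / δ * A))) := by
    intro s hs t ht hst
    have h1 := hCURV X ρ (fun y => P (x, y)) s t (fun y => K₁ * om f C (x, y)) hρ hst
      (((ModLV.om_meas hD).comp measurable_prodMk_left).const_mul K₁)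
      (fun y => mul_nonneg hK₁.le (ModLV.om_nonneg hD _))
      ((hseg x s t hst (by linarith [hs.1, ht.2])).1.const_mul K₁)
      (fun s' t' h1 h2 h3 => (hseg x s' t' h2 (by linarith [hs.1, ht.2])).2)
    refine ModLV.lk_mono h1 ?_
    calc ∫⁻ y in Icc s t, ρ (P (x, y)) * ENNReal.ofReal (K₁ * om f C (x, y))
        = ∫⁻ y in Icc s t, ENNReal.ofReal K₁ * g x y := by
          refine lintegral_congr fun y => ?_
          rw [ENNReal.ofReal_mul hK₁.le, hg]
          ring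
      _ = ENNReal.ofReal K₁ * ∫⁻ y in Icc s t, g x y :=
          lintegral_const_mul _ (hgm.comp measurable_prodMk_left)
      _ ≤ ENNReal.ofReal K₁ * ∫⁻ y in Icc y₁ y₂, g x y :=
          mul_le_mul' le_rfl (lintegral_mono_set (Icc_subset_Icc hs.1 ht.2))
      _ ≤ ENNReal.ofReal K₁ * ENNReal.ofReal (√((y₂ - y₁) / δ * (K₂ * A))) := by gcongr
      _ = _ := by
          rw [← ENNReal.ofReal_mul hK₁.le]
          congr 1
          rw [show (y₂ - y₁) / δ * (K₂ * A) = K₂ * ((y₂ - y₁) / δ * A) by ring,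
            Real.sqrt_mul hK₂.le]
          ring
  intro s hs t ht
  rcases le_total s t with h | h
  · exact key s hs t ht h
  · exact (hLKT X ρ).2.1 _ _ _ (key t ht s hs h)

end Pool.Agent.T6.H52.LS
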