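import Pool.Agent.T6.H52.LS.Defs2

/-!
Project LS (helper52), MP_0f1fb3_an. Module MDL: the model (helper97).
-/

set_option autoImplicit false
open MeasureTheory Filter Topology Metric Set
open scoped ENNReal NNReal

namespace Pool.Agent.T6.H52.LS

namespace ModMDL

/-- The sphere with the new metric. -/
structure Wr : Type where
  pt : S2

variable {f : ℝ → ℝ} {C : Set ℝ} {Y : ℝ → ℝ → ℝ} {K : ℝ}

theorem V_nonneg (h : Dat f C Y K) (x : ℝ) {r : ℝ} (hr : 0 ≤ r) : 0 ≤ V f x r :=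
  intervalIntegral.integral_nonneg (by linarith) fun s _ => h.nonneg s

theorem rr_nonneg (y : ℝ) : 0 ≤ rr C y := infDist_nonneg

theorem f_le (h : Dat f C Y K) (x : ℝ) : f x ≤ K := by
  have h1 := h.le x
  have h2 := h.nonneg x
  have h3 : 1 ≤ (1 + |x|) ^ 2 := by
    have := abs_nonneg x
    nlinarith
  nlinarith

theorem V_le (h : Dat f C Y K) (x : ℝ) {r : ℝ} (hr : 0 ≤ r) : V f x r ≤ K * (2 * r) := by
  have h1 : ‖∫ s in (x - r)..(x + r), f s‖ ≤ K * |x + r - (x - r)| := by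
    refine intervalIntegral.norm_integral_le_of_norm_le_const fun s _ => ?_
    rw [Real.norm_eq_abs, abs_of_nonneg (h.nonneg s)]
    exact f_le h s
  have h2 : |x + r - (x - r)| = 2 * r := by
    rw [abs_of_nonneg (by linarith)]; ring
  rw [h2] at h1
  exact (le_abs_self _).trans h1

theorem Gh_nonneg (h : Dat f C Y K) (u : ℝ × ℝ) {ρ : ℝ} (hρ : 0 ≤ ρ) : 0 ≤ Gh f C u ρ := by
  have := rr_nonneg (C := C) u.2
  exact mul_nonneg (V_nonneg h _ (by linarith)) (div_nonneg hρ (by linarith))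

theorem Gh_le (h : Dat f C Y K) (u : ℝ × ℝ) {ρ : ℝ} (hρ : 0 ≤ ρ) : Gh f C u ρ ≤ 2 * K * ρ := by
  have h0 := rr_nonneg (C := C) u.2
  have hK : 0 ≤ K := zero_le_one.trans h.one_le
  rcases hρ.eq_or_lt with rfl | hρ
  · simp [Gh]
  · have h1 := V_le h u.1 (r := ρ + rr C u.2) (by linarith)
    have h2 : 0 < ρ + rr C u.2 := by linarith
    calc Gh f C u ρ ≤ K * (2 * (ρ + rr C u.2)) * (ρ / (ρ + rr C u.2)) :=
          mul_le_mul_of_nonneg_right h1 (div_nonneg hρ.le h2.le)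
      _ = 2 * K * ρ := by field_simp

theorem G_nonneg (h : Dat f C Y K) (u v : ℝ × ℝ) : 0 ≤ G f C u v :=
  add_nonneg (Gh_nonneg h u (norm_nonneg _)) (Gh_nonneg h v (norm_nonneg _))

theorem G_le (h : Dat f C Y K) (u v : ℝ × ℝ) : G f C u v ≤ 4 * K * ‖u - v‖ := by
  have h1 := Gh_le h u (norm_nonneg (u - v))
  have h2 := Gh_le h v (norm_nonneg (u - v))
  unfold G
  linarith

theorem Gh_pos (h : Dat f C Y K) (hV : ∀ x r, 0 < r → 0 < V f x r) (u : ℝ × ℝ) {ρ : ℝ}
    (hρ : 0 < ρ) : 0 < Gh f C u ρ := by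
  have := rr_nonneg (C := C) u.2
  exact mul_pos (hV _ _ (by linarith)) (div_pos hρ (by linarith))

theorem zero_mem (h : Dat f C Y K) : (fun _ => 0 : S2 → ℝ) ∈ Pot f C := by
  refine ⟨continuous_const, fun p => by simp, fun u v _ => ?_⟩
  simp only [sub_self, abs_zero]
  exact G_nonneg h u v

theorem bdd (p q : S2) : BddAbove (range fun Φ : Pot f C => |Φ.1 p - Φ.1 q|) := by
  refine ⟨2, ?_⟩
  rintro _ ⟨Φ, rfl⟩
  have h1 := Φ.2.2.1 p
  have h2 := Φ.2.2.1 q
  have := abs_sub (Φ.1 p) (Φ.1 q)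
  simp only
  linarith

theorem le_DD {Φ : S2 → ℝ} (hΦ : Φ ∈ Pot f C) (p q : S2) : |Φ p - Φ q| ≤ DD f C p q :=
  le_ciSup (bdd (f := f) (C := C) p q) ⟨Φ, hΦ⟩

theorem DD_le (h : Dat f C Y K) {p q : S2} {B : ℝ} (hB : ∀ Φ ∈ Pot f C, |Φ p - Φ q| ≤ B) :
    DD f C p q ≤ B := by
  haveI : Nonempty (Pot f C) := ⟨⟨_, zero_mem h⟩⟩
  exact ciSup_le fun Φ => hB Φ.1 Φ.2

theorem DD_self (h : Dat f C Y K) (p : S2) : DD f C p p = 0 := by
  apply le_antisymm
  · exact DD_le h fun Φ _ => by simp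
  · simpa using le_DD (zero_mem h) p p

theorem DD_comm (p q : S2) : DD f C p q = DD f C q p := by
  unfold DD
  congr 1
  ext Φ
  exact abs_sub_comm _ _

theorem DD_tri (h : Dat f C Y K) (p q s : S2) : DD f C p s ≤ DD f C p q + DD f C q s := by
  refine DD_le h fun Φ hΦ => ?_
  have h1 := le_DD hΦ p q
  have h2 := le_DD hΦ q s
  have h3 := abs_sub_le (Φ p) (Φ q) (Φ s)
  linarith

theorem DD_nonneg (h : Dat f C Y K) (p q : S2) : 0 ≤ DD f C p q := by
  simpa using le_DD (zero_mem h) p q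

theorem exists_Pot (h : Dat f C Y K) (hPOTN : StmPOTN) (hPOTF : StmPOTF) :
    ∃ c : ℝ, 0 < c ∧ ∀ u v : ℝ × ℝ, |u.1 - v.1| ≤ 1 → |u.2 - v.2| ≤ 1 / 2 →
      c * Gh f C u ‖u - v‖ ≤ DD f C (Psi u) (Psi v) := by
  obtain ⟨c1, hc1, h1⟩ := hPOTN f C Y K h
  obtain ⟨c2, hc2, h2⟩ := hPOTF f C Y K h
  refine ⟨min c1 c2, lt_min hc1 hc2, fun u v huv1 huv2 => ?_⟩
  have h0 := Gh_nonneg h u (norm_nonneg (u - v))
  rcases le_or_gt (2 * ‖u - v‖) (rr C u.2) with h3 | h3
  · obtain ⟨Φ, hΦ, h4⟩ := h1 u v h3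
    exact ((mul_le_mul_of_nonneg_right (min_le_left _ _) h0).trans h4).trans (le_DD hΦ _ _)
  · obtain ⟨Φ, hΦ, h4⟩ := h2 u v huv1 huv2 h3
    exact ((mul_le_mul_of_nonneg_right (min_le_right _ _) h0).trans h4).trans (le_DD hΦ _ _)

theorem int_pos (hV : ∀ x r, 0 < r → 0 < V f x r) {a b : ℝ} (hab : a ≠ b) :
    0 < |∫ x in a..b, f x| := by
  rcases lt_or_gt_of_ne hab with h | h
  · have := hV ((a + b) / 2) ((b - a) / 2) (by linarith)
    unfold V at this
    rw [show (a + b) / 2 - (b - a) / 2 = a by ring, show (a + b) / 2 + (b - a) / 2 = b by ring]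
      at this
    exact this.trans_le (le_abs_self _)
  · have := hV ((a + b) / 2) ((a - b) / 2) (by linarith)
    unfold V at this
    rw [show (a + b) / 2 - (a - b) / 2 = b by ring, show (a + b) / 2 + (a - b) / 2 = a by ring]
      at this
    rw [intervalIntegral.integral_symm, abs_neg]
    exact this.trans_le (le_abs_self _)

/-- two different points have positive distance -/
theorem sep (h : Dat f C Y K) (hDB : StmDB) (hPSI : StmPSI) (hPOTN : StmPOTN) (hPOTF : StmPOTF)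
    (hPOTH : StmPOTH) {p q : S2} (hpq : DD f C p q = 0) : p = q := by
  obtain ⟨-, heq, -, -, -, hsurj, -, -⟩ := hPSI
  obtain ⟨c, hc, h1, -, -, h4, h5, Φ6, hΦ6, h6⟩ := hPOTH f C Y K h
  obtain ⟨hV, -⟩ := hDB f C Y K h
  have key : ∀ {p q : S2}, DD f C p q = 0 → ∀ Φ ∈ Pot f C, Φ p = Φ q := by
    intro p q hpq Φ hΦ
    have := le_DD hΦ p q
    rw [hpq] at this
    exact sub_eq_zero.1 (abs_eq_zero.1 (le_antisymm this (abs_nonneg _)))
  rcases hsurj p with rfl | rfl | ⟨u, rfl⟩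
  · rcases hsurj q with rfl | rfl | ⟨v, rfl⟩
    · rfl
    · exact absurd (key hpq Φ6 hΦ6) h6
    · obtain ⟨Φ, hΦ, h7⟩ := h4 v
      exact absurd (key hpq Φ hΦ) h7
  · rcases hsurj q with rfl | rfl | ⟨v, rfl⟩
    · exact absurd (key hpq Φ6 hΦ6).symm h6
    · rfl
    · obtain ⟨Φ, hΦ, h7⟩ := h5 v
      exact absurd (key hpq Φ hΦ) h7
  · rcases hsurj q with rfl | rfl | ⟨v, rfl⟩
    · obtain ⟨Φ, hΦ, h7⟩ := h4 u
      exact absurd (key hpq Φ hΦ).symm h7
    · obtain ⟨Φ, hΦ, h7⟩ := h5 u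
      exact absurd (key hpq Φ hΦ).symm h7
    · rcases le_or_gt 1 |u.1 - v.1| with h8 | h8
      · exfalso
        obtain ⟨Φ, hΦ, h9⟩ := h1 u v h8
        have h10 : u.1 ≠ v.1 := by
          intro h11
          rw [h11, sub_self, abs_zero] at h8
          linarith
        have := mul_pos hc (int_pos hV h10)
        rw [key hpq Φ hΦ, sub_self, abs_zero] at h9
        linarith
      · -- shift `v`
        set k : ℤ := round (u.2 - v.2) with hk
        have h9 : Psi (v.1, v.2 + k) = Psi v := by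
          rw [heq]
          exact ⟨rfl, k, by simp⟩
        have h10 : |u.2 - (v.2 + k)| ≤ 1 / 2 := by
          rw [← sub_sub]
          exact abs_sub_round _
        obtain ⟨c', hc', h11⟩ := exists_Pot h hPOTN hPOTF
        have h12 := h11 u (v.1, v.2 + k) h8.le h10
        rw [h9, hpq] at h12
        by_contra h13
        have h14 : u ≠ (v.1, v.2 + (k : ℝ)) := by
          intro h15
          apply h13
          rw [← h9, ← h15]
        have h16 : 0 < ‖u - (v.1, v.2 + (k : ℝ))‖ := norm_pos_iff.2 (sub_ne_zero.2 h14)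
        have := mul_pos hc' (Gh_pos h hV u h16)
        linarith

theorem DD_up (h : Dat f C Y K) {u v : ℝ × ℝ} (huv : ‖u - v‖ ≤ 1) :
    DD f C (Psi u) (Psi v) ≤ G f C u v :=
  DD_le h fun Φ hΦ => hΦ.2.2 u v huv

theorem DD_N {K' : ℝ} (h : Dat f C Y K) (hK : ∀ Φ ∈ Pot f C,
    (∀ u : ℝ × ℝ, 0 ≤ u.1 → |Φ NN - Φ (Psi u)| ≤ K' / (1 + u.1) ^ 3) ∧
    (∀ u : ℝ × ℝ, u.1 ≤ 0 → |Φ SS - Φ (Psi u)| ≤ K' / (1 - u.1) ^ 3)) (u : ℝ × ℝ) (hu : 0 ≤ u.1) :
    DD f C NN (Psi u) ≤ K' / (1 + u.1) ^ 3 :=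
  DD_le h fun Φ hΦ => (hK Φ hΦ).1 u hu

theorem DD_S {K' : ℝ} (h : Dat f C Y K) (hK : ∀ Φ ∈ Pot f C,
    (∀ u : ℝ × ℝ, 0 ≤ u.1 → |Φ NN - Φ (Psi u)| ≤ K' / (1 + u.1) ^ 3) ∧
    (∀ u : ℝ × ℝ, u.1 ≤ 0 → |Φ SS - Φ (Psi u)| ≤ K' / (1 - u.1) ^ 3)) (u : ℝ × ℝ) (hu : u.1 ≤ 0) :
    DD f C SS (Psi u) ≤ K' / (1 - u.1) ^ 3 :=
  DD_le h fun Φ hΦ => (hK Φ hΦ).2 u hu

theorem abs_DD_sub (h : Dat f C Y K) (p q s : S2) : |DD f C p q - DD f C p s| ≤ DD f C s q := by
  have h1 := DD_tri h p s q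
  have h2 := DD_tri h p q s
  rw [DD_comm q s] at h2
  rw [abs_le]
  constructor <;> linarith

theorem lim (K' : ℝ) : Tendsto (fun x : ℝ => K' / (1 + x) ^ 3) atTop (𝓝 0) :=
  Tendsto.div_atTop tendsto_const_nhds
    ((tendsto_pow_atTop (by norm_num)).comp (tendsto_atTop_add_const_left _ _ tendsto_id))

theorem cont_DD (h : Dat f C Y K) (hPSI : StmPSI) (hPSC : StmPSC) (hUPT : StmUPT) (p : S2) :
    Continuous fun q => DD f C p q := by
  obtain ⟨K', hK'0, hK'⟩ := hUPT f C Y K h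
  obtain ⟨-, heq, -, -, -, hsurj, -, -⟩ := hPSI
  have hK : 0 ≤ K := zero_le_one.trans h.one_le
  obtain ⟨Φ, h1, h2, h3, h4⟩ := hPSC (fun u => DD f C p (Psi u)) (DD f C p NN) (DD f C p SS)
    (by
      rw [Metric.continuous_iff]
      intro v ε hε
      refine ⟨min 1 (ε / (4 * K + 1)), lt_min one_pos (by positivity), fun u hu => ?_⟩
      have h5 : ‖u - v‖ < 1 := by
        rw [← dist_eq_norm]; exact hu.trans_le (min_le_left _ _)
      have h6 : ‖u - v‖ < ε / (4 * K + 1) := by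
        rw [← dist_eq_norm]; exact hu.trans_le (min_le_right _ _)
      rw [Real.dist_eq]
      have h7 := abs_DD_sub h p (Psi u) (Psi v)
      rw [DD_comm (Psi v) (Psi u)] at h7
      have h8 := DD_up h h5.le
      have h9 := G_le h u v
      rw [lt_div_iff₀ (by positivity)] at h6
      have h10 := norm_nonneg (u - v)
      nlinarith)
    (by
      intro x y
      have : Psi (x, y + 1) = Psi (x, y) := by
        rw [heq]
        exact ⟨rfl, 1, by simp⟩
      simp only [this])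
    (by
      rw [tendsto_iff_norm_sub_tendsto_zero]
      refine squeeze_zero' (Eventually.of_forall fun _ => norm_nonneg _) ?_
        ((lim K').comp tendsto_comap)
      have : ∀ᶠ u : ℝ × ℝ in comap Prod.fst atTop, 0 ≤ u.1 :=
        tendsto_comap.eventually (eventually_ge_atTop 0)
      filter_upwards [this] with u hu
      rw [Real.norm_eq_abs]
      exact (abs_DD_sub h p (Psi u) NN).trans (DD_N h hK' u hu))
    (by
      rw [tendsto_iff_norm_sub_tendsto_zero]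
      refine squeeze_zero' (Eventually.of_forall fun _ => norm_nonneg _) ?_
        (((lim K').comp tendsto_neg_atBot_atTop).comp tendsto_comap)
      have : ∀ᶠ u : ℝ × ℝ in comap Prod.fst atBot, u.1 ≤ 0 :=
        tendsto_comap.eventually (eventually_le_atBot 0)
      filter_upwards [this] with u hu
      rw [Real.norm_eq_abs]
      refine (abs_DD_sub h p (Psi u) SS).trans ((DD_S h hK' u hu).trans_eq ?_)
      simp only [Function.comp_apply, sub_eq_add_neg])
  have h5 : (fun q => DD f C p q) = Φ := by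
    funext q
    rcases hsurj q with rfl | rfl | ⟨u, rfl⟩
    · exact h3.symm
    · exact h4.symm
    · exact (h2 u).symm
  rw [h5]
  exact h1

end ModMDL

open ModMDL in
theorem mMDL (hDB : StmDB) (hPSI : StmPSI) (hPSC : StmPSC) (hPOTN : StmPOTN) (hPOTF : StmPOTF)
    (hPOTH : StmPOTH) (hUPT : StmUPT) : StmMDL := by
  intro f C Y K h
  letI m : MetricSpace Wr :=
    { dist := fun p q => DD f C p.pt q.pt
      dist_self := fun p => DD_self h p.pt
      dist_comm := fun p q => DD_comm p.pt q.pt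
      dist_triangle := fun p q s => DD_tri h p.pt q.pt s.pt
      eq_of_dist_eq_zero := fun {p q} hpq => by
        have := sep h hDB hPSI hPOTN hPOTF hPOTH hpq
        cases p; cases q; cases this; rfl }
  have hdist : ∀ p q : Wr, dist p q = DD f C p.pt q.pt := fun _ _ => rfl
  let e : S2 ≃ Wr := ⟨Wr.mk, Wr.pt, fun _ => rfl, fun _ => rfl⟩
  have he : Continuous e := by
    rw [continuous_iff_continuousAt]
    intro p
    rw [ContinuousAt, tendsto_iff_dist_tendsto_zero]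
    have h1 := (cont_DD h hPSI hPSC hUPT p).tendsto p
    rw [DD_self h p] at h1
    refine h1.congr fun q => ?_
    rw [hdist]
    exact DD_comm p q
  let eh : S2 ≃ₜ Wr := he.homeoOfEquivCompactToT2
  haveI : CompactSpace Wr := eh.compactSpace
  have hPSI' := hPSI
  obtain ⟨hcont, heq, hN, hS, hNS, hsurj, -, -⟩ := hPSI'
  obtain ⟨K', hK'0, hK'⟩ := hUPT f C Y K h
  obtain ⟨c1, hc1, hlow⟩ := exists_Pot h hPOTN hPOTF
  obtain ⟨c2, hc2, h1, h2, h3, -, -, -⟩ := hPOTH f C Y K h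
  refine ⟨Wr, m, fun u => ⟨Psi u⟩, ⟨NN⟩, ⟨SS⟩, min (min 1 (c1 / 2)) (min c2 K'⁻¹), ?_, ⟨eh⟩⟩
  have hc0 : 0 < min (min 1 (c1 / 2)) (min c2 K'⁻¹) :=
    lt_min (lt_min one_pos (by positivity)) (lt_min hc2 (by positivity))
  have hcc1 : min (min 1 (c1 / 2)) (min c2 K'⁻¹) ≤ c1 / 2 :=
    (min_le_left _ _).trans (min_le_right _ _)
  have hcc2 : min (min 1 (c1 / 2)) (min c2 K'⁻¹) ≤ c2 := (min_le_right _ _).trans (min_le_left _ _)
  have hcK : K' ≤ (min (min 1 (c1 / 2)) (min c2 K'⁻¹))⁻¹ := by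
    rw [le_inv_comm₀ hK'0 hc0]
    exact (min_le_right _ _).trans (min_le_right _ _)
  set c := min (min 1 (c1 / 2)) (min c2 K'⁻¹) with hc
  constructor
  · exact hc0
  · exact (min_le_left _ _).trans (min_le_left _ _)
  · infer_instance
  · exact he.comp hcont
  · intro u v
    rw [← heq]
    exact ⟨fun h => congrArg Wr.pt h, fun h => congrArg Wr.mk h⟩
  · exact fun u hu => hN u (congrArg Wr.pt hu)
  · exact fun u hu => hS u (congrArg Wr.pt hu)
  · exact fun hu => hNS (congrArg Wr.pt hu)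
  · rintro ⟨p⟩
    rcases hsurj p with rfl | rfl | ⟨u, rfl⟩
    · exact Or.inl rfl
    · exact Or.inr (Or.inl rfl)
    · exact Or.inr (Or.inr ⟨u, rfl⟩)
  · intro u v huv
    rw [hdist]
    exact DD_up h huv
  · intro u v h5 h6
    rw [hdist]
    have h7 := hlow u v h5 h6
    have h8 := hlow v u (by rwa [abs_sub_comm]) (by rwa [abs_sub_comm])
    rw [norm_sub_rev v u, DD_comm (Psi v) (Psi u)] at h8
    have h9 := G_nonneg h u v
    show c * G f C u v ≤ DD f C (Psi u) (Psi v)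
    calc c * G f C u v ≤ c1 / 2 * G f C u v := mul_le_mul_of_nonneg_right hcc1 h9
      _ = (c1 * Gh f C u ‖u - v‖ + c1 * Gh f C v ‖u - v‖) / 2 := by unfold G; ring
      _ ≤ DD f C (Psi u) (Psi v) := by linarith
  · intro u v h5
    rw [hdist]
    obtain ⟨Φ, hΦ, h6⟩ := h1 u v h5
    exact ((mul_le_mul_of_nonneg_right hcc2 (abs_nonneg _)).trans h6).trans (le_DD hΦ _ _)
  · intro u hu
    rw [hdist]
    have : 0 < (1 + u.1) ^ 3 := by positivity
    exact (DD_N h hK' u hu).trans ((div_le_div_iff_of_pos_right this).2 hcK)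
  · intro u hu
    rw [hdist]
    obtain ⟨Φ, hΦ, h6⟩ := h2 u hu
    have : 0 < (1 + u.1) ^ 3 := by positivity
    exact (((div_le_div_iff_of_pos_right this).2 hcc2).trans h6).trans (le_DD hΦ _ _)
  · intro u hu
    rw [hdist]
    have : 0 < (1 - u.1) ^ 3 := pow_pos (by linarith) 3
    exact (DD_S h hK' u hu).trans ((div_le_div_iff_of_pos_right this).2 hcK)
  · intro u hu
    rw [hdist]
    obtain ⟨Φ, hΦ, h6⟩ := h3 u hu
    have : 0 < (1 - u.1) ^ 3 := pow_pos (by linarith) 3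
    exact (((div_le_div_iff_of_pos_right this).2 hcc2).trans h6).trans (le_DD hΦ _ _)

end Pool.Agent.T6.H52.LS
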