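import Pool.Agent.T6.H52.LS.Defs

set_option autoImplicit false
open MeasureTheory Filter Topology Metric Set
open scoped ENNReal NNReal

namespace Pool.Agent.T6.H52.LS

namespace ModNQS

open scoped RealInnerProductSpace

/-- distance to the pole in the stereographic projection -/
lemma dist_stereo {v : EuclideanSpace ℝ (Fin 3)} (hv : ‖v‖ = 1) (w : (ℝ ∙ v)ᗮ) :
    dist ((stereoInvFun hv w : S2) : EuclideanSpace ℝ (Fin 3)) v ^ 2 = 16 / (‖w‖ ^ 2 + 4) := by
  have hwv : ⟪v, (w : EuclideanSpace ℝ (Fin 3))⟫ = 0 :=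
    Submodule.mem_orthogonal_singleton_iff_inner_right.1 w.2
  have hpos : (0 : ℝ) < ‖w‖ ^ 2 + 4 := by positivity
  have h1 : ((stereoInvFun hv w : S2) : EuclideanSpace ℝ (Fin 3)) - v =
      (‖w‖ ^ 2 + 4)⁻¹ • ((4 : ℝ) • (w : EuclideanSpace ℝ (Fin 3)) - (8 : ℝ) • v) := by
    rw [stereoInvFun_apply]
    have hcoef : (‖w‖ ^ 2 + 4)⁻¹ * (‖w‖ ^ 2 - 4) - 1 = -((‖w‖ ^ 2 + 4)⁻¹ * 8) := by
      field_simp
      ring
    generalize (‖w‖ ^ 2 + 4)⁻¹ = n at *
    generalize ‖w‖ ^ 2 - 4 = k at *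
    calc _ = (n * 4) • (w : EuclideanSpace ℝ (Fin 3)) + (n * k - 1) • v := by module
      _ = _ := by rw [hcoef]; module
  rw [dist_eq_norm, h1, norm_smul, mul_pow]
  have h3 : ‖(4 : ℝ) • (w : EuclideanSpace ℝ (Fin 3)) - (8 : ℝ) • v‖ ^ 2 = 16 * ‖w‖ ^ 2 + 64 := by
    rw [norm_sub_sq_real, norm_smul, norm_smul, inner_smul_left, inner_smul_right, hv,
      real_inner_comm, hwv]
    simp only [Real.norm_eq_abs, Submodule.coe_norm]
    norm_num
    ring
  rw [h3, Real.norm_eq_abs, sq_abs]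
  field_simp
  ring

/-- the spherical cap is connected -/
lemma cap_preconnected (v : S2) (δ : ℝ) (hδ : 0 < δ) :
    IsPreconnected {x : S2 | δ < dist x v} := by
  have hv : ‖(v : EuclideanSpace ℝ (Fin 3))‖ = 1 := by
    have := v.2
    rwa [mem_sphere_zero_iff_norm] at this
  have hset : {x : S2 | δ < dist x v} =
      stereoInvFun hv '' {w : (ℝ ∙ (v : EuclideanSpace ℝ (Fin 3)))ᗮ | ‖w‖ ^ 2 < 16 / δ ^ 2 - 4} := by
    have key : ∀ w : (ℝ ∙ (v : EuclideanSpace ℝ (Fin 3)))ᗮ,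
        δ < dist (stereoInvFun hv w) v ↔ ‖w‖ ^ 2 < 16 / δ ^ 2 - 4 := by
      intro w
      have h1 := dist_stereo hv w
      have hpos : (0 : ℝ) < ‖w‖ ^ 2 + 4 := by positivity
      have h2 : δ < dist (stereoInvFun hv w) v ↔ δ ^ 2 < 16 / (‖w‖ ^ 2 + 4) := by
        rw [← h1]
        exact (pow_lt_pow_iff_left₀ hδ.le dist_nonneg (by norm_num)).symm
      rw [h2, lt_div_iff₀ hpos, lt_sub_iff_add_lt, lt_div_iff₀ (by positivity), mul_comm]
    ext x
    constructor
    · intro hx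
      have hxv : (x : EuclideanSpace ℝ (Fin 3)) ≠ v := by
        intro h
        have : x = v := Subtype.ext h
        rw [mem_ofPred_eq, this, dist_self] at hx
        linarith
      have hinv := stereo_left_inv hv hxv
      refine ⟨stereoToFun (v : EuclideanSpace ℝ (Fin 3)) x, ?_, hinv⟩
      rw [mem_ofPred_eq, ← key, hinv]
      exact hx
    · rintro ⟨w, hw, rfl⟩
      exact (key w).2 hw
  rw [hset]
  refine IsPreconnected.image ?_ _ (continuous_stereoInvFun hv).continuousOn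
  rcases le_or_gt (16 / δ ^ 2 - 4) 0 with h | h
  · have : {w : (ℝ ∙ (v : EuclideanSpace ℝ (Fin 3)))ᗮ | ‖w‖ ^ 2 < 16 / δ ^ 2 - 4} = ∅ := by
      ext w
      simp only [mem_ofPred_eq, mem_empty_iff_false, iff_false, not_lt]
      exact h.trans (sq_nonneg _)
    rw [this]
    exact isPreconnected_empty
  · have : {w : (ℝ ∙ (v : EuclideanSpace ℝ (Fin 3)))ᗮ | ‖w‖ ^ 2 < 16 / δ ^ 2 - 4} =
        ball 0 (√(16 / δ ^ 2 - 4)) := by
      ext w
      rw [mem_ofPred_eq, mem_ball_zero_iff, Real.lt_sqrt (norm_nonneg _)]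
    rw [this]
    exact (convex_ball _ _).isPreconnected

section model

variable {f : ℝ → ℝ} {C : Set ℝ} {Y : ℝ → ℝ → ℝ} {K : ℝ} {X : Type} [MetricSpace X]
  {P : ℝ × ℝ → X} {N S : X} {c : ℝ}

lemma exists_fract (hM : Mdl f C P N S c) (u : ℝ × ℝ) :
    P u = P (u.1, Int.fract u.2) := by
  rw [hM.eq_iff]
  refine ⟨rfl, ⌊u.2⌋, ?_⟩
  show u.2 - Int.fract u.2 = _
  rw [Int.self_sub_fract]

lemma closed_left (hM : Mdl f C P N S c) (j : ℝ) :
    IsClosed ({S} ∪ P '' {u | u.1 ≤ j}) := by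
  have hc := hM.pos
  have hset : ({S} ∪ P '' {u | u.1 ≤ j}) = ⋂ n : ℕ, (closedBall S (c⁻¹ / (1 + (n : ℝ)) ^ 3) ∪
      P '' (Icc (-(n : ℝ)) j ×ˢ Icc 0 1)) := by
    ext p
    rw [mem_iInter]
    constructor
    · rintro (hp | ⟨u, hu, rfl⟩) n
      · left
        rw [mem_singleton_iff.1 hp]
        exact mem_closedBall_self (by positivity)
      · rcases le_or_gt (-(n : ℝ)) u.1 with h | h
        · right
          rw [exists_fract hM]
          refine mem_image_of_mem _ ⟨⟨h, hu⟩, Int.fract_nonneg _, (Int.fract_lt_one _).le⟩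
        · left
          rw [mem_closedBall, dist_comm]
          have hn : (0 : ℝ) ≤ n := Nat.cast_nonneg n
          refine (hM.S_up u (by linarith)).trans ?_
          have h1 : (1 + (n : ℝ)) ^ 3 ≤ (1 - u.1) ^ 3 :=
            pow_le_pow_left₀ (by positivity) (by linarith) 3
          exact div_le_div_of_nonneg_left (by positivity) (by positivity) h1
    · intro h
      by_cases hex : ∃ n : ℕ, p ∈ P '' (Icc (-(n : ℝ)) j ×ˢ Icc 0 1)
      · obtain ⟨n, u, hu, rfl⟩ := hex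
        right
        exact mem_image_of_mem _ hu.1.2
      · left
        push Not at hex
        rw [mem_singleton_iff, ← dist_le_zero]
        have h1 : ∀ n : ℕ, dist p S ≤ c⁻¹ / (1 + (n : ℝ)) ^ 3 := by
          intro n
          rcases h n with h2 | h2
          · exact mem_closedBall.1 h2
          · exact absurd h2 (hex n)
        have h2 : Tendsto (fun n : ℕ => c⁻¹ / (1 + (n : ℝ)) ^ 3) atTop (𝓝 0) := by
          refine Tendsto.div_atTop tendsto_const_nhds ?_
          refine (tendsto_pow_atTop (by norm_num)).comp ?_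
          exact tendsto_atTop_add_const_left _ _ tendsto_natCast_atTop_atTop
        exact ge_of_tendsto' h2 h1
  rw [hset]
  refine isClosed_iInter fun n => isClosed_closedBall.union ?_
  exact ((isCompact_Icc.prod isCompact_Icc).image hM.cont).isClosed

lemma closed_right (hM : Mdl f C P N S c) (j : ℝ) :
    IsClosed ({N} ∪ P '' {u | j ≤ u.1}) := by
  have hc := hM.pos
  have hset : ({N} ∪ P '' {u | j ≤ u.1}) = ⋂ n : ℕ, (closedBall N (c⁻¹ / (1 + (n : ℝ)) ^ 3) ∪
      P '' (Icc j (n : ℝ) ×ˢ Icc 0 1)) := by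
    ext p
    rw [mem_iInter]
    constructor
    · rintro (hp | ⟨u, hu, rfl⟩) n
      · left
        rw [mem_singleton_iff.1 hp]
        exact mem_closedBall_self (by positivity)
      · rcases le_or_gt u.1 (n : ℝ) with h | h
        · right
          rw [exists_fract hM]
          refine mem_image_of_mem _ ⟨⟨hu, h⟩, Int.fract_nonneg _, (Int.fract_lt_one _).le⟩
        · left
          rw [mem_closedBall, dist_comm]
          have hn : (0 : ℝ) ≤ n := Nat.cast_nonneg n
          refine (hM.N_up u (by linarith)).trans ?_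
          have h1 : (1 + (n : ℝ)) ^ 3 ≤ (1 + u.1) ^ 3 :=
            pow_le_pow_left₀ (by positivity) (by linarith) 3
          exact div_le_div_of_nonneg_left (by positivity) (by positivity) h1
    · intro h
      by_cases hex : ∃ n : ℕ, p ∈ P '' (Icc j (n : ℝ) ×ˢ Icc 0 1)
      · obtain ⟨n, u, hu, rfl⟩ := hex
        right
        exact mem_image_of_mem _ hu.1.1
      · left
        push Not at hex
        rw [mem_singleton_iff, ← dist_le_zero]
        have h1 : ∀ n : ℕ, dist p N ≤ c⁻¹ / (1 + (n : ℝ)) ^ 3 := by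
          intro n
          rcases h n with h2 | h2
          · exact mem_closedBall.1 h2
          · exact absurd h2 (hex n)
        have h2 : Tendsto (fun n : ℕ => c⁻¹ / (1 + (n : ℝ)) ^ 3) atTop (𝓝 0) := by
          refine Tendsto.div_atTop tendsto_const_nhds ?_
          refine (tendsto_pow_atTop (by norm_num)).comp ?_
          exact tendsto_atTop_add_const_left _ _ tendsto_natCast_atTop_atTop
        exact ge_of_tendsto' h2 h1
  rw [hset]
  refine isClosed_iInter fun n => isClosed_closedBall.union ?_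
  exact ((isCompact_Icc.prod isCompact_Icc).image hM.cont).isClosed

/-- the ring -/
def ring (P : ℝ × ℝ → X) (j : ℝ) : Set X := P '' (({j} : Set ℝ) ×ˢ Icc (0 : ℝ) 1)

/-- the ring separates the two tips (and the origin from the tip) -/
lemma separates (hM : Mdl f C P N S c) (j : ℝ) (W : Set X) (hW : IsPreconnected W)
    (hN : N ∈ W) (a : ℝ × ℝ) (ha : a.1 ≤ j) (haW : P a ∈ W) : ∃ p ∈ W, p ∈ ring P j := by
  rw [isPreconnected_closed_iff] at hW
  obtain ⟨p, hp, hp1, hp2⟩ := hW _ _ (closed_left hM j) (closed_right hM j)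
    (by
      intro p _
      rcases hM.surj p with h | h | ⟨u, h⟩
      · right; left; exact h
      · left; left; exact h
      · rcases le_total u.1 j with h1 | h1
        · left; right; exact ⟨u, h1, h⟩
        · right; right; exact ⟨u, h1, h⟩)
    ⟨P a, haW, Or.inr ⟨a, ha, rfl⟩⟩ ⟨N, hN, Or.inl rfl⟩
  refine ⟨p, hp, ?_⟩
  rcases hp1 with h1 | ⟨u, hu, h1⟩
  · rcases hp2 with h2 | ⟨v, hv, h2⟩
    · exact absurd ((mem_singleton_iff.1 h2).symm.trans (mem_singleton_iff.1 h1)) hM.N_ne_S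
    · exact absurd (h2.trans (mem_singleton_iff.1 h1)) (hM.ne_S v)
  · rcases hp2 with h2 | ⟨v, hv, h2⟩
    · exact absurd (h1.trans (mem_singleton_iff.1 h2)) (hM.ne_N u)
    · have h3 : P u = P v := h1.trans h2.symm
      have h4 := ((hM.eq_iff u v).1 h3).1
      have hu' : u.1 ≤ j := hu
      have hv' : j ≤ v.1 := hv
      have h5 : u.1 = j := le_antisymm hu' (by rw [h4]; exact hv')
      rw [← h1, exists_fract hM, h5]
      exact mem_image_of_mem _ ⟨rfl, Int.fract_nonneg _, (Int.fract_lt_one _).le⟩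

lemma rr_le_one (hD : Dat f C Y K) (y : ℝ) : rr C y ≤ 1 := by
  obtain ⟨c0, hc0⟩ := hD.ne
  have hint : ∀ k : ℤ, c0 + k ∈ C := by
    intro k
    induction k using Int.induction_on with
    | zero => simpa using hc0
    | succ n ih =>
      have := (hD.per (c0 + ((n : ℤ) : ℝ))).2 ih
      push_cast at this ⊢
      rwa [← add_assoc]
    | pred n ih =>
      have h1 : c0 + ((-(n : ℤ) - 1 : ℤ) : ℝ) + 1 = c0 + ((-(n : ℤ) : ℤ) : ℝ) := by
        push_cast
        ring
      rw [← hD.per, h1]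
      exact ih
  refine (infDist_le_dist_of_mem (hint ⌊y - c0⌋)).trans ?_
  rw [Real.dist_eq]
  have h1 : y - (c0 + (⌊y - c0⌋ : ℝ)) = Int.fract (y - c0) := by
    rw [← Int.self_sub_floor]
    ring
  rw [h1, abs_of_nonneg (Int.fract_nonneg _)]
  exact (Int.fract_lt_one _).le

lemma rr_nonneg (y : ℝ) : 0 ≤ rr C y := infDist_nonneg

lemma f_int (hD : Dat f C Y K) (a b : ℝ) : IntervalIntegrable f volume a b := by
  have hK : 0 ≤ K := by linarith [hD.one_le]
  refine (intervalIntegrable_const (c := K) (μ := volume) (a := a) (b := b)).mono_fun'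
    hD.meas.aestronglyMeasurable (ae_of_all _ fun x => ?_)
  show ‖f x‖ ≤ K
  rw [Real.norm_eq_abs, abs_of_nonneg (hD.nonneg x)]
  have h1 := hD.le x
  have h2 : (1 : ℝ) ≤ (1 + |x|) ^ 2 := one_le_pow₀ (by linarith [abs_nonneg x])
  nlinarith [hD.nonneg x]

lemma ring_dist (hD : Dat f C Y K) (hM : Mdl f C P N S c) {K' : ℝ}
    (hK' : ∀ x x' r r' : ℝ, 0 < r → r ≤ 4 → 0 ≤ r' → r' ≤ 2 * r →
    r' ≤ 8 → |x - x'| ≤ 2 * r → |x - x'| ≤ 8 → V f x' r' ≤ K' * V f x r) (h1K : 1 ≤ K')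
    (hV : ∀ x r, 0 < r → 0 < V f x r) (j : ℝ) (hj : 0 ≤ j) (p q : X)
    (hp : p ∈ ring P j) (hq : q ∈ ring P j) : dist p q ≤ 2 * K' * K / (1 + j) ^ 4 := by
  obtain ⟨⟨j1, y⟩, ⟨h1, hy⟩, rfl⟩ := hp
  obtain ⟨⟨j2, z⟩, ⟨h2, hz⟩, rfl⟩ := hq
  simp only [mem_singleton_iff] at h1 h2
  subst h1
  subst h2
  have hG : ∀ y z : ℝ, ∀ ρ : ℝ, 0 ≤ ρ → ρ ≤ 1 → Gh f C (j2, y) ρ ≤ K' * V f j2 1 := by
    intro y z ρ h0 h1
    have hr0 := rr_nonneg (C := C) y
    have hr1 := rr_le_one hD y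
    have hVb : V f j2 (ρ + rr C y) ≤ K' * V f j2 1 := by
      refine hK' j2 j2 1 (ρ + rr C y) one_pos (by norm_num) (by linarith) (by linarith)
        (by linarith) (by simp) (by simp)
    have hVp : 0 ≤ K' * V f j2 1 := by
      have := hV j2 1 one_pos
      positivity
    unfold Gh
    simp only
    rcases eq_or_lt_of_le (show 0 ≤ ρ + rr C y by linarith) with h | h
    · rw [← h]
      simp only [div_zero, mul_zero]
      exact hVp
    · have hq : ρ / (ρ + rr C y) ≤ 1 := (div_le_one h).2 (by linarith)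
      have hq0 : 0 ≤ ρ / (ρ + rr C y) := by positivity
      have hV0 := (hV j2 _ h).le
      calc V f j2 (ρ + rr C y) * (ρ / (ρ + rr C y)) ≤ V f j2 (ρ + rr C y) * 1 := by gcongr
        _ ≤ K' * V f j2 1 := by rw [mul_one]; exact hVb
  have hnorm : ‖((j2, y) : ℝ × ℝ) - (j2, z)‖ ≤ 1 := by
    rw [Prod.mk_sub_mk, sub_self, Prod.norm_mk, norm_zero, Real.norm_eq_abs]
    refine max_le (by norm_num) ?_
    rw [abs_le]
    constructor <;> linarith [hy.1, hy.2, hz.1, hz.2]
  refine (hM.up _ _ hnorm).trans ?_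
  unfold G
  have e1 := hG y z _ (norm_nonneg (((j2, y) : ℝ × ℝ) - (j2, z))) hnorm
  have e2 := hG z y _ (norm_nonneg (((j2, y) : ℝ × ℝ) - (j2, z))) hnorm
  have e3 : V f j2 1 ≤ K / (1 + j2) ^ 4 := by
    rw [le_div_iff₀ (by positivity)]
    have := hD.up j2
    rw [abs_of_nonneg hj] at this
    linarith
  calc _ ≤ K' * V f j2 1 + K' * V f j2 1 := add_le_add e1 e2
    _ = 2 * K' * V f j2 1 := by ring
    _ ≤ 2 * K' * (K / (1 + j2) ^ 4) := by gcongr
    _ = _ := by ring

lemma ring_ne (hM : Mdl f C P N S c) (j : ℝ) : P (j, 0) ≠ P (j, 1 / 2) := by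
  intro h1
  rw [hM.eq_iff] at h1
  obtain ⟨-, k, hk⟩ := h1
  simp only at hk
  have h2 : (2 * k : ℝ) = -1 := by linarith
  have h3 : (2 * k : ℤ) = -1 := by exact_mod_cast h2
  omega

end model

lemma exists_diam {Z : Type} [MetricSpace Z] (σ : Set Z) (hσ : IsCompact σ) (h : σ.Nontrivial) :
    ∃ x0 ∈ σ, ∃ x1 ∈ σ, 0 < dist x0 x1 ∧ ∀ x ∈ σ, dist x x0 ≤ dist x0 x1 := by
  obtain ⟨a, ha, b, hb, hab⟩ := h
  have hne : (σ ×ˢ σ).Nonempty := ⟨(a, a), ha, ha⟩
  obtain ⟨z, hz, hmax⟩ := (hσ.prod hσ).exists_isMaxOn hne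
    (f := fun z : Z × Z => dist z.1 z.2) continuous_dist.continuousOn
  have hmax' : ∀ x ∈ σ, ∀ y ∈ σ, dist x y ≤ dist z.1 z.2 := by
    intro x hx y hy
    have hxy : (x, y) ∈ σ ×ˢ σ := ⟨hx, hy⟩
    have := hmax hxy
    exact this
  exact ⟨z.1, hz.1, z.2, hz.2, (dist_pos.2 hab).trans_le (hmax' a ha b hb),
    fun x hx => hmax' x hx z.1 hz.1⟩

end ModNQS

open ModNQS in
theorem mNQS (hDB : StmDB) : StmNQS := by
  intro f C Y K hD X _ P N S c hM F hF
  obtain ⟨hV, hK, -⟩ := hDB f C Y K hD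
  obtain ⟨K', h1K, hK'⟩ := hK 2 (by norm_num)
  obtain ⟨η, hη⟩ := hF
  have hc := hM.pos
  have hKpos : 0 < K := by linarith [hD.one_le]
  set m : ℝ := V f 1 1 with hm
  have hmpos : 0 < m := hV 1 1 one_pos
  set cs : ℝ := c * min 1 m with hcs
  have hcspos : 0 < cs := mul_pos hc (lt_min one_pos hmpos)
  -- the choice of the ring
  obtain ⟨j0, hj0⟩ := exists_nat_gt ((η 1 : ℝ) * (2 * K' * K) / cs)
  set j : ℝ := max (j0 : ℝ) 2 with hj
  have hj2 : 2 ≤ j := le_max_right _ _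
  have hjpos : 0 ≤ j := by linarith
  have hjbig : (η 1 : ℝ) * (2 * K' * K) < (1 + j) * cs := by
    have h1 : (j0 : ℝ) ≤ j := le_max_left _ _
    rw [div_lt_iff₀ hcspos] at hj0
    nlinarith
  have hring := ring_dist hD hM hK' h1K hV j hjpos
  -- lower bounds
  have hlowN : ∀ p ∈ ModNQS.ring P j, cs / (1 + j) ^ 3 ≤ dist N p := by
    rintro p ⟨⟨j1, y⟩, ⟨h1, hy⟩, rfl⟩
    simp only [mem_singleton_iff] at h1
    subst h1
    refine le_trans ?_ (hM.N_low (j, y) hjpos)
    have : cs ≤ c := by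
      rw [hcs]
      exact mul_le_of_le_one_right hc.le (min_le_left _ _)
    exact div_le_div_of_nonneg_right this (by positivity)
  have hlowO : ∀ p ∈ ModNQS.ring P j, cs / (1 + j) ^ 3 ≤ dist (P (0, 0)) p := by
    rintro p ⟨⟨j1, y⟩, ⟨h1, hy⟩, rfl⟩
    simp only [mem_singleton_iff] at h1
    subst h1
    refine le_trans ?_ (hM.lowh (0, 0) (j, y) ?_)
    · have e1 : m ≤ ∫ x in (0 : ℝ)..j, f x := by
        rw [← intervalIntegral.integral_add_adjacent_intervals (f_int hD 0 2) (f_int hD 2 j)]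
        have e2 : m = ∫ x in (0 : ℝ)..2, f x := by
          rw [hm]
          unfold V
          norm_num
        have e3 : 0 ≤ ∫ x in (2 : ℝ)..j, f x :=
          intervalIntegral.integral_nonneg hj2 fun x _ => hD.nonneg x
        linarith
      have e4 : cs ≤ c * |∫ x in (0 : ℝ)..j, f x| := by
        rw [hcs]
        refine mul_le_mul_of_nonneg_left ?_ hc.le
        exact (min_le_right _ _).trans (e1.trans (le_abs_self _))
      refine le_trans ?_ e4
      exact div_le_self hcspos.le (one_le_pow₀ (by linarith))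
    · show 1 ≤ |(0 : ℝ) - j|
      rw [zero_sub, abs_neg, abs_of_nonneg hjpos]
      linarith
  -- the preimage of the ring
  set σ : Set S2 := F ⁻¹' (ModNQS.ring P j) with hσ
  have hRc : IsCompact (ModNQS.ring P j) := (isCompact_singleton.prod isCompact_Icc).image hM.cont
  have hσc : IsCompact σ := by
    rw [hσ]
    exact (F.isCompact_preimage).2 hRc
  have hmem : ∀ y ∈ Icc (0 : ℝ) 1, F.symm (P (j, y)) ∈ σ := by
    intro y hy
    rw [hσ, mem_preimage, F.apply_symm_apply]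
    exact mem_image_of_mem _ ⟨rfl, hy⟩
  have hnt : σ.Nontrivial := by
    refine ⟨_, hmem 0 ⟨le_rfl, zero_le_one⟩, _, hmem (1 / 2) ⟨by norm_num, by norm_num⟩, ?_⟩
    intro h
    exact ring_ne hM j (F.symm.injective h)
  obtain ⟨x0, hx0, x1, hx1, hδ, hmax'⟩ := exists_diam σ hσc hnt
  set T : Set S2 := {x : S2 | dist x0 x1 < dist x x0} with hT
  have hTc : IsPreconnected T := cap_preconnected x0 _ hδ
  have hFT : IsPreconnected (F '' T) := hTc.image _ F.continuous.continuousOn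
  -- one of the two points is close
  have hclose : ∃ p : X, (∀ q ∈ ModNQS.ring P j, cs / (1 + j) ^ 3 ≤ dist p q) ∧ F.symm p ∉ T := by
    by_contra hcon
    push Not at hcon
    have hN := hcon N hlowN
    have hO := hcon (P (0, 0)) hlowO
    obtain ⟨p, hp, hp2⟩ := separates hM j (F '' T) hFT ⟨_, hN, F.apply_symm_apply _⟩ (0, 0) hjpos
      ⟨_, hO, F.apply_symm_apply _⟩
    obtain ⟨x, hx, rfl⟩ := hp
    have h1 : x ∈ σ := hp2
    have h2 := hmax' x h1
    have h3 : dist x0 x1 < dist x x0 := hx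
    linarith
  obtain ⟨p, hp, hpT⟩ := hclose
  have h1 : dist (F.symm p) x0 ≤ ((1 : ℝ≥0) : ℝ) * dist x1 x0 := by
    have : ¬ dist x0 x1 < dist (F.symm p) x0 := hpT
    rw [dist_comm x1 x0]
    push_cast
    linarith
  have h2 := hη (F.symm p) x0 x1 1 h1
  rw [F.apply_symm_apply] at h2
  have h3 := hp (F x0) hx0
  have h4 := hring (F x1) (F x0) hx1 hx0
  have h5 : cs / (1 + j) ^ 3 ≤ (η 1 : ℝ) * (2 * K' * K / (1 + j) ^ 4) := by
    refine h3.trans (h2.trans ?_)
    exact mul_le_mul_of_nonneg_left h4 (η 1).2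
  have h6 : (0 : ℝ) < 1 + j := by linarith
  rw [div_le_iff₀ (by positivity)] at h5
  have h7 : (η 1 : ℝ) * (2 * K' * K / (1 + j) ^ 4) * (1 + j) ^ 3 =
      (η 1 : ℝ) * (2 * K' * K) / (1 + j) := by
    field_simp
  rw [h7, le_div_iff₀ h6] at h5
  linarith

end Pool.Agent.T6.H52.LS
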