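import Pool.Agent.T6.H29.LS.DMeas

/-!
Project LS (helper52), MP_0f1fb3_an, module POTF (helper29).
-/

set_option autoImplicit false
open MeasureTheory Filter Topology Metric Set
open scoped ENNReal NNReal

namespace Pool.Agent.T6.H52.LS

open Pool.Agent.T6.H29.LS

namespace ModPOTF

lemma infDist_shift {D : Set ℝ} {a : ℝ} (h1 : ∀ z ∈ D, z + a ∈ D) (h2 : ∀ z ∈ D, z - a ∈ D)
    (hne : D.Nonempty) (x : ℝ) : infDist (x + a) D = infDist x D := by
  refine le_antisymm ?_ ?_
  · refine (le_infDist hne).2 fun z hz => ?_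
    refine (infDist_le_dist_of_mem (h1 z hz)).trans ?_
    rw [dist_add_right]
  · refine (le_infDist hne).2 fun z hz => ?_
    refine (infDist_le_dist_of_mem (h2 z hz)).trans ?_
    rw [Real.dist_eq, Real.dist_eq]
    exact le_of_eq (by congr 1; ring)

/-- the multiples of the measure of a period -/
def Lt (M : ℝ) : Set ℝ := {z | ∃ k : ℤ, z = k * M}

lemma Lt_ne (M : ℝ) : (Lt M).Nonempty := ⟨0, 0, by simp⟩

/-- the vertical potential -/
noncomputable def ps (C : Set ℝ) (ρ t y₀ y : ℝ) : ℝ :=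
  infDist (mm C t y - mm C t y₀) (Lt (mm C t 1)) / ρ

variable {f : ℝ → ℝ} {C : Set ℝ} {Y : ℝ → ℝ → ℝ} {K ρ t y₀ : ℝ}

lemma ps_nonneg (hρ : 0 < ρ) (y : ℝ) : 0 ≤ ps C ρ t y₀ y := div_nonneg infDist_nonneg hρ.le

lemma ps_self : ps C ρ t y₀ y₀ = 0 := by
  unfold ps
  rw [sub_self, infDist_zero_of_mem (show (0 : ℝ) ∈ Lt _ from ⟨0, by simp⟩), zero_div]

lemma ps_per (h : Dat f C Y K) (y : ℝ) : ps C ρ t y₀ (y + 1) = ps C ρ t y₀ y := by
  have h1 := mm_per (t := t) h 1 y
  push_cast at h1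
  rw [one_mul] at h1
  unfold ps
  rw [h1, show mm C t y + mm C t 1 - mm C t y₀ = mm C t y - mm C t y₀ + mm C t 1 by ring,
    infDist_shift ?_ ?_ (Lt_ne _)]
  · rintro z ⟨k, rfl⟩
    exact ⟨k + 1, by push_cast; ring⟩
  · rintro z ⟨k, rfl⟩
    exact ⟨k - 1, by push_cast; ring⟩

lemma ps_lip (hρ : 0 < ρ) (y y' : ℝ) :
    |ps C ρ t y₀ y - ps C ρ t y₀ y'| ≤ |mm C t y - mm C t y'| / ρ := by
  have h1 := rr_lip (Lt (mm C t 1)) (mm C t y - mm C t y₀) (mm C t y' - mm C t y₀)
  rw [sub_sub_sub_cancel_right] at h1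
  unfold ps
  rw [← sub_div, abs_div, abs_of_pos hρ]
  exact div_le_div_of_nonneg_right h1 hρ.le

lemma ps_cont : Continuous (ps C ρ t y₀) := by
  unfold ps
  have h1 := mm_cont C t
  have h2 : Continuous fun y => infDist (mm C t y - mm C t y₀) (Lt (mm C t 1)) :=
    (continuous_infDist_pt _).comp (h1.sub continuous_const)
  exact h2.div_const _

lemma ps_low (h : Dat f C Y K) (hρ : 0 < ρ) (hρ1 : ρ ≤ 1) {y : ℝ} (h1 : ρ / 2 ≤ |y₀ - y|)
    (h2 : |y₀ - y| ≤ 1 / 2) : 1 / (16 * K) ≤ ps C ρ (1 / (16 * K) * ρ) y₀ y := by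
  unfold ps
  rw [le_div_iff₀ hρ]
  refine (le_infDist (Lt_ne _)).2 ?_
  rintro z ⟨k, rfl⟩
  rw [Real.dist_eq]
  have h3 := mm_per (t := 1 / (16 * K) * ρ) h k y₀
  rw [show mm C (1 / (16 * K) * ρ) y - mm C (1 / (16 * K) * ρ) y₀ -
    k * mm C (1 / (16 * K) * ρ) 1 = mm C (1 / (16 * K) * ρ) y - mm C (1 / (16 * K) * ρ) (y₀ + k) by
      rw [h3]; ring]
  have h4 : ρ / 2 ≤ |y - (y₀ + k)| := by
    by_cases hk : k = 0
    · rw [hk]; push_cast
      rwa [add_zero, abs_sub_comm]
    · have h4 : (1 : ℝ) ≤ |(k : ℝ)| := by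
        have : (1 : ℤ) ≤ |k| := Int.one_le_abs hk
        exact_mod_cast this
      have h5 : |(k : ℝ)| ≤ |y₀ - y| + |y - (y₀ + k)| := by
        have h6 : (y₀ - y) + (y - (y₀ + k)) = -(k : ℝ) := by ring
        calc |(k : ℝ)| = |(y₀ - y) + (y - (y₀ + k))| := by rw [h6, abs_neg]
          _ ≤ _ := abs_add_le _ _
      linarith
  rcases le_total (y₀ + k) y with h5 | h5
  · rw [abs_of_nonneg (by linarith)] at h4
    have := mm_por h hρ hρ1 (p := y₀ + k) (q := y) (by linarith)
    exact this.trans (le_abs_self _)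
  · rw [abs_of_nonpos (by linarith)] at h4
    have := mm_por h hρ hρ1 (p := y) (q := y₀ + k) (by linarith)
    rw [abs_sub_comm]
    exact this.trans (le_abs_self _)

/-- a point at which the vertical potential is small is near a wire -/
lemma near_wire (h : Dat f C Y K) (hρ : 0 < ρ) (ht : t ≤ 2 * ρ) (h0 : rr C y₀ < 2 * ρ) {y : ℝ}
    (h1 : ps C ρ t y₀ y < 1) : rr C y < 3 * ρ := by
  unfold ps at h1
  rw [div_lt_one hρ] at h1
  obtain ⟨z, ⟨k, rfl⟩, hz⟩ := (infDist_lt_iff (Lt_ne _)).1 h1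
  rw [Real.dist_eq] at hz
  have h3 := mm_per (t := t) h k y₀
  rw [show mm C t y - mm C t y₀ - k * mm C t 1 = mm C t y - mm C t (y₀ + k) by rw [h3]; ring] at hz
  by_contra hcon
  push Not at hcon
  have h4 := rr_lip C y (y₀ + k)
  rw [rr_per h k y₀] at h4
  have h5 : ρ < |y - (y₀ + k)| := by
    have := le_abs_self (rr C y - rr C y₀)
    linarith
  have h6 : ∀ z, |z - y| ≤ ρ → t ≤ rr C z := by
    intro z hz
    have h7 := rr_lip C z y
    have h8 := (abs_le.1 (h7.trans hz)).1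
    linarith
  rcases le_total (y₀ + k) y with h7 | h7
  · rw [abs_of_nonneg (by linarith)] at h5
    have h8 := mm_full (C := C) (t := t) (p := y - ρ) (q := y) (by linarith)
      fun z hz => h6 z (by rw [abs_le]; constructor <;> linarith [hz.1, hz.2])
    have h9 := mm_mono C t (show y₀ + k ≤ y - ρ by linarith)
    have h10 := le_abs_self (mm C t y - mm C t (y₀ + k))
    linarith
  · rw [abs_of_nonpos (by linarith)] at h5
    have h8 := mm_full (C := C) (t := t) (p := y) (q := y + ρ) (by linarith)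
      fun z hz => h6 z (by rw [abs_le]; constructor <;> linarith [hz.1, hz.2])
    have h9 := mm_mono C t (show y + ρ ≤ y₀ + k by linarith)
    have h10 := neg_le_abs (mm C t y - mm C t (y₀ + k))
    linarith

/-- truncation -/
lemma trunc {a X X' p p' : ℝ} (ha : 0 ≤ a) (hX : 0 ≤ X) (hX' : 0 ≤ X') (hp : 0 ≤ p)
    (hp' : 0 ≤ p') :
    |min a (X + a * p) - min a (X' + a * p')| ≤ |X - X'| + a * min 1 |p - p'| := by
  have h1 : |min a (X + a * p) - min a (X' + a * p')| ≤ |X - X'| + a * |p - p'| := by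
    refine (abs_min_sub_min_le_max _ _ _ _).trans ?_
    rw [sub_self, abs_zero]
    refine max_le (by positivity) ?_
    rw [show X + a * p - (X' + a * p') = (X - X') + a * (p - p') by ring]
    refine (abs_add_le _ _).trans ?_
    rw [abs_mul, abs_of_nonneg ha]
  rcases le_total |p - p'| 1 with h2 | h2
  · rwa [min_eq_right h2]
  · rw [min_eq_left h2, mul_one]
    have a1 : 0 ≤ min a (X + a * p) := le_min ha (by positivity)
    have a2 : 0 ≤ min a (X' + a * p') := le_min ha (by positivity)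
    have a3 : min a (X + a * p) ≤ a := min_le_left _ _
    have a4 : min a (X' + a * p') ≤ a := min_le_left _ _
    have a5 := abs_nonneg (X - X')
    rw [abs_le]; constructor <;> linarith

/-- the gauge of the vertical potential -/
lemma vert (h : Dat f C Y K) {K1 s : ℝ} (hK1 : 1 ≤ K1) (hρ : 0 < ρ) (ht : 0 < t)
    {x₀ : ℝ} (hs : 0 ≤ s)
    (hV : ∀ x r : ℝ, |x - x₀| ≤ 4 * ρ → t ≤ r → r ≤ 4 → s ≤ K1 * V f x r) {w w' : ℝ × ℝ}
    (hw1 : |w.1 - x₀| ≤ 4 * ρ) (hw2 : rr C w.2 < 3 * ρ) (hδ : ‖w - w'‖ ≤ 1) :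
    1 / (2 * K1) * s * min 1 |ps C ρ t y₀ w.2 - ps C ρ t y₀ w'.2| ≤ 2 * Gh f C w ‖w - w'‖ := by
  set δ : ℝ := ‖w - w'‖ with hδe
  have hδ0 : 0 ≤ δ := norm_nonneg _
  have hGh := Gh_nonneg h w hδ0
  by_cases hm : mm C t w'.2 = mm C t w.2
  · have : ps C ρ t y₀ w'.2 = ps C ρ t y₀ w.2 := by unfold ps; rw [hm]
    rw [this, sub_self, abs_zero, min_eq_right zero_le_one, mul_zero]
    positivity
  have h1 : ∃ z ∈ uIcc w.2 w'.2, t ≤ rr C z := by
    by_contra hcon
    push Not at hcon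
    exact hm (mm_zero hcon)
  obtain ⟨z, hz1, hz2⟩ := h1
  have hw2' : |w'.2 - w.2| ≤ δ := by
    have := norm_snd_le (w - w')
    rw [abs_sub_comm]
    simpa using this
  have hz3 : |z - w.2| ≤ δ := (abs_sub_left_of_mem_uIcc hz1).trans hw2'
  have hz4 := rr_lip C z w.2
  have hr0 := rr_nonneg C w.2
  have hr1 := rr_le h w.2
  set r : ℝ := rr C w.2 with hr
  have hz5 : t ≤ δ + r := by
    have := (abs_le.1 (hz4.trans hz3)).2
    linarith
  have hδp : 0 < δ := by
    rcases hδ0.eq_or_lt with h0 | h0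
    · exfalso
      rw [← h0] at hw2'
      have : w'.2 = w.2 := by
        have := abs_nonpos_iff.1 hw2'
        linarith
      exact hm (by rw [this])
    · exact h0
  have h2 := hV w.1 (δ + r) hw1 hz5 (by linarith)
  have h3 : min 1 |ps C ρ t y₀ w.2 - ps C ρ t y₀ w'.2| ≤ min 1 (δ / ρ) := by
    refine min_le_min le_rfl ((ps_lip hρ _ _).trans ?_)
    refine div_le_div_of_nonneg_right ?_ hρ.le
    refine (mm_lip C t w'.2 w.2).trans ?_
    rwa [abs_sub_comm]
  have h4 : min 1 (δ / ρ) / 4 ≤ δ / (δ + r) := by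
    have h5 : δ / (δ + 3 * ρ) ≤ δ / (δ + r) :=
      div_le_div_of_nonneg_left hδ0 (by linarith) (by linarith)
    refine le_trans ?_ h5
    rcases le_total δ ρ with h6 | h6
    · rw [min_eq_right ((div_le_one hρ).2 h6), div_div]
      exact div_le_div_of_nonneg_left hδ0 (by linarith) (by linarith)
    · rw [min_eq_left ((one_le_div hρ).2 h6), div_le_div_iff₀ (by norm_num) (by linarith)]
      linarith
  have hm0 : 0 ≤ min 1 (δ / ρ) := le_min zero_le_one (by positivity)
  have hV0 : 0 ≤ V f w.1 (δ + r) := V_nonneg h (by linarith)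
  calc 1 / (2 * K1) * s * min 1 |ps C ρ t y₀ w.2 - ps C ρ t y₀ w'.2|
      ≤ 1 / (2 * K1) * s * min 1 (δ / ρ) := mul_le_mul_of_nonneg_left h3 (by positivity)
    _ ≤ 1 / (2 * K1) * (K1 * V f w.1 (δ + r)) * min 1 (δ / ρ) := by
        refine mul_le_mul_of_nonneg_right (mul_le_mul_of_nonneg_left h2 (by positivity)) hm0
    _ = 2 * (V f w.1 (δ + r) * (min 1 (δ / ρ) / 4)) := by field_simp; ring
    _ ≤ 2 * (V f w.1 (δ + r) * (δ / (δ + r))) := by
        refine mul_le_mul_of_nonneg_left (mul_le_mul_of_nonneg_left h4 hV0) (by norm_num)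
    _ = 2 * Gh f C w δ := rfl

end ModPOTF

open ModPOTF

theorem mPOTF (hDB : StmDB) (hPSI : StmPSI) (hPSC : StmPSC) (hHHL : StmHHL) : StmPOTF := by
  intro f C Y K hd
  have hK := hd.one_le
  obtain ⟨K1, hK1, hV⟩ := (hDB f C Y K hd).2.1 (64 * K) (by linarith)
  have hVpos := (hDB f C Y K hd).1
  obtain ⟨hHc, hHp, ⟨a, b, hHa, hHb, -, -, hHab⟩, ⟨K2, hK2, hHl⟩, -, ⟨cH, hcH, hHlow⟩⟩ :=
    hHHL f C Y K hd
  -- the two constants
  set cb : ℝ := min (1 / K2) (1 / (|a| + |b| + 1)) with hcb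
  have hcb0 : 0 < cb := lt_min (by positivity) (by positivity)
  set c1 : ℝ := 1 / (K * (K2 + 2)) with hc1
  have hc10 : 0 < c1 := by positivity
  set c2 : ℝ := 1 / (2 * K1) with hc2
  have hc20 : 0 < c2 := by positivity
  set κ : ℝ := 1 / (16 * K) with hκ
  have hκ0 : 0 < κ := by positivity
  have hκ1 : κ ≤ 1 := by
    rw [hκ, div_le_one (by positivity)]; linarith
  refine ⟨min (c1 * c2 * κ / K1) (cb * cH), lt_min (by positivity) (by positivity),
    fun u v hu1 hu2 hru => ?_⟩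
  set ρ : ℝ := ‖u - v‖ with hρ
  have hρe : ρ = max |u.1 - v.1| |u.2 - v.2| := by
    rw [hρ, Prod.norm_def]; rfl
  have hr0 := rr_nonneg C u.2
  have hρ0 : 0 < ρ := by linarith
  have hρ1 : ρ ≤ 1 := by
    rw [hρe]; exact max_le hu1 (by linarith)
  have hGh0 : 0 ≤ Gh f C u ρ := Gh_nonneg hd u hρ0.le
  rcases lt_or_ge |u.2 - v.2| (ρ / 2) with hcase | hcase
  · -- the horizontal case
    have hρ2 : |u.1 - v.1| = ρ := by
      rcases max_cases |u.1 - v.1| |u.2 - v.2| with ⟨h1, -⟩ | ⟨h1, -⟩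
      · rw [hρe, h1]
      · exfalso; rw [hρe, h1] at hcase; rw [hρe, h1] at hρ0; linarith
    have hlow := hHlow u v hu1 (by rw [hρ2]; linarith)
    rw [hρ2] at hlow
    have hb1 : ∀ w, |cb * HH f C w| ≤ 1 := by
      intro w
      obtain ⟨h1, h2⟩ := hHab w
      have h3 : |HH f C w| ≤ |a| + |b| + 1 := by
        rw [abs_le]
        constructor
        · have := neg_abs_le b; have := abs_nonneg a; linarith
        · have := le_abs_self a; have := abs_nonneg b; linarith
      rw [abs_mul, abs_of_pos hcb0]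
      calc cb * |HH f C w| ≤ 1 / (|a| + |b| + 1) * (|a| + |b| + 1) :=
            mul_le_mul (min_le_right _ _) h3 (abs_nonneg _) (by positivity)
        _ = 1 := by
            rw [one_div_mul_cancel]
            positivity
    have hG : ∀ w w' : ℝ × ℝ, ‖w - w'‖ ≤ 1 → |cb * HH f C w - cb * HH f C w'| ≤ G f C w w' := by
      intro w w' hw
      rw [← mul_sub, abs_mul, abs_of_pos hcb0]
      calc cb * |HH f C w - HH f C w'| ≤ 1 / K2 * (K2 * G f C w w') :=
            mul_le_mul (min_le_left _ _) (hHl w w' hw) (abs_nonneg _) (by positivity)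
        _ = G f C w w' := by field_simp
    obtain ⟨Φ, hΦ, hΦv, -, -⟩ := mkPot hPSI hPSC (fun w => cb * HH f C w) (cb * a) (cb * b)
      (continuous_const.mul hHc) (fun x y => by simp only [hHp]) (hHa.const_mul _)
      (hHb.const_mul _) hb1 hG
    refine ⟨Φ, hΦ, ?_⟩
    rw [hΦv, hΦv, ← mul_sub, abs_mul, abs_of_pos hcb0]
    calc min (c1 * c2 * κ / K1) (cb * cH) * Gh f C u ρ ≤ cb * cH * Gh f C u ρ :=
          mul_le_mul_of_nonneg_right (min_le_right _ _) hGh0
      _ = cb * (cH * Gh f C u ρ) := by ring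
      _ ≤ cb * |HH f C u - HH f C v| := mul_le_mul_of_nonneg_left hlow hcb0.le
  · -- the vertical case
    set s : ℝ := V f u.1 ρ with hs
    have hs0 : 0 < s := hVpos u.1 ρ hρ0
    have hsK : s ≤ K := V_le hd hρ0.le hρ1
    set r : ℝ := rr C u.2 with hr
    have hKρ : ρ ≤ K * ρ := by nlinarith
    have hV1 : V f u.1 (ρ + r) ≤ K1 * s := by
      refine hV u.1 u.1 ρ (ρ + r) hρ0 (by linarith) (by linarith) (by linarith) (by linarith)
        ?_ ?_
      · rw [sub_self, abs_zero]; positivity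
      · rw [sub_self, abs_zero]; norm_num
    have hV2 : s ≤ K1 * V f (u.1 + 5 / 2 * ρ) (ρ / 2) := by
      refine hV (u.1 + 5 / 2 * ρ) u.1 (ρ / 2) ρ (by linarith) (by linarith) (by linarith)
        (by linarith) (by linarith) ?_ ?_
      · rw [show u.1 + 5 / 2 * ρ - u.1 = 5 / 2 * ρ by ring, abs_of_pos (by linarith)]
        linarith
      · rw [show u.1 + 5 / 2 * ρ - u.1 = 5 / 2 * ρ by ring, abs_of_pos (by linarith)]
        linarith
    have hV3 : s ≤ K1 * V f (u.1 - ρ / 2) (ρ / 2) := by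
      refine hV (u.1 - ρ / 2) u.1 (ρ / 2) ρ (by linarith) (by linarith) (by linarith)
        (by linarith) (by linarith) ?_ ?_
      · rw [show u.1 - ρ / 2 - u.1 = -(ρ / 2) by ring, abs_neg, abs_of_pos (by linarith)]
        linarith
      · rw [show u.1 - ρ / 2 - u.1 = -(ρ / 2) by ring, abs_neg, abs_of_pos (by linarith)]
        linarith
    have hV4 : ∀ x r : ℝ, |x - u.1| ≤ 4 * ρ → κ * ρ ≤ r → r ≤ 4 → s ≤ K1 * V f x r := by
      intro x r' hx hr' hr'4
      have h1 : 4 * ρ ≤ 64 * K * r' := by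
        calc 4 * ρ = 64 * K * (κ * ρ) := by rw [hκ]; field_simp; norm_num
          _ ≤ _ := mul_le_mul_of_nonneg_left hr' (by linarith)
      exact hV x u.1 r' ρ (lt_of_lt_of_le (by positivity) hr') hr'4 hρ0.le (by linarith)
        (by linarith) (by linarith) (by linarith)
    set a0 : ℝ := c2 * s with ha0
    have ha0p : 0 < a0 := by positivity
    have hc2K : c2 * K1 = 1 / 2 := by rw [hc2]; field_simp
    have hright : ∀ w : ℝ × ℝ, u.1 + 3 * ρ ≤ w.1 → a0 ≤ |HH f C w - HH f C u| := by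
      intro w hw
      have h1 := le_HH hd w
      have h2 := HH_le hd u
      have h3 := hh_mono hd hw
      have h4 := hh_mono hd (show u.1 + r ≤ u.1 + 2 * ρ by linarith)
      have h5 := hh_V hd (u.1 + 5 / 2 * ρ) (ρ / 2)
      rw [show u.1 + 5 / 2 * ρ + ρ / 2 = u.1 + 3 * ρ by ring,
        show u.1 + 5 / 2 * ρ - ρ / 2 = u.1 + 2 * ρ by ring] at h5
      have h6 : a0 ≤ V f (u.1 + 5 / 2 * ρ) (ρ / 2) := by
        have h7 : 0 ≤ V f (u.1 + 5 / 2 * ρ) (ρ / 2) := V_nonneg hd (by linarith)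
        calc a0 ≤ c2 * (K1 * V f (u.1 + 5 / 2 * ρ) (ρ / 2)) :=
              mul_le_mul_of_nonneg_left hV2 hc20.le
          _ = 1 / 2 * V f (u.1 + 5 / 2 * ρ) (ρ / 2) := by rw [← mul_assoc, hc2K]
          _ ≤ _ := by linarith
      refine le_trans ?_ (le_abs_self _)
      linarith
    have hleft : ∀ w : ℝ × ℝ, w.1 + rr C w.2 ≤ u.1 - ρ → a0 ≤ |HH f C w - HH f C u| := by
      intro w hw
      have h1 := HH_le hd w
      have h2 := le_HH hd u
      have h3 := hh_mono hd hw
      have h5 := hh_V hd (u.1 - ρ / 2) (ρ / 2)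
      rw [show u.1 - ρ / 2 + ρ / 2 = u.1 by ring,
        show u.1 - ρ / 2 - ρ / 2 = u.1 - ρ by ring] at h5
      have h6 : a0 ≤ V f (u.1 - ρ / 2) (ρ / 2) := by
        have h7 : 0 ≤ V f (u.1 - ρ / 2) (ρ / 2) := V_nonneg hd (by linarith)
        calc a0 ≤ c2 * (K1 * V f (u.1 - ρ / 2) (ρ / 2)) :=
              mul_le_mul_of_nonneg_left hV3 hc20.le
          _ = 1 / 2 * V f (u.1 - ρ / 2) (ρ / 2) := by rw [← mul_assoc, hc2K]
          _ ≤ _ := by linarith
      refine le_trans ?_ (neg_le_abs _)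
      linarith
    set T : ℝ × ℝ → ℝ := fun w => |HH f C w - HH f C u| + a0 * ps C ρ (κ * ρ) u.2 w.2 with hT
    have hTc : Continuous T := by
      have h1 : Continuous (ps C ρ (κ * ρ) u.2) := ps_cont
      have h2 : Continuous fun w : ℝ × ℝ => ps C ρ (κ * ρ) u.2 w.2 := h1.comp continuous_snd
      exact (hHc.sub continuous_const).abs.add (continuous_const.mul h2)
    have hTp : ∀ x y, T (x, y + 1) = T (x, y) := by
      intro x y
      simp only [hT, hHp, ps_per hd]
    have hps0 : ∀ y, 0 ≤ ps C ρ (κ * ρ) u.2 y := ps_nonneg hρ0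
    have hT0 : ∀ w, |HH f C w - HH f C u| ≤ T w := by
      intro w
      have := mul_nonneg ha0p.le (hps0 w.2)
      simp only [hT]; linarith
    have hT1 : ∀ w, 0 ≤ T w := fun w => (abs_nonneg _).trans (hT0 w)
    set φ : ℝ × ℝ → ℝ := fun w => c1 * min a0 (T w) with hφ
    have hφc : Continuous φ := continuous_const.mul (continuous_const.min hTc)
    have hφp : ∀ x y, φ (x, y + 1) = φ (x, y) := by
      intro x y
      simp only [hφ, hTp]
    have hφ1 : ∀ w, a0 ≤ T w → φ w = c1 * a0 := by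
      intro w hw
      simp only [hφ]
      rw [min_eq_left hw]
    have hla : Tendsto φ (comap Prod.fst atTop) (𝓝 (c1 * a0)) := by
      refine Tendsto.congr' ?_ tendsto_const_nhds
      have : ∀ᶠ x : ℝ in atTop, u.1 + 3 * ρ ≤ x := eventually_ge_atTop _
      filter_upwards [tendsto_comap.eventually this] with w hw
      exact (hφ1 w ((hright w hw).trans (hT0 w))).symm
    have hlb : Tendsto φ (comap Prod.fst atBot) (𝓝 (c1 * a0)) := by
      refine Tendsto.congr' ?_ tendsto_const_nhds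
      have : ∀ᶠ x : ℝ in atBot, x ≤ u.1 - ρ - 1 / 2 := eventually_le_atBot _
      filter_upwards [tendsto_comap.eventually this] with w hw
      have h1 := rr_le hd w.2
      exact (hφ1 w ((hleft w (by linarith)).trans (hT0 w))).symm
    have hc1K : c1 * K ≤ 1 / 2 := by
      rw [hc1, div_mul_eq_mul_div, div_le_div_iff₀ (by positivity) (by norm_num)]
      nlinarith
    have hc2h : c2 ≤ 1 := by
      rw [hc2, div_le_one (by positivity)]; linarith
    have hφb : ∀ w, |φ w| ≤ 1 := by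
      intro w
      have h1 : 0 ≤ min a0 (T w) := le_min ha0p.le (hT1 w)
      have h2 : min a0 (T w) ≤ a0 := min_le_left _ _
      have h3 : a0 ≤ K := by
        have : c2 * s ≤ 1 * s := mul_le_mul_of_nonneg_right hc2h hs0.le
        linarith
      simp only [hφ]
      rw [abs_of_nonneg (mul_nonneg hc10.le h1)]
      have h4 : c1 * min a0 (T w) ≤ c1 * K := mul_le_mul_of_nonneg_left (h2.trans h3) hc10.le
      linarith
    have hG : ∀ w w' : ℝ × ℝ, ‖w - w'‖ ≤ 1 → |φ w - φ w'| ≤ G f C w w' := by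
      refine gauge_symm φ (fun w => T w < a0) hd ?_ ?_
      · intro w w' h1 h2
        rw [hφ1 w (not_lt.1 h1), hφ1 w' (not_lt.1 h2)]
      intro w w' hw hlt
      have hps : ps C ρ (κ * ρ) u.2 w.2 < 1 := by
        have h1 : a0 * ps C ρ (κ * ρ) u.2 w.2 < a0 * 1 := by
          have h2 := abs_nonneg (HH f C w - HH f C u)
          simp only [hT] at hlt
          linarith
        exact lt_of_mul_lt_mul_left h1 ha0p.le
      have hwr : rr C w.2 < 3 * ρ := near_wire hd hρ0 (by nlinarith) hru hps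
      have hH : |HH f C w - HH f C u| < a0 := (hT0 w).trans_lt hlt
      have hw1 : |w.1 - u.1| ≤ 4 * ρ := by
        rw [abs_le]
        constructor
        · by_contra hcon
          push Not at hcon
          exact absurd (hleft w (by linarith)) (not_le.2 hH)
        · by_contra hcon
          push Not at hcon
          exact absurd (hright w (by linarith)) (not_le.2 hH)
      have h1 := vert (y₀ := u.2) hd hK1 hρ0 (by positivity) hs0.le hV4 hw1 hwr hw
      rw [← hc2, ← ha0] at h1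
      have h2 := trunc (a := a0) (X := |HH f C w - HH f C u|) (X' := |HH f C w' - HH f C u|)
        (p := ps C ρ (κ * ρ) u.2 w.2) (p' := ps C ρ (κ * ρ) u.2 w'.2) ha0p.le (abs_nonneg _)
        (abs_nonneg _) (hps0 _) (hps0 _)
      have h3 : abs (|HH f C w - HH f C u| - |HH f C w' - HH f C u|) ≤ K2 * G f C w w' := by
        refine (abs_abs_sub_abs_le_abs_sub _ _).trans ?_
        rw [sub_sub_sub_cancel_right]
        exact hHl w w' hw
      have h4 : Gh f C w ‖w - w'‖ ≤ G f C w w' := by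
        unfold G
        linarith [Gh_nonneg hd w' (norm_nonneg (w - w'))]
      have h5 : |φ w - φ w'| = c1 * |min a0 (T w) - min a0 (T w')| := by
        simp only [hφ]
        rw [← mul_sub, abs_mul, abs_of_pos hc10]
      rw [h5]
      have hG0 := G_nonneg hd w w'
      calc c1 * |min a0 (T w) - min a0 (T w')| ≤ c1 * ((K2 + 2) * G f C w w') := by
            refine mul_le_mul_of_nonneg_left ?_ hc10.le
            refine h2.trans ?_
            linarith
        _ = (1 / K) * G f C w w' := by rw [hc1]; field_simp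
        _ ≤ 1 * G f C w w' := by
            refine mul_le_mul_of_nonneg_right ?_ hG0
            rw [div_le_one (by linarith)]; exact hK
        _ = G f C w w' := one_mul _
    obtain ⟨Φ, hΦ, hΦv, -, -⟩ := mkPot hPSI hPSC φ _ _ hφc hφp hla hlb hφb hG
    refine ⟨Φ, hΦ, ?_⟩
    rw [hΦv, hΦv]
    have e1 : φ u = 0 := by
      simp only [hφ, hT]
      rw [ps_self, sub_self, abs_zero, mul_zero, add_zero, min_eq_right ha0p.le, mul_zero]
    have e2 : c1 * (a0 * κ) ≤ φ v := by
      simp only [hφ]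
      refine mul_le_mul_of_nonneg_left (le_min ?_ ?_) hc10.le
      · nlinarith
      · have h1 := ps_low (y₀ := u.2) (y := v.2) hd hρ0 hρ1 hcase hu2
        have h2 : a0 * κ ≤ a0 * ps C ρ (κ * ρ) u.2 v.2 := mul_le_mul_of_nonneg_left h1 ha0p.le
        have h3 := abs_nonneg (HH f C v - HH f C u)
        simp only [hT]
        linarith
    have e3 : 0 ≤ φ v := le_trans (by positivity) e2
    rw [e1, zero_sub, abs_neg, abs_of_nonneg e3]
    refine le_trans ?_ e2
    have e4 : Gh f C u ρ ≤ K1 * s := by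
      refine le_trans ?_ hV1
      have h1 : 0 ≤ V f u.1 (ρ + r) := V_nonneg hd (by linarith)
      have h2 : ρ / (ρ + r) ≤ 1 := by
        rw [div_le_one (by linarith)]; linarith
      calc Gh f C u ρ = V f u.1 (ρ + r) * (ρ / (ρ + r)) := rfl
        _ ≤ V f u.1 (ρ + r) * 1 := mul_le_mul_of_nonneg_left h2 h1
        _ = _ := mul_one _
    calc min (c1 * c2 * κ / K1) (cb * cH) * Gh f C u ρ ≤ (c1 * c2 * κ / K1) * (K1 * s) :=
          mul_le_mul (min_le_left _ _) e4 hGh0 (by positivity)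
      _ = c1 * (a0 * κ) := by rw [ha0]; field_simp

end Pool.Agent.T6.H52.LS
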