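import Pool.Agent.T6.H52.LS.Defs2

/-!
Project LS (helper52): module POTH.
-/

set_option autoImplicit false
open MeasureTheory Filter Topology Metric Set
open scoped ENNReal NNReal

namespace Pool.Agent.T6.H52.LS

namespace ModPOTH

variable {f : ℝ → ℝ} {C : Set ℝ} {Y : ℝ → ℝ → ℝ} {K : ℝ}

theorem f_le (hD : Dat f C Y K) (x : ℝ) : f x ≤ K := by
  have h1 := hD.le x
  have h2 : (1 : ℝ) ≤ (1 + |x|) ^ 2 := by nlinarith [abs_nonneg x]
  have h3 := hD.nonneg x
  nlinarith

theorem f_int (hD : Dat f C Y K) (a b : ℝ) : IntervalIntegrable f volume a b := by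
  refine (intervalIntegrable_const (c := K)).mono_fun hD.meas.aestronglyMeasurable ?_
  refine Filter.Eventually.of_forall fun x => ?_
  show ‖f x‖ ≤ ‖K‖
  rw [Real.norm_eq_abs, Real.norm_eq_abs, abs_of_nonneg (hD.nonneg x)]
  exact (f_le hD x).trans (le_abs_self K)

theorem h_sub (hD : Dat f C Y K) (a b : ℝ) : hh f b - hh f a = ∫ x in a..b, f x := by
  unfold hh
  rw [intervalIntegral.integral_interval_sub_left (f_int hD 0 b) (f_int hD 0 a)]

theorem h_mono (hD : Dat f C Y K) : Monotone (hh f) := by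
  intro a b hab
  have h := h_sub hD a b
  have h' : 0 ≤ ∫ x in a..b, f x := intervalIntegral.integral_nonneg hab fun x _ => hD.nonneg x
  linarith

theorem h_cont (hD : Dat f C Y K) : Continuous (hh f) :=
  intervalIntegral.continuous_primitive (fun a b => f_int hD a b) 0

theorem V_eq (hD : Dat f C Y K) (x r : ℝ) : V f x r = hh f (x + r) - hh f (x - r) := by
  rw [h_sub hD]; rfl

theorem rr_le (hD : Dat f C Y K) (y : ℝ) : rr C y ≤ 1 := by
  obtain ⟨z, hz⟩ := hD.ne
  have hnat : ∀ n : ℕ, z + n ∈ C ∧ z - n ∈ C := by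
    intro n
    induction n with
    | zero => simpa using hz
    | succ n ih =>
      refine ⟨?_, ?_⟩
      · have := (hD.per (z + n)).2 ih.1
        push_cast; rw [← add_assoc]; exact this
      · have : z - (n + 1 : ℝ) + 1 ∈ C := by
          have e : z - (n + 1 : ℝ) + 1 = z - n := by ring
          rw [e]; exact ih.2
        have := (hD.per _).1 this
        push_cast; exact this
  have hint : ∀ k : ℤ, z + k ∈ C := by
    intro k
    rcases k.eq_nat_or_neg with ⟨n, rfl | rfl⟩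
    · simpa using (hnat n).1
    · have := (hnat n).2
      push_cast; rw [← sub_eq_add_neg]; exact this
  have h := infDist_le_dist_of_mem (x := y) (hint ⌊y - z⌋)
  have h1 := Int.floor_le (y - z)
  have h2 := Int.lt_floor_add_one (y - z)
  rw [Real.dist_eq, abs_of_nonneg (by linarith)] at h
  unfold rr; linarith

theorem rr_nonneg (y : ℝ) : 0 ≤ rr C y := infDist_nonneg

theorem HH_bd (hD : Dat f C Y K) (u : ℝ × ℝ) :
    hh f u.1 ≤ HH f C u ∧ HH f C u ≤ hh f (u.1 + 1) := by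
  have hi : IntervalIntegrable (fun θ => hh f (u.1 + θ * rr C u.2)) volume 0 1 :=
    ((h_cont hD).comp (by fun_prop)).intervalIntegrable 0 1
  have hr0 := rr_nonneg (C := C) u.2
  have hr1 := rr_le hD u.2
  constructor
  · have : ∫ θ in (0 : ℝ)..1, hh f u.1 ≤ ∫ θ in (0 : ℝ)..1, hh f (u.1 + θ * rr C u.2) := by
      refine intervalIntegral.integral_mono_on zero_le_one intervalIntegrable_const hi ?_
      intro θ hθ
      exact h_mono hD (by nlinarith [hθ.1])
    simpa [HH] using this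
  · have : ∫ θ in (0 : ℝ)..1, hh f (u.1 + θ * rr C u.2) ≤ ∫ θ in (0 : ℝ)..1, hh f (u.1 + 1) := by
      refine intervalIntegral.integral_mono_on zero_le_one hi intervalIntegrable_const ?_
      intro θ hθ
      exact h_mono hD (by nlinarith [hθ.1, hθ.2])
    simpa [HH] using this

theorem sum_low (hD : Dat f C Y K) {B y : ℝ} (hy : 0 ≤ y) (n : ℕ) (hB : 1 + y + 2 * n ≤ B) :
    n * (1 / (K * B ^ 4)) ≤ hh f (y + 2 * n) - hh f y := by
  have hK : 0 < K := lt_of_lt_of_le one_pos hD.one_le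
  induction n with
  | zero => simp
  | succ n ih =>
    push_cast at hB ⊢
    have h1 := ih (by linarith)
    have h2 := hD.low (y + 2 * n + 1)
    rw [V_eq hD] at h2
    have hn : (0 : ℝ) ≤ n := n.cast_nonneg
    have e1 : y + 2 * (n : ℝ) + 1 + 1 = y + 2 * (n + 1) := by ring
    have e2 : y + 2 * (n : ℝ) + 1 - 1 = y + 2 * n := by ring
    rw [e1, e2, abs_of_nonneg (by positivity)] at h2
    set d := hh f (y + 2 * (n + 1)) - hh f (y + 2 * n) with hd
    have hd0 : 0 ≤ d := sub_nonneg.2 (h_mono hD (by linarith))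
    have hB0 : 0 < B := by linarith
    have h3 : (1 + (y + 2 * n + 1)) ^ 4 ≤ B ^ 4 :=
      pow_le_pow_left₀ (by positivity) (by linarith) 4
    have h4 : 1 / (K * B ^ 4) ≤ d := by
      rw [div_le_iff₀ (by positivity)]
      calc (1 : ℝ) ≤ K * ((1 + (y + 2 * n + 1)) ^ 4 * d) := h2
        _ ≤ K * (B ^ 4 * d) := by
          exact mul_le_mul_of_nonneg_left (mul_le_mul_of_nonneg_right h3 hd0) hK.le
        _ = d * (K * B ^ 4) := by ring
    have : hh f (y + 2 * (n + 1)) - hh f y = d + (hh f (y + 2 * n) - hh f y) := by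
      rw [hd]; ring
    rw [this]; linarith

theorem sum_low' (hD : Dat f C Y K) {B z : ℝ} (hz : 0 ≤ z) (n : ℕ) (hB : 1 + z + 2 * n ≤ B) :
    n * (1 / (K * B ^ 4)) ≤ hh f (-z) - hh f (-z - 2 * n) := by
  have hK : 0 < K := lt_of_lt_of_le one_pos hD.one_le
  induction n with
  | zero => simp
  | succ n ih =>
    push_cast at hB ⊢
    have h1 := ih (by linarith)
    have h2 := hD.low (-z - 2 * n - 1)
    rw [V_eq hD] at h2
    have hn : (0 : ℝ) ≤ n := n.cast_nonneg
    have e1 : -z - 2 * (n : ℝ) - 1 + 1 = -z - 2 * n := by ring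
    have e2 : -z - 2 * (n : ℝ) - 1 - 1 = -z - 2 * (n + 1) := by ring
    rw [e1, e2, abs_of_nonpos (by linarith)] at h2
    set d := hh f (-z - 2 * n) - hh f (-z - 2 * (n + 1)) with hd
    have hd0 : 0 ≤ d := sub_nonneg.2 (h_mono hD (by linarith))
    have hB0 : 0 < B := by linarith
    have h3 : (1 + -(-z - 2 * n - 1)) ^ 4 ≤ B ^ 4 :=
      pow_le_pow_left₀ (by linarith) (by linarith) 4
    have h4 : 1 / (K * B ^ 4) ≤ d := by
      rw [div_le_iff₀ (by positivity)]
      calc (1 : ℝ) ≤ K * ((1 + -(-z - 2 * n - 1)) ^ 4 * d) := h2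
        _ ≤ K * (B ^ 4 * d) := by
          exact mul_le_mul_of_nonneg_left (mul_le_mul_of_nonneg_right h3 hd0) hK.le
        _ = d * (K * B ^ 4) := by ring
    have : hh f (-z) - hh f (-z - 2 * (n + 1)) = d + (hh f (-z) - hh f (-z - 2 * n)) := by
      rw [hd]; ring
    rw [this]; linarith

theorem arith {K x : ℝ} (hK : 0 < K) (hx : 0 ≤ x) {n : ℝ} (hn : (1 + x) / 2 ≤ n) :
    1 / (512 * K) / (1 + x) ^ 3 ≤ n * (1 / (K * (4 * (1 + x)) ^ 4)) := by
  have h1 : 0 < 1 + x := by linarith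
  have e : 1 / (512 * K) / (1 + x) ^ 3 = (1 + x) / 2 * (1 / (K * (4 * (1 + x)) ^ 4)) := by
    field_simp; ring
  rw [e]
  exact mul_le_mul_of_nonneg_right hn (by positivity)

theorem nat_arith {x : ℝ} (hx : 0 ≤ x) : (1 + x) / 2 ≤ ((⌊x⌋₊ + 1 : ℕ) : ℝ) ∧
    ((⌊x⌋₊ + 1 : ℕ) : ℝ) ≤ x + 1 := by
  have h1 := Nat.floor_le hx
  have h2 := Nat.lt_floor_add_one x
  have h3 : (0 : ℝ) ≤ (⌊x⌋₊ : ℝ) := Nat.cast_nonneg _
  push_cast
  constructor <;> linarith

end ModPOTH

open ModPOTH in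
theorem mPOTH (hDB : StmDB) (_hPSI : StmPSI) (hPSC : StmPSC) (hHHL : StmHHL) : StmPOTH := by
  intro f C Y K hD
  obtain ⟨hcont, hper, ⟨a, b, ta, tb, tha, thb, hab⟩, ⟨K', hK', hL⟩, ⟨c1, hc1, hF⟩, -⟩ :=
    hHHL f C Y K hD
  have hK : 0 < K := lt_of_lt_of_le one_pos hD.one_le
  have ha : ∀ X, hh f X ≤ a := fun X => (h_mono hD).ge_of_tendsto tha X
  have hb : ∀ X, b ≤ hh f X := fun X => (h_mono hD).le_of_tendsto thb X
  have hba : b ≤ a := (hb 0).trans (ha 0)
  set c0 : ℝ := 1 / (K' + (a - b) + 1) with hc0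
  have hc0p : 0 < c0 := by
    have : 0 < K' + (a - b) + 1 := by linarith
    positivity
  have hden : 0 < K' + (a - b) + 1 := by linarith
  have hc0K : c0 * K' ≤ 1 := by
    rw [hc0, one_div_mul_eq_div, div_le_one hden]; linarith
  have hc0a : c0 * (a - b) ≤ 1 := by
    rw [hc0, one_div_mul_eq_div, div_le_one hden]; linarith
  obtain ⟨Φ, Φc, Φu, ΦN, ΦS⟩ := hPSC (fun w => c0 * (HH f C w - b)) (c0 * (a - b)) (c0 * (b - b))
    (by fun_prop) (by intro x y; simp only [hper]) ((ta.sub_const b).const_mul c0)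
    ((tb.sub_const b).const_mul c0)
  have hΦ : Φ ∈ Pot f C := by
    refine ⟨Φc, ?_, ?_⟩
    · intro p
      rcases _hPSI.2.2.2.2.2.1 p with rfl | rfl | ⟨u, rfl⟩
      · rw [ΦN, abs_of_nonneg (mul_nonneg hc0p.le (by linarith))]; exact hc0a
      · rw [ΦS]; simp
      · have h1 := (hab u).1
        have h2 := (hab u).2
        rw [Φu, abs_of_nonneg (mul_nonneg hc0p.le (by linarith))]
        exact (mul_le_mul_of_nonneg_left (by linarith) hc0p.le).trans hc0a
    · intro u v huv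
      have h := hL u v huv
      have hG : 0 ≤ G f C u v := by
        have := (abs_nonneg _).trans h
        exact nonneg_of_mul_nonneg_right this hK' |> fun h => h
      rw [Φu, Φu]
      have e : c0 * (HH f C u - b) - c0 * (HH f C v - b) = c0 * (HH f C u - HH f C v) := by ring
      rw [e, abs_mul, abs_of_pos hc0p]
      calc c0 * |HH f C u - HH f C v| ≤ c0 * (K' * G f C u v) :=
            mul_le_mul_of_nonneg_left h hc0p.le
        _ = (c0 * K') * G f C u v := by ring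
        _ ≤ 1 * G f C u v := mul_le_mul_of_nonneg_right hc0K hG
        _ = G f C u v := one_mul _
  have hVpos := (hDB f C Y K hD).1
  have hlta : ∀ u : ℝ × ℝ, HH f C u < a := by
    intro u
    have h1 := (HH_bd hD u).2
    have h2 := hVpos (u.1 + 2) 1 one_pos
    rw [V_eq hD] at h2
    have h3 := ha (u.1 + 2 + 1)
    have e : u.1 + 2 - 1 = u.1 + 1 := by ring
    rw [e] at h2
    linarith
  have hltb : ∀ u : ℝ × ℝ, b < HH f C u := by
    intro u
    have h1 := (HH_bd hD u).1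
    have h2 := hVpos (u.1 - 1) 1 one_pos
    rw [V_eq hD] at h2
    have h3 := hb (u.1 - 1 - 1)
    have e : u.1 - 1 + 1 = u.1 := by ring
    rw [e] at h2
    linarith
  refine ⟨min (c0 * c1) (c0 * (1 / (512 * K)) / 64), by positivity, ?_, ?_, ?_, ?_, ?_, ?_⟩
  · intro u v huv
    refine ⟨Φ, hΦ, ?_⟩
    rw [Φu, Φu]
    have e : c0 * (HH f C u - b) - c0 * (HH f C v - b) = c0 * (HH f C u - HH f C v) := by ring
    rw [e, abs_mul, abs_of_pos hc0p]
    calc min (c0 * c1) (c0 * (1 / (512 * K)) / 64) * |∫ x in u.1..v.1, f x|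
        ≤ (c0 * c1) * |∫ x in u.1..v.1, f x| :=
          mul_le_mul_of_nonneg_right (min_le_left _ _) (abs_nonneg _)
      _ = c0 * (c1 * |∫ x in u.1..v.1, f x|) := by ring
      _ ≤ c0 * |HH f C u - HH f C v| := mul_le_mul_of_nonneg_left (hF u v huv) hc0p.le
  · intro u hu
    refine ⟨Φ, hΦ, ?_⟩
    rw [ΦN, Φu]
    have e : c0 * (a - b) - c0 * (HH f C u - b) = c0 * (a - HH f C u) := by ring
    rw [e, abs_of_nonneg (mul_nonneg hc0p.le (by linarith [hlta u]))]
    obtain ⟨n1, n2⟩ := nat_arith (x := u.1 + 1) (by linarith)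
    have h1 := sum_low hD (B := 4 * (1 + (u.1 + 1))) (y := u.1 + 1) (by linarith)
      (⌊u.1 + 1⌋₊ + 1) (by linarith)
    have h2 := arith hK (x := u.1 + 1) (by linarith) n1
    have h3 := (HH_bd hD u).2
    have h4 := ha (u.1 + 1 + 2 * ((⌊u.1 + 1⌋₊ + 1 : ℕ) : ℝ))
    have h5 : 1 / (512 * K) / (1 + (u.1 + 1)) ^ 3 ≤ a - HH f C u := by linarith
    have h6 : 1 / (512 * K) / 64 / (1 + u.1) ^ 3 ≤ 1 / (512 * K) / (1 + (u.1 + 1)) ^ 3 := by
      rw [div_div]
      refine div_le_div_of_nonneg_left (by positivity) (by positivity) ?_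
      have : (1 + (u.1 + 1)) ^ 3 ≤ (4 * (1 + u.1)) ^ 3 :=
        pow_le_pow_left₀ (by linarith) (by linarith) 3
      calc (1 + (u.1 + 1)) ^ 3 ≤ (4 * (1 + u.1)) ^ 3 := this
        _ = 64 * (1 + u.1) ^ 3 := by ring
    calc min (c0 * c1) (c0 * (1 / (512 * K)) / 64) / (1 + u.1) ^ 3
        ≤ (c0 * (1 / (512 * K)) / 64) / (1 + u.1) ^ 3 :=
          div_le_div_of_nonneg_right (min_le_right _ _) (by positivity)
      _ = c0 * (1 / (512 * K) / 64 / (1 + u.1) ^ 3) := by ring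
      _ ≤ c0 * (a - HH f C u) := mul_le_mul_of_nonneg_left (h6.trans h5) hc0p.le
  · intro u hu
    refine ⟨Φ, hΦ, ?_⟩
    rw [ΦS, Φu]
    have e : c0 * (b - b) - c0 * (HH f C u - b) = -(c0 * (HH f C u - b)) := by ring
    rw [e, abs_neg, abs_of_nonneg (mul_nonneg hc0p.le (by linarith [hltb u]))]
    obtain ⟨n1, n2⟩ := nat_arith (x := -u.1) (by linarith)
    have h1 := sum_low' hD (B := 4 * (1 + -u.1)) (z := -u.1) (by linarith)
      (⌊-u.1⌋₊ + 1) (by linarith)
    have h2 := arith hK (x := -u.1) (by linarith) n1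
    have h3 := (HH_bd hD u).1
    have h4 := hb (- -u.1 - 2 * ((⌊-u.1⌋₊ + 1 : ℕ) : ℝ))
    rw [neg_neg] at h1 h4
    have h5 : 1 / (512 * K) / (1 + -u.1) ^ 3 ≤ HH f C u - b := by linarith
    have h6 : 1 / (512 * K) / 64 / (1 - u.1) ^ 3 ≤ 1 / (512 * K) / (1 + -u.1) ^ 3 := by
      rw [← sub_eq_add_neg]
      refine div_le_div_of_nonneg_right ?_ (pow_nonneg (by linarith) 3)
      have : 0 < 1 / (512 * K) := by positivity
      linarith
    calc min (c0 * c1) (c0 * (1 / (512 * K)) / 64) / (1 - u.1) ^ 3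
        ≤ (c0 * (1 / (512 * K)) / 64) / (1 - u.1) ^ 3 :=
          div_le_div_of_nonneg_right (min_le_right _ _) (pow_nonneg (by linarith) 3)
      _ = c0 * (1 / (512 * K) / 64 / (1 - u.1) ^ 3) := by ring
      _ ≤ c0 * (HH f C u - b) := mul_le_mul_of_nonneg_left (h6.trans h5) hc0p.le
  · intro u
    refine ⟨Φ, hΦ, ?_⟩
    rw [ΦN, Φu]
    intro h
    have := mul_left_cancel₀ hc0p.ne' h
    linarith [hlta u]
  · intro u
    refine ⟨Φ, hΦ, ?_⟩
    rw [ΦS, Φu]
    intro h
    have := mul_left_cancel₀ hc0p.ne' h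
    linarith [hltb u]
  · refine ⟨Φ, hΦ, ?_⟩
    rw [ΦN, ΦS]
    intro h
    have := mul_left_cancel₀ hc0p.ne' h
    linarith [hltb (0, 0), hlta (0, 0)]

end Pool.Agent.T6.H52.LS
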