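import Pool.Agent.T6.H29.LS.PotAux

/-!
Project LS (helper52), MP_0f1fb3_an, module POTN (helper29).
-/

set_option autoImplicit false
open MeasureTheory Filter Topology Metric Set
open scoped ENNReal NNReal

namespace Pool.Agent.T6.H52.LS

open Pool.Agent.T6.H29.LS

namespace ModPOTN

/-- the heights of the translates of the point -/
def Cu (y : ℝ) : Set ℝ := {z | ∃ k : ℤ, z = y + k}

lemma Cu_ne (y : ℝ) : (Cu y).Nonempty := ⟨y, 0, by simp⟩

lemma Cu_per (y : ℝ) (z : ℝ) : z + 1 ∈ Cu y ↔ z ∈ Cu y := by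
  constructor
  · rintro ⟨k, hk⟩
    exact ⟨k - 1, by push_cast; linarith⟩
  · rintro ⟨k, hk⟩
    exact ⟨k + 1, by push_cast; linarith⟩

/-- distance modulo the vertical translations -/
noncomputable def dd (u w : ℝ × ℝ) : ℝ := max |w.1 - u.1| (infDist w.2 (Cu u.2))

lemma dd_nonneg (u w : ℝ × ℝ) : 0 ≤ dd u w := le_max_of_le_left (abs_nonneg _)

lemma dd_lip (u w w' : ℝ × ℝ) : |dd u w - dd u w'| ≤ ‖w - w'‖ := by
  have h1 : |w.1 - w'.1| ≤ ‖w - w'‖ := by
    have := norm_fst_le (w - w'); simpa using this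
  have h2 : |w.2 - w'.2| ≤ ‖w - w'‖ := by
    have := norm_snd_le (w - w'); simpa using this
  have h3 := rr_lip (Cu u.2) w.2 w'.2
  unfold rr at h3
  have h4 : abs (abs (w.1 - u.1) - abs (w'.1 - u.1)) ≤ |w.1 - w'.1| := by
    have := abs_abs_sub_abs_le_abs_sub (w.1 - u.1) (w'.1 - u.1)
    rwa [sub_sub_sub_cancel_right] at this
  unfold dd
  refine (abs_max_sub_max_le_max _ _ _ _).trans ?_
  exact max_le (h4.trans h1) (h3.trans h2)

lemma dd_cont (u : ℝ × ℝ) : Continuous (dd u) := by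
  refine Continuous.max (by fun_prop) ?_
  exact (continuous_infDist_pt _).comp continuous_snd

lemma dd_self (u : ℝ × ℝ) : dd u u = 0 := by
  unfold dd
  rw [sub_self, abs_zero, infDist_zero_of_mem (show u.2 ∈ Cu u.2 from ⟨0, by simp⟩), max_self]

lemma dd_eq {u v : ℝ × ℝ} (h : ‖u - v‖ ≤ 1 / 4) : dd u v = ‖u - v‖ := by
  have h2 : |v.2 - u.2| ≤ 1 / 4 := by
    have := norm_snd_le (u - v)
    rw [abs_sub_comm]
    have h3 : |u.2 - v.2| ≤ ‖u - v‖ := by simpa using this
    linarith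
  have h3 : infDist v.2 (Cu u.2) = |v.2 - u.2| := by
    refine le_antisymm ?_ ?_
    · refine (infDist_le_dist_of_mem (show u.2 ∈ Cu u.2 from ⟨0, by simp⟩)).trans ?_
      rw [Real.dist_eq]
    · refine (le_infDist (Cu_ne _)).2 ?_
      rintro z ⟨k, rfl⟩
      rw [Real.dist_eq]
      by_cases hk : k = 0
      · simp [hk]
      · have h4 : (1 : ℝ) ≤ |(k : ℝ)| := by
          have : (1 : ℤ) ≤ |k| := Int.one_le_abs hk
          exact_mod_cast this
        have h5 : |(k : ℝ)| ≤ |v.2 - u.2| + |v.2 - (u.2 + k)| := by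
          have h6 : (k : ℝ) = (v.2 - u.2) - (v.2 - (u.2 + k)) := by ring
          calc |(k : ℝ)| = |(v.2 - u.2) - (v.2 - (u.2 + k))| := by rw [← h6]
            _ ≤ _ := abs_sub _ _
        linarith
  unfold dd
  rw [h3, Prod.norm_def, abs_sub_comm v.1, abs_sub_comm v.2]
  rfl

end ModPOTN

open ModPOTN

theorem mPOTN (hDB : StmDB) (hPSI : StmPSI) (hPSC : StmPSC) : StmPOTN := by
  intro f C Y K hd
  obtain ⟨K', hK', hV⟩ := (hDB f C Y K hd).2.1 3 (by norm_num)
  have hK := hd.one_le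
  refine ⟨1 / (5 * K * K'), by positivity, fun u v huv => ?_⟩
  set c1 : ℝ := 1 / (5 * K * K') with hc1
  have hc1p : 0 < c1 := by positivity
  set ρ : ℝ := ‖u - v‖ with hρ
  rcases (norm_nonneg (u - v)).eq_or_lt with h0 | h0
  · refine ⟨_, zero_mem_Pot hd, ?_⟩
    rw [hρ, ← h0, Gh_zero]; simp
  rw [← hρ] at h0
  set r : ℝ := rr C u.2 with hr
  have hr1 : r ≤ 1 / 2 := rr_le hd _
  have hr0 : 0 < r := by linarith
  set σ : ℝ := Gh f C u ρ with hσ
  have hσ0 : 0 ≤ σ := Gh_nonneg hd u h0.le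
  have hVu : 0 ≤ V f u.1 (ρ + r) := V_nonneg hd (by linarith)
  have hσV : σ = V f u.1 (ρ + r) * (ρ / (ρ + r)) := rfl
  have hσK : σ ≤ K := by
    rw [hσV]
    have h1 : V f u.1 (ρ + r) ≤ K := V_le hd (by linarith) (by linarith)
    have h2 : ρ / (ρ + r) ≤ 1 := by rw [div_le_one (by linarith)]; linarith
    have h3 : 0 ≤ ρ / (ρ + r) := by positivity
    nlinarith
  have hcσ : c1 * σ ≤ 1 := by
    have : c1 * K ≤ 1 := by
      rw [hc1, div_mul_eq_mul_div, div_le_one (by positivity)]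
      nlinarith
    nlinarith
  set φ : ℝ × ℝ → ℝ := fun w => c1 * σ * min 1 (dd u w / ρ) with hφ
  have hφc : Continuous φ := by
    have := dd_cont u
    fun_prop
  have hφp : ∀ x y, φ (x, y + 1) = φ (x, y) := by
    intro x y
    have h1 := infDist_per (Cu_per u.2) 1 y
    push_cast at h1
    simp only [hφ, dd, h1]
  have hφ1 : ∀ w, ρ ≤ dd u w → φ w = c1 * σ := by
    intro w hw
    simp only [hφ]
    rw [min_eq_left ((one_le_div h0).2 hw), mul_one]
  have hfar : ∀ w : ℝ × ℝ, ρ ≤ |w.1 - u.1| → φ w = c1 * σ := fun w hw =>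
    hφ1 w (hw.trans (le_max_left _ _))
  have hla : Tendsto φ (comap Prod.fst atTop) (𝓝 (c1 * σ)) := by
    refine Tendsto.congr' ?_ tendsto_const_nhds
    have : ∀ᶠ x : ℝ in atTop, ρ ≤ |x - u.1| := by
      filter_upwards [eventually_ge_atTop (u.1 + ρ)] with x hx
      exact (by linarith : ρ ≤ x - u.1).trans (le_abs_self _)
    filter_upwards [tendsto_comap.eventually this] with w hw
    exact (hfar w hw).symm
  have hlb : Tendsto φ (comap Prod.fst atBot) (𝓝 (c1 * σ)) := by
    refine Tendsto.congr' ?_ tendsto_const_nhds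
    have : ∀ᶠ x : ℝ in atBot, ρ ≤ |x - u.1| := by
      filter_upwards [eventually_le_atBot (u.1 - ρ)] with x hx
      exact (by linarith : ρ ≤ -(x - u.1)).trans (neg_le_abs _)
    filter_upwards [tendsto_comap.eventually this] with w hw
    exact (hfar w hw).symm
  have hφb : ∀ w, |φ w| ≤ 1 := by
    intro w
    have h1 : 0 ≤ min 1 (dd u w / ρ) := le_min zero_le_one (div_nonneg (dd_nonneg _ _) h0.le)
    have h2 : min 1 (dd u w / ρ) ≤ 1 := min_le_left _ _
    have h3 : 0 ≤ c1 * σ := mul_nonneg hc1p.le hσ0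
    simp only [hφ]
    rw [abs_of_nonneg (mul_nonneg h3 h1)]
    nlinarith
  have hG : ∀ w w' : ℝ × ℝ, ‖w - w'‖ ≤ 1 → |φ w - φ w'| ≤ G f C w w' := by
    refine gauge_symm φ (fun w => dd u w < ρ) hd ?_ ?_
    · intro w w' h1 h2
      rw [hφ1 w (not_lt.1 h1), hφ1 w' (not_lt.1 h2)]
    intro w w' hw hlt
    set δ : ℝ := ‖w - w'‖ with hδ
    have hδ0 : 0 ≤ δ := norm_nonneg _
    have hmin : |φ w - φ w'| ≤ c1 * σ * (min ρ δ / ρ) := by
      have h3 : 0 ≤ c1 * σ := mul_nonneg hc1p.le hσ0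
      have e : φ w - φ w' = c1 * σ * (min 1 (dd u w / ρ) - min 1 (dd u w' / ρ)) := by
        simp only [hφ]; ring
      rw [e, abs_mul, abs_of_nonneg h3]
      refine mul_le_mul_of_nonneg_left ?_ h3
      rw [← min_div_div_right h0.le, div_self h0.ne']
      refine le_min ?_ ?_
      · have a1 : 0 ≤ min 1 (dd u w / ρ) := le_min zero_le_one (div_nonneg (dd_nonneg _ _) h0.le)
        have a2 : 0 ≤ min 1 (dd u w' / ρ) := le_min zero_le_one (div_nonneg (dd_nonneg _ _) h0.le)
        have a3 : min 1 (dd u w / ρ) ≤ 1 := min_le_left _ _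
        have a4 : min 1 (dd u w' / ρ) ≤ 1 := min_le_left _ _
        rw [abs_le]; constructor <;> linarith
      · refine (abs_min_sub_min_le_max _ _ _ _).trans ?_
        rw [sub_self, abs_zero, ← sub_div, abs_div, abs_of_pos h0]
        refine max_le (by positivity) ?_
        exact div_le_div_of_nonneg_right (dd_lip u w w') h0.le
    have hw1 : |w.1 - u.1| < ρ := (le_max_left _ _).trans_lt hlt
    have hw2 : infDist w.2 (Cu u.2) < ρ := (le_max_right _ _).trans_lt hlt
    obtain ⟨z, ⟨k, rfl⟩, hz⟩ := (infDist_lt_iff (Cu_ne _)).1 hw2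
    rw [Real.dist_eq] at hz
    set rw' : ℝ := rr C w.2 with hrw
    have hrr : |rw' - r| < ρ := by
      have h1 := rr_lip C w.2 (u.2 + k)
      rw [rr_per hd k u.2] at h1
      exact h1.trans_lt hz
    rw [abs_lt] at hrr
    have hrw1 : r / 2 ≤ rw' := by linarith
    have hrw2 : rw' ≤ 3 / 2 * r := by linarith
    rcases hδ0.eq_or_lt with hz0 | hδp
    · have : |φ w - φ w'| ≤ 0 := by
        refine hmin.trans ?_
        rw [← hz0, min_eq_right h0.le]; simp
      exact this.trans (G_nonneg hd w w')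
    have hVw : V f u.1 (ρ + r) ≤ K' * V f w.1 (δ + rw') := by
      refine hV w.1 u.1 (δ + rw') (ρ + r) (by linarith) (by linarith) (by linarith) ?_ (by linarith)
        ?_ ?_
      · linarith
      · linarith
      · linarith
    have hVw0 : 0 ≤ V f w.1 (δ + rw') := V_nonneg hd (by linarith)
    have hGh : Gh f C w δ ≤ G f C w w' := by
      unfold G
      rw [← hδ]
      linarith [Gh_nonneg hd w' hδ0]
    refine hmin.trans (le_trans ?_ hGh)
    have hratio : min ρ δ / (ρ + r) * (2 / 5) ≤ δ / (δ + rw') := by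
      by_cases hδr : δ ≤ r
      · have e1 : min ρ δ / (ρ + r) ≤ δ / r :=
          div_le_div₀ hδ0 (min_le_right _ _) hr0 (by linarith)
        have e2 : δ / (5 / 2 * r) ≤ δ / (δ + rw') :=
          div_le_div_of_nonneg_left hδ0 (by linarith) (by linarith)
        have e3 : δ / (5 / 2 * r) = δ / r * (2 / 5) := by field_simp
        rw [e3] at e2
        linarith
      · push Not at hδr
        have e1 : min ρ δ / (ρ + r) ≤ 1 := by
          rw [div_le_one (by linarith)]
          exact (min_le_left _ _).trans (by linarith)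
        have e2 : 2 / 5 ≤ δ / (δ + rw') := by
          rw [div_le_div_iff₀ (by norm_num) (by linarith)]
          linarith
        linarith
    have hm0 : 0 ≤ min ρ δ / (ρ + r) := div_nonneg (le_min h0.le hδ0) (by linarith)
    have hck : c1 * K' ≤ 2 / 5 := by
      rw [hc1, div_mul_eq_mul_div, div_le_div_iff₀ (by positivity) (by norm_num)]
      nlinarith [mul_pos (show 0 < K by linarith) (show 0 < K' by linarith)]
    calc c1 * σ * (min ρ δ / ρ) = c1 * V f u.1 (ρ + r) * (min ρ δ / (ρ + r)) := by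
          rw [hσV]; field_simp
      _ ≤ c1 * (K' * V f w.1 (δ + rw')) * (min ρ δ / (ρ + r)) :=
          mul_le_mul_of_nonneg_right (mul_le_mul_of_nonneg_left hVw hc1p.le) hm0
      _ = (c1 * K') * (V f w.1 (δ + rw') * (min ρ δ / (ρ + r))) := by ring
      _ ≤ (2 / 5) * (V f w.1 (δ + rw') * (min ρ δ / (ρ + r))) :=
          mul_le_mul_of_nonneg_right hck (mul_nonneg hVw0 hm0)
      _ = V f w.1 (δ + rw') * (min ρ δ / (ρ + r) * (2 / 5)) := by ring
      _ ≤ V f w.1 (δ + rw') * (δ / (δ + rw')) := mul_le_mul_of_nonneg_left hratio hVw0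
      _ = Gh f C w δ := rfl
  obtain ⟨Φ, hΦ, hΦv, -, -⟩ := mkPot hPSI hPSC φ _ _ hφc hφp hla hlb hφb hG
  refine ⟨Φ, hΦ, ?_⟩
  rw [hΦv, hΦv]
  have e1 : φ u = 0 := by simp only [hφ]; rw [dd_self]; simp
  have e2 : φ v = c1 * σ := hφ1 v (by rw [dd_eq (by linarith)])
  rw [e1, e2, zero_sub, abs_neg, abs_of_nonneg (mul_nonneg hc1p.le hσ0)]

end Pool.Agent.T6.H52.LS
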