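import Pool.Agent.T6.H52.LS.Defs1

set_option autoImplicit false
open MeasureTheory Filter Topology Metric Set
open scoped ENNReal NNReal

namespace Pool.Agent.T6.H52.LS

namespace ModPRO

lemma floor_div3 (y : ℝ) : ⌊y⌋ / 3 = ⌊y / 3⌋ := by
  have h1 := Int.floor_le (y / 3)
  have h2 := Int.lt_floor_add_one (y / 3)
  have h3 : 3 * ⌊y / 3⌋ ≤ ⌊y⌋ := by
    rw [Int.le_floor]; push_cast; linarith
  have h4 : ⌊y⌋ < 3 * ⌊y / 3⌋ + 3 := by
    rw [Int.floor_lt]; push_cast; linarith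
  omega

lemma fl_succ (n : ℕ) (x : ℝ) : fl (n + 1) x / 3 = fl n x := by
  unfold fl
  rw [floor_div3]
  congr 1
  rw [pow_succ]; ring

lemma fl_div (n : ℕ) (x : ℝ) : fl n x / 3 ^ n = ⌊x⌋ := by
  induction n with
  | zero => simp [fl]
  | succ n ih =>
    rw [pow_succ', ← Int.ediv_ediv_of_nonneg (by norm_num), fl_succ, ih]

lemma div_succ (n : ℕ) (m : ℤ) : m / 3 ^ (n + 1) = (m / 3) / 3 ^ n := by
  rw [pow_succ', ← Int.ediv_ediv_of_nonneg (by norm_num)]

lemma four_le_Mc (j : ℤ) : 4 ≤ Mc j := by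
  unfold Mc
  have : 0 ≤ |(j : ℝ)| := abs_nonneg _
  nlinarith

lemma not_St_zero (m : ℤ) : ¬ St 0 m := by
  unfold St
  have := four_le_Mc (m / 3 ^ 0)
  simp only [Xv]
  linarith

lemma Xv_succ_St {n : ℕ} {m : ℤ} (h : St n (m / 3)) : Xv (n + 1) m = Xv n (m / 3) := by
  unfold St at h
  rw [← div_succ] at h
  simp only [Xv]
  rw [if_pos h]

lemma Xv_succ_not {n : ℕ} {m : ℤ} (h : ¬ St n (m / 3)) :
    Xv (n + 1) m = Xv n (m / 3) * (if m % 3 = 1 then 241 / 81 else 1 / 81) := by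
  unfold St at h
  rw [← div_succ] at h
  simp only [Xv]
  rw [if_neg h]

lemma St_succ {n : ℕ} {m : ℤ} (h : St n (m / 3)) : St (n + 1) m := by
  have h1 := Xv_succ_St h
  unfold St at h ⊢
  rw [h1, div_succ]
  exact h

lemma Xv_pos (n : ℕ) (m : ℤ) : 0 < Xv n m := by
  induction n generalizing m with
  | zero => simp [Xv]
  | succ n ih =>
    by_cases h : St n (m / 3)
    · rw [Xv_succ_St h]; exact ih _
    · rw [Xv_succ_not h]
      have := ih (m / 3)
      split_ifs <;> positivity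

lemma Fs_pos {n : ℕ} {m : ℤ} (h : Fs n m) : ∃ k, n = k + 1 := by
  rcases n with _ | k
  · exact absurd h.1 (not_St_zero m)
  · exact ⟨k, rfl⟩

lemma Xv_le {n : ℕ} {m : ℤ} (h : Fs n m) : Xv n m ≤ 3 * Mc (m / 3 ^ n) := by
  obtain ⟨k, rfl⟩ := Fs_pos h
  have h2 : ¬ St k (m / 3) := h.2
  rw [Xv_succ_not h2, div_succ]
  unfold St at h2
  push Not at h2
  have h3 := Xv_pos k (m / 3)
  split_ifs <;> nlinarith

lemma not_St_le {x : ℝ} {n : ℕ} (h : ¬ St n (fl n x)) : ∀ k ≤ n, ¬ St k (fl k x) := by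
  intro k hk hSt
  apply h
  induction n, hk using Nat.le_induction with
  | base => exact hSt
  | succ n hkn ih =>
    have h1 : St n (fl n x) := by
      by_contra hcon
      exact hcon (ih hcon)
    apply St_succ
    rw [fl_succ]; exact h1

open Classical in
lemma find_Fs {x : ℝ} (h : ∃ n, St n (fl n x)) : Fs (Nat.find h) (fl (Nat.find h) x) := by
  refine ⟨Nat.find_spec h, ?_⟩
  have h1 := Nat.find_spec h
  rcases hn : Nat.find h with _ | k
  · rw [hn] at h1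
    exact absurd h1 (not_St_zero _)
  · have h2 : ¬ St k (fl k x) := Nat.find_min h (by omega)
    rw [fl_succ]
    simpa using h2

open Classical in
lemma find_eq {x : ℝ} {n : ℕ} (h : Fs n (fl n x)) (h' : ∃ n, St n (fl n x)) :
    Nat.find h' = n := by
  rw [Nat.find_eq_iff]
  refine ⟨h.1, ?_⟩
  obtain ⟨k, rfl⟩ := Fs_pos h
  have h2 : ¬ St k (fl k x) := by
    have := h.2
    rw [fl_succ] at this
    simpa using this
  intro i hi
  exact not_St_le h2 i (by omega)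

/-- the value on a stopped interval -/
noncomputable def FF0 (n : ℕ) (x : ℝ) : ℝ :=
  wj ⌊x⌋ * Xv n (fl n x) * (630 * (Int.fract ((3 : ℝ) ^ n * x) *
      (1 - Int.fract ((3 : ℝ) ^ n * x))) ^ 4)

noncomputable def DD0 (n : ℕ) (x : ℝ) : ℝ :=
  min (Int.fract ((3 : ℝ) ^ n * x)) (1 - Int.fract ((3 : ℝ) ^ n * x)) / (3 : ℝ) ^ n

lemma f0_eq {x : ℝ} {n : ℕ} (h : Fs n (fl n x)) : f0 x = FF0 n x := by
  have h' : ∃ n, St n (fl n x) := ⟨n, h.1⟩
  unfold f0
  rw [dif_pos h', find_eq h h']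
  rfl

lemma dl_eq {x : ℝ} {n : ℕ} (h : Fs n (fl n x)) : dl x = DD0 n x := by
  have h' : ∃ n, St n (fl n x) := ⟨n, h.1⟩
  unfold dl
  rw [dif_pos h', find_eq h h']
  rfl

lemma f0_zero {x : ℝ} (h : ∀ n, ¬ Fs n (fl n x)) : f0 x = 0 ∧ dl x = 0 := by
  have h' : ¬ ∃ n, St n (fl n x) := by
    intro hc
    classical
    exact h _ (find_Fs hc)
  unfold f0 dl
  rw [dif_neg h', dif_neg h']
  exact ⟨rfl, rfl⟩

lemma meas_piece (p : ℕ → ℝ → Prop) (F : ℕ → ℝ → ℝ) (g : ℝ → ℝ)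
    (hp : ∀ n, MeasurableSet {x | p n x}) (hF : ∀ n, Measurable (F n))
    (h1 : ∀ n x, p n x → g x = F n x) (h0 : ∀ x, (∀ n, ¬ p n x) → g x = 0) : Measurable g := by
  intro s hs
  have : g ⁻¹' s = (⋃ n, {x | p n x} ∩ F n ⁻¹' s) ∪
      ((⋂ n, {x | p n x}ᶜ) ∩ {_x : ℝ | (0 : ℝ) ∈ s}) := by
    ext x
    simp only [mem_preimage, mem_union, mem_iUnion, mem_inter_iff, mem_iInter, mem_compl_iff]
    by_cases h : ∃ n, p n x
    · obtain ⟨n, hn⟩ := h
      constructor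
      · intro hx
        left
        refine ⟨n, hn, ?_⟩
        rw [← h1 n x hn]; exact hx
      · rintro (⟨k, hk, hx⟩ | ⟨hk, _⟩)
        · rw [h1 k x hk]; exact hx
        · exact absurd hn (hk n)
    · push Not at h
      constructor
      · intro hx
        right
        refine ⟨h, ?_⟩
        rw [h0 x h] at hx
        exact hx
      · rintro (⟨k, hk, _⟩ | ⟨_, hx⟩)
        · exact absurd hk (h k)
        · rw [h0 x h]; exact hx
  rw [this]
  refine MeasurableSet.union (MeasurableSet.iUnion fun n => (hp n).inter (hF n hs))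
    ((MeasurableSet.iInter fun n => (hp n).compl).inter (MeasurableSet.const _))

lemma measurable_fl (n : ℕ) : Measurable (fl n) :=
  Int.measurable_floor.comp (measurable_const_mul _)

lemma meas_Fs (n : ℕ) : MeasurableSet {x | Fs n (fl n x)} :=
  measurable_fl n (MeasurableSet.of_discrete (s := {m | Fs n m}))

lemma meas_FF0 (n : ℕ) : Measurable (FF0 n) := by
  unfold FF0
  have h1 : Measurable (fun x : ℝ => wj ⌊x⌋) :=
    (Measurable.of_discrete (f := wj)).comp Int.measurable_floor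
  have h2 : Measurable (fun x : ℝ => Xv n (fl n x)) :=
    (Measurable.of_discrete (f := Xv n)).comp (measurable_fl n)
  have h3 : Measurable (fun x : ℝ => Int.fract ((3 : ℝ) ^ n * x)) :=
    measurable_fract.comp (measurable_const_mul _)
  fun_prop

lemma meas_DD0 (n : ℕ) : Measurable (DD0 n) := by
  unfold DD0
  have h3 : Measurable (fun x : ℝ => Int.fract ((3 : ℝ) ^ n * x)) :=
    measurable_fract.comp (measurable_const_mul _)
  exact (h3.min (measurable_const.sub h3)).div_const _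

lemma wj_pos (j : ℤ) : 0 < wj j := by unfold wj; positivity

lemma FF0_nonneg (n : ℕ) (x : ℝ) : 0 ≤ FF0 n x := by
  unfold FF0
  have h1 := wj_pos ⌊x⌋
  have h2 := Xv_pos n (fl n x)
  positivity

lemma DD0_nonneg (n : ℕ) (x : ℝ) : 0 ≤ DD0 n x := by
  unfold DD0
  have h1 := Int.fract_nonneg ((3 : ℝ) ^ n * x)
  have h2 := (Int.fract_lt_one ((3 : ℝ) ^ n * x)).le
  exact div_nonneg (le_min h1 (by linarith)) (by positivity)

lemma FF0_bound {n : ℕ} {x : ℝ} (h : Fs n (fl n x)) : FF0 n x * (1 + |x|) ^ 2 ≤ 1000 := by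
  unfold FF0
  have hX := Xv_le h
  have hX0 := Xv_pos n (fl n x)
  rw [fl_div] at hX
  have ht0 := Int.fract_nonneg ((3 : ℝ) ^ n * x)
  have ht1 := (Int.fract_lt_one ((3 : ℝ) ^ n * x)).le
  generalize Int.fract ((3 : ℝ) ^ n * x) = t at ht0 ht1 ⊢
  generalize Xv n (fl n x) = Z at hX hX0 ⊢
  have hx : 1 + |x| ≤ 2 * (1 + |(⌊x⌋ : ℝ)|) := by
    have h1 := Int.floor_le x
    have h2 := Int.lt_floor_add_one x
    have h3 : |x| ≤ |(⌊x⌋ : ℝ)| + 1 := by
      have h4 : |x| ≤ |(⌊x⌋ : ℝ)| + |x - ⌊x⌋| := by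
        have := abs_add_le (⌊x⌋ : ℝ) (x - ⌊x⌋)
        simpa using this
      have h5 : |x - ⌊x⌋| ≤ 1 := by rw [abs_le]; constructor <;> linarith
      linarith
    have := abs_nonneg (⌊x⌋ : ℝ)
    linarith
  have ha0 : 0 ≤ |(⌊x⌋ : ℝ)| := abs_nonneg _
  have hx0 : 0 ≤ |x| := abs_nonneg _
  unfold Mc at hX
  unfold wj
  generalize |(⌊x⌋ : ℝ)| = a at hX hx ha0 ⊢
  generalize |x| = b at hx hx0 ⊢
  have ht : t * (1 - t) ≤ 1 / 4 := by nlinarith [sq_nonneg (t - 1 / 2)]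
  have ht' : 0 ≤ t * (1 - t) := mul_nonneg ht0 (by linarith)
  have ht4 : (t * (1 - t)) ^ 4 ≤ (1 / 4) ^ 4 := pow_le_pow_left₀ ht' ht 4
  have hb2 : (1 + b) ^ 2 ≤ (2 * (1 + a)) ^ 2 := pow_le_pow_left₀ (by linarith) hx 2
  have hA : 0 < 1 + a := by linarith
  calc 1 / (1 + a) ^ 4 * Z * (630 * (t * (1 - t)) ^ 4) * (1 + b) ^ 2
      ≤ 1 / (1 + a) ^ 4 * (3 * (4 * (1 + a) ^ 2)) * (630 * (1 / 4) ^ 4) * (2 * (1 + a)) ^ 2 := by
        gcongr
    _ = 3 * 4 * 630 * (1 / 4) ^ 4 * 4 := by field_simp; ring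
    _ ≤ 1000 := by norm_num

end ModPRO

open ModPRO in
theorem mPRO : StmPRO := by
  refine ⟨?_, fun x h => f0_zero h, ?_, ?_, ?_, ?_, ?_, ?_, ?_, ?_, ?_⟩
  · intro n m u hF hu0 hu1
    have h3 : (3 : ℝ) ^ n * ((m + u) / 3 ^ n) = m + u := by field_simp
    have hfl : fl n ((m + u) / 3 ^ n) = m := by
      unfold fl
      rw [h3, Int.floor_intCast_add, Int.floor_eq_zero_iff.2 ⟨hu0, hu1⟩, add_zero]
    have hfr : Int.fract ((3 : ℝ) ^ n * ((m + u) / 3 ^ n)) = u := by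
      rw [h3, Int.fract_intCast_add]
      exact Int.fract_eq_self.2 ⟨hu0, hu1⟩
    have hfloor : ⌊((m : ℝ) + u) / 3 ^ n⌋ = m / 3 ^ n := by
      rw [← fl_div n, hfl]
    have hF' : Fs n (fl n ((m + u) / 3 ^ n)) := by rw [hfl]; exact hF
    constructor
    · rw [f0_eq hF']
      unfold FF0
      rw [hfr, hfl, hfloor]
    · rw [dl_eq hF']
      unfold DD0
      rw [hfr]
  · intro n n' x h h'
    classical
    have hex : ∃ n, St n (fl n x) := ⟨n, h.1⟩
    rw [← find_eq h hex, ← find_eq h' hex]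
  · intro n m h
    refine ⟨Xv_pos n m, ?_⟩
    unfold St at h
    push Not at h
    exact h
  · intro n m h
    exact ⟨h.1, Xv_le h⟩
  · intro n m
    constructor
    · intro h
      by_cases h1 : St n (m / 3)
      · left; exact h1
      · right; exact ⟨h, h1⟩
    · rintro (h | h)
      · exact St_succ h
      · exact h.1
  · exact meas_piece (fun n x => Fs n (fl n x)) FF0 f0 meas_Fs meas_FF0
      (fun n x h => f0_eq h) (fun x h => (f0_zero h).1)
  · exact meas_piece (fun n x => Fs n (fl n x)) DD0 dl meas_Fs meas_DD0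
      (fun n x h => dl_eq h) (fun x h => (f0_zero h).2)
  · intro x
    by_cases h : ∃ n, Fs n (fl n x)
    · obtain ⟨n, hn⟩ := h
      rw [f0_eq hn]; exact FF0_nonneg n x
    · push Not at h
      rw [(f0_zero h).1]
  · intro x
    by_cases h : ∃ n, Fs n (fl n x)
    · obtain ⟨n, hn⟩ := h
      rw [dl_eq hn]; exact DD0_nonneg n x
    · push Not at h
      rw [(f0_zero h).2]
  · intro x
    by_cases h : ∃ n, Fs n (fl n x)
    · obtain ⟨n, hn⟩ := h
      rw [f0_eq hn]; exact FF0_bound hn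
    · push Not at h
      rw [(f0_zero h).1]
      norm_num

end Pool.Agent.T6.H52.LS
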