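import Pool.Agent.T6.H52.LS.Defs2

/-!
Project LS (helper52), MP_0f1fb3_an, module PSC: continuous functions on the sphere (helper73).
-/

set_option autoImplicit false
open MeasureTheory Filter Topology Metric Set
open scoped ENNReal NNReal

namespace Pool.Agent.T6.H52.LS

namespace ModPSC

/-- the height -/
def ht (p : S2) : ℝ := p.1 2

lemma ht_cont : Continuous ht := by
  unfold ht
  fun_prop

/-- the height of the point with the first coordinate `x` -/
noncomputable def sg (x : ℝ) : ℝ := Real.sin (Real.arctan x)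

lemma sg_lt {x y : ℝ} (h : x < y) : sg x < sg y :=
  Real.sin_lt_sin_of_lt_of_le_pi_div_two (by linarith [Real.neg_pi_div_two_lt_arctan x])
    (Real.arctan_lt_pi_div_two y).le (Real.arctan_strictMono h)

lemma sg_lt_iff {x y : ℝ} : sg x < sg y ↔ x < y :=
  ⟨fun h => by
    by_contra h'
    rcases (not_lt.1 h').lt_or_eq with h2 | h2
    · exact absurd h (not_lt.2 (sg_lt h2).le)
    · rw [h2] at h
      exact lt_irrefl _ h, sg_lt⟩

lemma sg_neg (x : ℝ) : sg (-x) = - sg x := by
  simp [sg, Real.arctan_neg, Real.sin_neg]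

lemma sg_lt_one (x : ℝ) : sg x < 1 := by
  have h := sg_lt (lt_add_one x)
  exact h.trans_le (Real.sin_le_one _)

lemma neg_one_lt_sg (x : ℝ) : -1 < sg x := by
  have h := sg_lt (sub_one_lt x)
  exact (Real.neg_one_le_sin _).trans_lt h

lemma ht_Psi (u : ℝ × ℝ) : ht (Psi u) = sg u.1 := by
  rw [sg, Real.sin_arctan]
  simp only [ht, Psi]
  simp
  ring

lemma ht_NN : ht NN = 1 := by
  simp [ht, NN]

lemma ht_SS : ht SS = -1 := by
  simp [ht, SS]

end ModPSC

open ModPSC in
theorem mPSC (hPSI : StmPSI) : StmPSC := by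
  classical
  obtain ⟨hcont, hiff, hN, hS, hNS, hsurj, -, -⟩ := hPSI
  intro φ a b hφ hper ha hb
  -- periodicity
  have hperk : ∀ (x y : ℝ) (k : ℤ), φ (x, y + k) = φ (x, y) := by
    intro x y k
    have h1 : Function.Periodic (fun y => φ (x, y)) 1 := fun y => hper x y
    have h2 := h1.int_mul k y
    simpa using h2
  have hφeq : ∀ u v, Psi u = Psi v → φ u = φ v := by
    intro u v h
    obtain ⟨h1, k, hk⟩ := (hiff u v).1 h
    have h2 : u = (v.1, v.2 + k) := by
      ext
      · exact h1
      · show u.2 = v.2 + k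
        linarith
    rw [h2, hperk]
  let Φ : S2 → ℝ := fun p => if p = NN then a else if p = SS then b else
    if h : ∃ u, Psi u = p then φ h.choose else 0
  have hΦN : Φ NN = a := if_pos rfl
  have hΦS : Φ SS = b := by
    show (if SS = NN then a else if SS = SS then b else _) = b
    rw [if_neg (Ne.symm hNS), if_pos rfl]
  have hΦP : ∀ u, Φ (Psi u) = φ u := by
    intro u
    have hex : ∃ v, Psi v = Psi u := ⟨u, rfl⟩
    show (if Psi u = NN then a else if Psi u = SS then b else
      if h : ∃ v, Psi v = Psi u then φ h.choose else 0) = φ u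
    rw [if_neg (hN u), if_neg (hS u), dif_pos hex]
    exact hφeq _ _ hex.choose_spec
  refine ⟨Φ, ?_, hΦP, hΦN, hΦS⟩
  rw [continuous_iff_continuousAt]
  intro p
  rcases hsurj p with rfl | rfl | ⟨u, rfl⟩
  · -- the north pole
    rw [ContinuousAt, hΦN]
    intro W hW
    have h1 := ha hW
    rw [mem_map, mem_comap] at h1
    obtain ⟨t, ht1, ht2⟩ := h1
    rw [mem_atTop_sets] at ht1
    obtain ⟨M, hM⟩ := ht1
    have hopen : IsOpen {q : S2 | sg M < ht q} := isOpen_lt continuous_const ht_cont
    have hmem : NN ∈ {q : S2 | sg M < ht q} := by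
      show sg M < ht NN
      rw [ht_NN]
      exact sg_lt_one M
    rw [mem_map]
    refine mem_of_superset (hopen.mem_nhds hmem) ?_
    intro q hq
    have hq' : sg M < ht q := hq
    show Φ q ∈ W
    rcases hsurj q with rfl | rfl | ⟨v, rfl⟩
    · rw [hΦN]
      exact mem_of_mem_nhds hW
    · rw [ht_SS] at hq'
      exact absurd hq' (not_lt.2 (neg_one_lt_sg M).le)
    · rw [hΦP]
      rw [ht_Psi, sg_lt_iff] at hq'
      exact ht2 (hM v.1 hq'.le)
  · -- the south pole
    rw [ContinuousAt, hΦS]
    intro W hW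
    have h1 := hb hW
    rw [mem_map, mem_comap] at h1
    obtain ⟨t, ht1, ht2⟩ := h1
    rw [mem_atBot_sets] at ht1
    obtain ⟨M, hM⟩ := ht1
    have hopen : IsOpen {q : S2 | ht q < sg M} := isOpen_lt ht_cont continuous_const
    have hmem : SS ∈ {q : S2 | ht q < sg M} := by
      show ht SS < sg M
      rw [ht_SS]
      exact neg_one_lt_sg M
    rw [mem_map]
    refine mem_of_superset (hopen.mem_nhds hmem) ?_
    intro q hq
    have hq' : ht q < sg M := hq
    show Φ q ∈ W
    rcases hsurj q with rfl | rfl | ⟨v, rfl⟩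
    · rw [ht_NN] at hq'
      exact absurd hq' (not_lt.2 (sg_lt_one M).le)
    · rw [hΦS]
      exact mem_of_mem_nhds hW
    · rw [hΦP]
      rw [ht_Psi, sg_lt_iff] at hq'
      exact ht2 (hM v.1 hq'.le)
  · -- the other points
    set M : ℝ := |u.1| + 1 with hM
    let S : Set S2 := {q | |ht q| ≤ sg M}
    let Kc : Set (ℝ × ℝ) := Icc (-M) M ×ˢ Icc 0 1
    have hK : IsCompact Kc := isCompact_Icc.prod isCompact_Icc
    have hSnhds : S ∈ 𝓝 (Psi u) := by
      have hopen : IsOpen {q : S2 | |ht q| < sg M} := isOpen_lt ht_cont.abs continuous_const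
      refine mem_of_superset (hopen.mem_nhds ?_) fun q (hq : |ht q| < sg M) => hq.le
      show |ht (Psi u)| < sg M
      rw [ht_Psi, abs_lt, ← sg_neg, sg_lt_iff, sg_lt_iff]
      constructor
      · linarith [neg_abs_le u.1]
      · linarith [le_abs_self u.1]
    have hcover : ∀ q ∈ S, ∃ v ∈ Kc, Psi v = q := by
      intro q hq
      have hq' : |ht q| ≤ sg M := hq
      rcases hsurj q with rfl | rfl | ⟨v, rfl⟩
      · rw [ht_NN, abs_one] at hq'
        exact absurd hq' (not_le.2 (sg_lt_one M))
      · rw [ht_SS, abs_neg, abs_one] at hq'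
        exact absurd hq' (not_le.2 (sg_lt_one M))
      · refine ⟨(v.1, Int.fract v.2), ⟨?_, ?_⟩, ?_⟩
        · rw [ht_Psi, abs_le, ← sg_neg] at hq'
          constructor
          · by_contra h
            exact absurd hq'.1 (not_le.2 (sg_lt (not_le.1 h)))
          · by_contra h
            exact absurd hq'.2 (not_le.2 (sg_lt (not_le.1 h)))
        · exact ⟨Int.fract_nonneg _, (Int.fract_lt_one _).le⟩
        · rw [hiff]
          refine ⟨rfl, -⌊v.2⌋, ?_⟩
          show Int.fract v.2 - v.2 = ((-⌊v.2⌋ : ℤ) : ℝ)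
          rw [← Int.self_sub_floor]
          push_cast
          ring
    have hcon : ContinuousOn Φ S := by
      rw [continuousOn_iff_isClosed]
      intro t ht
      refine ⟨Psi '' (Kc ∩ φ ⁻¹' t), ?_, ?_⟩
      · exact ((hK.inter_right (ht.preimage hφ)).image hcont).isClosed
      · ext q
        constructor
        · rintro ⟨hq1, hq2⟩
          obtain ⟨v, hv1, rfl⟩ := hcover q hq2
          have hq1' : Φ (Psi v) ∈ t := hq1
          rw [hΦP] at hq1'
          exact ⟨⟨v, ⟨hv1, hq1'⟩, rfl⟩, hq2⟩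
        · rintro ⟨⟨v, ⟨hv1, hv2⟩, rfl⟩, hq2⟩
          refine ⟨?_, hq2⟩
          show Φ (Psi v) ∈ t
          rw [hΦP]
          exact hv2
    exact hcon.continuousAt hSnhds

end Pool.Agent.T6.H52.LS
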