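import Pool.Agent.T6.H52.LS.DB

/-!
Module SEGH: horizontal segments.
-/

set_option autoImplicit false
open MeasureTheory Filter Topology Metric Set
open scoped ENNReal NNReal

namespace Pool.Agent.T6.H52.LS

namespace ModSEGH

variable {f : ℝ → ℝ} {C : Set ℝ} {Y : ℝ → ℝ → ℝ} {K : ℝ}

lemma per_int (h : Dat f C Y K) (n : ℤ) (y : ℝ) : y + n ∈ C ↔ y ∈ C := by
  induction n using Int.induction_on with
  | zero => simp
  | succ n ih =>
    push_cast at ih ⊢
    rw [← add_assoc, h.per, ih]
  | pred n ih =>
    push_cast at ih ⊢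
    rw [← h.per, show y + (-(n : ℝ) - 1) + 1 = y + -(n : ℝ) by ring, ih]

lemma rr_le (h : Dat f C Y K) (y : ℝ) : rr C y ≤ 1 / 2 := by
  obtain ⟨c₀, hc₀⟩ := h.ne
  have h1 : c₀ + (round (y - c₀) : ℤ) ∈ C := (per_int h _ _).2 hc₀
  have h2 : rr C y ≤ dist y (c₀ + (round (y - c₀) : ℤ)) := infDist_le_dist_of_mem h1
  rw [Real.dist_eq] at h2
  have h3 := abs_sub_round (y - c₀)
  have h4 : y - (c₀ + (round (y - c₀) : ℤ)) = y - c₀ - (round (y - c₀) : ℤ) := by ring
  rw [h4] at h2
  linarith

lemma rr_nonneg (y : ℝ) : 0 ≤ rr C y := infDist_nonneg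

lemma rr_pos (h : Dat f C Y K) {y : ℝ} (hy : y ∉ C) : 0 < rr C y :=
  (h.closed.notMem_iff_infDist_pos h.ne).1 hy

lemma V_cont (h : Dat f C Y K) : Continuous fun p : ℝ × ℝ => V f p.1 p.2 := by
  have h1 : Continuous fun b => ∫ s in (0 : ℝ)..b, f s :=
    intervalIntegral.continuous_primitive (ModDB.ii h) 0
  have h2 : (fun p : ℝ × ℝ => V f p.1 p.2) = fun p : ℝ × ℝ =>
      (∫ s in (0 : ℝ)..(p.1 + p.2), f s) - ∫ s in (0 : ℝ)..(p.1 - p.2), f s := by
    funext p
    unfold V
    rw [intervalIntegral.integral_interval_sub_left (ModDB.ii h _ _) (ModDB.ii h _ _)]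
  rw [h2]
  exact (h1.comp (by fun_prop)).sub (h1.comp (by fun_prop))

lemma om_nonneg (h : Dat f C Y K) (u : ℝ × ℝ) : 0 ≤ om f C u :=
  div_nonneg (ModDB.V_nonneg h (rr_nonneg _)) (rr_nonneg _)

end ModSEGH

open ModSEGH in
theorem mSEGH (hDB : StmDB) : StmSEGH := by
  intro f C Y K h X _ P N S c hM
  obtain ⟨K₂, hK₂, h2⟩ := (hDB f C Y K h).2.1 2 (by norm_num)
  refine ⟨2 * K₂, by linarith, ?_⟩
  intro y s t hy
  have hr := rr_pos h hy
  have hr2 := rr_le h y
  have hcont : Continuous fun x => om f C (x, y) := by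
    have h0 : Continuous fun x : ℝ => V f x (rr C y) :=
      (V_cont h).comp (show Continuous fun x : ℝ => (x, rr C y) by fun_prop)
    exact h0.div_const (rr C y)
  have hcont2 : Continuous fun x => 2 * K₂ * om f C (x, y) := hcont.const_mul _
  -- short segments
  have hshort : ∀ s t : ℝ, s ≤ t → t - s ≤ rr C y →
      dist (P (s, y)) (P (t, y)) ≤ ∫ x in s..t, 2 * K₂ * om f C (x, y) := by
    intro s t hst hts
    rcases eq_or_lt_of_le hst with hst' | hst'
    · rw [hst', dist_self, intervalIntegral.integral_same]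
    have hn : ‖((s, y) : ℝ × ℝ) - (t, y)‖ = t - s := by
      rw [Prod.norm_def]
      simp only [Prod.fst_sub, Prod.snd_sub, sub_self, norm_zero, Real.norm_eq_abs]
      rw [abs_sub_comm, abs_of_pos (by linarith)]
      exact max_eq_left (by linarith)
    have hup := hM.up (s, y) (t, y) (by rw [hn]; linarith)
    unfold G Gh at hup
    rw [hn] at hup
    have hpt : ∀ x ∈ Icc s t, dist (P (s, y)) (P (t, y)) ≤ (t - s) * (2 * K₂ * om f C (x, y)) := by
      intro x hx
      have hV := ModDB.V_nonneg h (x := x) hr.le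
      have h3 := h2 x s (rr C y) (t - s + rr C y) hr (by linarith) (by linarith) (by linarith)
        (by linarith) (by rw [abs_of_nonneg (by linarith [hx.1])]; linarith [hx.2])
        (by rw [abs_of_nonneg (by linarith [hx.1])]; linarith [hx.2])
      have h4 := h2 x t (rr C y) (t - s + rr C y) hr (by linarith) (by linarith) (by linarith)
        (by linarith) (by rw [abs_sub_comm, abs_of_nonneg (by linarith [hx.2])]; linarith [hx.1])
        (by rw [abs_sub_comm, abs_of_nonneg (by linarith [hx.2])]; linarith [hx.1])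
      have h5 : (t - s) / (t - s + rr C y) ≤ (t - s) / rr C y := by
        apply div_le_div_of_nonneg_left (by linarith) hr
        linarith
      have h6 : 0 ≤ (t - s) / (t - s + rr C y) := by
        apply div_nonneg <;> linarith
      have h7 : V f s (t - s + rr C y) * ((t - s) / (t - s + rr C y)) ≤
          (K₂ * V f x (rr C y)) * ((t - s) / rr C y) := by
        apply mul_le_mul h3 h5 h6
        positivity
      have h8 : V f t (t - s + rr C y) * ((t - s) / (t - s + rr C y)) ≤
          (K₂ * V f x (rr C y)) * ((t - s) / rr C y) := by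
        apply mul_le_mul h4 h5 h6
        positivity
      refine le_trans (hup.trans (add_le_add h7 h8)) (le_of_eq ?_)
      unfold om
      dsimp only
      ring
    have hint : (t - s) * dist (P (s, y)) (P (t, y)) ≤
        (t - s) * ∫ x in s..t, 2 * K₂ * om f C (x, y) := by
      have h3 : ∫ _x in s..t, dist (P (s, y)) (P (t, y)) ≤
          ∫ x in s..t, (t - s) * (2 * K₂ * om f C (x, y)) := by
        apply intervalIntegral.integral_mono_on hst
        · exact intervalIntegrable_const
        · exact (hcont2.const_mul _).intervalIntegrable _ _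
        · exact hpt
      rw [intervalIntegral.integral_const, intervalIntegral.integral_const_mul, smul_eq_mul] at h3
      exact h3
    exact le_of_mul_le_mul_left hint (by linarith)
  have hlong : ∀ n : ℕ, ∀ s t : ℝ, s ≤ t → t - s ≤ n * rr C y →
      dist (P (s, y)) (P (t, y)) ≤ ∫ x in s..t, 2 * K₂ * om f C (x, y) := by
    intro n
    induction n with
    | zero =>
      intro s t hst hts
      apply hshort s t hst
      rw [Nat.cast_zero, zero_mul] at hts
      linarith
    | succ n ih =>
      intro s t hst hts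
      by_cases h3 : t - s ≤ rr C y
      · exact hshort s t hst h3
      · push Not at h3
        have h4 := ih s (t - rr C y) (by linarith) (by push_cast at hts; linarith)
        have h5 := hshort (t - rr C y) t (by linarith) (by linarith)
        have h6 := intervalIntegral.integral_add_adjacent_intervals
          (hcont2.intervalIntegrable s (t - rr C y)) (hcont2.intervalIntegrable (t - rr C y) t)
          (μ := volume)
        have h7 := dist_triangle (P (s, y)) (P (t - rr C y, y)) (P (t, y))
        linarith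
  intro hst
  refine ⟨hcont.integrableOn_Icc, ?_⟩
  obtain ⟨n, hn⟩ := exists_nat_ge ((t - s) / rr C y)
  apply hlong n s t hst
  rwa [div_le_iff₀ hr] at hn

end Pool.Agent.T6.H52.LS
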