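import Pool.Agent.T6.H52.LS.SEGH

/-!
Module SEGV: vertical segments.
-/

set_option autoImplicit false
open MeasureTheory Filter Topology Metric Set
open scoped ENNReal NNReal

namespace Pool.Agent.T6.H52.LS

namespace ModSEGV

variable {f : ℝ → ℝ} {C : Set ℝ} {Y : ℝ → ℝ → ℝ} {K : ℝ}

lemma V_le (h : Dat f C Y K) {x r : ℝ} (hr : 0 ≤ r) : V f x r ≤ 2 * K * r := by
  unfold V
  have h1 : ∫ s in (x - r)..(x + r), f s ≤ ∫ _s in (x - r)..(x + r), K :=
    intervalIntegral.integral_mono_on (by linarith) (ModDB.ii h _ _) intervalIntegrable_const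
      (fun s _ => ModDB.f_le h s)
  rw [intervalIntegral.integral_const, smul_eq_mul] at h1
  linarith

lemma om_le (h : Dat f C Y K) (u : ℝ × ℝ) : om f C u ≤ 2 * K := by
  unfold om
  have hK := h.one_le
  rcases eq_or_lt_of_le (ModSEGH.rr_nonneg (C := C) u.2) with h1 | h1
  · rw [← h1, div_zero]
    linarith
  · rw [div_le_iff₀ h1]
    exact V_le h h1.le

lemma om_meas (h : Dat f C Y K) (x : ℝ) : Measurable fun y => om f C (x, y) := by
  have h1 : Continuous fun y : ℝ => rr C y := continuous_infDist_pt C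
  have h0 : Continuous fun y : ℝ => V f x (rr C y) :=
    (ModSEGH.V_cont h).comp (show Continuous fun y : ℝ => (x, rr C y) by fun_prop)
  exact h0.measurable.div h1.measurable

lemma om_int (h : Dat f C Y K) (x a b : ℝ) :
    IntegrableOn (fun y => om f C (x, y)) (Icc a b) := by
  apply Measure.integrableOn_of_bounded (M := 2 * K)
  · exact measure_Icc_lt_top.ne
  · exact (om_meas h x).aestronglyMeasurable
  · refine Eventually.of_forall fun y => ?_
    rw [Real.norm_eq_abs, abs_of_nonneg (ModSEGH.om_nonneg h _)]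
    exact om_le h _

lemma om_ii (h : Dat f C Y K) (x a b : ℝ) :
    IntervalIntegrable (fun y => om f C (x, y)) volume a b := by
  rw [intervalIntegrable_iff]
  exact (om_int h x (min a b) (max a b)).mono_set Ioc_subset_Icc_self

lemma low (h : Dat f C Y K) {x s t a b w : ℝ} (h1 : s ≤ a) (h2 : a ≤ b) (h3 : b ≤ t)
    (hw : ∀ y ∈ Icc a b, w ≤ om f C (x, y)) : (b - a) * w ≤ ∫ y in s..t, om f C (x, y) := by
  calc (b - a) * w = ∫ _y in a..b, w := by rw [intervalIntegral.integral_const, smul_eq_mul]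
    _ ≤ ∫ y in a..b, om f C (x, y) :=
        intervalIntegral.integral_mono_on h2 intervalIntegrable_const (om_ii h x a b) hw
    _ ≤ ∫ y in s..t, om f C (x, y) :=
        intervalIntegral.integral_mono_interval h1 h2 h3
          (Eventually.of_forall fun y => ModSEGH.om_nonneg h _) (om_ii h x s t)

lemma rr_lip (y z : ℝ) : |rr C y - rr C z| ≤ |y - z| := by
  have h1 : rr C y ≤ rr C z + dist y z := infDist_le_infDist_add_dist
  have h2 : rr C z ≤ rr C y + dist z y := infDist_le_infDist_add_dist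
  rw [Real.dist_eq] at h1 h2
  rw [abs_sub_comm z y] at h2
  rw [abs_le]
  constructor <;> linarith

/-- the bound for one end -/
lemma key (h : Dat f C Y K) (K₂ K₃ : ℝ) (hK₂ : 1 ≤ K₂) (hK₃ : 1 ≤ K₃)
    (h2 : ∀ x x' r r' : ℝ, 0 < r → r ≤ 4 → 0 ≤ r' → r' ≤ 3 * r →
      r' ≤ 8 → |x - x'| ≤ 3 * r → |x - x'| ≤ 8 → V f x' r' ≤ K₂ * V f x r)
    (h3 : ∀ x x' r r' : ℝ, 0 < r → r ≤ 4 → 0 ≤ r' → r' ≤ 12 * K * r →
      r' ≤ 8 → |x - x'| ≤ 12 * K * r → |x - x'| ≤ 8 → V f x' r' ≤ K₃ * V f x r)
    (x s t z : ℝ) (hst : s < t) (hts : t ≤ s + 1) (hz : z ∈ Icc s t) :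
    Gh f C (x, z) (t - s) ≤ (2 * K₂ + 12 * K * K₃) * ∫ y in s..t, om f C (x, y) := by
  have hK := h.one_le
  have hI0 : 0 ≤ ∫ y in s..t, om f C (x, y) :=
    intervalIntegral.integral_nonneg hst.le (fun y _ => ModSEGH.om_nonneg h _)
  have hrz := ModSEGH.rr_nonneg (C := C) z
  have hrz2 := ModSEGH.rr_le h z
  obtain ⟨I, hI⟩ : ∃ I, I = ∫ y in s..t, om f C (x, y) := ⟨_, rfl⟩
  obtain ⟨δ, hδ⟩ : ∃ δ, δ = t - s := ⟨_, rfl⟩
  have hδ0 : 0 < δ := by linarith
  have hδ1 : δ ≤ 1 := by linarith
  have hlip : ∀ y ∈ Icc s t, |rr C y - rr C z| ≤ δ := by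
    intro y hy
    refine le_trans (rr_lip y z) ?_
    rw [abs_le]
    constructor <;> linarith [hy.1, hy.2, hz.1, hz.2]
  rw [← hI] at hI0 ⊢
  rw [← hδ]
  unfold Gh
  dsimp only
  by_cases hcase : 2 * δ ≤ rr C z
  · -- far from the wires
    have hr0 : 0 < rr C z := by linarith
    have hVz := ModDB.V_nonneg h (x := x) (r := rr C z / 2) (by linarith)
    have h4 : δ * (V f x (rr C z / 2) / (2 * rr C z)) ≤ I := by
      rw [hI, hδ]
      apply low h (le_refl s) hst.le (le_refl t)
      intro y hy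
      have h5 := abs_le.1 (hlip y hy)
      have h6 : rr C z / 2 ≤ rr C y := by linarith [h5.1]
      have h7 : rr C y ≤ 2 * rr C z := by linarith [h5.2]
      unfold om
      dsimp only
      apply div_le_div₀ (ModDB.V_nonneg h (by linarith)) _ (by linarith) h7
      exact ModDB.V_mono' h (by linarith) h6
    have h5 : V f x (δ + rr C z) ≤ K₂ * V f x (rr C z / 2) := by
      apply h2 x x (rr C z / 2) (δ + rr C z) (by linarith) (by linarith) (by linarith)
        (by linarith) (by linarith)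
      · rw [sub_self, abs_zero]; linarith
      · rw [sub_self, abs_zero]; norm_num
    have h6 : δ / (δ + rr C z) ≤ δ / rr C z := by
      apply div_le_div_of_nonneg_left (by linarith) hr0
      linarith
    have h7 : V f x (δ + rr C z) * (δ / (δ + rr C z)) ≤
        (K₂ * V f x (rr C z / 2)) * (δ / rr C z) := by
      apply mul_le_mul h5 h6
      · positivity
      · positivity
    have h8 : (K₂ * V f x (rr C z / 2)) * (δ / rr C z) =
        2 * K₂ * (δ * (V f x (rr C z / 2) / (2 * rr C z))) := by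
      field_simp
    rw [h8] at h7
    have h9 : 2 * K₂ * (δ * (V f x (rr C z / 2) / (2 * rr C z))) ≤ 2 * K₂ * I :=
      mul_le_mul_of_nonneg_left h4 (by linarith)
    have h10 : 0 ≤ 12 * K * K₃ * I := by positivity
    linarith
  · -- close to the wires
    push Not at hcase
    obtain ⟨w, hw1, hw2⟩ := h.por ((s + t) / 2) (δ / 2) (by linarith) (by linarith)
    have hw1' := abs_le.1 hw1
    have hws : s ≤ w := by linarith [hw1'.1]
    have hwt : w ≤ t := by linarith [hw1'.2]
    obtain ⟨κ, hκ⟩ : ∃ κ : ℝ, κ = 1 / (4 * K) := ⟨_, rfl⟩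
    have hκ0 : 0 < κ := by
      rw [hκ]
      positivity
    have hκK : κ * (4 * K) = 1 := by
      rw [hκ]
      field_simp
    have hκ4 : κ ≤ 1 / 4 := by
      rw [hκ]
      apply div_le_div_of_nonneg_left (by norm_num) (by norm_num)
      linarith
    have hrw : 2 * (κ * δ) ≤ rr C w := by
      have h4 : κ * (δ / 2) ≤ κ * (K * rr C w) := mul_le_mul_of_nonneg_left hw2 hκ0.le
      nlinarith
    have hκδ : 0 < κ * δ := by positivity
    have hκδ4 : κ * δ ≤ δ / 4 := by nlinarith
    have hVκ := ModDB.V_nonneg h (x := x) (r := κ * δ) hκδ.le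
    -- the interval
    obtain ⟨a, ha1, ha2, ha3⟩ : ∃ a : ℝ, s ≤ a ∧ a + κ * δ ≤ t ∧
        ∀ y ∈ Icc a (a + κ * δ), |y - w| ≤ κ * δ := by
      by_cases hmid : w ≤ (s + t) / 2
      · refine ⟨w, hws, by linarith, ?_⟩
        intro y hy
        rw [abs_le]
        constructor <;> linarith [hy.1, hy.2]
      · push Not at hmid
        refine ⟨w - κ * δ, by linarith, by linarith, ?_⟩
        intro y hy
        rw [abs_le]
        constructor <;> linarith [hy.1, hy.2]
    have h4 : (κ * δ) * (V f x (κ * δ) / (3 * δ)) ≤ I := by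
      rw [hI]
      have h5 := low h (x := x) (w := V f x (κ * δ) / (3 * δ)) ha1
        (show a ≤ a + κ * δ by linarith) ha2 ?_
      · rwa [add_sub_cancel_left] at h5
      intro y hy
      have h5 := abs_le.1 ((rr_lip (C := C) y w).trans (ha3 y hy))
      have h6 : κ * δ ≤ rr C y := by linarith [h5.1]
      have h7 := abs_le.1 (hlip y ⟨by linarith [hy.1], by linarith [hy.2]⟩)
      have h8 : rr C y ≤ 3 * δ := by linarith [h7.2]
      unfold om
      dsimp only
      apply div_le_div₀ (ModDB.V_nonneg h (by linarith)) _ (by linarith) h8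
      exact ModDB.V_mono' h hκδ.le h6
    have h5 : V f x (3 * δ) ≤ K₃ * V f x (κ * δ) := by
      apply h3 x x (κ * δ) (3 * δ) hκδ (by linarith) (by linarith)
      · have : 12 * K * (κ * δ) = 3 * δ * (κ * (4 * K)) := by ring
        rw [this, hκK, mul_one]
      · linarith
      · rw [sub_self, abs_zero]; positivity
      · rw [sub_self, abs_zero]; norm_num
    have h6 : V f x (δ + rr C z) ≤ V f x (3 * δ) :=
      ModDB.V_mono' h (by linarith) (by linarith)
    have h7 : δ / (δ + rr C z) ≤ 1 := by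
      rw [div_le_one (by linarith)]
      linarith
    have h8 : V f x (δ + rr C z) * (δ / (δ + rr C z)) ≤ (K₃ * V f x (κ * δ)) * 1 := by
      apply mul_le_mul (h6.trans h5) h7
      · positivity
      · positivity
    have h9 : V f x (κ * δ) * κ = 3 * ((κ * δ) * (V f x (κ * δ) / (3 * δ))) := by
      field_simp
    have h10 : V f x (κ * δ) ≤ 12 * K * I := by
      have h11 : V f x (κ * δ) * κ ≤ 3 * I := by
        rw [h9]
        linarith
      have h12 : V f x (κ * δ) * κ * (4 * K) ≤ 3 * I * (4 * K) :=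
        mul_le_mul_of_nonneg_right h11 (by linarith)
      have h13 : V f x (κ * δ) * κ * (4 * K) = V f x (κ * δ) := by
        rw [mul_assoc, hκK, mul_one]
      rw [h13] at h12
      linarith
    have h11 : K₃ * V f x (κ * δ) ≤ K₃ * (12 * K * I) :=
      mul_le_mul_of_nonneg_left h10 (by linarith)
    have h12 : 0 ≤ 2 * K₂ * I := by positivity
    linarith

end ModSEGV

open ModSEGV in
theorem mSEGV (hDB : StmDB) : StmSEGV := by
  intro f C Y K h X _ P N S c hM
  have hK := h.one_le
  obtain ⟨K₂, hK₂, h2⟩ := (hDB f C Y K h).2.1 3 (by norm_num)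
  obtain ⟨K₃, hK₃, h3⟩ := (hDB f C Y K h).2.1 (12 * K) (by linarith)
  refine ⟨2 * (2 * K₂ + 12 * K * K₃), by positivity, ?_⟩
  intro x s t hst hts
  refine ⟨om_int h x s t, ?_⟩
  rcases eq_or_lt_of_le hst with hst' | hst'
  · rw [hst', dist_self, intervalIntegral.integral_same]
  have hn : ‖((x, s) : ℝ × ℝ) - (x, t)‖ = t - s := by
    rw [Prod.norm_def]
    simp only [Prod.fst_sub, Prod.snd_sub, sub_self, norm_zero, Real.norm_eq_abs]
    rw [abs_sub_comm, abs_of_pos (by linarith)]
    exact max_eq_right (by linarith)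
  have hup := hM.up (x, s) (x, t) (by rw [hn]; linarith)
  unfold G at hup
  rw [hn] at hup
  have h4 := key h K₂ K₃ hK₂ hK₃ h2 h3 x s t s hst' hts ⟨le_refl s, hst⟩
  have h5 := key h K₂ K₃ hK₂ hK₃ h2 h3 x s t t hst' hts ⟨hst, le_refl t⟩
  rw [intervalIntegral.integral_const_mul]
  linarith

end Pool.Agent.T6.H52.LS
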