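import Pool.Agent.T6.H52.LS.HHL

/-! Project LS, module SIZE. -/

set_option autoImplicit false
open MeasureTheory Filter Topology Metric Set
open scoped ENNReal NNReal

namespace Pool.Agent.T6.H52.LS

namespace ModSIZE

open ModHHL

variable {f : ℝ → ℝ} {C : Set ℝ} {Y : ℝ → ℝ → ℝ} {K : ℝ}

theorem V_mono (D : Dat f C Y K) (x : ℝ) {r r' : ℝ} (h : r ≤ r') : V f x r ≤ V f x r' := by
  rw [V_eq D, V_eq D]
  have := hh_mono D (by linarith : x + r ≤ x + r')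
  have := hh_mono D (by linarith : x - r' ≤ x - r)
  linarith

theorem Gh_mono (D : Dat f C Y K) (hV : ∀ x r, 0 < r → 0 < V f x r) (u : ℝ × ℝ) {d ρ : ℝ}
    (hd : 0 ≤ d) (h : d ≤ ρ) : Gh f C u d ≤ Gh f C u ρ := by
  rcases hd.eq_or_lt with h0 | h0
  · rw [← h0]
    have h1 : Gh f C u 0 = 0 := by unfold Gh; simp
    rw [h1]; exact Gh_nonneg hV u (hd.trans h)
  · have hr := rr_nonneg (C := C) u.2
    unfold Gh
    apply mul_le_mul (V_mono D _ (by linarith)) _ (by positivity) (hV _ _ (by linarith)).le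
    rw [div_le_div_iff₀ (by linarith) (by linarith)]
    nlinarith

theorem Gh_near (D : Dat f C Y K) (hV : ∀ x r, 0 < r → 0 < V f x r) {K' : ℝ}
    (H : ∀ x x' r r' : ℝ, 0 < r → r ≤ 4 → 0 ≤ r' → r' ≤ 8 * r →
        r' ≤ 8 → |x - x'| ≤ 8 * r → |x - x'| ≤ 8 → V f x' r' ≤ K' * V f x r)
    (hK' : 1 ≤ K') (u w : ℝ × ℝ) {ρ : ℝ} (hρ : 0 < ρ) (hρ1 : ρ ≤ 1) (h : ‖u - w‖ ≤ ρ) :
    Gh f C w ‖u - w‖ ≤ 2 * K' * Gh f C u ρ := by
  set d := ‖u - w‖ with hd
  have hd0 : 0 ≤ d := norm_nonneg _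
  have h1 : |u.1 - w.1| ≤ d := norm_fst_le (u - w)
  have h2 : |u.2 - w.2| ≤ d := norm_snd_le (u - w)
  have h3 : |rr C u.2 - rr C w.2| ≤ d := (rr_lip _ _).trans h2
  rw [abs_le] at h3
  have hu := rr_nonneg (C := C) u.2
  have hw := rr_nonneg (C := C) w.2
  have hu1 := rr_le D u.2
  have hw1 := rr_le D w.2
  have e1 := H u.1 w.1 (ρ + rr C u.2) (d + rr C w.2) (by linarith) (by linarith) (by linarith)
    (by linarith) (by linarith) (by linarith) (by linarith)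
  have e2 : d / (d + rr C w.2) ≤ 2 * (ρ / (ρ + rr C u.2)) := by
    rcases hd0.eq_or_lt with h0 | h0
    · rw [← h0]; simp; positivity
    · rw [← mul_div_assoc, div_le_div_iff₀ (by linarith) (by linarith)]
      nlinarith
  have hp : 0 < V f u.1 (ρ + rr C u.2) := hV _ _ (by linarith)
  unfold Gh
  calc V f w.1 (d + rr C w.2) * (d / (d + rr C w.2))
      ≤ (K' * V f u.1 (ρ + rr C u.2)) * (2 * (ρ / (ρ + rr C u.2))) :=
        mul_le_mul e1 e2 (by positivity) (by positivity)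
    _ = _ := by ring

theorem Gh_growth (D : Dat f C Y K) (hV : ∀ x r, 0 < r → 0 < V f x r) {α K2 : ℝ}
    (hα1 : α ≤ 1) (hK2 : 1 ≤ K2)
    (H3 : ∀ x r ε : ℝ, 0 < r → r ≤ 4 → 0 < ε → ε ≤ 1 → V f x (ε * r) ≤ K2 * ε ^ α * V f x r)
    (u : ℝ × ℝ) {ρ ε : ℝ} (hρ : 0 < ρ) (hρ1 : ρ ≤ 1) (hε : 0 < ε) (hε1 : ε ≤ 1) :
    Gh f C u (ε * ρ) ≤ K2 * ε ^ α * Gh f C u ρ := by
  have hr := rr_nonneg (C := C) u.2
  have hr1 := rr_le D u.2
  have hR : 0 < ρ + rr C u.2 := by linarith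
  have hερ : 0 < ε * ρ := mul_pos hε hρ
  have hRε : 0 < ε * ρ + rr C u.2 := by linarith
  obtain ⟨θ, hθ⟩ : ∃ θ, θ = (ε * ρ + rr C u.2) / (ρ + rr C u.2) := ⟨_, rfl⟩
  have hθR : θ * (ρ + rr C u.2) = ε * ρ + rr C u.2 := by rw [hθ]; field_simp
  have hθε : ε ≤ θ := by
    rw [hθ, le_div_iff₀ hR]; nlinarith
  have hθ0 : 0 < θ := by linarith
  have hθ1 : θ ≤ 1 := by
    rw [hθ, div_le_one hR]; nlinarith
  have e1 := H3 u.1 (ρ + rr C u.2) θ hR (by linarith) hθ0 hθ1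
  rw [hθR] at e1
  have e2 : θ ^ (α - 1) ≤ ε ^ (α - 1) :=
    Real.rpow_le_rpow_of_nonpos hε hθε (by linarith)
  have e3 : θ ^ α = θ ^ (α - 1) * θ := by
    rw [← Real.rpow_add_one hθ0.ne']; ring_nf
  have e4 : ε ^ α = ε ^ (α - 1) * ε := by
    rw [← Real.rpow_add_one hε.ne']; ring_nf
  have hp : 0 < V f u.1 (ρ + rr C u.2) := hV _ _ hR
  unfold Gh
  calc V f u.1 (ε * ρ + rr C u.2) * (ε * ρ / (ε * ρ + rr C u.2))
      ≤ (K2 * θ ^ α * V f u.1 (ρ + rr C u.2)) * (ε * ρ / (ε * ρ + rr C u.2)) :=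
        mul_le_mul_of_nonneg_right e1 (by positivity)
    _ = K2 * (θ ^ (α - 1) * ε) * (V f u.1 (ρ + rr C u.2) * (ρ / (ρ + rr C u.2))) := by
        rw [e3, ← hθR]; field_simp
    _ ≤ K2 * (ε ^ (α - 1) * ε) * (V f u.1 (ρ + rr C u.2) * (ρ / (ρ + rr C u.2))) := by
        gcongr
    _ = _ := by rw [e4]

theorem small {α : ℝ} (hα : 0 < α) (Q q : ℝ) (hQ : 0 ≤ Q) (hq : 0 < q) :
    ∃ r : ℝ, 0 < r ∧ r ≤ 1 / 16 ∧ Q * (2 * r) ^ α < q := by
  have hQ1 : 0 < Q + 1 := by linarith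
  set z := (q / (2 * (Q + 1))) ^ (α⁻¹) with hz
  have hz0 : 0 < z := Real.rpow_pos_of_pos (by positivity) _
  refine ⟨min (1 / 16) (z / 2), by positivity, min_le_left _ _, ?_⟩
  have h1 : 2 * min (1 / 16) (z / 2) ≤ z := by
    have := min_le_right (1 / 16 : ℝ) (z / 2)
    linarith
  have h2 : (2 * min (1 / 16) (z / 2)) ^ α ≤ z ^ α :=
    Real.rpow_le_rpow (by positivity) h1 hα.le
  have h3 : z ^ α = q / (2 * (Q + 1)) := Real.rpow_inv_rpow (by positivity) hα.ne'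
  rw [h3] at h2
  calc Q * (2 * min (1 / 16) (z / 2)) ^ α ≤ Q * (q / (2 * (Q + 1))) :=
        mul_le_mul_of_nonneg_left h2 hQ
    _ ≤ (Q + 1) * (q / (2 * (Q + 1))) := by gcongr; linarith
    _ = q / 2 := by field_simp
    _ < q := by linarith

section model

variable {X : Type} [MetricSpace X] {P : ℝ × ℝ → X} {N S : X} {c : ℝ}

theorem exit (D : Dat f C Y K) (M : Mdl f C P N S c) (hV : ∀ x r, 0 < r → 0 < V f x r) {K' : ℝ}
    (H : ∀ x x' r r' : ℝ, 0 < r → r ≤ 4 → 0 ≤ r' → r' ≤ 8 * r →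
        r' ≤ 8 → |x - x'| ≤ 8 * r → |x - x'| ≤ 8 → V f x' r' ≤ K' * V f x r)
    (hK' : 1 ≤ K') (E : Set X) (u : ℝ × ℝ) {ρ : ℝ} (hρ : 0 < ρ) (hρ1 : ρ ≤ 1)
    (h : 2 * (1 + 2 * K') * Gh f C u ρ < diam E) : ¬ E ⊆ P '' Sq u ρ := by
  intro hE
  have hG := Gh_nonneg (C := C) hV u hρ.le
  have h1 : E ⊆ closedBall (P u) ((1 + 2 * K') * Gh f C u ρ) := by
    intro e he
    obtain ⟨w, hw, rfl⟩ := hE he
    obtain ⟨⟨w1, w2⟩, ⟨w3, w4⟩⟩ := hw
    have h2 : ‖u - w‖ ≤ ρ := by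
      rw [norm_prod_le_iff]
      constructor
      · rw [Real.norm_eq_abs, abs_le]; simp only [Prod.fst_sub]; constructor <;> linarith
      · rw [Real.norm_eq_abs, abs_le]; simp only [Prod.snd_sub]; constructor <;> linarith
    rw [mem_closedBall, dist_comm]
    refine (M.up u w (h2.trans hρ1)).trans ?_
    have e1 := Gh_near D hV H hK' u w hρ hρ1 h2
    have e2 := Gh_mono D hV u (norm_nonneg (u - w)) h2
    unfold G
    linarith
  have h3 := diam_le_of_subset_closedBall (mul_nonneg (by linarith) hG) h1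
  linarith

/-- left part -/
theorem closedA (M : Mdl f C P N S c) (ξ : ℝ) : IsClosed (P '' {w | w.1 ≤ ξ} ∪ {S}) := by
  apply isClosed_of_closure_subset
  intro q hq
  by_contra hn
  have hc := M.pos
  have key : ∀ L : ℝ, 0 ≤ L → dist q S ≤ c⁻¹ / (1 + L) ^ 3 := by
    intro L hL
    have hcl : IsClosed (P '' (Icc (-L) ξ ×ˢ Icc 0 1) ∪ closedBall S (c⁻¹ / (1 + L) ^ 3)) :=
      ((isCompact_Icc.prod isCompact_Icc).image M.cont).isClosed.union isClosed_closedBall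
    have hsub : P '' {w | w.1 ≤ ξ} ∪ {S} ⊆
        P '' (Icc (-L) ξ ×ˢ Icc 0 1) ∪ closedBall S (c⁻¹ / (1 + L) ^ 3) := by
      rintro x (⟨w, hw, rfl⟩ | hx)
      · rcases le_or_gt (-L) w.1 with h | h
        · left
          refine ⟨(w.1, Int.fract w.2), ⟨⟨h, hw⟩, ⟨Int.fract_nonneg _, (Int.fract_lt_one _).le⟩⟩, ?_⟩
          rw [M.eq_iff]
          refine ⟨rfl, -⌊w.2⌋, ?_⟩
          simp only [Int.cast_neg]
          rw [Int.fract]; ring
        · right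
          rw [mem_closedBall, dist_comm]
          refine (M.S_up w (by linarith)).trans ?_
          apply div_le_div_of_nonneg_left (by positivity) (by positivity)
          exact pow_le_pow_left₀ (by linarith) (by linarith) 3
      · right
        rw [mem_singleton_iff.1 hx]
        exact mem_closedBall_self (by positivity)
    rcases (closure_minimal hsub hcl) hq with h | h
    · exfalso
      apply hn
      obtain ⟨w, hw, rfl⟩ := h
      exact Or.inl ⟨w, hw.1.2, rfl⟩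
    · exact h
  have h0 : Tendsto (fun L : ℝ => c⁻¹ / (1 + L) ^ 3) atTop (𝓝 0) := by
    apply Tendsto.div_atTop tendsto_const_nhds
    exact (tendsto_pow_atTop (by norm_num)).comp (tendsto_atTop_add_const_left _ _ tendsto_id)
  have h1 : dist q S ≤ 0 := by
    apply ge_of_tendsto h0
    filter_upwards [eventually_ge_atTop (0 : ℝ)] with L hL using key L hL
  have h2 : q = S := dist_le_zero.1 h1
  exact hn (Or.inr h2)

/-- right part -/
theorem closedB (M : Mdl f C P N S c) (ξ : ℝ) : IsClosed (P '' {w | ξ ≤ w.1} ∪ {N}) := by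
  apply isClosed_of_closure_subset
  intro q hq
  by_contra hn
  have hc := M.pos
  have key : ∀ L : ℝ, 0 ≤ L → dist q N ≤ c⁻¹ / (1 + L) ^ 3 := by
    intro L hL
    have hcl : IsClosed (P '' (Icc ξ L ×ˢ Icc 0 1) ∪ closedBall N (c⁻¹ / (1 + L) ^ 3)) :=
      ((isCompact_Icc.prod isCompact_Icc).image M.cont).isClosed.union isClosed_closedBall
    have hsub : P '' {w | ξ ≤ w.1} ∪ {N} ⊆
        P '' (Icc ξ L ×ˢ Icc 0 1) ∪ closedBall N (c⁻¹ / (1 + L) ^ 3) := by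
      rintro x (⟨w, hw, rfl⟩ | hx)
      · rcases le_or_gt w.1 L with h | h
        · left
          refine ⟨(w.1, Int.fract w.2), ⟨⟨hw, h⟩, ⟨Int.fract_nonneg _, (Int.fract_lt_one _).le⟩⟩, ?_⟩
          rw [M.eq_iff]
          refine ⟨rfl, -⌊w.2⌋, ?_⟩
          simp only [Int.cast_neg]
          rw [Int.fract]; ring
        · right
          rw [mem_closedBall, dist_comm]
          refine (M.N_up w (by linarith)).trans ?_
          apply div_le_div_of_nonneg_left (by positivity) (by positivity)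
          exact pow_le_pow_left₀ (by linarith) (by linarith) 3
      · right
        rw [mem_singleton_iff.1 hx]
        exact mem_closedBall_self (by positivity)
    rcases (closure_minimal hsub hcl) hq with h | h
    · exfalso
      apply hn
      obtain ⟨w, hw, rfl⟩ := h
      exact Or.inl ⟨w, hw.1.1, rfl⟩
    · exact h
  have h0 : Tendsto (fun L : ℝ => c⁻¹ / (1 + L) ^ 3) atTop (𝓝 0) := by
    apply Tendsto.div_atTop tendsto_const_nhds
    exact (tendsto_pow_atTop (by norm_num)).comp (tendsto_atTop_add_const_left _ _ tendsto_id)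
  have h1 : dist q N ≤ 0 := by
    apply ge_of_tendsto h0
    filter_upwards [eventually_ge_atTop (0 : ℝ)] with L hL using key L hL
  have h2 : q = N := dist_le_zero.1 h1
  exact hn (Or.inr h2)

theorem conn (M : Mdl f C P N S c) (F : Set X) (hF : IsPreconnected F) (ξ : ℝ)
    (h : ∀ w, P w ∈ F → w.1 ≠ ξ) (hne : ∃ w, P w ∈ F ∧ ξ < w.1) :
    F ⊆ (P '' {w | w.1 ≤ ξ} ∪ {S})ᶜ := by
  have hd : Disjoint (P '' {w | w.1 ≤ ξ} ∪ {S})ᶜ (P '' {w | ξ ≤ w.1} ∪ {N})ᶜ := by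
    rw [Set.disjoint_left]
    intro x hx hx'
    rcases M.surj x with h1 | h1 | ⟨w, rfl⟩
    · exact hx' (Or.inr h1)
    · exact hx (Or.inr h1)
    · rcases le_total w.1 ξ with h2 | h2
      · exact hx (Or.inl ⟨w, h2, rfl⟩)
      · exact hx' (Or.inl ⟨w, h2, rfl⟩)
  have hcov : F ⊆ (P '' {w | w.1 ≤ ξ} ∪ {S})ᶜ ∪ (P '' {w | ξ ≤ w.1} ∪ {N})ᶜ := by
    intro x hx
    by_contra hn
    rw [mem_union, not_or, notMem_compl_iff, notMem_compl_iff] at hn
    obtain ⟨h1, h2⟩ := hn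
    rcases h1 with ⟨w, hw, rfl⟩ | h1
    · rcases h2 with ⟨w', hw', e⟩ | h2
      · have := ((M.eq_iff w' w).1 e).1
        have hw1 : w.1 ≤ ξ := hw
        have hw2 : ξ ≤ w'.1 := hw'
        exact h w hx (by linarith)
      · exact M.ne_N w h2
    · rcases h2 with ⟨w', hw', e⟩ | h2
      · exact M.ne_S w' (e.trans h1)
      · exact M.N_ne_S (h2.symm.trans h1)
  apply hF.subset_left_of_subset_union (closedA M ξ).isOpen_compl (closedB M ξ).isOpen_compl hd hcov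
  obtain ⟨w, hw, hw1⟩ := hne
  refine ⟨P w, hw, ?_⟩
  rintro (⟨w', hw', e⟩ | h1)
  · have := ((M.eq_iff w' w).1 e).1
    have hw2 : w'.1 ≤ ξ := hw'
    linarith
  · exact M.ne_S w h1

theorem conn' (M : Mdl f C P N S c) (F : Set X) (hF : IsPreconnected F) (ξ : ℝ)
    (h : ∀ w, P w ∈ F → w.1 ≠ ξ) (hne : ∃ w, P w ∈ F ∧ w.1 < ξ) :
    F ⊆ (P '' {w | ξ ≤ w.1} ∪ {N})ᶜ := by
  have hd : Disjoint (P '' {w | ξ ≤ w.1} ∪ {N})ᶜ (P '' {w | w.1 ≤ ξ} ∪ {S})ᶜ := by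
    rw [Set.disjoint_left]
    intro x hx' hx
    rcases M.surj x with h1 | h1 | ⟨w, rfl⟩
    · exact hx' (Or.inr h1)
    · exact hx (Or.inr h1)
    · rcases le_total w.1 ξ with h2 | h2
      · exact hx (Or.inl ⟨w, h2, rfl⟩)
      · exact hx' (Or.inl ⟨w, h2, rfl⟩)
  have hcov : F ⊆ (P '' {w | ξ ≤ w.1} ∪ {N})ᶜ ∪ (P '' {w | w.1 ≤ ξ} ∪ {S})ᶜ := by
    intro x hx
    by_contra hn
    rw [mem_union, not_or, notMem_compl_iff, notMem_compl_iff] at hn
    obtain ⟨h2, h1⟩ := hn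
    rcases h1 with ⟨w, hw, rfl⟩ | h1
    · rcases h2 with ⟨w', hw', e⟩ | h2
      · have := ((M.eq_iff w' w).1 e).1
        have hw1 : w.1 ≤ ξ := hw
        have hw2 : ξ ≤ w'.1 := hw'
        exact h w hx (by linarith)
      · exact M.ne_N w h2
    · rcases h2 with ⟨w', hw', e⟩ | h2
      · exact M.ne_S w' (e.trans h1)
      · exact M.N_ne_S (h2.symm.trans h1)
  apply hF.subset_left_of_subset_union (closedB M ξ).isOpen_compl (closedA M ξ).isOpen_compl hd hcov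
  obtain ⟨w, hw, hw1⟩ := hne
  refine ⟨P w, hw, ?_⟩
  rintro (⟨w', hw', e⟩ | h1)
  · have := ((M.eq_iff w' w).1 e).1
    have hw2 : ξ ≤ w'.1 := hw'
    linarith
  · exact M.ne_N w h1

/-- moving a point away from `N` -/
theorem clipN (M : Mdl f C P N S c) (F : Set X) (hF : IsPreconnected F) (R : ℝ) (hR : 0 ≤ R)
    (hd : 2 * (c⁻¹ / (1 + R) ^ 3) < diam F) (v : ℝ × ℝ) (hv : P v ∈ F) (hvR : R < v.1) :
    ∃ w, P w ∈ F ∧ w.1 = R := by
  by_contra hn
  push Not at hn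
  have h1 := conn M F hF R hn ⟨v, hv, hvR⟩
  have hc := M.pos
  have h2 : F ⊆ closedBall N (c⁻¹ / (1 + R) ^ 3) := by
    intro x hx
    have h3 := h1 hx
    rcases M.surj x with h | h | ⟨w, rfl⟩
    · rw [h]; exact mem_closedBall_self (by positivity)
    · exact absurd (Or.inr h) h3
    · have hw : R < w.1 := by
        by_contra hc'
        exact h3 (Or.inl ⟨w, not_lt.1 hc', rfl⟩)
      rw [mem_closedBall, dist_comm]
      refine (M.N_up w (by linarith)).trans ?_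
      apply div_le_div_of_nonneg_left (by positivity) (by positivity)
      exact pow_le_pow_left₀ (by linarith) (by linarith) 3
  have h3 := diam_le_of_subset_closedBall (by positivity) h2
  linarith

/-- moving a point away from `S` -/
theorem clipS (M : Mdl f C P N S c) (F : Set X) (hF : IsPreconnected F) (R : ℝ) (hR : 0 ≤ R)
    (hd : 2 * (c⁻¹ / (1 + R) ^ 3) < diam F) (v : ℝ × ℝ) (hv : P v ∈ F) (hvR : v.1 < -R) :
    ∃ w, P w ∈ F ∧ w.1 = -R := by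
  by_contra hn
  push Not at hn
  have h1 := conn' M F hF (-R) hn ⟨v, hv, hvR⟩
  have hc := M.pos
  have h2 : F ⊆ closedBall S (c⁻¹ / (1 + R) ^ 3) := by
    intro x hx
    have h3 := h1 hx
    rcases M.surj x with h | h | ⟨w, rfl⟩
    · exact absurd (Or.inr h) h3
    · rw [h]; exact mem_closedBall_self (by positivity)
    · have hw : w.1 < -R := by
        by_contra hc'
        exact h3 (Or.inl ⟨w, not_lt.1 hc', rfl⟩)
      rw [mem_closedBall, dist_comm]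
      refine (M.S_up w (by linarith)).trans ?_
      apply div_le_div_of_nonneg_left (by positivity) (by positivity)
      exact pow_le_pow_left₀ (by linarith) (by linarith) 3
  have h3 := diam_le_of_subset_closedBall (by positivity) h2
  linarith

/-- a point which is not a tip, near a given point -/
theorem nontip (M : Mdl f C P N S c) (E : Set X) (hE : Cont E) (e : X) (he : e ∈ E) (δ : ℝ)
    (hδ : 0 < δ) : ∃ u, P u ∈ E ∧ dist e (P u) < δ := by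
  rcases M.surj e with h | h | ⟨u, hu⟩
  · have hp := hE.2.1.preperfect_of_nontrivial hE.2.2 e he
    rw [accPt_iff_nhds] at hp
    have hNS : 0 < dist N S := dist_pos.2 M.N_ne_S
    obtain ⟨y, ⟨hy1, hy2⟩, hy3⟩ := hp (ball e (min δ (dist N S))) (ball_mem_nhds _ (lt_min hδ hNS))
    rw [mem_ball] at hy1
    rcases M.surj y with h1 | h1 | ⟨u, hu⟩
    · exact absurd (h1.trans h.symm) hy3
    · exfalso
      have := hy1.trans_le (min_le_right _ _)
      rw [h1, h, dist_comm] at this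
      exact lt_irrefl _ this
    · refine ⟨u, by rw [hu]; exact hy2, ?_⟩
      rw [hu, dist_comm]; exact hy1.trans_le (min_le_left _ _)
  · have hp := hE.2.1.preperfect_of_nontrivial hE.2.2 e he
    rw [accPt_iff_nhds] at hp
    have hNS : 0 < dist N S := dist_pos.2 M.N_ne_S
    obtain ⟨y, ⟨hy1, hy2⟩, hy3⟩ := hp (ball e (min δ (dist N S))) (ball_mem_nhds _ (lt_min hδ hNS))
    rw [mem_ball] at hy1
    rcases M.surj y with h1 | h1 | ⟨u, hu⟩
    · exfalso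
      have := hy1.trans_le (min_le_right _ _)
      rw [h1, h] at this
      exact lt_irrefl _ this
    · exact absurd (h1.trans h.symm) hy3
    · refine ⟨u, by rw [hu]; exact hy2, ?_⟩
      rw [hu, dist_comm]; exact hy1.trans_le (min_le_left _ _)
  · exact ⟨u, by rw [hu]; exact he, by rw [hu, dist_self]; exact hδ⟩

end model

section model2

variable {X : Type} [MetricSpace X] {P : ℝ × ℝ → X} {N S : X} {c : ℝ}

theorem exitV (D : Dat f C Y K) (M : Mdl f C P N S c) (hV : ∀ x r, 0 < r → 0 < V f x r) {K' : ℝ}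
    (H : ∀ x x' r r' : ℝ, 0 < r → r ≤ 4 → 0 ≤ r' → r' ≤ 8 * r →
        r' ≤ 8 → |x - x'| ≤ 8 * r → |x - x'| ≤ 8 → V f x' r' ≤ K' * V f x r)
    (hK' : 1 ≤ K') {α K2 : ℝ} (hα1 : α ≤ 1) (hK2 : 1 ≤ K2)
    (H3 : ∀ x r ε : ℝ, 0 < r → r ≤ 4 → 0 < ε → ε ≤ 1 → V f x (ε * r) ≤ K2 * ε ^ α * V f x r)
    (E : Set X) (u : ℝ × ℝ) {r0 m : ℝ} (h0 : 0 < r0) (h1 : r0 ≤ 1 / 16)
    (hm : m ≤ diam E) (h : 2 * (1 + 2 * K') * (K2 * (2 * r0) ^ α * V f u.1 2) < m) :
    ¬ E ⊆ P '' Sq u (2 * r0) := by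
  apply exit D M hV H hK' E u (by linarith) (by linarith)
  have e1 := Gh_growth D hV hα1 hK2 H3 u (ρ := 1) (ε := 2 * r0) one_pos le_rfl (by linarith)
    (by linarith)
  rw [mul_one] at e1
  have e2 : Gh f C u 1 ≤ V f u.1 2 := by
    have hr := rr_nonneg (C := C) u.2
    have hr1 := rr_le D u.2
    have hp : 0 < V f u.1 (1 + rr C u.2) := hV _ _ (by linarith)
    unfold Gh
    calc V f u.1 (1 + rr C u.2) * (1 / (1 + rr C u.2)) ≤ V f u.1 (1 + rr C u.2) * 1 := by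
          apply mul_le_mul_of_nonneg_left _ hp.le
          rw [div_le_one (by linarith)]; linarith
      _ ≤ V f u.1 2 := by rw [mul_one]; exact V_mono D _ (by linarith)
  have e3 : Gh f C u (2 * r0) ≤ K2 * (2 * r0) ^ α * V f u.1 2 :=
    e1.trans (mul_le_mul_of_nonneg_left e2 (by positivity))
  have e4 : 2 * (1 + 2 * K') * Gh f C u (2 * r0) ≤
      2 * (1 + 2 * K') * (K2 * (2 * r0) ^ α * V f u.1 2) :=
    mul_le_mul_of_nonneg_left e3 (by linarith)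
  linarith

theorem caseA (D : Dat f C Y K) (M : Mdl f C P N S c) (hV : ∀ x r, 0 < r → 0 < V f x r) {K' : ℝ}
    (H : ∀ x x' r r' : ℝ, 0 < r → r ≤ 4 → 0 ≤ r' → r' ≤ 8 * r →
        r' ≤ 8 → |x - x'| ≤ 8 * r → |x - x'| ≤ 8 → V f x' r' ≤ K' * V f x r)
    (hK' : 1 ≤ K') {α K2 : ℝ} (hα : 0 < α) (hα1 : α ≤ 1) (hK2 : 1 ≤ K2)
    (H3 : ∀ x r ε : ℝ, 0 < r → r ≤ 4 → 0 < ε → ε ≤ 1 → V f x (ε * r) ≤ K2 * ε ^ α * V f x r)
    (t : ℝ) (ht : 0 < t) :
    ∃ A₁ : ℝ, 1 ≤ A₁ ∧ ∀ (E F : Set X) (u v : ℝ × ℝ) (m : ℝ), 0 < m → m ≤ diam E → m ≤ diam F →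
      |u.1 - v.1| ≤ 1 → |u.2 - v.2| ≤ 1 / 2 → dist (P u) (P v) ≤ 2 * t * m →
      ∃ r : ℝ, 0 < r ∧ r ≤ 1 / 16 ∧ ¬ E ⊆ P '' Sq u (2 * r) ∧ ¬ F ⊆ P '' Sq v (2 * r) ∧
        ‖u - v‖ ≤ A₁ * r := by
  obtain ⟨κ, hκ⟩ : ∃ κ, κ = c / (2 * t * (2 * (1 + 2 * K')) * K2) := ⟨_, rfl⟩
  have hc := M.pos
  have hκ0 : 0 < κ := by rw [hκ]; positivity
  have hz0 : 0 < κ ^ (α⁻¹) := Real.rpow_pos_of_pos hκ0 _
  have hpos : 0 < 4 / κ ^ (α⁻¹) := by positivity
  refine ⟨16 + 4 / κ ^ (α⁻¹), by linarith, ?_⟩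
  intro E F u v m hm hE hF hx hy hd
  obtain ⟨C1, hC1⟩ : ∃ C1, C1 = 2 * (1 + 2 * K') := ⟨_, rfl⟩
  rw [← hC1] at hκ
  have hC1p : 0 < C1 := by rw [hC1]; linarith
  have hnn : ‖u - v‖ ≤ 1 := by
    rw [norm_prod_le_iff]; constructor
    · rw [Real.norm_eq_abs]; exact hx
    · rw [Real.norm_eq_abs]; exact hy.trans (by norm_num)
  have hd0 := norm_nonneg (u - v)
  have hu1 := Gh_nonneg (C := C) hV u zero_le_one
  have hv1 := Gh_nonneg (C := C) hV v zero_le_one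
  have hex : ∃ k : ℕ, C1 * Gh f C u (2 * (1 / 16 * (1 / 2) ^ k)) < m ∧
      C1 * Gh f C v (2 * (1 / 16 * (1 / 2) ^ k)) < m := by
    obtain ⟨r0, h1, h2, h3⟩ := small hα (C1 * K2 * (Gh f C u 1 + Gh f C v 1)) m
      (by positivity) hm
    obtain ⟨k, hk⟩ := exists_pow_lt_of_lt_one h1 (by norm_num : (1 / 2 : ℝ) < 1)
    have hk0 : (0:ℝ) < (1/2)^k := by positivity
    have key : ∀ w : ℝ × ℝ, Gh f C w 1 ≤ Gh f C u 1 + Gh f C v 1 →
        C1 * Gh f C w (2 * (1 / 16 * (1 / 2) ^ k)) < m := by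
      intro w hw
      have e1 := Gh_growth D hV hα1 hK2 H3 w (ρ := 1) (ε := 2 * r0) one_pos le_rfl (by linarith)
        (by linarith)
      rw [mul_one] at e1
      have e2 := Gh_mono D hV w (d := 2 * (1 / 16 * (1 / 2) ^ k)) (ρ := 2 * r0) (by positivity)
        (by linarith)
      have e3 : (0:ℝ) ≤ (2 * r0) ^ α := by positivity
      calc C1 * Gh f C w (2 * (1 / 16 * (1 / 2) ^ k)) ≤ C1 * (K2 * (2 * r0) ^ α * Gh f C w 1) :=
            mul_le_mul_of_nonneg_left (e2.trans e1) hC1p.le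
        _ ≤ C1 * (K2 * (2 * r0) ^ α * (Gh f C u 1 + Gh f C v 1)) := by gcongr
        _ = C1 * K2 * (Gh f C u 1 + Gh f C v 1) * (2 * r0) ^ α := by ring
        _ < m := h3
    exact ⟨k, key u (by linarith), key v (by linarith)⟩
  classical
  obtain ⟨k, hk, hmin⟩ : ∃ k : ℕ, (C1 * Gh f C u (2 * (1 / 16 * (1 / 2) ^ k)) < m ∧
      C1 * Gh f C v (2 * (1 / 16 * (1 / 2) ^ k)) < m) ∧ ∀ j < k,
      ¬ (C1 * Gh f C u (2 * (1 / 16 * (1 / 2) ^ j)) < m ∧
      C1 * Gh f C v (2 * (1 / 16 * (1 / 2) ^ j)) < m) :=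
    ⟨Nat.find hex, Nat.find_spec hex, fun j hj => Nat.find_min hex hj⟩
  obtain ⟨r, hr⟩ : ∃ r : ℝ, r = 1 / 16 * (1 / 2) ^ k := ⟨_, rfl⟩
  rw [← hr] at hk
  have hr0 : 0 < r := by rw [hr]; positivity
  have hr1 : r ≤ 1 / 16 := by
    rw [hr]
    have : (1 / 2 : ℝ) ^ k ≤ 1 := pow_le_one₀ (by norm_num) (by norm_num)
    linarith
  refine ⟨r, hr0, hr1, exit D M hV H hK' E u (by linarith) (by linarith)
    (by rw [← hC1]; exact hk.1.trans_le hE), exit D M hV H hK' F v (by linarith) (by linarith)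
    (by rw [← hC1]; exact hk.2.trans_le hF), ?_⟩
  rcases k with _ | j
  · have : r = 1 / 16 := by rw [hr]; norm_num
    rw [this]; nlinarith
  · have hj := hmin j (Nat.lt_succ_self j)
    have h4 : 2 * (1 / 16 * (1 / 2 : ℝ) ^ j) = 4 * r := by rw [hr, pow_succ]; ring
    rw [h4, not_and_or, not_lt, not_lt] at hj
    have key : ∀ w : ℝ × ℝ, m ≤ C1 * Gh f C w (4 * r) → Gh f C w ‖u - v‖ ≤ G f C u v →
        ‖u - v‖ ≤ (16 + 4 / κ ^ (α⁻¹)) * r := by
      intro w hw hG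
      rcases le_or_gt ‖u - v‖ (4 * r) with h5 | h5
      · nlinarith
      · obtain ⟨d, hdd⟩ : ∃ d, d = ‖u - v‖ := ⟨_, rfl⟩
        rw [← hdd] at h5 hnn hd0 hG ⊢
        have hd1 : 0 < d := by linarith
        have hgp : 0 < Gh f C w d := by
          have := rr_nonneg (C := C) w.2
          unfold Gh
          exact mul_pos (hV _ _ (by linarith)) (by positivity)
        have e1 := Gh_growth D hV hα1 hK2 H3 w (ρ := d) (ε := 4 * r / d) hd1 hnn (by positivity)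
          (by rw [div_le_one hd1]; exact h5.le)
        rw [div_mul_cancel₀ _ hd1.ne'] at e1
        have e2 := M.low u v hx hy
        have e3 : c * Gh f C w d ≤ (2 * t * C1 * K2 * (4 * r / d) ^ α) * Gh f C w d := by
          calc c * Gh f C w d ≤ c * G f C u v := mul_le_mul_of_nonneg_left hG hc.le
            _ ≤ 2 * t * m := e2.trans hd
            _ ≤ 2 * t * (C1 * Gh f C w (4 * r)) := by gcongr
            _ ≤ 2 * t * (C1 * (K2 * (4 * r / d) ^ α * Gh f C w d)) := by gcongr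
            _ = _ := by ring
        have e4 : κ ≤ (4 * r / d) ^ α := by
          rw [hκ, div_le_iff₀ (by positivity)]
          have := le_of_mul_le_mul_right e3 hgp
          linarith
        have e5 : κ ^ (α⁻¹) ≤ 4 * r / d := by
          calc κ ^ (α⁻¹) ≤ ((4 * r / d) ^ α) ^ (α⁻¹) :=
                Real.rpow_le_rpow hκ0.le e4 (by positivity)
            _ = 4 * r / d := Real.rpow_rpow_inv (by positivity) hα.ne'
        have e6 : d ≤ 4 / κ ^ (α⁻¹) * r := by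
          rw [div_mul_eq_mul_div, le_div_iff₀ hz0]
          rw [le_div_iff₀ hd1] at e5
          linarith
        nlinarith
    rcases hj with hj | hj
    · exact key u hj (by unfold G; linarith [Gh_nonneg (C := C) hV v hd0])
    · exact key v hj (by unfold G; linarith [Gh_nonneg (C := C) hV u hd0])

theorem Jb (a b s Q : ℝ) (hs : 0 ≤ s) (h : ∀ x ∈ uIoc a b, s ≤ |x|) (h1 : |b - a| ≤ Q * (1 + s)) :
    |∫ x in a..b, 1 / (1 + |x|)| ≤ Q := by
  have h2 := intervalIntegral.norm_integral_le_of_norm_le_const (a := a) (b := b)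
    (f := fun x : ℝ => 1 / (1 + |x|)) (C := 1 / (1 + s)) (by
      intro x hx
      have := h x hx
      rw [Real.norm_of_nonneg (by positivity)]
      exact one_div_le_one_div_of_le (by linarith) (by linarith))
  rw [Real.norm_eq_abs] at h2
  refine h2.trans ?_
  rw [div_mul_eq_mul_div, one_mul, div_le_iff₀ (by linarith)]
  exact h1

theorem caseB1 (D : Dat f C Y K) (M : Mdl f C P N S c) (hV : ∀ x r, 0 < r → 0 < V f x r) {K' : ℝ}
    (H : ∀ x x' r r' : ℝ, 0 < r → r ≤ 4 → 0 ≤ r' → r' ≤ 8 * r →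
        r' ≤ 8 → |x - x'| ≤ 8 * r → |x - x'| ≤ 8 → V f x' r' ≤ K' * V f x r)
    (hK' : 1 ≤ K') {α K2 : ℝ} (hα1 : α ≤ 1) (hK2 : 1 ≤ K2)
    (H3 : ∀ x r ε : ℝ, 0 < r → r ≤ 4 → 0 < ε → ε ≤ 1 → V f x (ε * r) ≤ K2 * ε ^ α * V f x r)
    (κ : ℝ) (A : ℝ) (hA : 1 ≤ A) (hA3 : 2 * c⁻¹ < κ * A ^ 3) {r0 : ℝ} (h0 : 0 < r0)
    (h1 : r0 ≤ 1 / 16)
    (hr : 2 * (1 + 2 * K') * (K2 * (2 * r0) ^ α * K ^ 2) < κ)
    (E F : Set X) (hE : IsPreconnected E) (hF : IsPreconnected F) (u v : ℝ × ℝ) (hu : P u ∈ E)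
    (hv : P v ∈ F) (m : ℝ) (hmE : m ≤ diam E) (hmF : m ≤ diam F)
    (exE : ¬ E ⊆ P '' Sq u (2 * r0)) (exF : ¬ F ⊆ P '' Sq v (2 * r0))
    (s : ℝ) (hs : 0 ≤ s) (hm : κ ≤ m * (1 + s) ^ 3) (huv : u.1 ≤ v.1)
    (alt : u.1 = s ∨ v.1 = -s ∨ (u.1 ≤ 0 ∧ 0 ≤ v.1 ∧ s = 0)) :
    ∃ u' v' : ℝ × ℝ, P u' ∈ E ∧ P v' ∈ F ∧ ¬ E ⊆ P '' Sq u' (2 * r0) ∧
      ¬ F ⊆ P '' Sq v' (2 * r0) ∧ |∫ x in u'.1..v'.1, 1 / (1 + |x|)| ≤ 2 * A := by
  have hc := M.pos
  have hKp := D.one_le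
  have hs3 : 0 < (1 + s) ^ 3 := by positivity
  obtain ⟨R, hR⟩ : ∃ R, R = A * (1 + s) := ⟨_, rfl⟩
  have hRs : 1 + s ≤ R := by rw [hR]; nlinarith
  have hR0 : 0 < R := by linarith
  have hm0 : 0 ≤ m := by
    have hκ : 0 ≤ κ := by
      refine le_trans ?_ hr.le
      positivity
    by_contra hn
    have : m * (1 + s) ^ 3 < 0 := mul_neg_of_neg_of_pos (not_le.1 hn) hs3
    linarith
  have hexit : ∀ w : ℝ × ℝ, |w.1| = R → ∀ G' : Set X, m ≤ diam G' →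
      ¬ G' ⊆ P '' Sq w (2 * r0) := by
    intro w hw G' hG'
    apply exitV D M hV H hK' hα1 hK2 H3 G' w h0 h1 hG'
    have e1 := D.dbl w.1 1 one_pos (by norm_num)
    have e2 := D.up w.1
    rw [hw] at e2
    norm_num at e1
    have e3 : 0 < V f w.1 2 := hV _ _ (by norm_num)
    have e4 : (1 + s) ^ 3 ≤ (1 + R) ^ 4 := by
      calc (1 + s) ^ 3 ≤ (1 + R) ^ 3 := pow_le_pow_left₀ (by linarith) (by linarith) 3
        _ ≤ (1 + R) ^ 4 := pow_le_pow_right₀ (by linarith) (by norm_num)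
    have e5 : V f w.1 2 * (1 + s) ^ 3 ≤ K ^ 2 := by
      calc V f w.1 2 * (1 + s) ^ 3 ≤ V f w.1 2 * (1 + R) ^ 4 := by gcongr
        _ ≤ (K * V f w.1 1) * (1 + R) ^ 4 := by gcongr
        _ = K * ((1 + R) ^ 4 * V f w.1 1) := by ring
        _ ≤ K * K := by gcongr
        _ = K ^ 2 := by ring
    have e6 : (2 * (1 + 2 * K') * (K2 * (2 * r0) ^ α * V f w.1 2)) * (1 + s) ^ 3 <
        m * (1 + s) ^ 3 := by
      calc (2 * (1 + 2 * K') * (K2 * (2 * r0) ^ α * V f w.1 2)) * (1 + s) ^ 3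
          = 2 * (1 + 2 * K') * (K2 * (2 * r0) ^ α * (V f w.1 2 * (1 + s) ^ 3)) := by ring
        _ ≤ 2 * (1 + 2 * K') * (K2 * (2 * r0) ^ α * K ^ 2) := by gcongr
        _ < κ := hr
        _ ≤ _ := hm
    exact lt_of_mul_lt_mul_right e6 hs3.le
  have hdiam : 2 * (c⁻¹ / (1 + R) ^ 3) < m := by
    rw [← mul_div_assoc, div_lt_iff₀ (by positivity)]
    calc 2 * c⁻¹ < κ * A ^ 3 := hA3
      _ ≤ m * (1 + s) ^ 3 * A ^ 3 := by gcongr
      _ = m * R ^ 3 := by rw [hR]; ring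
      _ ≤ m * (1 + R) ^ 3 := by
        apply mul_le_mul_of_nonneg_left _ hm0
        exact pow_le_pow_left₀ hR0.le (by linarith) 3
  obtain ⟨u', hu'E, hu'x, hu'⟩ : ∃ u' : ℝ × ℝ, P u' ∈ E ∧ ¬ E ⊆ P '' Sq u' (2 * r0) ∧
      ((u'.1 = u.1 ∧ -R ≤ u.1) ∨ (u.1 < -R ∧ u'.1 = -R)) := by
    rcases le_or_gt (-R) u.1 with h | h
    · exact ⟨u, hu, exE, Or.inl ⟨rfl, h⟩⟩
    · obtain ⟨w, hw, hw1⟩ := clipS M E hE R hR0.le (hdiam.trans_le hmE) u hu h
      exact ⟨w, hw, hexit w (by rw [hw1, abs_neg, abs_of_pos hR0]) E hmE, Or.inr ⟨h, hw1⟩⟩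
  obtain ⟨v', hv'F, hv'x, hv'⟩ : ∃ v' : ℝ × ℝ, P v' ∈ F ∧ ¬ F ⊆ P '' Sq v' (2 * r0) ∧
      ((v'.1 = v.1 ∧ v.1 ≤ R) ∨ (R < v.1 ∧ v'.1 = R)) := by
    rcases le_or_gt v.1 R with h | h
    · exact ⟨v, hv, exF, Or.inl ⟨rfl, h⟩⟩
    · obtain ⟨w, hw, hw1⟩ := clipN M F hF R hR0.le (hdiam.trans_le hmF) v hv h
      exact ⟨w, hw, hexit w (by rw [hw1, abs_of_pos hR0]) F hmF, Or.inr ⟨h, hw1⟩⟩
  refine ⟨u', v', hu'E, hv'F, hu'x, hv'x, ?_⟩
  apply Jb _ _ s _ hs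
  · intro x hx
    rw [mem_uIoc] at hx
    rcases alt with h | h | ⟨h2, h3, h⟩
    · have hx1 : s < x := by
        rcases hu' with hu' | hu' <;> rcases hv' with hv' | hv' <;> rcases hx with hx | hx <;>
          linarith [hu'.1, hu'.2, hv'.1, hv'.2, hx.1, hx.2]
      exact hx1.le.trans (le_abs_self x)
    · have hx1 : x ≤ -s := by
        rcases hu' with hu' | hu' <;> rcases hv' with hv' | hv' <;> rcases hx with hx | hx <;>
          linarith [hu'.1, hu'.2, hv'.1, hv'.2, hx.1, hx.2]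
      have := neg_le_abs x
      linarith
    · rw [h]; exact abs_nonneg x
  · have e : 2 * A * (1 + s) = 2 * R := by rw [hR]; ring
    rw [e, abs_le]
    rcases alt with h | h | ⟨h2, h3, h⟩ <;>
    rcases hu' with hu' | hu' <;> rcases hv' with hv' | hv' <;>
      constructor <;> linarith [hu'.1, hu'.2, hv'.1, hv'.2]

theorem caseB (D : Dat f C Y K) (M : Mdl f C P N S c) (hV : ∀ x r, 0 < r → 0 < V f x r) {K' : ℝ}
    (H : ∀ x x' r r' : ℝ, 0 < r → r ≤ 4 → 0 ≤ r' → r' ≤ 8 * r →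
        r' ≤ 8 → |x - x'| ≤ 8 * r → |x - x'| ≤ 8 → V f x' r' ≤ K' * V f x r)
    (hK' : 1 ≤ K') {α K2 : ℝ} (hα : 0 < α) (hα1 : α ≤ 1) (hK2 : 1 ≤ K2)
    (H3 : ∀ x r ε : ℝ, 0 < r → r ≤ 4 → 0 < ε → ε ≤ 1 → V f x (ε * r) ≤ K2 * ε ^ α * V f x r)
    (t : ℝ) (ht : 0 < t) :
    ∃ A₂ r0 : ℝ, 1 ≤ A₂ ∧ 0 < r0 ∧ r0 ≤ 1 / 16 ∧
      ∀ (E F : Set X) (u v : ℝ × ℝ) (m : ℝ), IsPreconnected E → IsPreconnected F → P u ∈ E →
      P v ∈ F → 0 < m → m ≤ diam E → m ≤ diam F → u.1 + 1 < v.1 → dist (P u) (P v) ≤ 2 * t * m →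
      ∃ u' v' : ℝ × ℝ, P u' ∈ E ∧ P v' ∈ F ∧ ¬ E ⊆ P '' Sq u' (2 * r0) ∧
      ¬ F ⊆ P '' Sq v' (2 * r0) ∧ |∫ x in u'.1..v'.1, 1 / (1 + |x|)| ≤ A₂ := by
  have hc := M.pos
  have hc1 := M.le_one
  have hKp := D.one_le
  have hV1 : 0 < V f (1 / 4) (1 / 4) := hV _ _ (by norm_num)
  have hV2 : 0 < V f (-(1 / 4)) (1 / 4) := hV _ _ (by norm_num)
  obtain ⟨κ0, hκ0, hκ1, hκ2⟩ : ∃ κ0 : ℝ, 0 < κ0 ∧ κ0 ≤ V f (1 / 4) (1 / 4) ∧
      κ0 ≤ V f (-(1 / 4)) (1 / 4) :=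
    ⟨min _ _, lt_min hV1 hV2, min_le_left _ _, min_le_right _ _⟩
  obtain ⟨κ, hκ, hκ3, hκ4⟩ : ∃ κ : ℝ, 0 < κ ∧ κ ≤ c / (4 * t) ∧ κ ≤ c / (2 * t) * κ0 :=
    ⟨min (c / (4 * t)) (c / (2 * t) * κ0), lt_min (by positivity) (by positivity),
      min_le_left _ _, min_le_right _ _⟩
  obtain ⟨B, hB1, hB3⟩ : ∃ B : ℝ, 1 ≤ B ∧ 2 * c⁻¹ ≤ c * B ^ 3 := by
    refine ⟨2 / c ^ 2, ?_, ?_⟩
    · rw [le_div_iff₀ (by positivity)]; nlinarith
    · have h1 : 1 ≤ 2 / c ^ 2 := by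
        rw [le_div_iff₀ (by positivity)]; nlinarith
      have h2 : 2 / c ^ 2 ≤ (2 / c ^ 2) ^ 3 := le_self_pow₀ h1 (by norm_num)
      calc 2 * c⁻¹ = c * (2 / c ^ 2) := by field_simp
        _ ≤ _ := by gcongr
  obtain ⟨A, hA, hA3⟩ : ∃ A : ℝ, 1 ≤ A ∧ 2 * c⁻¹ < κ * A ^ 3 := by
    have h0 : 0 < 2 * c⁻¹ / κ := by positivity
    refine ⟨1 + 2 * c⁻¹ / κ, by linarith, ?_⟩
    have h2 : 1 + 2 * c⁻¹ / κ ≤ (1 + 2 * c⁻¹ / κ) ^ 3 := le_self_pow₀ (by linarith) (by norm_num)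
    calc 2 * c⁻¹ = κ * (2 * c⁻¹ / κ) := by field_simp
      _ < κ * (1 + 2 * c⁻¹ / κ) := by gcongr; linarith
      _ ≤ _ := by gcongr
  obtain ⟨C1, hC1⟩ : ∃ C1, C1 = 2 * (1 + 2 * K') := ⟨_, rfl⟩
  have hC1p : 0 < C1 := by rw [hC1]; linarith
  obtain ⟨r0, h0, h1, h2⟩ := small hα (C1 * K2 * K ^ 2 / κ + C1 * K2 * K' * (2 * t / c)) 1
    (by positivity) one_pos
  have hpw : 0 < (2 * r0) ^ α := Real.rpow_pos_of_pos (by linarith) _
  have hr : C1 * (K2 * (2 * r0) ^ α * K ^ 2) < κ := by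
    have e1 : 0 < C1 * K2 * K' * (2 * t / c) * (2 * r0) ^ α := by positivity
    have e2 : C1 * K2 * K ^ 2 / κ * (2 * r0) ^ α < 1 := by linarith
    rw [div_mul_eq_mul_div, div_lt_one hκ] at e2
    linarith
  have hr' : C1 * K2 * K' * (2 * t / c) * (2 * r0) ^ α < 1 := by
    have e1 : 0 < C1 * K2 * K ^ 2 / κ * (2 * r0) ^ α := by positivity
    linarith
  refine ⟨B + 2 * A, r0, by linarith, h0, h1, ?_⟩
  intro E F u v m hE hF hu hv hm hmE hmF huv hd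
  have hm' := hm
  -- the mass between the points
  obtain ⟨I, hI⟩ : ∃ I, I = ∫ x in u.1..v.1, f x := ⟨_, rfl⟩
  have hI1 : c * I ≤ 2 * t * m := by
    have e1 := M.lowh u v (by rw [abs_sub_comm, le_abs]; left; linarith)
    rw [← hI] at e1
    have e2 : c * I ≤ c * |I| := mul_le_mul_of_nonneg_left (le_abs_self I) hc.le
    linarith
  have hI' : I = hh f v.1 - hh f u.1 := by rw [hI, hh_sub D]
  have hVu : V f u.1 2 ≤ K' * I := by
    have e1 := H (u.1 + 1 / 2) u.1 (1 / 2) 2 (by norm_num) (by norm_num) (by norm_num)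
      (by norm_num) (by norm_num) (by rw [add_sub_cancel_left]; norm_num [abs_of_pos])
      (by rw [add_sub_cancel_left]; norm_num [abs_of_pos])
    refine e1.trans (mul_le_mul_of_nonneg_left ?_ (by linarith))
    rw [V_eq D, hI']
    have e2 := hh_mono D (by linarith : u.1 + 1 / 2 + 1 / 2 ≤ v.1)
    have e3 := hh_mono D (by linarith : u.1 ≤ u.1 + 1 / 2 - 1 / 2)
    linarith
  have hVv : V f v.1 2 ≤ K' * I := by
    have e1 := H (v.1 - 1 / 2) v.1 (1 / 2) 2 (by norm_num) (by norm_num) (by norm_num)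
      (by norm_num) (by norm_num) (by rw [abs_le]; constructor <;> linarith)
      (by rw [abs_le]; constructor <;> linarith)
    refine e1.trans (mul_le_mul_of_nonneg_left ?_ (by linarith))
    rw [V_eq D, hI']
    have e2 := hh_mono D (by linarith : v.1 - 1 / 2 + 1 / 2 ≤ v.1)
    have e3 := hh_mono D (by linarith : u.1 ≤ v.1 - 1 / 2 - 1 / 2)
    linarith
  have hI2 : I ≤ 2 * t / c * m := by
    rw [div_mul_eq_mul_div, le_div_iff₀ hc]; linarith
  have hex : ∀ z : ℝ, z ≤ K' * I → C1 * (K2 * (2 * r0) ^ α * z) < m := by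
    intro z hz
    calc C1 * (K2 * (2 * r0) ^ α * z) ≤ C1 * (K2 * (2 * r0) ^ α * (K' * (2 * t / c * m))) := by
          gcongr
          exact hz.trans (mul_le_mul_of_nonneg_left hI2 (by linarith))
      _ = (C1 * K2 * K' * (2 * t / c) * (2 * r0) ^ α) * m := by ring
      _ < 1 * m := by gcongr
      _ = m := one_mul m
  have exE : ¬ E ⊆ P '' Sq u (2 * r0) := by
    apply exitV D M hV H hK' hα1 hK2 H3 E u h0 h1 hmE
    rw [← hC1]; exact hex _ hVu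
  have exF : ¬ F ⊆ P '' Sq v (2 * r0) := by
    apply exitV D M hV H hK' hα1 hK2 H3 F v h0 h1 hmF
    rw [← hC1]; exact hex _ hVv
  rw [hC1] at hr
  have hgo : ∀ s : ℝ, 0 ≤ s → κ ≤ m * (1 + s) ^ 3 →
      (u.1 = s ∨ v.1 = -s ∨ (u.1 ≤ 0 ∧ 0 ≤ v.1 ∧ s = 0)) →
      ∃ u' v' : ℝ × ℝ, P u' ∈ E ∧ P v' ∈ F ∧ ¬ E ⊆ P '' Sq u' (2 * r0) ∧
      ¬ F ⊆ P '' Sq v' (2 * r0) ∧ |∫ x in u'.1..v'.1, 1 / (1 + |x|)| ≤ B + 2 * A := by
    intro s hs hm alt
    obtain ⟨u', v', g1, g2, g3, g4, g5⟩ := caseB1 D M hV H hK' hα1 hK2 H3 κ A hA hA3 h0 h1 hr E F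
      hE hF u v hu hv m hmE hmF exE exF s hs hm (by linarith) alt
    exact ⟨u', v', g1, g2, g3, g4, g5.trans (by linarith)⟩
  rcases le_or_gt 0 u.1 with ha | ha
  · rcases le_or_gt v.1 (B * (1 + u.1)) with hb | hb
    · refine ⟨u, v, hu, hv, exE, exF, ?_⟩
      apply Jb _ _ u.1 _ ha
      · intro x hx
        rw [uIoc_of_le (by linarith)] at hx
        exact hx.1.le.trans (le_abs_self x)
      · rw [abs_of_nonneg (by linarith)]
        nlinarith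
    · apply hgo u.1 ha _ (Or.inl rfl)
      have e1 := M.N_low u ha
      have e2 := M.N_up v (by linarith)
      have e3 : dist N (P u) ≤ dist N (P v) + dist (P u) (P v) := by
        rw [dist_comm (P u) (P v)]; exact dist_triangle _ _ _
      have p1 : 0 < 1 + v.1 := by linarith
      have e4 : c⁻¹ / (1 + v.1) ^ 3 ≤ (c / 2) / (1 + u.1) ^ 3 := by
        rw [div_le_div_iff₀ (by positivity) (by positivity)]
        have e5 : (B * (1 + u.1)) ^ 3 ≤ (1 + v.1) ^ 3 :=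
          pow_le_pow_left₀ (by positivity) (by linarith) 3
        calc c⁻¹ * (1 + u.1) ^ 3 ≤ (c / 2 * B ^ 3) * (1 + u.1) ^ 3 := by
              gcongr; linarith
          _ = c / 2 * (B * (1 + u.1)) ^ 3 := by ring
          _ ≤ _ := by gcongr
      have e6 : (c / 2) / (1 + u.1) ^ 3 ≤ 2 * t * m := by
        have : c / (1 + u.1) ^ 3 = (c / 2) / (1 + u.1) ^ 3 + (c / 2) / (1 + u.1) ^ 3 := by ring
        linarith
      rw [div_le_iff₀ (by positivity)] at e6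
      refine hκ3.trans ?_
      rw [div_le_iff₀ (by positivity)]
      linarith
  · rcases le_or_gt v.1 0 with hb | hb
    · rcases le_or_gt (-u.1) (B * (1 - v.1)) with hb' | hb'
      · refine ⟨u, v, hu, hv, exE, exF, ?_⟩
        apply Jb _ _ (-v.1) _ (by linarith)
        · intro x hx
          rw [uIoc_of_le (by linarith)] at hx
          have := neg_le_abs x
          linarith [hx.2]
        · rw [abs_of_nonneg (by linarith)]
          nlinarith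
      · apply hgo (-v.1) (by linarith) _ (Or.inr (Or.inl (by ring)))
        have e1 := M.S_low v hb
        have e2 := M.S_up u (by linarith)
        have e3 : dist S (P v) ≤ dist S (P u) + dist (P u) (P v) := dist_triangle _ _ _
        have p1 : 0 < 1 - u.1 := by linarith
        have p2 : 0 < 1 - v.1 := by linarith
        have e4 : c⁻¹ / (1 - u.1) ^ 3 ≤ (c / 2) / (1 - v.1) ^ 3 := by
          rw [div_le_div_iff₀ (by positivity) (by positivity)]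
          have e5 : (B * (1 - v.1)) ^ 3 ≤ (1 - u.1) ^ 3 :=
            pow_le_pow_left₀ (by positivity) (by linarith) 3
          calc c⁻¹ * (1 - v.1) ^ 3 ≤ (c / 2 * B ^ 3) * (1 - v.1) ^ 3 := by
                gcongr; linarith
            _ = c / 2 * (B * (1 - v.1)) ^ 3 := by ring
            _ ≤ _ := by gcongr
        have e6 : (c / 2) / (1 - v.1) ^ 3 ≤ 2 * t * m := by
          have : c / (1 - v.1) ^ 3 = (c / 2) / (1 - v.1) ^ 3 + (c / 2) / (1 - v.1) ^ 3 := by ring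
          linarith
        rw [div_le_iff₀ (by positivity)] at e6
        refine hκ3.trans ?_
        rw [div_le_iff₀ (by positivity), ← sub_eq_add_neg]
        linarith
    · apply hgo 0 le_rfl _ (Or.inr (Or.inr ⟨ha.le, hb.le, rfl⟩))
      have e1 : κ0 ≤ I := by
        rcases le_or_gt (1 / 2) v.1 with h | h
        · refine hκ1.trans ?_
          rw [V_eq D, hI']
          have e2 := hh_mono D (by linarith : (1 / 4 : ℝ) + 1 / 4 ≤ v.1)
          have e3 := hh_mono D (by linarith : u.1 ≤ (1 / 4 : ℝ) - 1 / 4)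
          linarith
        · refine hκ2.trans ?_
          rw [V_eq D, hI']
          have e2 := hh_mono D (by linarith : (-(1 / 4) : ℝ) + 1 / 4 ≤ v.1)
          have e3 := hh_mono D (by linarith : u.1 ≤ (-(1 / 4) : ℝ) - 1 / 4)
          linarith
      refine hκ4.trans ?_
      rw [div_mul_eq_mul_div, div_le_iff₀ (by positivity)]
      have e4 : c * κ0 ≤ c * I := mul_le_mul_of_nonneg_left e1 hc.le
      linarith

end model2

end ModSIZE

theorem mSIZE (hDB : StmDB) : StmSIZE := by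
  intro f C Y K D X _ P N S c M t ht
  obtain ⟨hV, hA, α, K2, hα, hα1, hK2, H3⟩ := hDB f C Y K D
  obtain ⟨K', hK', H⟩ := hA 8 (by norm_num)
  obtain ⟨A₁, hA₁, cA⟩ := ModSIZE.caseA D M hV H hK' hα hα1 hK2 H3 t ht
  obtain ⟨A₂, r0, hA₂, h0, h1, cB⟩ := ModSIZE.caseB D M hV H hK' hα hα1 hK2 H3 t ht
  refine ⟨max A₁ A₂, r0, hA₁.trans (le_max_left _ _), h0, h1, ?_⟩
  rintro E F hE hF ⟨e, he, p, hp, hep⟩
  have hDE : 0 < diam E := Metric.diam_pos hE.2.2 hE.1.isBounded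
  have hDF : 0 < diam F := Metric.diam_pos hF.2.2 hF.1.isBounded
  obtain ⟨m, hm⟩ : ∃ m, m = min (diam E) (diam F) := ⟨_, rfl⟩
  rw [← hm] at hep
  have hm0 : 0 < m := by rw [hm]; exact lt_min hDE hDF
  have hmE : m ≤ diam E := by rw [hm]; exact min_le_left _ _
  have hmF : m ≤ diam F := by rw [hm]; exact min_le_right _ _
  obtain ⟨u, hu, hu1⟩ := ModSIZE.nontip M E hE e he (t * m / 2) (by positivity)
  obtain ⟨w, hw, hw1⟩ := ModSIZE.nontip M F hF p hp (t * m / 2) (by positivity)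
  obtain ⟨v, hv, hv2⟩ : ∃ v : ℝ × ℝ, P v = P w ∧ |u.2 - v.2| ≤ 1 / 2 := by
    refine ⟨(w.1, w.2 + round (u.2 - w.2)), ?_, ?_⟩
    · rw [M.eq_iff]
      exact ⟨rfl, round (u.2 - w.2), by simp⟩
    · have := abs_sub_round (u.2 - w.2)
      rw [← sub_sub]; exact this
  have hd : dist (P u) (P v) ≤ 2 * t * m := by
    rw [hv]
    have e1 := dist_triangle4 (P u) e p (P w)
    rw [dist_comm (P u) e] at e1
    linarith
  rw [← hv] at hw
  rcases le_or_gt |u.1 - v.1| 1 with hx | hx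
  · obtain ⟨r, g1, g2, g3, g4, g5⟩ := cA E F u v m hm0 hmE hmF hx hv2 hd
    have g6 : ‖u - v‖ ≤ max A₁ A₂ * r :=
      g5.trans (mul_le_mul_of_nonneg_right (le_max_left _ _) g1.le)
    exact ⟨u, v, hu, hw, Or.inl ⟨r, g1, g2, g3, g4, (norm_fst_le (u - v)).trans g6,
      (norm_snd_le (u - v)).trans g6, hv2⟩⟩
  · rw [lt_abs] at hx
    rcases hx with hx | hx
    · obtain ⟨v', u', g1, g2, g3, g4, g5⟩ := cB F E v u m hF.2.1 hE.2.1 hw hu hm0 hmF hmE
        (by linarith) (by rw [dist_comm]; exact hd)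
      refine ⟨u', v', g2, g1, Or.inr ⟨g4, g3, ?_⟩⟩
      rw [intervalIntegral.integral_symm, abs_neg]
      exact g5.trans (le_max_right _ _)
    · obtain ⟨u', v', g1, g2, g3, g4, g5⟩ := cB E F u v m hE.2.1 hF.2.1 hu hw hm0 hmE hmF
        (by linarith) hd
      exact ⟨u', v', g1, g2, Or.inr ⟨g3, g4, g5.trans (le_max_right _ _)⟩⟩

end Pool.Agent.T6.H52.LS
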