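import Pool.Agent.T6.H52.LS.Defs2

/-! Project LS (helper52), module UPT. -/

set_option autoImplicit false
open MeasureTheory Filter Topology Metric Set

namespace Pool.Agent.T6.H52.LS

namespace ModUPT

variable {f : ℝ → ℝ} {C : Set ℝ} {Y : ℝ → ℝ → ℝ} {K : ℝ}

theorem f_le (h : Dat f C Y K) (x : ℝ) : f x ≤ K := by
  have h1 := h.le x
  have h2 : (1 : ℝ) ≤ (1 + |x|) ^ 2 := by
    have := abs_nonneg x
    nlinarith
  nlinarith [h.nonneg x]

theorem ii (h : Dat f C Y K) (a b : ℝ) : IntervalIntegrable f volume a b := by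
  refine (intervalIntegrable_const (c := K)).mono_fun' h.meas.aestronglyMeasurable ?_
  refine Filter.Eventually.of_forall fun x => ?_
  change ‖f x‖ ≤ K
  rw [Real.norm_eq_abs, abs_of_nonneg (h.nonneg x)]
  exact f_le h x

theorem V_mono (h : Dat f C Y K) (x : ℝ) {r s : ℝ} (hr : 0 ≤ r) (hrs : r ≤ s) :
    V f x r ≤ V f x s := by
  unfold V
  refine intervalIntegral.integral_mono_interval (by linarith) (by linarith) (by linarith)
    (Filter.Eventually.of_forall fun t => h.nonneg t) (ii h _ _)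

theorem V_nonneg (h : Dat f C Y K) (x : ℝ) {r : ℝ} (hr : 0 ≤ r) : 0 ≤ V f x r := by
  unfold V
  exact intervalIntegral.integral_nonneg (by linarith) fun t _ => h.nonneg t

theorem per_int (h : Dat f C Y K) (y : ℝ) (hy : y ∈ C) (k : ℤ) : y + k ∈ C := by
  induction k using Int.induction_on with
  | zero => simpa using hy
  | succ n ih =>
    have := (h.per (y + (n : ℤ))).2 ih
    convert this using 1
    push_cast
    ring
  | pred n ih =>
    have := (h.per (y + ((-(n : ℤ) - 1 : ℤ) : ℝ))).1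
    apply this
    convert ih using 1
    push_cast
    ring

theorem rr_le_one (h : Dat f C Y K) (y : ℝ) : rr C y ≤ 1 := by
  obtain ⟨c, hc⟩ := h.ne
  have hm := per_int h c hc ⌊y - c⌋
  unfold rr
  refine (infDist_le_dist_of_mem hm).trans ?_
  rw [Real.dist_eq]
  have h1 := Int.floor_le (y - c)
  have h2 := Int.lt_floor_add_one (y - c)
  rw [abs_le]
  constructor <;> linarith

theorem Gh_one_le (h : Dat f C Y K) (u : ℝ × ℝ) : Gh f C u 1 * (1 + |u.1|) ^ 4 ≤ K ^ 2 := by
  have hr0 : 0 ≤ rr C u.2 := infDist_nonneg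
  have hr1 := rr_le_one h u.2
  have hV : V f u.1 (1 + rr C u.2) ≤ K * V f u.1 1 := by
    refine (V_mono h u.1 (by linarith) (by linarith : 1 + rr C u.2 ≤ 2 * 1)).trans ?_
    exact h.dbl u.1 1 one_pos (by norm_num)
  have hV0 : 0 ≤ V f u.1 (1 + rr C u.2) := V_nonneg h _ (by linarith)
  have hG : Gh f C u 1 ≤ K * V f u.1 1 := by
    unfold Gh
    refine le_trans ?_ hV
    refine mul_le_of_le_one_right hV0 ?_
    rw [div_le_one (by linarith)]
    linarith
  have hup := h.up u.1
  have hp : 0 ≤ (1 + |u.1|) ^ 4 := by positivity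
  have hK : 0 ≤ K := by linarith [h.one_le]
  calc Gh f C u 1 * (1 + |u.1|) ^ 4 ≤ (K * V f u.1 1) * (1 + |u.1|) ^ 4 := by gcongr
    _ = K * ((1 + |u.1|) ^ 4 * V f u.1 1) := by ring
    _ ≤ K * K := by gcongr
    _ = K ^ 2 := by ring

theorem arith (a : ℝ) (ha : 1 ≤ a) : 1 / a ^ 4 ≤ 8 / a ^ 3 - 8 / (a + 1) ^ 3 := by
  have h0 : 0 < a := by linarith
  have e : 8 / a ^ 3 - 8 / (a + 1) ^ 3 - 1 / a ^ 4 =
      (8 * a * (3 * a ^ 2 + 3 * a + 1) - (a + 1) ^ 3) / (a ^ 4 * (a + 1) ^ 3) := by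
    field_simp
    ring
  have h : 0 ≤ 8 / a ^ 3 - 8 / (a + 1) ^ 3 - 1 / a ^ 4 := by
    rw [e]
    apply div_nonneg _ (by positivity)
    nlinarith [mul_nonneg (mul_nonneg h0.le h0.le) (sub_nonneg.2 ha), mul_nonneg h0.le
      (sub_nonneg.2 ha), mul_nonneg (mul_nonneg h0.le h0.le) h0.le]
  linarith

/-- the general telescoping argument -/
theorem tele (F : ℕ → ℝ) (L B a : ℝ) (ha : 1 ≤ a) (hB : 0 ≤ B)
    (hF : ∀ k : ℕ, |F k - F (k + 1)| ≤ B * (1 / (a + k) ^ 4)) (hL : Tendsto F atTop (𝓝 L)) :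
    |L - F 0| ≤ 8 * B / a ^ 3 := by
  have step : ∀ k : ℕ, |F k - F 0| ≤ 8 * B / a ^ 3 - 8 * B / (a + k) ^ 3 := by
    intro k
    induction k with
    | zero => simp
    | succ k ih =>
      have h1 := hF k
      have h2 := arith (a + k) (by have : (0 : ℝ) ≤ k := k.cast_nonneg
                                   linarith)
      have h3 : B * (1 / (a + k) ^ 4) ≤ B * (8 / (a + k) ^ 3 - 8 / (a + k + 1) ^ 3) := by
        gcongr
      have h4 : |F (k + 1) - F 0| ≤ |F k - F (k + 1)| + |F k - F 0| := by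
        rw [abs_sub_comm (F k) (F (k + 1))]
        exact abs_sub_le _ _ _
      push_cast
      rw [← add_assoc]
      have e : B * (8 / (a + k) ^ 3 - 8 / (a + k + 1) ^ 3) =
          8 * B / (a + k) ^ 3 - 8 * B / (a + k + 1) ^ 3 := by ring
      rw [e] at h3
      linarith
  have hlim : Tendsto (fun k => |F k - F 0|) atTop (𝓝 |L - F 0|) :=
    ((hL.sub_const _).abs)
  refine le_of_tendsto' hlim fun k => (step k).trans ?_
  have : 0 ≤ 8 * B / (a + k) ^ 3 := by
    have : (0 : ℝ) ≤ k := k.cast_nonneg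
    positivity
  linarith

theorem pot_step (h : Dat f C Y K) (Φ : S2 → ℝ) (hΦ : Φ ∈ Pot f C) (u v : ℝ × ℝ) (a : ℝ)
    (ha : 1 ≤ a) (hu : a ≤ 1 + |u.1|) (hv : a ≤ 1 + |v.1|) (huv : ‖u - v‖ = 1) :
    |Φ (Psi u) - Φ (Psi v)| ≤ (2 * K ^ 2) * (1 / a ^ 4) := by
  have h0 : 0 < a := by linarith
  have hb := hΦ.2.2 u v huv.le
  have key : ∀ w : ℝ × ℝ, a ≤ 1 + |w.1| → Gh f C w 1 ≤ K ^ 2 * (1 / a ^ 4) := by
    intro w hw
    have h1 := Gh_one_le h w
    have hp : 0 < (1 + |w.1|) ^ 4 := by positivity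
    rw [mul_one_div]
    calc Gh f C w 1 ≤ K ^ 2 / (1 + |w.1|) ^ 4 := by rw [le_div_iff₀ hp]; exact h1
      _ ≤ K ^ 2 / a ^ 4 := by gcongr
  have h1 := key u hu
  have h2 := key v hv
  unfold G at hb
  rw [huv] at hb
  linarith

end ModUPT

open ModUPT in
theorem mUPT (_ : StmDB) (hPSI : StmPSI) : StmUPT := by
  intro f C Y K h
  obtain ⟨-, -, -, -, -, -, tN, tS⟩ := hPSI
  have hK : 1 ≤ K := h.one_le
  refine ⟨8 * (2 * K ^ 2), by positivity, ?_⟩
  intro Φ hΦ
  have hcont : Continuous Φ := hΦ.1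
  constructor
  · intro u hu
    have t1 : Tendsto (fun k : ℕ => ((u.1 + k, u.2) : ℝ × ℝ)) atTop (comap Prod.fst atTop) := by
      rw [tendsto_comap_iff]
      exact tendsto_atTop_add_const_left _ _ tendsto_natCast_atTop_atTop
    have t2 : Tendsto (fun k : ℕ => Φ (Psi (u.1 + k, u.2))) atTop (𝓝 (Φ NN)) :=
      (hcont.tendsto NN).comp (tN.comp t1)
    have := tele (fun k : ℕ => Φ (Psi (u.1 + k, u.2))) (Φ NN) (2 * K ^ 2) (1 + u.1)
      (by linarith) (by positivity) (by
        intro k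
        have hk : (0 : ℝ) ≤ k := k.cast_nonneg
        refine pot_step h Φ hΦ _ _ _ (by linarith) ?_ ?_ ?_
        · rw [abs_of_nonneg (by simp; positivity)]
          simp only
          linarith
        · simp only
          push_cast
          rw [abs_of_nonneg (by positivity)]
          linarith
        · rw [Prod.norm_def]
          simp only [Prod.fst_sub, Prod.snd_sub, sub_self, norm_zero]
          push_cast
          have e : u.1 + (k : ℝ) - (u.1 + ((k : ℝ) + 1)) = -1 := by ring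
          rw [e]
          simp) t2
    simpa using this
  · intro u hu
    have t1 : Tendsto (fun k : ℕ => ((u.1 - k, u.2) : ℝ × ℝ)) atTop (comap Prod.fst atBot) := by
      rw [tendsto_comap_iff]
      have : (Prod.fst ∘ fun k : ℕ => ((u.1 - k, u.2) : ℝ × ℝ)) = fun k : ℕ => u.1 + -(k : ℝ) := by
        funext k
        simp [sub_eq_add_neg]
      rw [this]
      exact tendsto_atBot_add_const_left _ _
        (tendsto_neg_atTop_atBot.comp tendsto_natCast_atTop_atTop)
    have t2 : Tendsto (fun k : ℕ => Φ (Psi (u.1 - k, u.2))) atTop (𝓝 (Φ SS)) :=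
      (hcont.tendsto SS).comp (tS.comp t1)
    have := tele (fun k : ℕ => Φ (Psi (u.1 - k, u.2))) (Φ SS) (2 * K ^ 2) (1 - u.1)
      (by linarith) (by positivity) (by
        intro k
        have hk : (0 : ℝ) ≤ k := k.cast_nonneg
        refine pot_step h Φ hΦ _ _ _ (by linarith) ?_ ?_ ?_
        · simp only
          rw [abs_of_nonpos (by linarith)]
          linarith
        · simp only
          push_cast
          rw [abs_of_nonpos (by linarith)]
          linarith
        · rw [Prod.norm_def]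
          simp only [Prod.fst_sub, Prod.snd_sub, sub_self, norm_zero]
          push_cast
          have e : u.1 - (k : ℝ) - (u.1 - ((k : ℝ) + 1)) = 1 := by ring
          rw [e]
          simp) t2
    simpa using this

end Pool.Agent.T6.H52.LS
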