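import Pool.Agent.T6.H52.LS.Defs1

/-!
Project LS (helper52), MP_0f1fb3_an: module VDB, the doubling property and the size of `V f0`.
-/

set_option autoImplicit false
open MeasureTheory Filter Topology Metric Set
open scoped ENNReal NNReal

namespace Pool.Agent.T6.H52.LS

noncomputable section

namespace ModVDB

/-- mass of the triadic interval `[m/3^n, (m+1)/3^n]` -/
def II (n : ℕ) (m : ℤ) : ℝ := ∫ x in ((m : ℝ) / 3 ^ n)..(((m : ℝ) + 1) / 3 ^ n), f0 x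

lemma f0_ii (hPRO : StmPRO) (a b : ℝ) : IntervalIntegrable f0 volume a b := by
  obtain ⟨-, -, -, -, -, -, hm, -, h0, -, hb⟩ := hPRO
  rw [intervalIntegrable_iff]
  refine Measure.integrableOn_of_bounded (M := 1000) ?_ hm.aestronglyMeasurable ?_
  · rw [uIoc, Real.volume_Ioc]; exact ENNReal.ofReal_ne_top
  · refine Eventually.of_forall fun x => ?_
    have h1 : (1 : ℝ) ≤ (1 + |x|) ^ 2 := by nlinarith [abs_nonneg x]
    have h2 := hb x
    have h3 := h0 x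
    rw [Real.norm_eq_abs, abs_of_nonneg h3]
    nlinarith

lemma mono (hPRO : StmPRO) {a b c d : ℝ} (h1 : c ≤ a) (h2 : a ≤ b) (h3 : b ≤ d) :
    ∫ x in a..b, f0 x ≤ ∫ x in c..d, f0 x := by
  have hn : ∀ x, 0 ≤ f0 x := hPRO.2.2.2.2.2.2.2.2.1
  exact intervalIntegral.integral_mono_interval h1 h2 h3
    (Eventually.of_forall hn) (f0_ii hPRO c d)

lemma step (hADJ : StmADJ) : ∃ K : ℝ, 1 ≤ K ∧ ∀ (n : ℕ) (m : ℤ), 0 < II n m ∧
    II n m ≤ K * II n (m + 1) ∧ II n (m + 1) ≤ K * II n m := by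
  obtain ⟨K, hK, h⟩ := hADJ
  refine ⟨K, hK, fun n m => ?_⟩
  obtain ⟨h1, h2, h3⟩ := h n m
  have e : II n (m + 1) = ∫ x in (((m : ℝ) + 1) / 3 ^ n)..(((m : ℝ) + 2) / 3 ^ n), f0 x := by
    unfold II
    push_cast
    rw [show (m : ℝ) + 1 + 1 = m + 2 by ring]
  rw [e]
  exact ⟨h1, h2, h3⟩

lemma iter {K : ℝ} (hK : 1 ≤ K) (h : ∀ (n : ℕ) (m : ℤ), 0 < II n m ∧
    II n m ≤ K * II n (m + 1) ∧ II n (m + 1) ≤ K * II n m) (n : ℕ) (m : ℤ) (k : ℕ) :
    II n m ≤ K ^ k * II n (m + k) ∧ II n (m + k) ≤ K ^ k * II n m := by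
  have hK0 : 0 ≤ K := by linarith
  induction k with
  | zero => simp
  | succ k ih =>
    obtain ⟨i1, i2⟩ := ih
    obtain ⟨-, j1, j2⟩ := h n (m + k)
    have e : m + ((k + 1 : ℕ) : ℤ) = m + k + 1 := by push_cast; ring
    rw [e]
    refine ⟨?_, ?_⟩
    · calc II n m ≤ K ^ k * II n (m + k) := i1
        _ ≤ K ^ k * (K * II n (m + k + 1)) := by
            exact mul_le_mul_of_nonneg_left j1 (pow_nonneg hK0 k)
        _ = K ^ (k + 1) * II n (m + k + 1) := by ring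
    · calc II n (m + k + 1) ≤ K * II n (m + k) := j2
        _ ≤ K * (K ^ k * II n m) := mul_le_mul_of_nonneg_left i2 hK0
        _ = K ^ (k + 1) * II n m := by ring

lemma iter' {K : ℝ} (hK : 1 ≤ K) (h : ∀ (n : ℕ) (m : ℤ), 0 < II n m ∧
    II n m ≤ K * II n (m + 1) ∧ II n (m + 1) ≤ K * II n m) (n : ℕ) (m m' : ℤ) (k : ℕ)
    (h1 : m' ≤ m + k) (h2 : m ≤ m' + k) : II n m' ≤ K ^ k * II n m := by
  have aux : ∀ l : ℕ, l ≤ k → K ^ l * II n m ≤ K ^ k * II n m := fun l hl =>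
    mul_le_mul_of_nonneg_right (pow_le_pow_right₀ hK hl) (h n m).1.le
  rcases le_total m m' with hc | hc
  · obtain ⟨l, hl⟩ := Int.eq_ofNat_of_zero_le (sub_nonneg.2 hc)
    have e : m' = m + l := by omega
    rw [e]
    refine (iter hK h n m l).2.trans (aux l (by omega))
  · obtain ⟨l, hl⟩ := Int.eq_ofNat_of_zero_le (sub_nonneg.2 hc)
    have e : m = m' + l := by omega
    have := (iter hK h n m' l).1
    rw [← e] at this
    exact this.trans (aux l (by omega))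

lemma sum_le {K : ℝ} (hPRO : StmPRO) (hK : 1 ≤ K) (h : ∀ (n : ℕ) (m : ℤ), 0 < II n m ∧
    II n m ≤ K * II n (m + 1) ∧ II n (m + 1) ≤ K * II n m) (n : ℕ) (m p : ℤ) (k : ℕ)
    (h2 : m ≤ p + k) : ∀ L : ℕ, p + L ≤ m + k →
    ∫ x in ((p : ℝ) / 3 ^ n)..(((p : ℝ) + L) / 3 ^ n), f0 x ≤ L * (K ^ k * II n m) := by
  intro L
  induction L with
  | zero => intro _; simp
  | succ L ih =>
    intro hL
    have i1 := ih (by push_cast at hL; omega)
    have i2 : II n (p + L) ≤ K ^ k * II n m :=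
      iter' hK h n m (p + L) k (by push_cast at hL; omega) (by omega)
    have e : ∫ x in ((p : ℝ) / 3 ^ n)..(((p : ℝ) + (L + 1 : ℕ)) / 3 ^ n), f0 x =
        (∫ x in ((p : ℝ) / 3 ^ n)..(((p : ℝ) + L) / 3 ^ n), f0 x) + II n (p + L) := by
      have e2 : II n (p + L) =
          ∫ x in (((p : ℝ) + L) / 3 ^ n)..(((p : ℝ) + (L + 1 : ℕ)) / 3 ^ n), f0 x := by
        unfold II
        push_cast
        rw [add_assoc]
      rw [e2, intervalIntegral.integral_add_adjacent_intervals (f0_ii hPRO _ _) (f0_ii hPRO _ _)]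
    rw [e]
    push_cast
    linarith

lemma level (r : ℝ) (h0 : 0 < r) (h8 : r ≤ 8) : ∃ n : ℕ, 1 ≤ r * 3 ^ n ∧ r * 3 ^ n ≤ 8 := by
  classical
  have hex : ∃ n : ℕ, 1 ≤ r * 3 ^ n := by
    obtain ⟨n, hn⟩ := pow_unbounded_of_one_lt (1 / r) (by norm_num : (1 : ℝ) < 3)
    refine ⟨n, ?_⟩
    rw [div_lt_iff₀ h0] at hn
    linarith
  refine ⟨Nat.find hex, Nat.find_spec hex, ?_⟩
  rcases Nat.eq_zero_or_pos (Nat.find hex) with hz | hz
  · rw [hz]; simpa using h8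
  · have := Nat.find_min hex (m := Nat.find hex - 1) (by omega)
    have e : Nat.find hex = (Nat.find hex - 1) + 1 := by omega
    rw [e, pow_succ]
    push Not at this
    nlinarith

lemma dbl {K : ℝ} (hPRO : StmPRO) (hK : 1 ≤ K) (h : ∀ (n : ℕ) (m : ℤ), 0 < II n m ∧
    II n m ≤ K * II n (m + 1) ∧ II n (m + 1) ≤ K * II n m) (x r : ℝ) (h0 : 0 < r)
    (h8 : r ≤ 8) : V f0 x (2 * r) ≤ 34 * K ^ 34 * V f0 x r := by
  obtain ⟨n, hn1, hn8⟩ := level r h0 h8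
  have hp : (0 : ℝ) < 3 ^ n := by positivity
  set m : ℤ := ⌈(x - r) * 3 ^ n⌉ with hm
  have m1 : (x - r) * 3 ^ n ≤ m := Int.le_ceil _
  have m2 : (m : ℝ) < (x - r) * 3 ^ n + 1 := Int.ceil_lt_add_one _
  set p : ℤ := ⌊(x - 2 * r) * 3 ^ n⌋ with hpp
  have p1 : (p : ℝ) ≤ (x - 2 * r) * 3 ^ n := Int.floor_le _
  have p2 : (x - 2 * r) * 3 ^ n < (p : ℝ) + 1 := Int.lt_floor_add_one _
  have q1 : (p : ℤ) ≤ m := by
    have : (p : ℝ) ≤ m := by nlinarith
    exact_mod_cast this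
  have q2 : m ≤ p + 34 := by
    have : (m : ℝ) < (p : ℝ) + 34 := by nlinarith
    have h' : m < p + 34 := by exact_mod_cast this
    omega
  have key := sum_le hPRO hK h n m p 34 (by push_cast; omega) 34 (by push_cast; omega)
  have k1 : V f0 x (2 * r) ≤
      ∫ s in ((p : ℝ) / 3 ^ n)..(((p : ℝ) + (34 : ℕ)) / 3 ^ n), f0 s := by
    unfold V
    refine mono hPRO ?_ (by linarith) ?_
    · rw [div_le_iff₀ hp]; exact p1
    · rw [le_div_iff₀ hp]; push_cast; nlinarith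
  have k2 : II n m ≤ V f0 x r := by
    unfold V II
    refine mono hPRO ?_ ?_ ?_
    · rw [le_div_iff₀ hp]; exact m1
    · gcongr; linarith
    · rw [div_le_iff₀ hp]; nlinarith
  have hK34 : 0 ≤ K ^ 34 := pow_nonneg (by linarith) _
  have k3 : K ^ 34 * II n m ≤ K ^ 34 * V f0 x r := mul_le_mul_of_nonneg_left k2 hK34
  push_cast at key k1
  calc V f0 x (2 * r) ≤ _ := k1
    _ ≤ 34 * (K ^ 34 * II n m) := key
    _ ≤ 34 * (K ^ 34 * V f0 x r) := by linarith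
    _ = 34 * K ^ 34 * V f0 x r := by ring

lemma cell (hINT : StmINT) (j : ℤ) : ∫ x in (j : ℝ)..((j : ℝ) + 1), f0 x = wj j := by
  have hs : ¬ St 0 j := by
    unfold St Mc Xv
    push Not
    have : (0 : ℝ) ≤ |((j / 3 ^ 0 : ℤ) : ℝ)| := abs_nonneg _
    nlinarith
  have := hINT 0 j (Or.inl hs)
  simpa [Xv] using this

lemma wj_pos (j : ℤ) : 0 < wj j := by unfold wj; positivity

lemma wj_low (x : ℝ) : 1 ≤ 16 * ((1 + |x|) ^ 4 * wj ⌊x⌋) := by
  have h1 : |((⌊x⌋ : ℤ) : ℝ)| ≤ |x| + 1 := by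
    have a := Int.floor_le x
    have b := Int.lt_floor_add_one x
    rw [abs_le]
    constructor
    · have := neg_abs_le x; linarith
    · have := le_abs_self x; linarith
  have h0 := abs_nonneg x
  have h2 := abs_nonneg ((⌊x⌋ : ℤ) : ℝ)
  have h3 : (1 + |((⌊x⌋ : ℤ) : ℝ)|) ^ 4 ≤ (2 * (1 + |x|)) ^ 4 := by
    apply pow_le_pow_left₀ (by linarith); linarith
  unfold wj
  have hp : 0 < (1 + |((⌊x⌋ : ℤ) : ℝ)|) ^ 4 := by positivity
  rw [mul_one_div, ← mul_div_assoc, le_div_iff₀ hp]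
  calc 1 * (1 + |((⌊x⌋ : ℤ) : ℝ)|) ^ 4 ≤ (2 * (1 + |x|)) ^ 4 := by linarith
    _ = 16 * (1 + |x|) ^ 4 := by ring

lemma wj_up (x : ℝ) (j : ℤ) (h : |x - j| ≤ 2) : (1 + |x|) ^ 4 * wj j ≤ 81 := by
  have h1 : |x| ≤ |(j : ℝ)| + 2 := by
    have := abs_sub_abs_le_abs_sub x (j : ℝ)
    linarith
  have h0 := abs_nonneg x
  have h2 := abs_nonneg (j : ℝ)
  have h3 : (1 + |x|) ^ 4 ≤ (3 * (1 + |(j : ℝ)|)) ^ 4 := by
    apply pow_le_pow_left₀ (by linarith); linarith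
  unfold wj
  have hp : 0 < (1 + |(j : ℝ)|) ^ 4 := by positivity
  rw [mul_one_div, div_le_iff₀ hp]
  calc (1 + |x|) ^ 4 ≤ _ := h3
    _ = 81 * (1 + |(j : ℝ)|) ^ 4 := by ring

lemma low (hPRO : StmPRO) (hINT : StmINT) (x : ℝ) : 1 ≤ 16 * ((1 + |x|) ^ 4 * V f0 x 1) := by
  have h1 : wj ⌊x⌋ ≤ V f0 x 1 := by
    rw [← cell hINT]
    unfold V
    have a := Int.floor_le x
    have b := Int.lt_floor_add_one x
    exact mono hPRO (by linarith) (by linarith) (by linarith)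
  have hp : 0 ≤ (1 + |x|) ^ 4 := by positivity
  have := mul_le_mul_of_nonneg_left h1 hp
  linarith [wj_low x]

lemma up (hPRO : StmPRO) (hINT : StmINT) (x : ℝ) : (1 + |x|) ^ 4 * V f0 x 1 ≤ 243 := by
  have a := Int.floor_le x
  have b := Int.lt_floor_add_one x
  have h1 : V f0 x 1 ≤ wj (⌊x⌋ - 1) + wj ⌊x⌋ + wj (⌊x⌋ + 1) := by
    have c1 := cell hINT (⌊x⌋ - 1)
    have c2 := cell hINT ⌊x⌋
    have c3 := cell hINT (⌊x⌋ + 1)
    push_cast at c1 c3
    rw [sub_add_cancel] at c1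
    rw [← c1, ← c2, ← c3,
      intervalIntegral.integral_add_adjacent_intervals (f0_ii hPRO _ _) (f0_ii hPRO _ _),
      intervalIntegral.integral_add_adjacent_intervals (f0_ii hPRO _ _) (f0_ii hPRO _ _)]
    unfold V
    exact mono hPRO (by linarith) (by linarith) (by linarith)
  have hp : 0 ≤ (1 + |x|) ^ 4 := by positivity
  have h2 := mul_le_mul_of_nonneg_left h1 hp
  have u1 := wj_up x (⌊x⌋ - 1) (by push_cast; rw [abs_le]; constructor <;> linarith)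
  have u2 := wj_up x ⌊x⌋ (by rw [abs_le]; constructor <;> linarith)
  have u3 := wj_up x (⌊x⌋ + 1) (by push_cast; rw [abs_le]; constructor <;> linarith)
  rw [mul_add, mul_add] at h2
  linarith

end ModVDB

open ModVDB in
theorem mVDB (hPRO : StmPRO) (hINT : StmINT) (hADJ : StmADJ) : StmVDB := by
  obtain ⟨K, hK, h⟩ := step hADJ
  have hK1 : (1 : ℝ) ≤ K ^ 34 := one_le_pow₀ hK
  have hn : ∀ x, 0 ≤ f0 x := hPRO.2.2.2.2.2.2.2.2.1
  have hV : ∀ x r, 0 ≤ r → 0 ≤ V f0 x r := fun x r hr =>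
    intervalIntegral.integral_nonneg (by linarith) fun s _ => hn s
  refine ⟨34 * K ^ 34 + 243, by linarith, ?_, ?_, ?_⟩
  · intro x r h0 h8
    refine (dbl hPRO hK h x r h0 h8).trans ?_
    exact mul_le_mul_of_nonneg_right (by linarith) (hV x r h0.le)
  · intro x
    refine (low hPRO hINT x).trans ?_
    refine mul_le_mul_of_nonneg_right (by linarith) ?_
    exact mul_nonneg (by positivity) (hV x 1 zero_le_one)
  · intro x
    exact (up hPRO hINT x).trans (by linarith)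

end

end Pool.Agent.T6.H52.LS
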