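import Pool.Agent.T6.H52.LS.Defs1

/-!
Project LS (helper52), MP_0f1fb3_an: module YEN, the energy of the flow (helper61).
-/

set_option autoImplicit false
open MeasureTheory Filter Topology Metric Set
open scoped ENNReal NNReal

namespace Pool.Agent.T6.H52.LS

noncomputable section

namespace ModYEN

/-- Cauchy-Schwarz -/
theorem cs {α : Type} [MeasurableSpace α] (μ : Measure α) {f h : α → ℝ≥0∞} (hf : Measurable f)
    (hh : Measurable h) :
    (∫⁻ x, f x * h x ∂μ) ^ 2 ≤ (∫⁻ x, f x ^ 2 ∂μ) * ∫⁻ x, h x ^ 2 ∂μ := by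
  have h1 := ENNReal.lintegral_mul_le_Lp_mul_Lq μ Real.HolderConjugate.two_two hf.aemeasurable
    hh.aemeasurable
  simp only [Pi.mul_apply, ENNReal.rpow_two] at h1
  calc (∫⁻ x, f x * h x ∂μ) ^ 2 ≤
        ((∫⁻ x, f x ^ 2 ∂μ) ^ (1 / 2 : ℝ) * (∫⁻ x, h x ^ 2 ∂μ) ^ (1 / 2 : ℝ)) ^ 2 := by
        gcongr
    _ = (∫⁻ x, f x ^ 2 ∂μ) * ∫⁻ x, h x ^ 2 ∂μ := by
        rw [← ENNReal.mul_rpow_of_nonneg _ _ (by norm_num), ← ENNReal.rpow_two,
          ← ENNReal.rpow_mul]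
        norm_num

/-- the weight -/
def w (x : ℝ) : ℝ≥0∞ := ∑' k : ℕ, if ((3 : ℝ) ^ (k + 1))⁻¹ < dl x ∧ dl x ≤ ((3 : ℝ) ^ k)⁻¹ then
  ENNReal.ofReal ((3 / 2) ^ (k + 1)) else 0

theorem meas_set (hdl : Measurable dl) (k : ℕ) :
    MeasurableSet {x | ((3 : ℝ) ^ (k + 1))⁻¹ < dl x ∧ dl x ≤ ((3 : ℝ) ^ k)⁻¹} :=
  (measurableSet_lt measurable_const hdl).inter (measurableSet_le hdl measurable_const)

theorem meas_w (hdl : Measurable dl) : Measurable w := by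
  unfold w
  exact Measurable.ennreal_tsum fun k =>
    Measurable.ite (meas_set hdl k) measurable_const measurable_const

theorem exists_k {δ : ℝ} (h0 : 0 < δ) (h1 : δ ≤ 1) :
    ∃ k : ℕ, ((3 : ℝ) ^ (k + 1))⁻¹ < δ ∧ δ ≤ ((3 : ℝ) ^ k)⁻¹ := by
  obtain ⟨k, hk1, hk2⟩ := exists_nat_pow_near (one_le_inv_iff₀.2 ⟨h0, h1⟩)
    (show (1 : ℝ) < 3 by norm_num)
  refine ⟨k, ?_, ?_⟩
  · rw [inv_lt_comm₀ (by positivity) h0]
    exact hk2
  · rw [le_inv_comm₀ h0 (by positivity)]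
    exact hk1

/-- structure of a point with positive density -/
theorem point (hPRO : StmPRO) {x : ℝ} (hx : f0 x ≠ 0) : ∃ (n : ℕ) (u : ℝ), Fs n (fl n x) ∧
    0 < u ∧ u < 1 ∧ x = (fl n x + u) / 3 ^ n ∧ dl x = min u (1 - u) / 3 ^ n := by
  obtain ⟨p1, p2, -⟩ := hPRO
  by_contra hc
  push Not at hc
  have h1 : ∃ n, Fs n (fl n x) := by
    by_contra h
    push Not at h
    exact hx (p2 x h).1
  obtain ⟨n, hn⟩ := h1
  have h3 : (0 : ℝ) < 3 ^ n := by positivity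
  have hxe : x = (fl n x + Int.fract ((3 : ℝ) ^ n * x)) / 3 ^ n := by
    unfold fl
    rw [Int.floor_add_fract]
    field_simp
  obtain ⟨q1, q2⟩ := p1 n (fl n x) (Int.fract ((3 : ℝ) ^ n * x)) hn (Int.fract_nonneg _)
    (Int.fract_lt_one _)
  rw [← hxe] at q1 q2
  have hu : 0 < Int.fract ((3 : ℝ) ^ n * x) := by
    refine lt_of_le_of_ne (Int.fract_nonneg _) fun h => ?_
    apply hx
    rw [q1, ← h]
    simp
  exact hc n _ hn hu (Int.fract_lt_one _) hxe q2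

theorem F_le (hPRO : StmPRO) (hFFA : StmFFA) (hFFB : StmFFB) {g : ℝ × ℝ → ℝ≥0∞}
    (hg : Measurable g) {x : ℝ} (hx : f0 x ≠ 0) :
    (∫⁻ t in Icc (0 : ℝ) 1, g (x, Y0 t x)) ^ 2 ≤ w x * ∫⁻ y in Icc (0 : ℝ) 1, g (x, y) ^ 2 := by
  obtain ⟨n, u, -, hu0, hu1, -, hd⟩ := point hPRO hx
  have h3 : (1 : ℝ) ≤ 3 ^ n := one_le_pow₀ (by norm_num)
  have hd0 : 0 < dl x := by
    rw [hd]
    exact div_pos (lt_min hu0 (by linarith)) (by positivity)
  have hd1 : dl x ≤ 1 := by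
    rw [hd, div_le_one (by positivity)]
    exact (min_le_left _ _).trans (hu1.le.trans h3)
  obtain ⟨k, hk1, hk2⟩ := exists_k hd0 hd1
  have hm : Measurable fun t : ℝ => g (x, Y0 t x) := by
    unfold Y0
    have h4 : Measurable fun t : ℝ => FF t (dl x) :=
      hFFA.2.2.2.comp (measurable_id.prodMk measurable_const)
    exact hg.comp (measurable_const.prodMk h4)
  have h1 := cs (volume.restrict (Icc (0 : ℝ) 1)) (f := fun _ => 1) measurable_const hm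
  simp only [one_mul, one_pow] at h1
  rw [lintegral_one, Measure.restrict_apply_univ, Real.volume_Icc, sub_zero, ENNReal.ofReal_one,
    one_mul] at h1
  refine h1.trans ?_
  have h2 := hFFB k (dl x) hk1 hk2 (fun y => g (x, y) ^ 2)
    ((hg.comp (measurable_const.prodMk measurable_id)).pow_const 2)
  refine h2.trans ?_
  gcongr
  unfold w
  refine le_trans ?_ (ENNReal.le_tsum k)
  rw [if_pos ⟨hk1, hk2⟩]

/-- the integral of the weight over a first stopped interval -/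
theorem int_I (hPRO : StmPRO) {n : ℕ} {m : ℤ} (hF : Fs n m) :
    ∫⁻ x in Ico ((m : ℝ) / 3 ^ n) (((m : ℝ) + 1) / 3 ^ n), w x ≤
      ENNReal.ofReal (6 / 2 ^ n) := by
  obtain ⟨p1, -, -, -, -, -, -, hdl, -⟩ := hPRO
  have h3 : (0 : ℝ) < 3 ^ n := by positivity
  unfold w
  rw [lintegral_tsum fun k => (Measurable.ite (meas_set hdl k) measurable_const
    measurable_const).aemeasurable]
  have hk : ∀ k : ℕ, ∫⁻ x in Ico ((m : ℝ) / 3 ^ n) (((m : ℝ) + 1) / 3 ^ n),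
      (if ((3 : ℝ) ^ (k + 1))⁻¹ < dl x ∧ dl x ≤ ((3 : ℝ) ^ k)⁻¹ then
        ENNReal.ofReal ((3 / 2) ^ (k + 1)) else 0) ≤
      ENNReal.ofReal (if n ≤ k then 3 / 2 ^ k else 0) := by
    intro k
    have e1 : ∀ x : ℝ, (if ((3 : ℝ) ^ (k + 1))⁻¹ < dl x ∧ dl x ≤ ((3 : ℝ) ^ k)⁻¹ then
        ENNReal.ofReal ((3 / 2) ^ (k + 1)) else 0) =
        {x | ((3 : ℝ) ^ (k + 1))⁻¹ < dl x ∧ dl x ≤ ((3 : ℝ) ^ k)⁻¹}.indicator
          (fun _ => ENNReal.ofReal ((3 / 2) ^ (k + 1))) x := fun x => by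
      by_cases hc : ((3 : ℝ) ^ (k + 1))⁻¹ < dl x ∧ dl x ≤ ((3 : ℝ) ^ k)⁻¹
      · rw [if_pos hc, Set.indicator_of_mem (show x ∈ {x | ((3 : ℝ) ^ (k + 1))⁻¹ < dl x ∧
          dl x ≤ ((3 : ℝ) ^ k)⁻¹} from hc)]
      · rw [if_neg hc, Set.indicator_of_notMem (show x ∉ {x | ((3 : ℝ) ^ (k + 1))⁻¹ < dl x ∧
          dl x ≤ ((3 : ℝ) ^ k)⁻¹} from hc)]
    simp_rw [e1]
    rw [lintegral_indicator_const (meas_set hdl k), Measure.restrict_apply (meas_set hdl k)]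
    -- the position of the points
    have hpos : ∀ x ∈ {x | ((3 : ℝ) ^ (k + 1))⁻¹ < dl x ∧ dl x ≤ ((3 : ℝ) ^ k)⁻¹} ∩
        Ico ((m : ℝ) / 3 ^ n) (((m : ℝ) + 1) / 3 ^ n), n ≤ k ∧
        (x ∈ Icc ((m : ℝ) / 3 ^ n) ((m : ℝ) / 3 ^ n + ((3 : ℝ) ^ k)⁻¹) ∨
         x ∈ Icc (((m : ℝ) + 1) / 3 ^ n - ((3 : ℝ) ^ k)⁻¹) (((m : ℝ) + 1) / 3 ^ n)) := by
      rintro x ⟨⟨hx1, hx2⟩, hx3, hx4⟩
      rw [div_le_iff₀ h3] at hx3
      rw [lt_div_iff₀ h3] at hx4
      have hxe : x = ((m : ℝ) + (x * 3 ^ n - m)) / 3 ^ n := by field_simp; ring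
      have hq := (p1 n m (x * 3 ^ n - m) hF (by linarith) (by linarith)).2
      rw [← hxe] at hq
      have hu0 : 0 ≤ x * 3 ^ n - m := by linarith
      have hu1 : x * 3 ^ n - m ≤ 1 := by linarith
      constructor
      · by_contra hlt
        push Not at hlt
        have h5 : (3 : ℝ) ^ (k + 1) ≤ 3 ^ n := pow_le_pow_right₀ (by norm_num) hlt
        have h6 : dl x ≤ ((3 : ℝ) ^ n)⁻¹ / 2 := by
          rw [hq, div_le_iff₀ h3]
          have : ((3 : ℝ) ^ n)⁻¹ / 2 * 3 ^ n = 1 / 2 := by field_simp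
          rw [this]
          rcases le_total (x * 3 ^ n - m) (1 / 2) with h | h
          · exact (min_le_left _ _).trans h
          · exact (min_le_right _ _).trans (by linarith)
        have h7 : ((3 : ℝ) ^ n)⁻¹ ≤ ((3 : ℝ) ^ (k + 1))⁻¹ := inv_anti₀ (by positivity) h5
        have h8 : (0 : ℝ) < ((3 : ℝ) ^ n)⁻¹ := by positivity
        linarith
      · rw [hq, div_le_iff₀ h3] at hx2
        rcases min_le_iff.1 hx2 with h | h
        · left
          refine ⟨by rw [div_le_iff₀ h3]; exact hx3, ?_⟩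
          rw [← sub_le_iff_le_add', ← mul_le_mul_iff_left₀ h3]
          have : (x - (m : ℝ) / 3 ^ n) * 3 ^ n = x * 3 ^ n - m := by field_simp
          rw [this]
          exact h
        · right
          refine ⟨?_, by rw [le_div_iff₀ h3]; exact hx4.le⟩
          rw [sub_le_comm, ← mul_le_mul_iff_left₀ h3]
          have : (((m : ℝ) + 1) / 3 ^ n - x) * 3 ^ n = 1 - (x * 3 ^ n - m) := by field_simp; ring
          rw [this]
          exact h
    by_cases hnk : n ≤ k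
    · rw [if_pos hnk]
      have hv : volume ({x | ((3 : ℝ) ^ (k + 1))⁻¹ < dl x ∧ dl x ≤ ((3 : ℝ) ^ k)⁻¹} ∩
          Ico ((m : ℝ) / 3 ^ n) (((m : ℝ) + 1) / 3 ^ n)) ≤ ENNReal.ofReal (2 * ((3 : ℝ) ^ k)⁻¹) := by
        calc _ ≤ volume (Icc ((m : ℝ) / 3 ^ n) ((m : ℝ) / 3 ^ n + ((3 : ℝ) ^ k)⁻¹) ∪
              Icc (((m : ℝ) + 1) / 3 ^ n - ((3 : ℝ) ^ k)⁻¹) (((m : ℝ) + 1) / 3 ^ n)) :=
              measure_mono fun x hx => (hpos x hx).2
          _ ≤ _ := measure_union_le _ _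
          _ = ENNReal.ofReal (2 * ((3 : ℝ) ^ k)⁻¹) := by
              rw [Real.volume_Icc, Real.volume_Icc, ← ENNReal.ofReal_add]
              · congr 1; ring
              · have : (0 : ℝ) < ((3 : ℝ) ^ k)⁻¹ := by positivity
                linarith
              · have : (0 : ℝ) < ((3 : ℝ) ^ k)⁻¹ := by positivity
                linarith
      calc _ ≤ ENNReal.ofReal ((3 / 2) ^ (k + 1)) * ENNReal.ofReal (2 * ((3 : ℝ) ^ k)⁻¹) := by
            gcongr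
        _ = ENNReal.ofReal (3 / 2 ^ k) := by
            rw [← ENNReal.ofReal_mul (by positivity)]
            congr 1
            rw [div_pow, pow_succ, pow_succ]
            field_simp
    · have he : {x | ((3 : ℝ) ^ (k + 1))⁻¹ < dl x ∧ dl x ≤ ((3 : ℝ) ^ k)⁻¹} ∩
          Ico ((m : ℝ) / 3 ^ n) (((m : ℝ) + 1) / 3 ^ n) = ∅ := by
        rw [Set.eq_empty_iff_forall_notMem]
        intro x hx
        exact hnk (hpos x hx).1
      rw [he, measure_empty, mul_zero]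
      exact zero_le
  refine (ENNReal.tsum_le_tsum hk).trans ?_
  refine ENNReal.tsum_le_of_sum_range_le fun N => ?_
  rw [← ENNReal.ofReal_sum_of_nonneg]
  · refine ENNReal.ofReal_le_ofReal ?_
    have h5 : ∑ k ∈ Finset.range N, (if n ≤ k then (3 : ℝ) / 2 ^ k else 0) ≤
        6 / 2 ^ n - 6 / 2 ^ (max n N) := by
      induction N with
      | zero => simp
      | succ N ih =>
        rw [Finset.sum_range_succ]
        by_cases h : n ≤ N
        · rw [if_pos h, max_eq_right (by omega)]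
          rw [max_eq_right h] at ih
          have : (6 : ℝ) / 2 ^ (N + 1) = 3 / 2 ^ N := by
            rw [pow_succ]; field_simp; norm_num
          have h6 : (6 : ℝ) / 2 ^ N = 3 / 2 ^ N + 3 / 2 ^ N := by ring
          linarith
        · rw [if_neg h, max_eq_left (by omega)]
          rw [max_eq_left (by omega)] at ih
          linarith
    have : (0 : ℝ) < 6 / 2 ^ (max n N) := by positivity
    linarith
  · intro k _
    split_ifs <;> positivity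

/-- the integral of the weight over a cell -/
theorem int_cell (hPRO : StmPRO) (hSUM : StmSUM) (j : ℤ) :
    ∫⁻ x in Ico (j : ℝ) (j + 1) ∩ {x | f0 x ≠ 0}, w x ≤
      ENNReal.ofReal (3 / (1 + |(j : ℝ)|)) := by
  classical
  obtain ⟨S, hS⟩ : ∃ S : ℕ → ℤ → Set ℝ, ∀ n m, S n m =
      if m ∈ Finset.Ico (j * 3 ^ n) ((j + 1) * 3 ^ n) ∧ Fs n m then
        Ico ((m : ℝ) / 3 ^ n) (((m : ℝ) + 1) / 3 ^ n) else ∅ := ⟨_, fun _ _ => rfl⟩
  have hsub : Ico (j : ℝ) (j + 1) ∩ {x | f0 x ≠ 0} ⊆ ⋃ p : ℕ × ℤ, S p.1 p.2 := by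
    rintro x ⟨⟨hx1, hx2⟩, hx3⟩
    obtain ⟨n, u, hn, -, -, -, -⟩ := point hPRO hx3
    have h3 : (0 : ℝ) < 3 ^ n := by positivity
    refine mem_iUnion.2 ⟨(n, fl n x), ?_⟩
    show x ∈ S n (fl n x)
    rw [hS, if_pos]
    · constructor
      · rw [div_le_iff₀ h3, mul_comm]
        exact Int.floor_le _
      · rw [lt_div_iff₀ h3, mul_comm]
        exact Int.lt_floor_add_one _
    · refine ⟨Finset.mem_Ico.2 ⟨?_, ?_⟩, hn⟩
      · unfold fl
        rw [Int.le_floor]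
        push_cast
        nlinarith
      · unfold fl
        rw [Int.floor_lt]
        push_cast
        nlinarith
  calc ∫⁻ x in Ico (j : ℝ) (j + 1) ∩ {x | f0 x ≠ 0}, w x
      ≤ ∫⁻ x in ⋃ p : ℕ × ℤ, S p.1 p.2, w x := lintegral_mono_set hsub
    _ ≤ ∑' p : ℕ × ℤ, ∫⁻ x in S p.1 p.2, w x := lintegral_iUnion_le _ _
    _ = ∑' n, ∑' m, ∫⁻ x in S n m, w x :=
        ENNReal.tsum_prod (f := fun n m => ∫⁻ x in S n m, w x)
    _ ≤ ∑' n : ℕ, ENNReal.ofReal (6 * ∑ m ∈ Finset.Ico (j * 3 ^ n) ((j + 1) * 3 ^ n),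
          (if Fs n m then ((2 : ℝ) ^ n)⁻¹ else 0)) := by
        refine ENNReal.tsum_le_tsum fun n => ?_
        rw [tsum_eq_sum (s := Finset.Ico (j * 3 ^ n) ((j + 1) * 3 ^ n)), Finset.mul_sum,
          ENNReal.ofReal_sum_of_nonneg]
        · refine Finset.sum_le_sum fun m hm => ?_
          rw [hS]
          by_cases hF : Fs n m
          · rw [if_pos ⟨hm, hF⟩, if_pos hF]
            refine (int_I hPRO hF).trans (le_of_eq ?_)
            rw [div_eq_mul_inv]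
          · rw [if_neg (fun h => hF h.2)]
            simp
        · intro m _
          split_ifs <;> positivity
        · intro m hm
          rw [hS, if_neg (fun h => hm h.1)]
          simp
    _ ≤ ENNReal.ofReal (3 / (1 + |(j : ℝ)|)) := by
        refine ENNReal.tsum_le_of_sum_range_le fun N => ?_
        rw [← ENNReal.ofReal_sum_of_nonneg]
        · refine ENNReal.ofReal_le_ofReal ?_
          rw [← Finset.mul_sum]
          have h1 := hSUM j N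
          have h2 : 3 / (1 + |(j : ℝ)|) = 6 * (1 / (2 * (1 + |(j : ℝ)|))) := by
            field_simp
            norm_num
          rw [h2]
          exact mul_le_mul_of_nonneg_left h1 (by norm_num)
        · intro n _
          refine mul_nonneg (by norm_num) (Finset.sum_nonneg fun m _ => ?_)
          split_ifs <;> positivity

theorem cont_H : Continuous fun x : ℝ => 1 / (1 + |x|) :=
  Continuous.div continuous_const (by fun_prop) fun x => by positivity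

theorem H_int (a b : ℝ) : IntervalIntegrable (fun x : ℝ => 1 / (1 + |x|)) volume a b :=
  cont_H.intervalIntegrable _ _

theorem H_cell (j : ℤ) : 1 / (1 + |(j : ℝ)|) ≤ 2 * ∫ x in (j : ℝ)..(j + 1), 1 / (1 + |x|) := by
  have h1 : ∫ _ in (j : ℝ)..(j + 1), 1 / (2 * (1 + |(j : ℝ)|)) ≤
      ∫ x in (j : ℝ)..(j + 1), 1 / (1 + |x|) := by
    refine intervalIntegral.integral_mono_on (by linarith) (by simp) (H_int _ _) fun x hx => ?_
    refine one_div_le_one_div_of_le (by positivity) ?_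
    have h2 : |x| ≤ |(j : ℝ)| + |x - j| := by
      have := abs_add_le (j : ℝ) (x - j)
      simpa using this
    have h3 : |x - j| ≤ 1 := by
      rw [abs_le]; constructor <;> linarith [hx.1, hx.2]
    have h4 := abs_nonneg (j : ℝ)
    linarith
  rw [intervalIntegral.integral_const] at h1
  have h5 : ((j : ℝ) + 1 - j) • (1 / (2 * (1 + |(j : ℝ)|))) = 1 / (1 + |(j : ℝ)|) / 2 := by
    rw [smul_eq_mul]
    field_simp
    ring
  rw [h5] at h1
  linarith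

theorem H_sum (A : ℤ) (N : ℕ) : ∑ i ∈ Finset.range N, 1 / (1 + |((A + i : ℤ) : ℝ)|) ≤
    2 * ∫ x in (A : ℝ)..(A + N), 1 / (1 + |x|) := by
  induction N with
  | zero => simp
  | succ N ih =>
    rw [Finset.sum_range_succ]
    have h1 := H_cell (A + N)
    have h2 := intervalIntegral.integral_add_adjacent_intervals (H_int A (A + N))
      (H_int (A + N) (A + N + 1))
    have h3 : ((A + (N : ℤ) : ℤ) : ℝ) = (A : ℝ) + N := by push_cast; ring
    rw [h3] at h1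
    rw [h3]
    have h4 : ((A : ℝ) + ((N + 1 : ℕ) : ℝ)) = A + N + 1 := by push_cast; ring
    rw [h4]
    linarith

theorem H_le {a b : ℝ} (h : a ≤ b) : ∫ x in a..b, 1 / (1 + |x|) ≤ b - a := by
  have h1 : ∫ x in a..b, 1 / (1 + |x|) ≤ ∫ _ in a..b, (1 : ℝ) := by
    refine intervalIntegral.integral_mono_on h (H_int _ _) (by simp) fun x _ => ?_
    rw [div_le_one (by positivity)]
    have := abs_nonneg x
    linarith
  simpa using h1

/-- the integral of the weight -/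
theorem int_D (hPRO : StmPRO) (hSUM : StmSUM) {a b : ℝ} (hab : a ≤ b) :
    ∫⁻ x in Icc a b ∩ {x | f0 x ≠ 0}, w x ≤
      ENNReal.ofReal (12 * (1 + ∫ x in a..b, 1 / (1 + |x|))) := by
  have hfl : ⌊a⌋ ≤ ⌊b⌋ := Int.floor_le_floor hab
  obtain ⟨N, hN⟩ : ∃ N : ℕ, (N : ℤ) = ⌊b⌋ - ⌊a⌋ + 1 := ⟨(⌊b⌋ - ⌊a⌋ + 1).toNat, by omega⟩
  have hsub : Icc a b ∩ {x | f0 x ≠ 0} ⊆ ⋃ i : Fin N,
      (Ico (((⌊a⌋ + ((i : ℕ) : ℤ) : ℤ)) : ℝ) (((⌊a⌋ + ((i : ℕ) : ℤ) : ℤ) : ℝ) + 1) ∩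
        {x | f0 x ≠ 0}) := by
    rintro x ⟨⟨hx1, hx2⟩, hx3⟩
    have g1 : ⌊a⌋ ≤ ⌊x⌋ := Int.floor_le_floor hx1
    have g2 : ⌊x⌋ ≤ ⌊b⌋ := Int.floor_le_floor hx2
    refine mem_iUnion.2 ⟨⟨(⌊x⌋ - ⌊a⌋).toNat, by omega⟩, ?_, hx3⟩
    have g3 : ⌊a⌋ + (((⌊x⌋ - ⌊a⌋).toNat : ℕ) : ℤ) = ⌊x⌋ := by omega
    show x ∈ Ico (((⌊a⌋ + (((⌊x⌋ - ⌊a⌋).toNat : ℕ) : ℤ) : ℤ)) : ℝ)
      (((⌊a⌋ + (((⌊x⌋ - ⌊a⌋).toNat : ℕ) : ℤ) : ℤ) : ℝ) + 1)
    rw [g3]
    exact ⟨Int.floor_le x, Int.lt_floor_add_one x⟩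
  calc ∫⁻ x in Icc a b ∩ {x | f0 x ≠ 0}, w x ≤ _ := lintegral_mono_set hsub
    _ ≤ _ := lintegral_iUnion_le _ _
    _ ≤ ∑' i : Fin N, ENNReal.ofReal (3 / (1 + |((⌊a⌋ + ((i : ℕ) : ℤ) : ℤ) : ℝ)|)) :=
        ENNReal.tsum_le_tsum fun i => int_cell hPRO hSUM _
    _ = ENNReal.ofReal (∑ i ∈ Finset.range N, 3 / (1 + |((⌊a⌋ + (i : ℤ) : ℤ) : ℝ)|)) := by
        rw [tsum_fintype, ENNReal.ofReal_sum_of_nonneg (fun i _ => by positivity),
          Finset.sum_range]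
    _ ≤ ENNReal.ofReal (12 * (1 + ∫ x in a..b, 1 / (1 + |x|))) := by
        refine ENNReal.ofReal_le_ofReal ?_
        have h1 := H_sum ⌊a⌋ N
        have h2 : ∑ i ∈ Finset.range N, 3 / (1 + |((⌊a⌋ + (i : ℤ) : ℤ) : ℝ)|) =
            3 * ∑ i ∈ Finset.range N, 1 / (1 + |((⌊a⌋ + (i : ℤ) : ℤ) : ℝ)|) := by
          rw [Finset.mul_sum]
          exact Finset.sum_congr rfl fun i _ => by ring
        have hNr : ((⌊a⌋ : ℝ) + N) = ⌊b⌋ + 1 := by
          have : ((⌊a⌋ + (N : ℤ) : ℤ) : ℝ) = ((⌊b⌋ + 1 : ℤ) : ℝ) := by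
            congr 1; omega
          push_cast at this
          exact this
        have h3 := intervalIntegral.integral_add_adjacent_intervals (H_int (⌊a⌋ : ℝ) a)
          (H_int a b)
        have h4 := intervalIntegral.integral_add_adjacent_intervals (H_int (⌊a⌋ : ℝ) b)
          (H_int b (⌊a⌋ + N))
        have h5 := H_le (Int.floor_le a)
        have h6 : b ≤ (⌊a⌋ : ℝ) + N := by
          rw [hNr]; exact (Int.lt_floor_add_one b).le
        have h7 := H_le h6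
        have h8 : (⌊a⌋ : ℝ) + N - b ≤ 1 := by
          rw [hNr]; linarith [Int.floor_le b]
        have h9 := Int.lt_floor_add_one a
        have h10 : (0 : ℝ) ≤ ∫ x in a..b, 1 / (1 + |x|) :=
          intervalIntegral.integral_nonneg hab fun x _ => by positivity
        rw [h2]
        linarith

end ModYEN

open ModYEN in
theorem mYEN (hPRO : StmPRO) (hFFA : StmFFA) (hFFB : StmFFB) (hSUM : StmSUM) : StmYEN := by
  refine ⟨12, by norm_num, fun g hg a b hab => ?_⟩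
  have hdl : Measurable dl := hPRO.2.2.2.2.2.2.2.1
  have hf0 : Measurable f0 := hPRO.2.2.2.2.2.2.1
  obtain ⟨D, hD⟩ : ∃ D : Set ℝ, D = Icc a b ∩ {x | f0 x ≠ 0} := ⟨_, rfl⟩
  have hDm : MeasurableSet D := by
    rw [hD]
    exact measurableSet_Icc.inter (hf0 (measurableSet_singleton 0).compl)
  obtain ⟨J, hJ⟩ : ∃ J : ℝ → ℝ≥0∞, J = fun x => ∫⁻ y in Icc (0 : ℝ) 1, g (x, y) ^ 2 := ⟨_, rfl⟩
  have hJm : Measurable J := by
    rw [hJ]
    exact Measurable.lintegral_prod_right' (f := fun p : ℝ × ℝ => g p ^ 2) (hg.pow_const 2)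
  have hwm := meas_w hdl
  have hYm : Measurable fun p : ℝ × ℝ => g (p.2, Y0 p.1 p.2) := by
    unfold Y0
    have h4 : Measurable fun p : ℝ × ℝ => FF p.1 (dl p.2) :=
      hFFA.2.2.2.comp (measurable_fst.prodMk (hdl.comp measurable_snd))
    exact hg.comp (measurable_snd.prodMk h4)
  rw [← hD]
  have hswap : ∫⁻ t in Icc (0 : ℝ) 1, ∫⁻ x in D, g (x, Y0 t x) =
      ∫⁻ x in D, ∫⁻ t in Icc (0 : ℝ) 1, g (x, Y0 t x) :=
    lintegral_lintegral_swap hYm.aemeasurable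
  rw [hswap]
  have hF : ∀ x ∈ D, ∫⁻ t in Icc (0 : ℝ) 1, g (x, Y0 t x) ≤
      w x ^ (1 / 2 : ℝ) * J x ^ (1 / 2 : ℝ) := by
    intro x hx
    rw [hD] at hx
    have h1 := F_le hPRO hFFA hFFB hg hx.2
    have h2 : ∫⁻ t in Icc (0 : ℝ) 1, g (x, Y0 t x) =
        ((∫⁻ t in Icc (0 : ℝ) 1, g (x, Y0 t x)) ^ 2) ^ (1 / 2 : ℝ) := by
      rw [← ENNReal.rpow_two, ← ENNReal.rpow_mul]
      norm_num
    rw [h2, ← ENNReal.mul_rpow_of_nonneg _ _ (by norm_num)]
    refine ENNReal.rpow_le_rpow ?_ (by norm_num)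
    rw [hJ]
    exact h1
  have hsq : ∀ y : ℝ≥0∞, (y ^ (1 / 2 : ℝ)) ^ 2 = y := by
    intro y
    rw [← ENNReal.rpow_two, ← ENNReal.rpow_mul]
    norm_num
  have hprod : ∫⁻ x in Icc a b, J x = ∫⁻ p in Icc a b ×ˢ Icc (0 : ℝ) 1, g p ^ 2 := by
    rw [hJ, Measure.volume_eq_prod, ← Measure.prod_restrict,
      lintegral_prod _ (hg.pow_const 2).aemeasurable]
  calc (∫⁻ x in D, ∫⁻ t in Icc (0 : ℝ) 1, g (x, Y0 t x)) ^ 2
      ≤ (∫⁻ x in D, w x ^ (1 / 2 : ℝ) * J x ^ (1 / 2 : ℝ)) ^ 2 := by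
        gcongr ?_ ^ 2
        exact setLIntegral_mono' hDm hF
    _ ≤ (∫⁻ x in D, (w x ^ (1 / 2 : ℝ)) ^ 2) * ∫⁻ x in D, (J x ^ (1 / 2 : ℝ)) ^ 2 :=
        cs _ (hwm.pow_const _) (hJm.pow_const _)
    _ = (∫⁻ x in D, w x) * ∫⁻ x in D, J x := by simp only [hsq]
    _ ≤ ENNReal.ofReal (12 * (1 + ∫ x in a..b, 1 / (1 + |x|))) *
        ∫⁻ p in Icc a b ×ˢ Icc (0 : ℝ) 1, g p ^ 2 := by
        refine mul_le_mul' ?_ ?_
        · rw [hD]
          exact int_D hPRO hSUM hab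
        · rw [← hprod]
          refine lintegral_mono_set ?_
          rw [hD]
          exact inter_subset_left

end

end Pool.Agent.T6.H52.LS
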