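import Pool.Agent.T6.H52.LS.Defs1

/-!
Project LS (helper52), MP_0f1fb3_an, module YGG: the gauge along the flow lines.
-/

set_option autoImplicit false
open MeasureTheory Filter Topology Metric Set
open scoped ENNReal NNReal

namespace Pool.Agent.T6.H52.LS

namespace ModYGG

theorem aux_le (u : ℝ) (n : ℕ) : min u (1 - u) / (3 : ℝ) ^ n ≤ 1 / 2 := by
  have h1 : min u (1 - u) ≤ 1 / 2 := by
    rcases le_total u (1 / 2) with h | h
    · exact (min_le_left _ _).trans h
    · exact (min_le_right _ _).trans (by linarith)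
  have h3 : (1 : ℝ) ≤ 3 ^ n := one_le_pow₀ (by norm_num)
  rw [div_le_iff₀ (by positivity)]
  nlinarith

theorem dl_le (x : ℝ) : dl x ≤ 1 / 2 := by
  unfold dl
  split_ifs with h
  · exact aux_le _ _
  · norm_num

section

variable (hPRO : StmPRO)
include hPRO

theorem meas : Measurable f0 := hPRO.2.2.2.2.2.2.1

theorem nonneg (x : ℝ) : 0 ≤ f0 x := hPRO.2.2.2.2.2.2.2.2.1 x

theorem dl_nonneg (x : ℝ) : 0 ≤ dl x := hPRO.2.2.2.2.2.2.2.2.2.1 x

theorem le (x : ℝ) : f0 x ≤ 1000 := by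
  have h1 := hPRO.2.2.2.2.2.2.2.2.2.2 x
  have h2 : (1 : ℝ) ≤ (1 + |x|) ^ 2 := one_le_pow₀ (by linarith [abs_nonneg x])
  have h3 := nonneg hPRO x
  nlinarith

theorem ii (a b : ℝ) : IntervalIntegrable f0 volume a b := by
  rw [intervalIntegrable_iff]
  apply Measure.integrableOn_of_bounded (M := 1000)
  · exact ne_of_lt (by simp [uIoc])
  · exact (meas hPRO).aestronglyMeasurable
  · refine Eventually.of_forall fun x => ?_
    rw [Real.norm_eq_abs, abs_of_nonneg (nonneg hPRO x)]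
    exact le hPRO x

theorem f0_of_dl (x : ℝ) (h : dl x = 0) : f0 x = 0 := by
  by_cases hx : ∃ n, Fs n (fl n x)
  · obtain ⟨n, hn⟩ := hx
    set u := Int.fract ((3 : ℝ) ^ n * x) with hu
    have hxe : x = ((fl n x : ℤ) + u) / 3 ^ n := by
      rw [hu, fl, Int.floor_add_fract]
      field_simp
    have h1 := hPRO.1 n (fl n x) u hn (Int.fract_nonneg _) (Int.fract_lt_one _)
    rw [← hxe] at h1
    have h2 := h1.2
    rw [h] at h2
    have h3 : min u (1 - u) = 0 := by
      have := h2.symm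
      rw [div_eq_zero_iff] at this
      rcases this with h | h
      · exact h
      · exact absurd h (by positivity)
    have h4 : u * (1 - u) = 0 := by
      rcases min_choice u (1 - u) with h5 | h5
      · rw [h5] at h3; rw [h3]; ring
      · rw [h5] at h3; rw [h3]; ring
    rw [h1.1, h4]; ring
  · push Not at hx
    exact (hPRO.2.1 x hx).1

theorem int_mono {a b c d : ℝ} (h1 : c ≤ a) (h2 : a ≤ b) (h3 : b ≤ d) :
    ∫ x in a..b, f0 x ≤ ∫ x in c..d, f0 x :=
  intervalIntegral.integral_mono_interval h1 h2 h3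
    (Eventually.of_forall fun x => nonneg hPRO x) (ii hPRO c d)

theorem V_nonneg (x r : ℝ) (hr : 0 ≤ r) : 0 ≤ V f0 x r :=
  intervalIntegral.integral_nonneg (by linarith) fun y _ => nonneg hPRO y

theorem V_mono {x r y r' : ℝ} (hr : 0 ≤ r) (h : |x - y| + r ≤ r') : V f0 x r ≤ V f0 y r' := by
  have h1 := abs_le.mp (le_of_eq (rfl : |x - y| = |x - y|))
  exact int_mono hPRO (by linarith) (by linarith) (by linarith)

theorem int_low {K a b c : ℝ} (hab : a ≤ b)
    (h : ∀ y, a ≤ y → y ≤ b → c ≤ K * f0 y) : c * (b - a) ≤ K * ∫ y in a..b, f0 y := by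
  rw [← intervalIntegral.integral_const_mul]
  calc c * (b - a) = ∫ _ in a..b, c := by rw [intervalIntegral.integral_const, smul_eq_mul]; ring
    _ ≤ _ := intervalIntegral.integral_mono_on hab (by simp) ((ii hPRO a b).const_mul K)
      (fun y hy => h y hy.1 hy.2)

theorem int_up {a b c : ℝ} (hab : a ≤ b)
    (h : ∀ y, a ≤ y → y ≤ b → f0 y ≤ c) : ∫ y in a..b, f0 y ≤ c * (b - a) := by
  calc ∫ y in a..b, f0 y ≤ ∫ _ in a..b, c :=
      intervalIntegral.integral_mono_on hab (ii hPRO a b) (by simp) (fun y hy => h y hy.1 hy.2)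
    _ = _ := by rw [intervalIntegral.integral_const, smul_eq_mul]; ring

theorem rr_le (hFFA : StmFFA) (t : ℝ) (ht : t ∈ Icc (0 : ℝ) 1) (x : ℝ) :
    rr C0 (Y0 t x) ≤ 3 / 2 * dl x := by
  have h0 : FF t 0 ∈ C0 := by
    have h1 := hFFA.1 t ht
    have h2 := cantorSet_subset_unitInterval h1
    change Int.fract (FF t 0) ∈ cantorSet
    rcases h2.2.lt_or_eq with h3 | h3
    · rwa [Int.fract_eq_self.mpr ⟨h2.1, h3⟩]
    · rw [h3, Int.fract_one]
      exact zero_mem_cantorSet
  have h1 : rr C0 (Y0 t x) ≤ dist (Y0 t x) (FF t 0) := Metric.infDist_le_dist_of_mem h0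
  have h2 := hFFA.2.1 t ht (dl x) 0 (dl_nonneg hPRO x) le_rfl
  rw [sub_zero, abs_of_nonneg (dl_nonneg hPRO x)] at h2
  rw [Real.dist_eq] at h1
  exact h1.trans h2

end

/-- the constants of VDB and COM, put together -/
structure Cst (K : ℝ) : Prop where
  one_le : 1 ≤ K
  dbl : ∀ x r, 0 < r → r ≤ 8 → V f0 x (2 * r) ≤ K * V f0 x r
  up : ∀ x y : ℝ, 0 < dl x → |y - x| ≤ dl x / 2 → f0 y ≤ K * f0 x
  low : ∀ x y : ℝ, 0 < dl x → |y - x| ≤ dl x / 2 → f0 x ≤ K * f0 y

theorem exists_cst (hPRO : StmPRO) (hVDB : StmVDB) (hCOM : StmCOM) : ∃ K, Cst K := by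
  obtain ⟨K₁, h1, h2, -, -⟩ := hVDB
  obtain ⟨K₂, h3, h4⟩ := hCOM
  refine ⟨max K₁ K₂, h1.trans (le_max_left _ _), ?_, ?_, ?_⟩
  · intro x r hr hr8
    exact (h2 x r hr hr8).trans (mul_le_mul_of_nonneg_right (le_max_left _ _)
      (V_nonneg hPRO x r hr.le))
  · intro x y hx hy
    exact (h4 x y hx hy).2.1.trans (mul_le_mul_of_nonneg_right (le_max_right _ _)
      (nonneg hPRO x))
  · intro x y hx hy
    exact (h4 x y hx hy).1.trans (mul_le_mul_of_nonneg_right (le_max_right _ _)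
      (nonneg hPRO y))

section

variable (hPRO : StmPRO) {K : ℝ} (hK : Cst K)
include hPRO hK

theorem half_up (x r : ℝ) (hr : 0 ≤ r) (hd : 0 < dl x) (h : r ≤ dl x / 2) :
    V f0 x r ≤ K * f0 x * (2 * r) := by
  have := int_up hPRO (a := x - r) (b := x + r) (c := K * f0 x) (by linarith)
    (fun y h1 h2 => hK.up x y hd (by rw [abs_le]; constructor <;> linarith))
  calc V f0 x r ≤ K * f0 x * (x + r - (x - r)) := this
    _ = _ := by ring

theorem half_low (x r : ℝ) (hr : 0 ≤ r) (hd : 0 < dl x) (h : r ≤ dl x / 2) :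
    f0 x * (2 * r) ≤ K * V f0 x r := by
  have := int_low hPRO (a := x - r) (b := x + r) (c := f0 x) (K := K)
    (by linarith)
    (fun y h1 h2 => hK.low x y hd (by rw [abs_le]; constructor <;> linarith))
  calc f0 x * (2 * r) = f0 x * (x + r - (x - r)) := by ring
    _ ≤ _ := this

theorem A_up (x r : ℝ) (hr : 0 < r) (hd : 0 < dl x) (h : r ≤ 6 * dl x) :
    V f0 x r ≤ 2 * K ^ 5 * f0 x * r := by
  have hK1 := hK.one_le
  have hf := nonneg hPRO x
  have hK5 : K ≤ K ^ 5 := by
    calc K = K ^ 1 := (pow_one K).symm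
      _ ≤ K ^ 5 := pow_le_pow_right₀ hK1 (by norm_num)
  rcases le_total r (dl x / 2) with h1 | h1
  · refine (half_up hPRO hK x r hr.le hd h1).trans ?_
    have : 0 ≤ f0 x * (2 * r) := by positivity
    nlinarith [mul_le_mul_of_nonneg_right hK5 this]
  · have hd2 := dl_le x
    have e0 := half_up hPRO hK x (dl x / 2) (by linarith) hd le_rfl
    have e1 := hK.dbl x (dl x / 2) (by linarith) (by linarith)
    have e2 := hK.dbl x (2 * (dl x / 2)) (by linarith) (by linarith)
    have e3 := hK.dbl x (2 * (2 * (dl x / 2))) (by linarith) (by linarith)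
    have e4 := hK.dbl x (2 * (2 * (2 * (dl x / 2)))) (by linarith) (by linarith)
    have e5 : V f0 x r ≤ V f0 x (2 * (2 * (2 * (2 * (dl x / 2))))) :=
      V_mono hPRO hr.le (by rw [sub_self, abs_zero]; linarith)
    have hK0 : 0 ≤ K := by linarith
    calc V f0 x r ≤ _ := e5
      _ ≤ _ := e4
      _ ≤ K * (K * V f0 x (2 * (2 * (dl x / 2)))) := by gcongr
      _ ≤ K * (K * (K * V f0 x (2 * (dl x / 2)))) := by gcongr
      _ ≤ K * (K * (K * (K * V f0 x (dl x / 2)))) := by gcongr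
      _ ≤ K * (K * (K * (K * (K * f0 x * (2 * (dl x / 2)))))) := by gcongr
      _ = K ^ 5 * f0 x * (2 * (dl x / 2)) := by ring
      _ ≤ K ^ 5 * f0 x * (2 * r) := by gcongr
      _ = _ := by ring

theorem A_low (x r : ℝ) (hr : 0 ≤ r) (hd : 0 < dl x) (h : r ≤ 6 * dl x) :
    f0 x * r ≤ 6 * K * V f0 x r := by
  have hK1 := hK.one_le
  have hf := nonneg hPRO x
  have hV := V_nonneg hPRO x r hr
  rcases le_total r (dl x / 2) with h1 | h1
  · have := half_low hPRO hK x r hr hd h1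
    have h2 : 0 ≤ f0 x * r := by positivity
    have h3 : 0 ≤ K * V f0 x r := by positivity
    nlinarith
  · have e0 := half_low hPRO hK x (dl x / 2) (by linarith) hd le_rfl
    have e5 : V f0 x (dl x / 2) ≤ V f0 x r :=
      V_mono hPRO (by linarith) (by rw [sub_self, abs_zero]; linarith)
    calc f0 x * r ≤ f0 x * (6 * dl x) := by gcongr
      _ = 6 * (f0 x * (2 * (dl x / 2))) := by ring
      _ ≤ 6 * (K * V f0 x (dl x / 2)) := by gcongr
      _ ≤ 6 * (K * V f0 x r) := by gcongr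
      _ = _ := by ring

/-- the interval between `x` and `x ± s` -/
theorem int_adj (a b x : ℝ) (hab : a < b) (hx : x = a ∨ x = b) (hd : 0 < dl x)
    (h : b - a ≤ 3 / 2 * dl x) : f0 x * (b - a) ≤ 3 * K * ∫ y in a..b, f0 y := by
  have hK1 := hK.one_le
  have hf := nonneg hPRO x
  set s' := (b - a) / 3 with hs'
  have hs0 : 0 < s' := by rw [hs']; linarith
  have hs1 : s' ≤ dl x / 2 := by rw [hs']; linarith
  have hs2 : s' ≤ b - a := by rw [hs']; linarith
  rcases hx with rfl | rfl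
  · have h1 := int_low hPRO (a := x) (b := x + s') (c := f0 x) (K := K)
      (by linarith)
      (fun y h1 h2 => hK.low x y hd (by rw [abs_le]; constructor <;> linarith))
    have h2 := int_mono hPRO (a := x) (b := x + s') (c := x) (d := b) le_rfl (by linarith)
      (by linarith)
    have h3 : K * ∫ y in x..(x + s'), f0 y ≤ K * ∫ y in x..b, f0 y := by gcongr
    have h4 : f0 x * (b - x) = 3 * (f0 x * (x + s' - x)) := by rw [hs']; ring
    rw [h4]; linarith
  · have h1 := int_low hPRO (a := x - s') (b := x) (c := f0 x) (K := K)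
      (by linarith)
      (fun y h1 h2 => hK.low x y hd (by rw [abs_le]; constructor <;> linarith))
    have h2 := int_mono hPRO (a := x - s') (b := x) (c := a) (d := x) (by linarith) (by linarith)
      le_rfl
    have h3 : K * ∫ y in (x - s')..x, f0 y ≤ K * ∫ y in a..x, f0 y := by gcongr
    have h4 : f0 x * (x - a) = 3 * (f0 x * (x - (x - s'))) := by rw [hs']; ring
    rw [h4]; linarith

theorem Gh_le (a b x y ρ : ℝ) (hab : a < b) (hb : b ≤ a + 1) (hx : x = a ∨ x = b)
    (hρ : 0 < ρ) (hρs : ρ ≤ 3 / 2 * (b - a)) (hy : rr C0 y ≤ 3 / 2 * dl x) :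
    Gh f0 C0 (x, y) ρ ≤ 9 * K ^ 6 * ∫ z in a..b, f0 z := by
  have hK1 := hK.one_le
  have hK0 : 0 ≤ K := by linarith
  have hf := nonneg hPRO x
  have hI : 0 ≤ ∫ z in a..b, f0 z :=
    intervalIntegral.integral_nonneg hab.le fun y _ => nonneg hPRO y
  set r := rr C0 y with hr
  have hr0 : 0 ≤ r := Metric.infDist_nonneg
  have hq1 : ρ / (ρ + r) ≤ 1 := by rw [div_le_one (by linarith)]; linarith
  have hq0 : 0 ≤ ρ / (ρ + r) := by positivity
  change V f0 x (ρ + r) * (ρ / (ρ + r)) ≤ _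
  rcases le_or_gt r (b - a) with h | h
  · have hVn := V_nonneg hPRO x (ρ + r) (by linarith)
    set m := (a + b) / 2 with hm
    set q := (b - a) / 2 with hq
    have hxm : |x - m| ≤ q := by
      rcases hx with rfl | rfl <;> rw [abs_le] <;> constructor <;> linarith
    have e1 := hK.dbl m q (by linarith) (by linarith)
    have e2 := hK.dbl m (2 * q) (by linarith) (by linarith)
    have e3 := hK.dbl m (2 * (2 * q)) (by linarith) (by linarith)
    have e4 : V f0 x (ρ + r) ≤ V f0 m (2 * (2 * (2 * q))) :=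
      V_mono hPRO (by linarith) (by linarith)
    have e5 : V f0 m q = ∫ z in a..b, f0 z := by
      unfold V
      congr 1 <;> rw [hm, hq] <;> ring
    calc V f0 x (ρ + r) * (ρ / (ρ + r)) ≤ V f0 x (ρ + r) * 1 := by gcongr
      _ = V f0 x (ρ + r) := mul_one _
      _ ≤ _ := e4
      _ ≤ _ := e3
      _ ≤ K * (K * V f0 m (2 * q)) := by gcongr
      _ ≤ K * (K * (K * V f0 m q)) := by gcongr
      _ = K ^ 3 * ∫ z in a..b, f0 z := by rw [e5]; ring
      _ ≤ 9 * K ^ 6 * ∫ z in a..b, f0 z := by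
        gcongr
        have : K ^ 3 ≤ K ^ 6 := pow_le_pow_right₀ hK1 (by norm_num)
        have h0 : 0 ≤ K ^ 6 := by positivity
        linarith
  · have hd : 0 < dl x := by linarith
    have e1 := A_up hPRO hK x (ρ + r) (by linarith) hd (by linarith)
    have e2 := int_adj hPRO hK a b x hab hx hd (by linarith)
    calc V f0 x (ρ + r) * (ρ / (ρ + r)) ≤ 2 * K ^ 5 * f0 x * (ρ + r) * (ρ / (ρ + r)) := by gcongr
      _ = 2 * K ^ 5 * f0 x * ρ := by field_simp
      _ ≤ 2 * K ^ 5 * f0 x * (3 / 2 * (b - a)) := by gcongr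
      _ = 3 * K ^ 5 * (f0 x * (b - a)) := by ring
      _ ≤ 3 * K ^ 5 * (3 * K * ∫ y in a..b, f0 y) := by gcongr
      _ = _ := by ring

end

end ModYGG

open ModYGG in
theorem mYGG (_hCAN : StmCAN) (hFFA : StmFFA) (hPRO : StmPRO) (hDLL : StmDLL) (hVDB : StmVDB)
    (hCOM : StmCOM) : StmYGG := by
  obtain ⟨K, hK⟩ := exists_cst hPRO hVDB hCOM
  have hK1 := hK.one_le
  have hK0 : 0 ≤ K := by linarith
  have hK6 : (1 : ℝ) ≤ K ^ 6 := one_le_pow₀ hK1
  refine ⟨18 * K ^ 6, by linarith, ?_, ?_⟩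
  · intro t ht a b hab hb
    rcases hab.eq_or_lt with rfl | hab
    · simp [G, Gh]
    have hY : |Y0 t a - Y0 t b| ≤ 3 / 2 * (b - a) := by
      have h1 := hFFA.2.1 t ht (dl a) (dl b) (dl_nonneg hPRO a) (dl_nonneg hPRO b)
      have h2 := hDLL a b
      rw [abs_sub_comm a b, abs_of_pos (by linarith : 0 < b - a)] at h2
      exact h1.trans (by linarith)
    have hρ1 : ‖((a, Y0 t a) : ℝ × ℝ) - (b, Y0 t b)‖ ≤ 3 / 2 * (b - a) := by
      rw [Prod.mk_sub_mk, Prod.norm_mk, Real.norm_eq_abs, Real.norm_eq_abs]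
      refine max_le ?_ hY
      rw [abs_sub_comm, abs_of_pos (by linarith : 0 < b - a)]
      linarith
    have hρ0 : 0 < ‖((a, Y0 t a) : ℝ × ℝ) - (b, Y0 t b)‖ := by
      rw [norm_pos_iff, Prod.mk_sub_mk]
      intro h
      have := congrArg Prod.fst h
      simp only [Prod.fst_zero] at this
      linarith
    have e1 := Gh_le hPRO hK a b a (Y0 t a) _ hab hb (Or.inl rfl) hρ0 hρ1
      (rr_le hPRO hFFA t ht a)
    have e2 := Gh_le hPRO hK a b b (Y0 t b) _ hab hb (Or.inr rfl) hρ0 hρ1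
      (rr_le hPRO hFFA t ht b)
    unfold G
    calc _ ≤ _ := add_le_add e1 e2
      _ = _ := by ring
  · intro t ht x
    set r := rr C0 (Y0 t x) with hr
    have hr0 : 0 ≤ r := Metric.infDist_nonneg
    have hr1 : r ≤ 3 / 2 * dl x := rr_le hPRO hFFA t ht x
    have hV := V_nonneg hPRO x r hr0
    rcases (dl_nonneg hPRO x).eq_or_lt with h | h
    · rw [f0_of_dl hPRO x h.symm, zero_mul]
      positivity
    · refine (A_low hPRO hK x r hr0 h (by linarith)).trans ?_
      have : K ≤ K ^ 6 := by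
        calc K = K ^ 1 := (pow_one K).symm
          _ ≤ K ^ 6 := pow_le_pow_right₀ hK1 (by norm_num)
      gcongr
      linarith

end Pool.Agent.T6.H52.LS
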