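import Pool.Agent.T6.H52.LS.Fin
import Pool.Agent.T6.H52.LS.LKT
import Pool.Agent.T6.H52.LS.CURV
import Pool.Agent.T6.H52.LS.DB
import Pool.Agent.T6.H52.LS.SEGV
import Pool.Agent.T6.H52.LS.SEGH
import Pool.Agent.T6.H52.LS.HAUL
import Pool.Agent.T6.H52.LS.FINA
import Pool.Agent.T6.H52.LS.DBX
import Pool.Agent.T6.H52.LS.NQS
import Pool.Agent.T6.H52.LS.LV
import Pool.Agent.T6.H52.LS.LH
import Pool.Agent.T6.H52.LS.LF
import Pool.Agent.T6.H52.LS.EXIT
import Pool.Agent.T6.H52.LS.CASEA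
import Pool.Agent.T6.H52.LS.CASEB
import Pool.Agent.T6.H52.LS.SIZE
import Pool.Agent.T6.H52.LS.CAN
import Pool.Agent.T6.H52.LS.FFA
import Pool.Agent.T6.H52.LS.FFB
import Pool.Agent.T6.H52.LS.SUM
import Pool.Agent.T6.H52.LS.PRO
import Pool.Agent.T6.H52.LS.INT
import Pool.Agent.T6.H52.LS.DLL
import Pool.Agent.T6.H52.LS.ADJ
import Pool.Agent.T6.H52.LS.VDB
import Pool.Agent.T6.H52.LS.COM
import Pool.Agent.T6.H52.LS.YGG
import Pool.Agent.T6.H52.LS.YEN
import Pool.Agent.T6.H52.LS.PSI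
import Pool.Agent.T6.H52.LS.PSC
import Pool.Agent.T6.H52.LS.HHL
import Pool.Agent.T6.H52.LS.POTN
import Pool.Agent.T6.H52.LS.POTF
import Pool.Agent.T6.H52.LS.POTH
import Pool.Agent.T6.H52.LS.UPT
import Pool.Agent.T6.H52.LS.MDL

/-!
Project LS (helper52): all modules together.
-/

set_option autoImplicit false
open MeasureTheory Filter Topology Metric Set
open scoped ENNReal NNReal

namespace Pool.Agent.T6.H52.LS

theorem all_main : Main := by
  have hLKT : StmLKT := mLKT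
  have hCURV : StmCURV := mCURV
  have hDB : StmDB := mDB
  have hSEGV : StmSEGV := mSEGV hDB
  have hSEGH : StmSEGH := mSEGH hDB
  have hHAUL : StmHAUL := mHAUL hDB
  have hFINA : StmFINA := mFINA
  have hDBX : StmDBX := mDBX hDB
  have hNQS : StmNQS := mNQS hDB
  have hLV : StmLV := mLV hCURV hLKT hSEGV hHAUL
  have hLH : StmLH := mLH hCURV hLKT hSEGH hHAUL
  have hLF : StmLF := mLF hCURV hHAUL
  have hEXIT : StmEXIT := mEXIT
  have hCASEA : StmCASEA := mCASEA hLKT hLV hLH hEXIT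
  have hCASEB : StmCASEB := mCASEB hLKT hLV hLH hLF hEXIT
  have hSIZE : StmSIZE := mSIZE hDB
  have hCAN : StmCAN := mCAN
  have hFFA : StmFFA := mFFA
  have hFFB : StmFFB := mFFB
  have hSUM : StmSUM := mSUM
  have hPRO : StmPRO := mPRO
  have hINT : StmINT := mINT hPRO
  have hDLL : StmDLL := mDLL hPRO
  have hADJ : StmADJ := mADJ hPRO hINT
  have hVDB : StmVDB := mVDB hPRO hINT hADJ
  have hCOM : StmCOM := mCOM hPRO
  have hYGG : StmYGG := mYGG hCAN hFFA hPRO hDLL hVDB hCOM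
  have hYEN : StmYEN := mYEN hPRO hFFA hFFB hSUM
  have hPSI : StmPSI := mPSI
  have hPSC : StmPSC := mPSC hPSI
  have hHHL : StmHHL := mHHL hDB
  have hPOTN : StmPOTN := mPOTN hDB hPSI hPSC
  have hPOTF : StmPOTF := mPOTF hDB hPSI hPSC hHHL
  have hPOTH : StmPOTH := mPOTH hDB hPSI hPSC hHHL
  have hUPT : StmUPT := mUPT hDB hPSI
  have hMDL : StmMDL := mMDL hDB hPSI hPSC hPOTN hPOTF hPOTH hUPT
  have hDAT : StmDAT := mDAT hCAN hFFA hPRO hDLL hVDB hYGG hYEN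
  exact main_of hDAT hMDL hFINA hDBX hNQS hCASEA hCASEB hSIZE

end Pool.Agent.T6.H52.LS
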