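import Mathlib

/-!
Project LS (helper52), MP_0f1fb3_an: a metric 2-sphere of finite area which is doubling and
2-Loewner but not a quasisphere.  Definitions and statements of the modules.
-/

set_option autoImplicit false
open MeasureTheory Filter Topology Metric Set
open scoped ENNReal NNReal

namespace Pool.Agent.T6.H52.LS

noncomputable section

/-! ### The question -/

/-- the unit sphere of `ℝ³` with the chordal metric, that is, the Riemann sphere -/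
abbrev S2 : Type := Metric.sphere (0 : EuclideanSpace ℝ (Fin 3)) 1

/-- `f` is a quasisymmetric homeomorphism -/
def QS {Y X : Type} [MetricSpace Y] [MetricSpace X] (f : Y ≃ₜ X) : Prop :=
  ∃ η : ℝ≥0 ≃ₜ ℝ≥0, ∀ (x a y : Y) (t : ℝ≥0), dist x a ≤ t * dist y a →
    dist (f x) (f a) ≤ η t * dist (f y) (f a)

/-- doubling metric space -/
def Doubling (X : Type) [MetricSpace X] : Prop :=
  ∃ N : ℕ, ∀ (x : X) (r : ℝ), 0 < r → ∃ s : Finset X, s.card ≤ N ∧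
    ball x r ⊆ ⋃ y ∈ s, ball y (r / 2)

/-- `ρ` is admissible for the curves joining `E` to `F`; a rectifiable curve is parametrised by
arc length -/
def Adm {X : Type} [MetricSpace X] (E F : Set X) (ρ : X → ℝ≥0∞) : Prop :=
  ∀ (L : ℝ) (γ : ℝ → X), 0 ≤ L → HasUnitSpeedOn γ (Icc 0 L) → γ 0 ∈ E → γ L ∈ F →
    1 ≤ ∫⁻ s in Icc 0 L, ρ (γ s)

/-- the 2-modulus of the family of curves joining `E` to `F` -/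
def Mod2 {X : Type} [MetricSpace X] [MeasurableSpace X] [BorelSpace X] (E F : Set X) : ℝ≥0∞ :=
  ⨅ (ρ : X → ℝ≥0∞) (_ : Measurable ρ) (_ : Adm E F ρ), ∫⁻ x, ρ x ^ 2 ∂(μH[2] : Measure X)

/-- nondegenerate continuum -/
def Cont {X : Type} [MetricSpace X] (E : Set X) : Prop :=
  IsCompact E ∧ IsPreconnected E ∧ E.Nontrivial

/-- 2-Loewner space -/
def Loewner (X : Type) [MetricSpace X] [MeasurableSpace X] [BorelSpace X] : Prop :=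
  ∃ φ : ℝ → ℝ, (∀ t, 0 < t → 0 < φ t) ∧ ∀ (t : ℝ) (E F : Set X), 0 < t → Cont E → Cont F →
    Disjoint E F → (∃ e ∈ E, ∃ p ∈ F, dist e p ≤ t * min (diam E) (diam F)) →
    ENNReal.ofReal (φ t) ≤ Mod2 E F

/-! ### The data -/

/-- mass of the interval of radius `r` about `x` -/
def V (f : ℝ → ℝ) (x r : ℝ) : ℝ := ∫ s in (x - r)..(x + r), f s

/-- distance to the set of the heights of the wires -/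
def rr (C : Set ℝ) (y : ℝ) : ℝ := infDist y C

def Gh (f : ℝ → ℝ) (C : Set ℝ) (u : ℝ × ℝ) (ρ : ℝ) : ℝ :=
  V f u.1 (ρ + rr C u.2) * (ρ / (ρ + rr C u.2))

/-- the gauge (the norm of `ℝ × ℝ` is the maximum norm) -/
def G (f : ℝ → ℝ) (C : Set ℝ) (u v : ℝ × ℝ) : ℝ := Gh f C u ‖u - v‖ + Gh f C v ‖u - v‖

/-- the conformal weight, for `u.2 ∉ C` -/
def om (f : ℝ → ℝ) (C : Set ℝ) (u : ℝ × ℝ) : ℝ := V f u.1 (rr C u.2) / rr C u.2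

structure Dat (f : ℝ → ℝ) (C : Set ℝ) (Y : ℝ → ℝ → ℝ) (K : ℝ) : Prop where
  one_le : 1 ≤ K
  meas : Measurable f
  nonneg : ∀ x, 0 ≤ f x
  le : ∀ x, f x * (1 + |x|) ^ 2 ≤ K
  closed : IsClosed C
  ne : C.Nonempty
  per : ∀ y, y + 1 ∈ C ↔ y ∈ C
  null : volume C = 0
  por : ∀ y r : ℝ, 0 < r → r ≤ 1 → ∃ z, |z - y| ≤ r ∧ r ≤ K * rr C z
  dbl : ∀ x r, 0 < r → r ≤ 8 → V f x (2 * r) ≤ K * V f x r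
  low : ∀ x, 1 ≤ K * ((1 + |x|) ^ 4 * V f x 1)
  up : ∀ x, (1 + |x|) ^ 4 * V f x 1 ≤ K
  Ymeas : Measurable (Function.uncurry Y)
  Ymem : ∀ t ∈ Icc (0 : ℝ) 1, ∀ x, Y t x ∈ Icc (0 : ℝ) 1
  Ylip : ∀ t ∈ Icc (0 : ℝ) 1, ∀ x x', |Y t x - Y t x'| ≤ 2 * |x - x'|
  YG : ∀ t ∈ Icc (0 : ℝ) 1, ∀ a b, a ≤ b → b ≤ a + 1 →
    G f C (a, Y t a) (b, Y t b) ≤ K * ∫ x in a..b, f x
  Yf : ∀ t ∈ Icc (0 : ℝ) 1, ∀ x, f x * rr C (Y t x) ≤ K * V f x (rr C (Y t x))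
  Yen : ∀ g : ℝ × ℝ → ℝ≥0∞, Measurable g → ∀ a b : ℝ, a ≤ b →
    (∫⁻ t in Icc (0 : ℝ) 1, ∫⁻ x in Icc a b ∩ {x | f x ≠ 0}, g (x, Y t x)) ^ 2 ≤
      ENNReal.ofReal (K * (1 + ∫ x in a..b, 1 / (1 + |x|))) *
        ∫⁻ p in Icc a b ×ˢ Icc (0 : ℝ) 1, g p ^ 2

/-- `P` is the parametrisation of the metric sphere `X` with the tips `N`, `S` -/
structure Mdl (f : ℝ → ℝ) (C : Set ℝ) {X : Type} [MetricSpace X] (P : ℝ × ℝ → X) (N S : X)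
    (c : ℝ) : Prop where
  pos : 0 < c
  le_one : c ≤ 1
  cpt : CompactSpace X
  cont : Continuous P
  eq_iff : ∀ u v, P u = P v ↔ u.1 = v.1 ∧ ∃ k : ℤ, u.2 - v.2 = k
  ne_N : ∀ u, P u ≠ N
  ne_S : ∀ u, P u ≠ S
  N_ne_S : N ≠ S
  surj : ∀ p : X, p = N ∨ p = S ∨ ∃ u, P u = p
  up : ∀ u v, ‖u - v‖ ≤ 1 → dist (P u) (P v) ≤ G f C u v
  low : ∀ u v, |u.1 - v.1| ≤ 1 → |u.2 - v.2| ≤ 1 / 2 → c * G f C u v ≤ dist (P u) (P v)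
  lowh : ∀ u v : ℝ × ℝ, 1 ≤ |u.1 - v.1| → c * |∫ x in u.1..v.1, f x| ≤ dist (P u) (P v)
  N_up : ∀ u : ℝ × ℝ, 0 ≤ u.1 → dist N (P u) ≤ c⁻¹ / (1 + u.1) ^ 3
  N_low : ∀ u : ℝ × ℝ, 0 ≤ u.1 → c / (1 + u.1) ^ 3 ≤ dist N (P u)
  S_up : ∀ u : ℝ × ℝ, u.1 ≤ 0 → dist S (P u) ≤ c⁻¹ / (1 - u.1) ^ 3
  S_low : ∀ u : ℝ × ℝ, u.1 ≤ 0 → c / (1 - u.1) ^ 3 ≤ dist S (P u)

/-- `p` and `q` are joined by a rectifiable curve with integral at most `δ` -/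
def Lk {X : Type} [MetricSpace X] (ρ : X → ℝ≥0∞) (p q : X) (δ : ℝ≥0∞) : Prop :=
  ∃ (L : ℝ) (γ : ℝ → X), 0 ≤ L ∧ HasUnitSpeedOn γ (Icc 0 L) ∧ γ 0 = p ∧ γ L = q ∧
    ∫⁻ s in Icc 0 L, ρ (γ s) ≤ δ

/-! ### Modules, part III: from the model to the result -/

/-- LKT: concatenation and reversal -/
def StmLKT : Prop := ∀ (X : Type) [MetricSpace X] (ρ : X → ℝ≥0∞),
  (∀ (p q s : X) (δ ε : ℝ≥0∞), Lk ρ p q δ → Lk ρ q s ε → Lk ρ p s (δ + ε)) ∧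
  (∀ (p q : X) (δ : ℝ≥0∞), Lk ρ p q δ → Lk ρ q p δ) ∧ (∀ p : X, Lk ρ p p 0)

/-- CURV: a curve with a bound for the speed -/
def StmCURV : Prop := ∀ (X : Type) [MetricSpace X] [MeasurableSpace X] [BorelSpace X]
  (ρ : X → ℝ≥0∞) (g : ℝ → X) (a b : ℝ) (v : ℝ → ℝ), Measurable ρ → a ≤ b → Measurable v →
  (∀ x, 0 ≤ v x) → IntegrableOn v (Icc a b) →
  (∀ s t, a ≤ s → s ≤ t → t ≤ b → dist (g s) (g t) ≤ ∫ x in s..t, v x) →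
  Lk ρ (g a) (g b) (∫⁻ x in Icc a b, ρ (g x) * ENNReal.ofReal (v x))

/-- DB: consequences of the doubling property -/
def StmDB : Prop := ∀ (f : ℝ → ℝ) (C : Set ℝ) (Y : ℝ → ℝ → ℝ) (K : ℝ), Dat f C Y K →
  (∀ x r, 0 < r → 0 < V f x r) ∧
  (∀ A : ℝ, 1 ≤ A → ∃ K' : ℝ, 1 ≤ K' ∧ ∀ x x' r r' : ℝ, 0 < r → r ≤ 4 → 0 ≤ r' → r' ≤ A * r →
    r' ≤ 8 → |x - x'| ≤ A * r → |x - x'| ≤ 8 → V f x' r' ≤ K' * V f x r) ∧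
  (∃ (α K' : ℝ), 0 < α ∧ α ≤ 1 ∧ 1 ≤ K' ∧ ∀ x r ε : ℝ, 0 < r → r ≤ 4 → 0 < ε → ε ≤ 1 →
    V f x (ε * r) ≤ K' * ε ^ α * V f x r)

/-- SEGV: vertical segments -/
def StmSEGV : Prop := ∀ (f : ℝ → ℝ) (C : Set ℝ) (Y : ℝ → ℝ → ℝ) (K : ℝ), Dat f C Y K →
  ∀ (X : Type) [MetricSpace X] (P : ℝ × ℝ → X) (N S : X) (c : ℝ), Mdl f C P N S c →
  ∃ K' : ℝ, 0 < K' ∧ ∀ x s t : ℝ, s ≤ t → t ≤ s + 1 → IntegrableOn (fun y => om f C (x, y)) (Icc s t) ∧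
    dist (P (x, s)) (P (x, t)) ≤ ∫ y in s..t, K' * om f C (x, y)

/-- SEGH: horizontal segments -/
def StmSEGH : Prop := ∀ (f : ℝ → ℝ) (C : Set ℝ) (Y : ℝ → ℝ → ℝ) (K : ℝ), Dat f C Y K →
  ∀ (X : Type) [MetricSpace X] (P : ℝ × ℝ → X) (N S : X) (c : ℝ), Mdl f C P N S c →
  ∃ K' : ℝ, 0 < K' ∧ ∀ y s t : ℝ, y ∉ C → s ≤ t → IntegrableOn (fun x => om f C (x, y)) (Icc s t) ∧
    dist (P (s, y)) (P (t, y)) ≤ ∫ x in s..t, K' * om f C (x, y)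

/-- HAUL: lower bound of the area -/
def StmHAUL : Prop := ∀ (f : ℝ → ℝ) (C : Set ℝ) (Y : ℝ → ℝ → ℝ) (K : ℝ), Dat f C Y K →
  ∀ (X : Type) [MetricSpace X] [MeasurableSpace X] [BorelSpace X] (P : ℝ × ℝ → X) (N S : X)
  (c : ℝ), Mdl f C P N S c → ∃ K' : ℝ, 0 < K' ∧ ∀ ρ : X → ℝ≥0∞, Measurable ρ → ∀ y : ℝ,
  ∫⁻ u in (univ : Set ℝ) ×ˢ Ico y (y + 1), (ρ (P u) * ENNReal.ofReal (om f C u)) ^ 2 ≤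
    ENNReal.ofReal K' * ∫⁻ p, ρ p ^ 2 ∂(μH[2] : Measure X)

/-- FINA: finite area -/
def StmFINA : Prop := ∀ (f : ℝ → ℝ) (C : Set ℝ) (Y : ℝ → ℝ → ℝ) (K : ℝ), Dat f C Y K →
  ∀ (X : Type) [MetricSpace X] [MeasurableSpace X] [BorelSpace X] (P : ℝ × ℝ → X) (N S : X)
  (c : ℝ), Mdl f C P N S c → (μH[2] : Measure X) univ < ∞

/-- DBX: the space is doubling -/
def StmDBX : Prop := ∀ (f : ℝ → ℝ) (C : Set ℝ) (Y : ℝ → ℝ → ℝ) (K : ℝ), Dat f C Y K →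
  ∀ (X : Type) [MetricSpace X] (P : ℝ × ℝ → X) (N S : X) (c : ℝ), Mdl f C P N S c → Doubling X

/-- NQS: the space is not a quasisphere -/
def StmNQS : Prop := ∀ (f : ℝ → ℝ) (C : Set ℝ) (Y : ℝ → ℝ → ℝ) (K : ℝ), Dat f C Y K →
  ∀ (X : Type) [MetricSpace X] (P : ℝ × ℝ → X) (N S : X) (c : ℝ), Mdl f C P N S c →
  ∀ F : S2 ≃ₜ X, ¬ QS F

/-- LV: good vertical lines -/
def StmLV : Prop := ∀ (f : ℝ → ℝ) (C : Set ℝ) (Y : ℝ → ℝ → ℝ) (K : ℝ), Dat f C Y K →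
  ∀ (X : Type) [MetricSpace X] [MeasurableSpace X] [BorelSpace X] (P : ℝ × ℝ → X) (N S : X)
  (c : ℝ), Mdl f C P N S c → ∃ K' : ℝ, 0 < K' ∧ ∀ (ρ : X → ℝ≥0∞) (A : ℝ), Measurable ρ → 0 < A →
  ∫⁻ p, ρ p ^ 2 ∂(μH[2] : Measure X) ≤ ENNReal.ofReal A →
  ∀ x₀ δ y₁ y₂ : ℝ, 0 < δ → y₁ < y₂ → y₂ ≤ y₁ + 1 → ∃ x ∈ Ioo x₀ (x₀ + δ),
    ∀ s ∈ Icc y₁ y₂, ∀ t ∈ Icc y₁ y₂,
    Lk ρ (P (x, s)) (P (x, t)) (ENNReal.ofReal (K' * √((y₂ - y₁) / δ * A)))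

/-- LH: good horizontal lines -/
def StmLH : Prop := ∀ (f : ℝ → ℝ) (C : Set ℝ) (Y : ℝ → ℝ → ℝ) (K : ℝ), Dat f C Y K →
  ∀ (X : Type) [MetricSpace X] [MeasurableSpace X] [BorelSpace X] (P : ℝ × ℝ → X) (N S : X)
  (c : ℝ), Mdl f C P N S c → ∃ K' : ℝ, 0 < K' ∧ ∀ (ρ : X → ℝ≥0∞) (A : ℝ), Measurable ρ → 0 < A →
  ∫⁻ p, ρ p ^ 2 ∂(μH[2] : Measure X) ≤ ENNReal.ofReal A →
  ∀ y₀ δ x₁ x₂ : ℝ, 0 < δ → δ ≤ 1 → x₁ < x₂ → ∃ y ∈ Ioo y₀ (y₀ + δ),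
    ∀ s ∈ Icc x₁ x₂, ∀ t ∈ Icc x₁ x₂,
    Lk ρ (P (s, y)) (P (t, y)) (ENNReal.ofReal (K' * √((x₂ - x₁) / δ * A)))

/-- LF: good flow lines -/
def StmLF : Prop := ∀ (f : ℝ → ℝ) (C : Set ℝ) (Y : ℝ → ℝ → ℝ) (K : ℝ), Dat f C Y K →
  ∀ (X : Type) [MetricSpace X] [MeasurableSpace X] [BorelSpace X] (P : ℝ × ℝ → X) (N S : X)
  (c : ℝ), Mdl f C P N S c → ∃ K' : ℝ, 0 < K' ∧ ∀ (ρ : X → ℝ≥0∞) (A : ℝ), Measurable ρ → 0 < A →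
  ∫⁻ p, ρ p ^ 2 ∂(μH[2] : Measure X) ≤ ENNReal.ofReal A →
  ∀ a b : ℝ, a ≤ b → ∃ t ∈ Icc (0 : ℝ) 1,
    Lk ρ (P (a, Y t a)) (P (b, Y t b))
      (ENNReal.ofReal (K' * √((1 + ∫ x in a..b, 1 / (1 + |x|)) * A)))

/-- the open rectangle -/
def Rec (x₁ x₂ y₁ y₂ : ℝ) : Set (ℝ × ℝ) := Ioo x₁ x₂ ×ˢ Ioo y₁ y₂

/-- the open square of radius `r` about `u` -/
def Sq (u : ℝ × ℝ) (r : ℝ) : Set (ℝ × ℝ) := Rec (u.1 - r) (u.1 + r) (u.2 - r) (u.2 + r)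

/-- EXIT: a connected set which leaves a rectangle meets its boundary -/
def StmEXIT : Prop := ∀ (f : ℝ → ℝ) (C : Set ℝ)
  (X : Type) [MetricSpace X] (P : ℝ × ℝ → X) (N S : X) (c : ℝ), Mdl f C P N S c →
  ∀ (E : Set X) (u : ℝ × ℝ) (x₁ x₂ y₁ y₂ : ℝ), IsPreconnected E → P u ∈ E → u ∈ Rec x₁ x₂ y₁ y₂ →
  y₂ < y₁ + 1 → ¬ E ⊆ P '' Rec x₁ x₂ y₁ y₂ → ∃ v : ℝ × ℝ, P v ∈ E ∧ v.1 ∈ Icc x₁ x₂ ∧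
    v.2 ∈ Icc y₁ y₂ ∧ (v.1 = x₁ ∨ v.1 = x₂ ∨ v.2 = y₁ ∨ v.2 = y₂)

/-- CASEA: the two sets are close to each other -/
def StmCASEA : Prop := ∀ (f : ℝ → ℝ) (C : Set ℝ) (Y : ℝ → ℝ → ℝ) (K : ℝ), Dat f C Y K →
  ∀ (X : Type) [MetricSpace X] [MeasurableSpace X] [BorelSpace X] (P : ℝ × ℝ → X) (N S : X)
  (c : ℝ), Mdl f C P N S c → ∀ A₀ : ℝ, 1 ≤ A₀ →
  ∃ K' : ℝ, 0 < K' ∧ ∀ (ρ : X → ℝ≥0∞) (A : ℝ), Measurable ρ → 0 < A →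
  ∫⁻ p, ρ p ^ 2 ∂(μH[2] : Measure X) ≤ ENNReal.ofReal A →
  ∀ (E F : Set X) (u v : ℝ × ℝ) (r : ℝ), IsPreconnected E → IsPreconnected F → P u ∈ E → P v ∈ F →
  0 < r → r ≤ 1 / 16 → ¬ E ⊆ P '' Sq u (2 * r) → ¬ F ⊆ P '' Sq v (2 * r) →
  |u.1 - v.1| ≤ A₀ * r → |u.2 - v.2| ≤ A₀ * r → |u.2 - v.2| ≤ 1 / 2 →
  ∃ p ∈ E, ∃ q ∈ F, Lk ρ p q (ENNReal.ofReal (K' * √A))

/-- CASEB: both sets are big -/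
def StmCASEB : Prop := ∀ (f : ℝ → ℝ) (C : Set ℝ) (Y : ℝ → ℝ → ℝ) (K : ℝ), Dat f C Y K →
  ∀ (X : Type) [MetricSpace X] [MeasurableSpace X] [BorelSpace X] (P : ℝ × ℝ → X) (N S : X)
  (c : ℝ), Mdl f C P N S c → ∀ A₀ r : ℝ, 1 ≤ A₀ → 0 < r → r ≤ 1 / 16 →
  ∃ K' : ℝ, 0 < K' ∧ ∀ (ρ : X → ℝ≥0∞) (A : ℝ), Measurable ρ → 0 < A →
  ∫⁻ p, ρ p ^ 2 ∂(μH[2] : Measure X) ≤ ENNReal.ofReal A →
  ∀ (E F : Set X) (u v : ℝ × ℝ), IsPreconnected E → IsPreconnected F → P u ∈ E → P v ∈ F →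
  ¬ E ⊆ P '' Sq u (2 * r) → ¬ F ⊆ P '' Sq v (2 * r) →
  |∫ x in u.1..v.1, 1 / (1 + |x|)| ≤ A₀ →
  ∃ p ∈ E, ∃ q ∈ F, Lk ρ p q (ENNReal.ofReal (K' * √A))

/-- SIZE: choice of the points -/
def StmSIZE : Prop := ∀ (f : ℝ → ℝ) (C : Set ℝ) (Y : ℝ → ℝ → ℝ) (K : ℝ), Dat f C Y K →
  ∀ (X : Type) [MetricSpace X] (P : ℝ × ℝ → X) (N S : X) (c : ℝ), Mdl f C P N S c →
  ∀ t : ℝ, 0 < t → ∃ A₀ r₀ : ℝ, 1 ≤ A₀ ∧ 0 < r₀ ∧ r₀ ≤ 1 / 16 ∧ ∀ E F : Set X, Cont E → Cont F →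
  (∃ e ∈ E, ∃ p ∈ F, dist e p ≤ t * min (diam E) (diam F)) →
  ∃ u v : ℝ × ℝ, P u ∈ E ∧ P v ∈ F ∧
    ((∃ r : ℝ, 0 < r ∧ r ≤ 1 / 16 ∧ ¬ E ⊆ P '' Sq u (2 * r) ∧ ¬ F ⊆ P '' Sq v (2 * r) ∧
      |u.1 - v.1| ≤ A₀ * r ∧ |u.2 - v.2| ≤ A₀ * r ∧ |u.2 - v.2| ≤ 1 / 2) ∨
    (¬ E ⊆ P '' Sq u (2 * r₀) ∧ ¬ F ⊆ P '' Sq v (2 * r₀) ∧
      |∫ x in u.1..v.1, 1 / (1 + |x|)| ≤ A₀))

end

end Pool.Agent.T6.H52.LS
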