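import Pool.Agent.T6.H52.LS.Defs

/-!
Project LS (helper52), MP_0f1fb3_an, part I: the density `f0`, the wires `C0`, the flow `Y0`.
-/

set_option autoImplicit false
open MeasureTheory Filter Topology Metric Set
open scoped ENNReal NNReal

namespace Pool.Agent.T6.H52.LS

noncomputable section

/-- size of the cell `[j, j+1]` -/
def wj (j : ℤ) : ℝ := 1 / (1 + |(j : ℝ)|) ^ 4

/-- threshold in the cell `[j, j+1]` -/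
def Mc (j : ℤ) : ℝ := 4 * (1 + |(j : ℝ)|) ^ 2

/-- relative density of the triadic interval `[m/3^n, (m+1)/3^n]`; it is frozen as soon as it is
at least the threshold -/
def Xv : ℕ → ℤ → ℝ
  | 0, _ => 1
  | n + 1, m => if Mc (m / 3 ^ (n + 1)) ≤ Xv n (m / 3) then Xv n (m / 3) else
      Xv n (m / 3) * (if m % 3 = 1 then 241 / 81 else 1 / 81)

/-- the interval is stopped -/
def St (n : ℕ) (m : ℤ) : Prop := Mc (m / 3 ^ n) ≤ Xv n m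

/-- the interval is stopped, and its parent is not stopped -/
def Fs (n : ℕ) (m : ℤ) : Prop := St n m ∧ ¬ St (n - 1) (m / 3)

/-- the triadic interval of level `n` which contains `x` -/
def fl (n : ℕ) (x : ℝ) : ℤ := ⌊(3 : ℝ) ^ n * x⌋

open Classical in
/-- the density -/
def f0 (x : ℝ) : ℝ :=
  if h : ∃ n, St n (fl n x) then
    wj ⌊x⌋ * Xv (Nat.find h) (fl (Nat.find h) x) * (630 * (Int.fract ((3 : ℝ) ^ (Nat.find h) * x) *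
      (1 - Int.fract ((3 : ℝ) ^ (Nat.find h) * x))) ^ 4)
  else 0

open Classical in
/-- distance to the boundary of the stopped interval -/
def dl (x : ℝ) : ℝ :=
  if h : ∃ n, St n (fl n x) then
    min (Int.fract ((3 : ℝ) ^ (Nat.find h) * x)) (1 - Int.fract ((3 : ℝ) ^ (Nat.find h) * x)) /
      (3 : ℝ) ^ (Nat.find h)
  else 0

/-- piecewise linear approximations of the inverse of the Cantor function -/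
def ck : ℕ → ℝ → ℝ
  | 0, t => t
  | k + 1, t => if t < 1 / 2 then ck k (2 * t) / 3 else (2 + ck k (2 * t - 1)) / 3

def th (k : ℕ) (δ : ℝ) : ℝ := max 0 (min 1 ((((3 : ℝ) ^ k)⁻¹ - δ) / (((3 : ℝ) ^ k)⁻¹ * (2 / 3))))

/-- interpolation between the inverse of the Cantor function (`δ = 0`) and the identity -/
def FF (t δ : ℝ) : ℝ := t + ∑' k : ℕ, (ck (k + 1) t - ck k t) * th k δ

/-- heights of the wires -/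
def C0 : Set ℝ := {y | Int.fract y ∈ cantorSet}

/-- flow lines -/
def Y0 (t x : ℝ) : ℝ := FF t (dl x)

/-! ### Modules, part I -/

/-- CAN: the Cantor set -/
def StmCAN : Prop := IsClosed C0 ∧ C0.Nonempty ∧ (∀ y, y + 1 ∈ C0 ↔ y ∈ C0) ∧ volume C0 = 0 ∧
  ∀ y r : ℝ, 0 < r → r ≤ 1 → ∃ z, |z - y| ≤ r ∧ r ≤ 100 * infDist z C0

/-- FFA: elementary properties of the interpolation -/
def StmFFA : Prop := (∀ t ∈ Icc (0 : ℝ) 1, FF t 0 ∈ cantorSet) ∧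
  (∀ t ∈ Icc (0 : ℝ) 1, ∀ δ δ' : ℝ, 0 ≤ δ → 0 ≤ δ' → |FF t δ - FF t δ'| ≤ 3 / 2 * |δ - δ'|) ∧
  (∀ t ∈ Icc (0 : ℝ) 1, ∀ δ : ℝ, 0 ≤ δ → FF t δ ∈ Icc (0 : ℝ) 1) ∧
  Measurable (Function.uncurry FF)

/-- FFB: density of the distribution of the interpolation -/
def StmFFB : Prop := ∀ (k : ℕ) (δ : ℝ), ((3 : ℝ) ^ (k + 1))⁻¹ < δ → δ ≤ ((3 : ℝ) ^ k)⁻¹ →
  ∀ φ : ℝ → ℝ≥0∞, Measurable φ → ∫⁻ t in Icc (0 : ℝ) 1, φ (FF t δ) ≤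
    ENNReal.ofReal ((3 / 2) ^ (k + 1)) * ∫⁻ y in Icc (0 : ℝ) 1, φ y

open Classical in
/-- SUM: the supermartingale -/
def StmSUM : Prop := ∀ (j : ℤ) (N : ℕ),
  ∑ n ∈ Finset.range N, ∑ m ∈ Finset.Ico (j * 3 ^ n) ((j + 1) * 3 ^ n),
    (if Fs n m then ((2 : ℝ) ^ n)⁻¹ else 0) ≤ 1 / (2 * (1 + |(j : ℝ)|))

/-- PRO: values of `f0` and `dl` on the stopped intervals and elsewhere -/
def StmPRO : Prop :=
  (∀ (n : ℕ) (m : ℤ) (u : ℝ), Fs n m → 0 ≤ u → u < 1 →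
    f0 ((m + u) / 3 ^ n) = wj (m / 3 ^ n) * Xv n m * (630 * (u * (1 - u)) ^ 4) ∧
    dl ((m + u) / 3 ^ n) = min u (1 - u) / 3 ^ n) ∧
  (∀ x : ℝ, (∀ n, ¬ Fs n (fl n x)) → f0 x = 0 ∧ dl x = 0) ∧
  (∀ (n n' : ℕ) (x : ℝ), Fs n (fl n x) → Fs n' (fl n' x) → n = n') ∧
  (∀ (n : ℕ) (m : ℤ), ¬ St n m → 0 < Xv n m ∧ Xv n m < Mc (m / 3 ^ n)) ∧
  (∀ (n : ℕ) (m : ℤ), Fs n m → Mc (m / 3 ^ n) ≤ Xv n m ∧ Xv n m ≤ 3 * Mc (m / 3 ^ n)) ∧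
  (∀ (n : ℕ) (m : ℤ), St (n + 1) m ↔ (St n (m / 3) ∨ Fs (n + 1) m)) ∧
  Measurable f0 ∧ Measurable dl ∧ (∀ x, 0 ≤ f0 x) ∧ (∀ x, 0 ≤ dl x) ∧
  (∀ x, f0 x * (1 + |x|) ^ 2 ≤ 1000)

/-- INT: integral over an interval which is not stopped -/
def StmINT : Prop := ∀ (n : ℕ) (m : ℤ), (¬ St n m ∨ Fs n m) →
  ∫ x in ((m : ℝ) / 3 ^ n)..(((m : ℝ) + 1) / 3 ^ n), f0 x = wj (m / 3 ^ n) * Xv n m / 3 ^ n

/-- DLL: `dl` is a Lipschitz function -/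
def StmDLL : Prop := ∀ x y : ℝ, |dl x - dl y| ≤ |x - y|

/-- ADJ: adjacent triadic intervals of the same level -/
def StmADJ : Prop := ∃ K : ℝ, 1 ≤ K ∧ ∀ (n : ℕ) (m : ℤ),
  0 < ∫ x in ((m : ℝ) / 3 ^ n)..(((m : ℝ) + 1) / 3 ^ n), f0 x ∧
  ∫ x in ((m : ℝ) / 3 ^ n)..(((m : ℝ) + 1) / 3 ^ n), f0 x ≤
    K * ∫ x in (((m : ℝ) + 1) / 3 ^ n)..(((m : ℝ) + 2) / 3 ^ n), f0 x ∧
  ∫ x in (((m : ℝ) + 1) / 3 ^ n)..(((m : ℝ) + 2) / 3 ^ n), f0 x ≤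
    K * ∫ x in ((m : ℝ) / 3 ^ n)..(((m : ℝ) + 1) / 3 ^ n), f0 x

/-- VDB: doubling and size of `V` -/
def StmVDB : Prop := ∃ K : ℝ, 1 ≤ K ∧ (∀ x r, 0 < r → r ≤ 8 → V f0 x (2 * r) ≤ K * V f0 x r) ∧
  (∀ x, 1 ≤ K * ((1 + |x|) ^ 4 * V f0 x 1)) ∧ (∀ x, (1 + |x|) ^ 4 * V f0 x 1 ≤ K)

/-- COM: `f0` is comparable to a constant near a point of a stopped interval -/
def StmCOM : Prop := ∃ K : ℝ, 1 ≤ K ∧ ∀ x y : ℝ, 0 < dl x → |y - x| ≤ dl x / 2 →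
  f0 x ≤ K * f0 y ∧ f0 y ≤ K * f0 x ∧ 0 < f0 x

/-- YGG -/
def StmYGG : Prop := ∃ K : ℝ, 1 ≤ K ∧ (∀ t ∈ Icc (0 : ℝ) 1, ∀ a b, a ≤ b → b ≤ a + 1 →
    G f0 C0 (a, Y0 t a) (b, Y0 t b) ≤ K * ∫ x in a..b, f0 x) ∧
  (∀ t ∈ Icc (0 : ℝ) 1, ∀ x, f0 x * rr C0 (Y0 t x) ≤ K * V f0 x (rr C0 (Y0 t x)))

/-- YEN: energy of the flow -/
def StmYEN : Prop := ∃ K : ℝ, 1 ≤ K ∧
  ∀ g : ℝ × ℝ → ℝ≥0∞, Measurable g → ∀ a b : ℝ, a ≤ b →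
    (∫⁻ t in Icc (0 : ℝ) 1, ∫⁻ x in Icc a b ∩ {x | f0 x ≠ 0}, g (x, Y0 t x)) ^ 2 ≤
      ENNReal.ofReal (K * (1 + ∫ x in a..b, 1 / (1 + |x|))) *
        ∫⁻ p in Icc a b ×ˢ Icc (0 : ℝ) 1, g p ^ 2

/-- the data exist -/
def StmDAT : Prop := ∃ K : ℝ, Dat f0 C0 Y0 K

end

end Pool.Agent.T6.H52.LS
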