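import Pool.Agent.T6.H52.LS.Defs

/-!
Project LS (helper52), MP_0f1fb3_an, part II: from the data to the model.
-/

set_option autoImplicit false
open MeasureTheory Filter Topology Metric Set
open scoped ENNReal NNReal

namespace Pool.Agent.T6.H52.LS

noncomputable section

theorem Psi_mem (u : ℝ × ℝ) :
    (1 / √(1 + u.1 ^ 2)) • (!₂[Real.cos (2 * Real.pi * u.2), Real.sin (2 * Real.pi * u.2), u.1] :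
      EuclideanSpace ℝ (Fin 3)) ∈ Metric.sphere (0 : EuclideanSpace ℝ (Fin 3)) 1 := by
  have h : 0 < 1 + u.1 ^ 2 := by positivity
  rw [mem_sphere_zero_iff_norm, norm_smul, EuclideanSpace.norm_eq, Fin.sum_univ_three]
  simp only [Real.norm_eq_abs, sq_abs]
  have e : (!₂[Real.cos (2 * Real.pi * u.2), Real.sin (2 * Real.pi * u.2), u.1] :
      EuclideanSpace ℝ (Fin 3)) 0 ^ 2 + (!₂[Real.cos (2 * Real.pi * u.2),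
        Real.sin (2 * Real.pi * u.2), u.1] : EuclideanSpace ℝ (Fin 3)) 1 ^ 2 +
      (!₂[Real.cos (2 * Real.pi * u.2), Real.sin (2 * Real.pi * u.2), u.1] :
        EuclideanSpace ℝ (Fin 3)) 2 ^ 2 = 1 + u.1 ^ 2 := by
    simp [Real.cos_sq_add_sin_sq]
  rw [e, abs_of_pos (by positivity)]
  field_simp

/-- the parametrisation of the sphere without the poles -/
def Psi (u : ℝ × ℝ) : S2 :=
  ⟨(1 / √(1 + u.1 ^ 2)) • !₂[Real.cos (2 * Real.pi * u.2), Real.sin (2 * Real.pi * u.2), u.1],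
    Psi_mem u⟩

theorem NN_mem : (!₂[0, 0, 1] : EuclideanSpace ℝ (Fin 3)) ∈
    Metric.sphere (0 : EuclideanSpace ℝ (Fin 3)) 1 := by
  rw [mem_sphere_zero_iff_norm, EuclideanSpace.norm_eq, Fin.sum_univ_three]; simp

theorem SS_mem : (!₂[0, 0, -1] : EuclideanSpace ℝ (Fin 3)) ∈
    Metric.sphere (0 : EuclideanSpace ℝ (Fin 3)) 1 := by
  rw [mem_sphere_zero_iff_norm, EuclideanSpace.norm_eq, Fin.sum_univ_three]; simp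

def NN : S2 := ⟨!₂[0, 0, 1], NN_mem⟩

def SS : S2 := ⟨!₂[0, 0, -1], SS_mem⟩

/-- the potentials -/
def Pot (f : ℝ → ℝ) (C : Set ℝ) : Set (S2 → ℝ) :=
  {Φ | Continuous Φ ∧ (∀ p, |Φ p| ≤ 1) ∧ ∀ u v : ℝ × ℝ, ‖u - v‖ ≤ 1 →
    |Φ (Psi u) - Φ (Psi v)| ≤ G f C u v}

/-- the new metric on the sphere -/
def DD (f : ℝ → ℝ) (C : Set ℝ) (p q : S2) : ℝ := ⨆ Φ : Pot f C, |Φ.1 p - Φ.1 q|

/-! ### Modules, part II -/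

/-- PSI: elementary properties of the parametrisation -/
def StmPSI : Prop := Continuous Psi ∧
  (∀ u v, Psi u = Psi v ↔ u.1 = v.1 ∧ ∃ k : ℤ, u.2 - v.2 = k) ∧ (∀ u, Psi u ≠ NN) ∧
  (∀ u, Psi u ≠ SS) ∧ NN ≠ SS ∧ (∀ p : S2, p = NN ∨ p = SS ∨ ∃ u, Psi u = p) ∧
  Tendsto Psi (comap Prod.fst atTop) (𝓝 NN) ∧ Tendsto Psi (comap Prod.fst atBot) (𝓝 SS)

/-- PSC: continuous functions on the sphere -/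
def StmPSC : Prop := ∀ (φ : ℝ × ℝ → ℝ) (a b : ℝ), Continuous φ →
  (∀ x y, φ (x, y + 1) = φ (x, y)) → Tendsto φ (comap Prod.fst atTop) (𝓝 a) →
  Tendsto φ (comap Prod.fst atBot) (𝓝 b) → ∃ Φ : S2 → ℝ, Continuous Φ ∧
    (∀ u, Φ (Psi u) = φ u) ∧ Φ NN = a ∧ Φ SS = b

/-- primitive of `f` -/
def hh (f : ℝ → ℝ) (x : ℝ) : ℝ := ∫ s in (0 : ℝ)..x, f s

/-- the horizontal potential -/
def HH (f : ℝ → ℝ) (C : Set ℝ) (u : ℝ × ℝ) : ℝ := ∫ θ in (0 : ℝ)..1, hh f (u.1 + θ * rr C u.2)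

/-- HHL: the horizontal potential -/
def StmHHL : Prop := ∀ (f : ℝ → ℝ) (C : Set ℝ) (Y : ℝ → ℝ → ℝ) (K : ℝ), Dat f C Y K →
  Continuous (HH f C) ∧ (∀ x y, HH f C (x, y + 1) = HH f C (x, y)) ∧
  (∃ a b : ℝ, Tendsto (HH f C) (comap Prod.fst atTop) (𝓝 a) ∧
    Tendsto (HH f C) (comap Prod.fst atBot) (𝓝 b) ∧ Tendsto (hh f) atTop (𝓝 a) ∧
    Tendsto (hh f) atBot (𝓝 b) ∧ ∀ u, b ≤ HH f C u ∧ HH f C u ≤ a) ∧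
  (∃ K' : ℝ, 0 < K' ∧ ∀ u v : ℝ × ℝ, ‖u - v‖ ≤ 1 → |HH f C u - HH f C v| ≤ K' * G f C u v) ∧
  (∃ c : ℝ, 0 < c ∧ ∀ u v : ℝ × ℝ, 1 ≤ |u.1 - v.1| →
    c * |∫ x in u.1..v.1, f x| ≤ |HH f C u - HH f C v|) ∧
  (∃ c : ℝ, 0 < c ∧ ∀ u v : ℝ × ℝ, |u.1 - v.1| ≤ 1 → |u.2 - v.2| ≤ |u.1 - v.1| / 2 →
    c * Gh f C u |u.1 - v.1| ≤ |HH f C u - HH f C v|)

/-- POTN: potentials near a point which is not on a wire -/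
def StmPOTN : Prop := ∀ (f : ℝ → ℝ) (C : Set ℝ) (Y : ℝ → ℝ → ℝ) (K : ℝ), Dat f C Y K →
  ∃ c : ℝ, 0 < c ∧ ∀ u v : ℝ × ℝ, 2 * ‖u - v‖ ≤ rr C u.2 →
    ∃ Φ ∈ Pot f C, c * Gh f C u ‖u - v‖ ≤ |Φ (Psi u) - Φ (Psi v)|

/-- POTF: potentials near a wire -/
def StmPOTF : Prop := ∀ (f : ℝ → ℝ) (C : Set ℝ) (Y : ℝ → ℝ → ℝ) (K : ℝ), Dat f C Y K →
  ∃ c : ℝ, 0 < c ∧ ∀ u v : ℝ × ℝ, |u.1 - v.1| ≤ 1 → |u.2 - v.2| ≤ 1 / 2 →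
    rr C u.2 < 2 * ‖u - v‖ → ∃ Φ ∈ Pot f C, c * Gh f C u ‖u - v‖ ≤ |Φ (Psi u) - Φ (Psi v)|

/-- POTH: potentials for points which are far away from each other, and for the tips -/
def StmPOTH : Prop := ∀ (f : ℝ → ℝ) (C : Set ℝ) (Y : ℝ → ℝ → ℝ) (K : ℝ), Dat f C Y K →
  ∃ c : ℝ, 0 < c ∧
    (∀ u v : ℝ × ℝ, 1 ≤ |u.1 - v.1| → ∃ Φ ∈ Pot f C,
      c * |∫ x in u.1..v.1, f x| ≤ |Φ (Psi u) - Φ (Psi v)|) ∧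
    (∀ u : ℝ × ℝ, 0 ≤ u.1 → ∃ Φ ∈ Pot f C, c / (1 + u.1) ^ 3 ≤ |Φ NN - Φ (Psi u)|) ∧
    (∀ u : ℝ × ℝ, u.1 ≤ 0 → ∃ Φ ∈ Pot f C, c / (1 - u.1) ^ 3 ≤ |Φ SS - Φ (Psi u)|) ∧
    (∀ u : ℝ × ℝ, ∃ Φ ∈ Pot f C, Φ NN ≠ Φ (Psi u)) ∧
    (∀ u : ℝ × ℝ, ∃ Φ ∈ Pot f C, Φ SS ≠ Φ (Psi u)) ∧ (∃ Φ ∈ Pot f C, Φ NN ≠ Φ SS)

/-- UPT: upper bounds at the tips -/
def StmUPT : Prop := ∀ (f : ℝ → ℝ) (C : Set ℝ) (Y : ℝ → ℝ → ℝ) (K : ℝ), Dat f C Y K →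
  ∃ K' : ℝ, 0 < K' ∧ ∀ Φ ∈ Pot f C,
    (∀ u : ℝ × ℝ, 0 ≤ u.1 → |Φ NN - Φ (Psi u)| ≤ K' / (1 + u.1) ^ 3) ∧
    (∀ u : ℝ × ℝ, u.1 ≤ 0 → |Φ SS - Φ (Psi u)| ≤ K' / (1 - u.1) ^ 3)

/-- MDL: the model -/
def StmMDL : Prop := ∀ (f : ℝ → ℝ) (C : Set ℝ) (Y : ℝ → ℝ → ℝ) (K : ℝ), Dat f C Y K →
  ∃ (X : Type) (_ : MetricSpace X) (P : ℝ × ℝ → X) (N S : X) (c : ℝ), Mdl f C P N S c ∧
    Nonempty (S2 ≃ₜ X)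

end

end Pool.Agent.T6.H52.LS
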