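import Pool.Agent.T6.H52.LS.Loe
import Pool.Agent.T6.H52.LS.Defs2

/-!
Project LS (helper52): the final assembly, with the modules as hypotheses.
-/

set_option autoImplicit false
open MeasureTheory Filter Topology Metric Set
open scoped ENNReal NNReal

namespace Pool.Agent.T6.H52.LS

/-- there is a metric 2-sphere of finite area which is doubling and 2-Loewner, and which is not a
quasisphere -/
def Main : Prop :=
  ∃ (X : Type) (_ : MetricSpace X) (_ : MeasurableSpace X) (_ : BorelSpace X),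
    Nonempty (S2 ≃ₜ X) ∧ (μH[2] : Measure X) univ < ∞ ∧ Doubling X ∧ Loewner X ∧
      ¬ ∃ F : S2 ≃ₜ X, QS F

theorem main_of (hDAT : StmDAT) (hMDL : StmMDL) (hFINA : StmFINA) (hDBX : StmDBX) (hNQS : StmNQS)
    (hCASEA : StmCASEA) (hCASEB : StmCASEB) (hSIZE : StmSIZE) : Main := by
  obtain ⟨K, hD⟩ := hDAT
  obtain ⟨X, inst, P, N, S, c, hM, hX⟩ := hMDL f0 C0 Y0 K hD
  letI : MeasurableSpace X := borel X
  haveI : BorelSpace X := ⟨rfl⟩
  refine ⟨X, inst, inferInstance, inferInstance, hX, hFINA f0 C0 Y0 K hD X P N S c hM,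
    hDBX f0 C0 Y0 K hD X P N S c hM,
    mLOE hCASEA hCASEB hSIZE f0 C0 Y0 K hD X P N S c hM, ?_⟩
  rintro ⟨F, hF⟩
  exact hNQS f0 C0 Y0 K hD X P N S c hM F hF

end Pool.Agent.T6.H52.LS
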