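import Pool.Agent.T6.H52.LS.Defs
import Pool.Agent.T6.H52.LS.Defs1

/-!
Project LS (helper52): the Loewner property, and the assembly of the data.
-/

set_option autoImplicit false
open MeasureTheory Filter Topology Metric Set
open scoped ENNReal NNReal

namespace Pool.Agent.T6.H52.LS

theorem mLOE (hCASEA : StmCASEA) (hCASEB : StmCASEB) (hSIZE : StmSIZE) :
    ∀ (f : ℝ → ℝ) (C : Set ℝ) (Y : ℝ → ℝ → ℝ) (K : ℝ), Dat f C Y K →
    ∀ (X : Type) [MetricSpace X] [MeasurableSpace X] [BorelSpace X] (P : ℝ × ℝ → X) (N S : X)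
    (c : ℝ), Mdl f C P N S c → Loewner X := by
  intro f C Y K hD X _ _ _ P N S c hM
  have key : ∀ t : ℝ, 0 < t → ∃ A : ℝ, 0 < A ∧ ∀ (E F : Set X), Cont E → Cont F →
      (∃ e ∈ E, ∃ p ∈ F, dist e p ≤ t * min (diam E) (diam F)) →
      ENNReal.ofReal A ≤ Mod2 E F := by
    intro t ht
    obtain ⟨A₀, r₀, hA₀, hr₀, hr₁, hS⟩ := hSIZE f C Y K hD X P N S c hM t ht
    obtain ⟨KA, hKA, HA⟩ := hCASEA f C Y K hD X P N S c hM A₀ hA₀
    obtain ⟨KB, hKB, HB⟩ := hCASEB f C Y K hD X P N S c hM A₀ r₀ hA₀ hr₀ hr₁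
    set s : ℝ := 1 / (2 * (KA + KB)) with hs
    have hs0 : 0 < s := by positivity
    have hsq : √(s ^ 2) = s := Real.sqrt_sq hs0.le
    have hA1 : KA * s < 1 := by
      rw [hs, mul_one_div, div_lt_one (by positivity)]; linarith
    have hB1 : KB * s < 1 := by
      rw [hs, mul_one_div, div_lt_one (by positivity)]; linarith
    refine ⟨s ^ 2, by positivity, ?_⟩
    intro E F hE hF hEF
    refine le_iInf fun ρ => le_iInf fun hρ => le_iInf fun hadm => ?_
    by_contra hlt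
    rw [not_le] at hlt
    have fin : ∀ (κ : ℝ), κ * s < 1 → (∃ p ∈ E, ∃ q ∈ F,
        Lk ρ p q (ENNReal.ofReal (κ * √(s ^ 2)))) → False := by
      rintro κ hκ ⟨p, hp, q, hq, L, γ, hL, hγ, h0, h1, hI⟩
      have h2 := hadm L γ hL hγ (h0 ▸ hp) (h1 ▸ hq)
      rw [hsq] at hI
      have h3 : (1 : ℝ≥0∞) ≤ ENNReal.ofReal (κ * s) := h2.trans hI
      have h4 : ENNReal.ofReal (κ * s) < 1 := by
        rw [← ENNReal.ofReal_one]
        exact (ENNReal.ofReal_lt_ofReal_iff one_pos).2 hκ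
      exact absurd h3 (not_le.2 h4)
    obtain ⟨u, v, hu, hv, h⟩ := hS E F hE hF hEF
    rcases h with ⟨r, hr, hr', h1, h2, h3, h4, h5⟩ | ⟨h1, h2, h3⟩
    · exact fin KA hA1 (HA ρ (s ^ 2) hρ (by positivity) hlt.le E F u v r hE.2.1 hF.2.1 hu hv hr hr'
        h1 h2 h3 h4 h5)
    · exact fin KB hB1 (HB ρ (s ^ 2) hρ (by positivity) hlt.le E F u v hE.2.1 hF.2.1 hu hv
        h1 h2 h3)
  classical
  choose! φ hφ using key
  exact ⟨φ, fun t ht => (hφ t ht).1, fun t E F ht hE hF _ h => (hφ t ht).2 E F hE hF h⟩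

theorem mDAT (hCAN : StmCAN) (hFFA : StmFFA) (hPRO : StmPRO) (hDLL : StmDLL) (hVDB : StmVDB)
    (hYGG : StmYGG) (hYEN : StmYEN) : StmDAT := by
  obtain ⟨c1, c2, c3, c4, c5⟩ := hCAN
  obtain ⟨f1, f2, f3, f4⟩ := hFFA
  obtain ⟨-, -, -, -, -, -, p1, p2, p3, p4, p5⟩ := hPRO
  obtain ⟨K1, hK1, v1, v2, v3⟩ := hVDB
  obtain ⟨K2, hK2, y1, y2⟩ := hYGG
  obtain ⟨K3, hK3, e1⟩ := hYEN
  have V0 : ∀ x r, 0 ≤ r → 0 ≤ V f0 x r := fun x r hr =>
    intervalIntegral.integral_nonneg (by linarith) fun s _ => p3 s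
  refine ⟨K1 + K2 + K3 + 1000, ?_⟩
  have hK1' : K1 ≤ K1 + K2 + K3 + 1000 := by linarith
  have hK2' : K2 ≤ K1 + K2 + K3 + 1000 := by linarith
  have hK3' : K3 ≤ K1 + K2 + K3 + 1000 := by linarith
  refine
    { one_le := by linarith
      meas := p1
      nonneg := p3
      le := fun x => (p5 x).trans (by linarith)
      closed := c1
      ne := c2
      per := c3
      null := c4
      por := ?_
      dbl := ?_
      low := ?_
      up := fun x => (v3 x).trans hK1'
      Ymeas := ?_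
      Ymem := fun t ht x => f3 t ht _ (p4 x)
      Ylip := ?_
      YG := ?_
      Yf := ?_
      Yen := ?_ }
  · intro y r h0 h1
    obtain ⟨z, hz, hz'⟩ := c5 y r h0 h1
    refine ⟨z, hz, hz'.trans (mul_le_mul_of_nonneg_right (by linarith) infDist_nonneg)⟩
  · intro x r h0 h1
    exact (v1 x r h0 h1).trans (mul_le_mul_of_nonneg_right hK1' (V0 x r h0.le))
  · intro x
    exact (v2 x).trans (mul_le_mul_of_nonneg_right hK1'
      (mul_nonneg (by positivity) (V0 x 1 zero_le_one)))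
  · have : Function.uncurry Y0 = fun p : ℝ × ℝ => Function.uncurry FF (p.1, dl p.2) := by
      funext p; rfl
    rw [this]
    exact f4.comp (measurable_fst.prodMk (p2.comp measurable_snd))
  · intro t ht x x'
    have h := f2 t ht (dl x) (dl x') (p4 x) (p4 x')
    have h' := hDLL x x'
    have : |Y0 t x - Y0 t x'| ≤ 3 / 2 * |x - x'| := h.trans (by linarith)
    have h0 := abs_nonneg (x - x')
    linarith
  · intro t ht a b hab hb
    refine (y1 t ht a b hab hb).trans (mul_le_mul_of_nonneg_right hK2' ?_)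
    exact intervalIntegral.integral_nonneg hab fun s _ => p3 s
  · intro t ht x
    refine (y2 t ht x).trans (mul_le_mul_of_nonneg_right hK2' (V0 _ _ infDist_nonneg))
  · intro g hg a b hab
    refine (e1 g hg a b hab).trans (mul_le_mul_left ?_ _)
    refine ENNReal.ofReal_le_ofReal (mul_le_mul_of_nonneg_right hK3' ?_)
    have : 0 ≤ ∫ x in a..b, 1 / (1 + |x|) :=
      intervalIntegral.integral_nonneg hab fun s _ => by positivity
    linarith

end Pool.Agent.T6.H52.LS
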