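import Pool.Agent.T6.H52.LS.Defs2

/-!
Project LS, module PSI: elementary properties of the parametrisation (helper43).
-/

set_option autoImplicit false
open MeasureTheory Filter Topology Metric Set
open scoped ENNReal NNReal

namespace Pool.Agent.T6.H52.LS

noncomputable section

namespace ModPSI

lemma sq_pos (x : ℝ) : 0 < √(1 + x ^ 2) := Real.sqrt_pos.2 (by positivity)

lemma P0 (u : ℝ × ℝ) : (Psi u).1 0 = 1 / √(1 + u.1 ^ 2) * Real.cos (2 * Real.pi * u.2) := by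
  unfold Psi; simp

lemma P1 (u : ℝ × ℝ) : (Psi u).1 1 = 1 / √(1 + u.1 ^ 2) * Real.sin (2 * Real.pi * u.2) := by
  unfold Psi; simp

lemma P2 (u : ℝ × ℝ) : (Psi u).1 2 = 1 / √(1 + u.1 ^ 2) * u.1 := by
  unfold Psi; simp

lemma N0 : NN.1 0 = 0 := by unfold NN; simp
lemma N1 : NN.1 1 = 0 := by unfold NN; simp
lemma N2 : NN.1 2 = 1 := by unfold NN; simp
lemma S0 : SS.1 0 = 0 := by unfold SS; simp
lemma S1 : SS.1 1 = 0 := by unfold SS; simp
lemma S2' : SS.1 2 = -1 := by unfold SS; simp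

lemma ext3 {p q : S2} (h0 : p.1 0 = q.1 0) (h1 : p.1 1 = q.1 1) (h2 : p.1 2 = q.1 2) : p = q := by
  apply Subtype.ext
  ext i
  fin_cases i
  · exact h0
  · exact h1
  · exact h2

lemma cont : Continuous Psi := by
  have h3 : Continuous fun u : ℝ × ℝ => (!₂[Real.cos (2 * Real.pi * u.2),
      Real.sin (2 * Real.pi * u.2), u.1] : EuclideanSpace ℝ (Fin 3)) := by
    refine (PiLp.continuous_toLp 2 (fun _ : Fin 3 => ℝ)).comp ?_
    refine continuous_pi fun i => ?_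
    fin_cases i
    · show Continuous fun u : ℝ × ℝ => Real.cos (2 * Real.pi * u.2)
      fun_prop
    · show Continuous fun u : ℝ × ℝ => Real.sin (2 * Real.pi * u.2)
      fun_prop
    · show Continuous fun u : ℝ × ℝ => u.1
      fun_prop
  have h2 : Continuous fun u : ℝ × ℝ => 1 / √(1 + u.1 ^ 2) :=
    continuous_const.div (Real.continuous_sqrt.comp (by fun_prop)) fun u => (sq_pos u.1).ne'
  exact (h2.smul h3).subtype_mk _

lemma sumsq (p : S2) : p.1 0 ^ 2 + p.1 1 ^ 2 + p.1 2 ^ 2 = 1 := by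
  have h := p.2
  rw [mem_sphere_zero_iff_norm, EuclideanSpace.norm_eq, Fin.sum_univ_three] at h
  simp only [Real.norm_eq_abs, sq_abs] at h
  have h1 := congrArg (· ^ 2) h
  simp only [one_pow] at h1
  rw [Real.sq_sqrt (by positivity)] at h1
  exact h1

lemma mul_sq_lt (x : ℝ) : |1 / √(1 + x ^ 2) * x| < 1 := by
  have h := sq_pos x
  rw [abs_mul, abs_of_pos (by positivity : 0 < 1 / √(1 + x ^ 2)), one_div, inv_mul_lt_iff₀ h,
    mul_one]
  apply Real.lt_sqrt_of_sq_lt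
  rw [sq_abs]
  linarith

lemma inj1 {x y : ℝ} (h : 1 / √(1 + x ^ 2) * x = 1 / √(1 + y ^ 2) * y) : x = y := by
  have hx := sq_pos x
  have hy := sq_pos y
  have ex : √(1 + x ^ 2) ^ 2 = 1 + x ^ 2 := Real.sq_sqrt (by positivity)
  have ey : √(1 + y ^ 2) ^ 2 = 1 + y ^ 2 := Real.sq_sqrt (by positivity)
  have h1 : x * √(1 + y ^ 2) = y * √(1 + x ^ 2) := by
    field_simp at h
    linarith
  have h2 : x ^ 2 * (1 + y ^ 2) = y ^ 2 * (1 + x ^ 2) := by
    have := congrArg (· ^ 2) h1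
    simp only [mul_pow, ex, ey] at this
    exact this
  have h3 : x ^ 2 = y ^ 2 := by nlinarith
  rw [← h3] at h
  exact mul_left_cancel₀ (by positivity : 1 / √(1 + x ^ 2) ≠ 0) h

lemma tend_top : Tendsto (fun x : ℝ => 1 / √(1 + x ^ 2)) atTop (𝓝 0) ∧
    Tendsto (fun x : ℝ => 1 / √(1 + x ^ 2) * x) atTop (𝓝 1) := by
  have h1 : Tendsto (fun x : ℝ => √(1 + x ^ 2)) atTop atTop := by
    refine tendsto_atTop_mono (fun x => ?_) tendsto_id
    exact Real.le_sqrt_of_sq_le (by simp only [id]; linarith)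
  have h2 : Tendsto (fun x : ℝ => 1 / √(1 + x ^ 2)) atTop (𝓝 0) := by
    simp only [one_div]
    exact h1.inv_tendsto_atTop
  refine ⟨h2, ?_⟩
  have h3 : Tendsto (fun x : ℝ => √(1 - (1 / √(1 + x ^ 2)) ^ 2)) atTop (𝓝 √(1 - 0 ^ 2)) :=
    (Real.continuous_sqrt.tendsto _).comp (tendsto_const_nhds.sub (h2.pow 2))
  rw [zero_pow (by norm_num), sub_zero, Real.sqrt_one] at h3
  refine h3.congr' ?_
  filter_upwards [eventually_ge_atTop 0] with x hx
  have hs := sq_pos x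
  have e : 1 - (1 / √(1 + x ^ 2)) ^ 2 = (1 / √(1 + x ^ 2) * x) ^ 2 := by
    rw [mul_pow, div_pow, one_pow, Real.sq_sqrt (by positivity)]
    field_simp
    ring
  rw [e, Real.sqrt_sq (by positivity)]

lemma tend_bot : Tendsto (fun x : ℝ => 1 / √(1 + x ^ 2)) atBot (𝓝 0) ∧
    Tendsto (fun x : ℝ => 1 / √(1 + x ^ 2) * x) atBot (𝓝 (-1)) := by
  constructor
  · have h := tend_top.1.comp tendsto_neg_atBot_atTop
    refine h.congr fun x => ?_
    simp
  · have h := (tend_top.2.comp tendsto_neg_atBot_atTop).neg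
    refine h.congr fun x => ?_
    simp

lemma tend_gen {F : Filter ℝ} {a : ℝ} {q : S2} (h0 : Tendsto (fun x : ℝ => 1 / √(1 + x ^ 2)) F (𝓝 0))
    (h1 : Tendsto (fun x : ℝ => 1 / √(1 + x ^ 2) * x) F (𝓝 a)) (q0 : q.1 0 = 0) (q1 : q.1 1 = 0)
    (q2 : q.1 2 = a) : Tendsto Psi (comap Prod.fst F) (𝓝 q) := by
  rw [tendsto_subtype_rng]
  have e : ∀ u : ℝ × ℝ, ((Psi u : S2) : EuclideanSpace ℝ (Fin 3)) =
      WithLp.toLp 2 ![(Psi u).1 0, (Psi u).1 1, (Psi u).1 2] := by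
    intro u
    ext i
    fin_cases i <;> rfl
  have e2 : (q : EuclideanSpace ℝ (Fin 3)) = WithLp.toLp 2 ![q.1 0, q.1 1, q.1 2] := by
    ext i
    fin_cases i <;> rfl
  have hc : Tendsto (Prod.fst : ℝ × ℝ → ℝ) (comap Prod.fst F) F := tendsto_comap
  rw [e2]
  refine Tendsto.congr (fun u => (e u).symm) ?_
  refine ((PiLp.continuous_toLp 2 (fun _ : Fin 3 => ℝ)).tendsto _).comp ?_
  rw [tendsto_pi_nhds]
  intro i
  fin_cases i
  · show Tendsto (fun u : ℝ × ℝ => (Psi u).1 0) _ (𝓝 (q.1 0))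
    rw [q0]
    refine squeeze_zero_norm (a := fun u : ℝ × ℝ => 1 / √(1 + u.1 ^ 2)) (fun u => ?_) (h0.comp hc)
    rw [P0, Real.norm_eq_abs, abs_mul, abs_of_pos (one_div_pos.2 (sq_pos u.1))]
    exact mul_le_of_le_one_right (one_div_pos.2 (sq_pos u.1)).le (Real.abs_cos_le_one _)
  · show Tendsto (fun u : ℝ × ℝ => (Psi u).1 1) _ (𝓝 (q.1 1))
    rw [q1]
    refine squeeze_zero_norm (a := fun u : ℝ × ℝ => 1 / √(1 + u.1 ^ 2)) (fun u => ?_) (h0.comp hc)
    rw [P1, Real.norm_eq_abs, abs_mul, abs_of_pos (one_div_pos.2 (sq_pos u.1))]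
    exact mul_le_of_le_one_right (one_div_pos.2 (sq_pos u.1)).le (Real.abs_sin_le_one _)
  · show Tendsto (fun u : ℝ × ℝ => (Psi u).1 2) _ (𝓝 (q.1 2))
    rw [q2]
    exact (h1.comp hc).congr fun u => (P2 u).symm

lemma eq_iff' (u v : ℝ × ℝ) : Psi u = Psi v ↔ u.1 = v.1 ∧ ∃ k : ℤ, u.2 - v.2 = k := by
  constructor
  · intro h
    have h2 : (Psi u).1 2 = (Psi v).1 2 := by rw [h]
    have h0 : (Psi u).1 0 = (Psi v).1 0 := by rw [h]
    have h1 : (Psi u).1 1 = (Psi v).1 1 := by rw [h]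
    rw [P2, P2] at h2
    have hx := inj1 h2
    rw [P0, P0, ← hx] at h0
    rw [P1, P1, ← hx] at h1
    have hne : 1 / √(1 + u.1 ^ 2) ≠ 0 := (one_div_pos.2 (sq_pos u.1)).ne'
    have hcos := mul_left_cancel₀ hne h0
    have hsin := mul_left_cancel₀ hne h1
    have ha := Real.Angle.cos_sin_inj hcos hsin
    rw [Real.Angle.angle_eq_iff_two_pi_dvd_sub] at ha
    obtain ⟨k, hk⟩ := ha
    refine ⟨hx, k, ?_⟩
    have hpi := Real.pi_pos
    have : 2 * Real.pi * (u.2 - v.2) = 2 * Real.pi * k := by linarith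
    exact mul_left_cancel₀ (by positivity) this
  · rintro ⟨h, k, hk⟩
    have e : 2 * Real.pi * u.2 = 2 * Real.pi * v.2 + k * (2 * Real.pi) := by
      have : u.2 = v.2 + k := by linarith
      rw [this]; ring
    apply ext3
    · rw [P0, P0, h, e, Real.cos_add_int_mul_two_pi]
    · rw [P1, P1, h, e, Real.sin_add_int_mul_two_pi]
    · rw [P2, P2, h]

lemma surj (p : S2) : p = NN ∨ p = SS ∨ ∃ u, Psi u = p := by
  have hs := sumsq p
  by_cases h : p.1 0 ^ 2 + p.1 1 ^ 2 = 0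
  · have h0 : p.1 0 = 0 := by nlinarith [sq_nonneg (p.1 0), sq_nonneg (p.1 1)]
    have h1 : p.1 1 = 0 := by nlinarith [sq_nonneg (p.1 0), sq_nonneg (p.1 1)]
    have h2 : p.1 2 ^ 2 = 1 := by linarith
    rcases (sq_eq_one_iff.1 h2) with h3 | h3
    · left
      exact ext3 (by rw [h0, N0]) (by rw [h1, N1]) (by rw [h3, N2])
    · right; left
      exact ext3 (by rw [h0, S0]) (by rw [h1, S1]) (by rw [h3, S2'])
  · right; right
    have hpos : 0 < p.1 0 ^ 2 + p.1 1 ^ 2 := lt_of_le_of_ne (by positivity) (Ne.symm h)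
    set s := √(p.1 0 ^ 2 + p.1 1 ^ 2) with hsdef
    have hs0 : 0 < s := Real.sqrt_pos.2 hpos
    have hs2 : s ^ 2 = p.1 0 ^ 2 + p.1 1 ^ 2 := Real.sq_sqrt hpos.le
    set z : ℂ := ⟨p.1 0, p.1 1⟩ with hz
    have hn : ‖z‖ = s := by
      rw [Complex.norm_eq_sqrt_sq_add_sq]
    have e1 : 1 / √(1 + (p.1 2 / s) ^ 2) = s := by
      have : 1 + (p.1 2 / s) ^ 2 = (s⁻¹) ^ 2 := by
        field_simp
        linarith
      rw [this, Real.sqrt_sq (by positivity)]
      simp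
    have hpi := Real.pi_pos
    have e2 : 2 * Real.pi * (Complex.arg z / (2 * Real.pi)) = Complex.arg z := by field_simp
    refine ⟨(p.1 2 / s, Complex.arg z / (2 * Real.pi)), ?_⟩
    apply ext3
    · rw [P0]
      simp only [e1, e2]
      rw [← hn, Complex.norm_mul_cos_arg]
    · rw [P1]
      simp only [e1, e2]
      rw [← hn, Complex.norm_mul_sin_arg]
    · rw [P2]
      simp only [e1]
      field_simp

end ModPSI

open ModPSI

theorem mPSI : StmPSI := by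
  refine ⟨cont, eq_iff', ?_, ?_, ?_, surj, ?_, ?_⟩
  · intro u h
    have h2 : (Psi u).1 2 = 1 := by rw [h, N2]
    have h3 := mul_sq_lt u.1
    rw [P2] at h2
    rw [h2] at h3
    simp at h3
  · intro u h
    have h2 : (Psi u).1 2 = -1 := by rw [h, S2']
    have h3 := mul_sq_lt u.1
    rw [P2] at h2
    rw [h2] at h3
    simp at h3
  · intro h
    have h2 : NN.1 2 = SS.1 2 := by rw [h]
    rw [N2, S2'] at h2
    norm_num at h2
  · exact tend_gen tend_top.1 tend_top.2 N0 N1 N2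
  · exact tend_gen tend_bot.1 tend_bot.2 S0 S1 S2'

end

end Pool.Agent.T6.H52.LS
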